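import Pool.Agent.MAx.Rep

/-!
# Sets of natural numbers and ultrafilters in the quotient models
-/

namespace Pool.Agent.MAx

open Classical Pool.Agent Pool.Agent.LadderTree
open Pool.Agent.BVM (BSet UF OPair FunOn chk le_of_uf eq_of_uf memv eqv on onT)

section

variable {B : Type} [CompleteBooleanAlgebra B]

/-- the name of `ω` -/
noncomputable def om : BSet B := onT ℕ

/-- the name of a set of natural numbers -/
noncomputable def sN (a : ℕ → B) : BSet B := .mk ℕ on a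

theorem memv_sN (a : ℕ → B) (n : ℕ) : memv (on n) (sN a) = a n := by
  rw [sN, BVM.memv_mk]
  refine le_antisymm (iSup_le fun m => ?_) (le_iSup_of_le n ?_)
  · rw [BVM.eqv_on]
    by_cases h : n = m
    · rw [h]; exact inf_le_left
    · rw [tv_false h, inf_bot_eq]; exact bot_le
  · rw [BVM.eqv_refl, inf_top_eq]

/-- Boolean-valued filters -/
structure FB (U : (ℕ → B) → B) : Prop where
  mono : ∀ a a', (⨅ n, a n ⇨ a' n) ⊓ U a ≤ U a'
  inf : ∀ a a', U a ⊓ U a' ≤ U (a ⊓ a')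
  bot : U ⊥ = ⊥

theorem FB.mono' {U : (ℕ → B) → B} (h : FB U) {a a' : ℕ → B} (haa : a ≤ a') : U a ≤ U a' := by
  refine le_trans (le_inf (le_iInf fun n => ?_) le_rfl) (h.mono a a')
  rw [le_himp_iff]
  exact inf_le_right.trans (haa n)

/-- the Boolean-valued prime ideal theorem -/
theorem bpi {U₀ : (ℕ → B) → B} (h₀ : FB U₀) :
    ∃ U, FB U ∧ (∀ a, U₀ a ≤ U a) ∧ ∀ a, U ⊤ ≤ U a ⊔ U aᶜ := by
  obtain ⟨U, hle, hmax⟩ := zorn_le_nonempty₀ {U : (ℕ → B) → B | FB U} (by
    intro c hc hchain y hy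
    refine ⟨fun a => ⨆ U : c, U.1 a, ⟨fun a a' => ?_, fun a a' => ?_, ?_⟩, fun U hU a => ?_⟩
    · rw [inf_iSup_eq]
      exact iSup_mono fun U => (hc U.2).mono a a'
    · rw [iSup_inf_iSup]
      refine iSup_le fun p => ?_
      rcases hchain.total p.1.2 p.2.2 with h | h
      · exact ((inf_le_inf_right _ (h a)).trans ((hc p.2.2).inf a a')).trans
          (le_iSup (fun U : c => U.1 (a ⊓ a')) p.2)
      · exact ((inf_le_inf_left _ (h a')).trans ((hc p.1.2).inf a a')).trans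
          (le_iSup (fun U : c => U.1 (a ⊓ a')) p.1)
    · rw [iSup_eq_bot]
      exact fun U => (hc U.2).bot
    · exact le_iSup (fun U : c => U.1 a) ⟨U, hU⟩) U₀ h₀
  have hU : FB U := hmax.1
  refine ⟨U, hU, hle, fun a => ?_⟩
  set β := (U a ⊔ U aᶜ)ᶜ with hβ
  have hβ1 : β ⊓ U a = ⊥ := by
    rw [← le_bot_iff, hβ, compl_sup]
    exact (inf_le_inf_right _ inf_le_left).trans (compl_inf_self _).le
  have hβ2 : β ⊓ U aᶜ = ⊥ := by
    rw [← le_bot_iff, hβ, compl_sup]
    exact (inf_le_inf_right _ inf_le_right).trans (compl_inf_self _).le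
  let U' : (ℕ → B) → B := fun x => U x ⊔ (β ⊓ U (x ⊔ aᶜ))
  have hU' : FB U' := by
    refine ⟨fun x x' => ?_, fun x x' => ?_, ?_⟩
    · show (⨅ n, x n ⇨ x' n) ⊓ (U x ⊔ (β ⊓ U (x ⊔ aᶜ))) ≤ U x' ⊔ (β ⊓ U (x' ⊔ aᶜ))
      rw [inf_sup_left]
      refine sup_le_sup (hU.mono x x') ?_
      rw [inf_left_comm]
      refine inf_le_inf_left _ (le_trans (inf_le_inf_right _ ?_) (hU.mono _ _))
      refine iInf_mono fun n => ?_
      rw [le_himp_iff, Pi.sup_apply, Pi.sup_apply, inf_sup_left]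
      exact sup_le_sup himp_inf_le inf_le_right
    · show (U x ⊔ (β ⊓ U (x ⊔ aᶜ))) ⊓ (U x' ⊔ (β ⊓ U (x' ⊔ aᶜ))) ≤
        U (x ⊓ x') ⊔ (β ⊓ U ((x ⊓ x') ⊔ aᶜ))
      have e : ∀ y z : ℕ → B, U (y ⊔ aᶜ) ⊓ U (z ⊔ aᶜ) ≤ U ((y ⊓ z) ⊔ aᶜ) := by
        intro y z
        refine (hU.inf _ _).trans (hU.mono' ?_)
        rw [sup_inf_right]
      have e2 : ∀ y : ℕ → B, U y ≤ U (y ⊔ aᶜ) := fun y => hU.mono' le_sup_left
      rw [inf_sup_left, inf_sup_right, inf_sup_right]
      refine sup_le (sup_le (le_sup_of_le_left (hU.inf x x')) ?_) (sup_le ?_ ?_)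
      · refine le_sup_of_le_right (le_inf (inf_le_left.trans inf_le_left) ?_)
        exact (inf_le_inf inf_le_right (e2 x')).trans (e x x')
      · refine le_sup_of_le_right (le_inf (inf_le_right.trans inf_le_left) ?_)
        exact (inf_le_inf (e2 x) inf_le_right).trans (e x x')
      · refine le_sup_of_le_right (le_inf (inf_le_right.trans inf_le_left) ?_)
        exact (inf_le_inf inf_le_right inf_le_right).trans (e x x')
    · show U ⊥ ⊔ (β ⊓ U (⊥ ⊔ aᶜ)) = ⊥
      rw [hU.bot, bot_sup_eq, bot_sup_eq, hβ2]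
  have h1 : U' ≤ U := hmax.2 hU' fun x => le_sup_left
  have h2 : β ⊓ U ⊤ ≤ U a := by
    have h3 := h1 a
    have h4 : β ⊓ U (a ⊔ aᶜ) ≤ U' a := le_sup_right
    rw [sup_compl_eq_top] at h4
    exact h4.trans h3
  have h5 : U ⊤ ⊓ β ≤ ⊥ := by
    rw [← hβ1, inf_comm]
    exact le_inf inf_le_left h2
  have h6 : U ⊤ ≤ βᶜ := le_compl_iff_disjoint_right.2 (disjoint_iff_inf_le.2 h5)
  rwa [hβ, compl_compl] at h6

/-- the name of a Boolean-valued set of sets of natural numbers -/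
noncomputable def uN (U : (ℕ → B) → B) : BSet B := .mk (ℕ → B) sN U

theorem memv_uN {U : (ℕ → B) → B} (h : FB U) (a : ℕ → B) : memv (sN a) (uN U) = U a := by
  rw [uN, BVM.memv_mk]
  refine le_antisymm (iSup_le fun a' => ?_) (le_iSup_of_le a ?_)
  · refine le_trans (le_inf ?_ inf_le_left) (h.mono a' a)
    refine le_iInf fun n => ?_
    rw [le_himp_iff, ← memv_sN a' n, ← memv_sN a n]
    refine le_trans ?_ (BVM.memv_congr_right (on n) (sN a') (sN a))
    rw [BVM.eqv_symm (sN a') (sN a)]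
    exact inf_le_inf_right _ inf_le_right
  · rw [BVM.eqv_refl, inf_top_eq]

end

section

variable {B : Type} [CompleteBooleanAlgebra B] {b : B}

theorem In_sN (F : Pt b) (a : ℕ → B) (n : ℕ) :
    In F (nm F (on n)) (nm F (sN a)) ↔ F.1.U (a n) := by
  rw [In_nm, memv_sN]

theorem In_om (F : Pt b) (n : ℕ) : In F (nm F (on n)) (nm F om) := In_chk _ _ _

theorem sN_sub {F : Pt b} {a : ℕ → B} {z : Md F} (hz : In F z (nm F (sN a))) :
    In F z (nm F om) := by
  obtain ⟨z, rfl⟩ := exists_nm z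
  refine F.1.mono ?_ hz
  rw [sN, BVM.memv_mk, om, onT, BVM.memv_chk]
  exact iSup_mono fun n => inf_le_right

/-- quantification over `ω` -/
theorem om_all {D : Pt b → Prop} (hD : RpP D)
    {P : ∀ F : Pt b, Md F → Prop} (hP : ∀ y, RpP fun F => P F (nm F y))
    (h : ∀ (F : Pt b), D F → ∀ n : ℕ, P F (nm F (on n))) (F : Pt b) (hF : D F)
    (y : Md F) (hy : In F y (nm F om)) : P F y :=
  chk_all (on : ℕ → BSet B) hD hP h F hF y hy

/-- quantification over sets of natural numbers -/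
theorem sN_all {D : Pt b → Prop} (hD : RpP D) (a : ℕ → B)
    {P : ∀ F : Pt b, Md F → Prop} (hP : ∀ y, RpP fun F => P F (nm F y))
    (h : ∀ (F : Pt b), D F → ∀ n : ℕ, F.1.U (a n) → P F (nm F (on n))) (F : Pt b) (hF : D F)
    (y : Md F) (hy : In F y (nm F (sN a))) : P F y :=
  om_all hD (P := fun F y => In F y (nm F (sN a)) → P F y) (fun y => (RpP.mem _ _).imp (hP y))
    (fun F hF n hn => h F hF n ((In_sN F a n).1 hn)) F hF y (sN_sub hy) hy

/-- names of subsets of `ω` -/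
theorem sN_repr' (F : Pt b) (A : BSet B) (hA : ∀ z, In F z (nm F A) → In F z (nm F om)) :
    nm F A = nm F (sN fun n => memv (on n) A) := by
  refine (BVM.zfc F.1).ext _ _ fun z => ?_
  have key : ∀ z, In F z (nm F om) →
      (In F z (nm F A) ↔ In F z (nm F (sN fun n => memv (on n) A))) := by
    intro z hz
    refine om_all (b := b) (RpP.const True)
      (P := fun F z => In F z (nm F A) ↔ In F z (nm F (sN fun n => memv (on n) A)))
      (fun y => (RpP.mem _ _).iff (RpP.mem _ _)) (fun F _ n => ?_) F trivial z hz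
    rw [In_sN, In_nm]
  constructor
  · intro hz
    exact (key z (hA z hz)).1 hz
  · intro hz
    exact (key z (sN_sub hz)).2 hz

/-- subsets of `ω` have names -/
theorem sN_repr (F : Pt b) (A : Md F) (hA : ∀ z, In F z A → In F z (nm F om)) :
    ∃ a, A = nm F (sN a) := by
  obtain ⟨A, rfl⟩ := exists_nm A
  exact ⟨_, sN_repr' F A hA⟩

theorem sN_inf (F : Pt b) (a a' : ℕ → B) (z : Md F) : In F z (nm F (sN (a ⊓ a'))) ↔
    In F z (nm F (sN a)) ∧ In F z (nm F (sN a')) := by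
  have key : ∀ z, In F z (nm F om) → (In F z (nm F (sN (a ⊓ a'))) ↔
      In F z (nm F (sN a)) ∧ In F z (nm F (sN a'))) := by
    intro z hz
    refine om_all (b := b) (RpP.const True)
      (P := fun F z => In F z (nm F (sN (a ⊓ a'))) ↔
        In F z (nm F (sN a)) ∧ In F z (nm F (sN a')))
      (fun y => (RpP.mem _ _).iff ((RpP.mem _ _).and (RpP.mem _ _))) (fun F _ n => ?_) F
      trivial z hz
    rw [In_sN, In_sN, In_sN, Pi.inf_apply, F.1.inf_iff]
  constructor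
  · intro hz
    exact (key z (sN_sub hz)).1 hz
  · intro hz
    exact (key z (sN_sub hz.1)).2 hz

theorem sN_compl (F : Pt b) (a : ℕ → B) (z : Md F) : In F z (nm F (sN aᶜ)) ↔
    In F z (nm F om) ∧ ¬ In F z (nm F (sN a)) := by
  have key : ∀ z, In F z (nm F om) → (In F z (nm F (sN aᶜ)) ↔ ¬ In F z (nm F (sN a))) := by
    intro z hz
    refine om_all (b := b) (RpP.const True)
      (P := fun F z => In F z (nm F (sN aᶜ)) ↔ ¬ In F z (nm F (sN a)))
      (fun y => (RpP.mem _ _).iff (RpP.mem _ _).not) (fun F _ n => ?_) F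
      trivial z hz
    rw [In_sN, In_sN, Pi.compl_apply, F.1.compl_iff]
  constructor
  · intro hz
    exact ⟨sN_sub hz, (key z (sN_sub hz)).1 hz⟩
  · intro hz
    exact (key z hz.1).2 hz.2

theorem sN_le_iff (F : Pt b) (a a' : ℕ → B) :
    (∀ z, In F z (nm F (sN a)) → In F z (nm F (sN a'))) ↔ F.1.U (⨅ n, a n ⇨ a' n) := by
  constructor
  · intro h
    by_contra hcon
    rw [← F.1.compl_iff, compl_iInf] at hcon
    have hP : ∀ y, RpP fun F : Pt b => In F (nm F y) (nm F (sN a)) ∧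
      ¬ In F (nm F y) (nm F (sN a')) := fun y => (RpP.mem _ _).and (RpP.mem _ _).not
    have h1 : F.1.U (⨆ n : ℕ, bv (hP (on n))) := by
      refine F.1.mono ?_ (F.1.inf hcon F.2)
      rw [iSup_inf_eq]
      refine iSup_mono fun n => le_bv _ inf_le_right fun G hG => ?_
      rw [G.1.inf_iff, G.1.compl_iff, G.1.himp_iff, Classical.not_imp] at hG
      rw [In_sN, In_sN]
      exact hG.1
    obtain ⟨y, _, h3, h4⟩ := (chk_ex (on : ℕ → BSet B)
      (P := fun F y => In F y (nm F (sN a)) ∧ ¬ In F y (nm F (sN a'))) hP F).1 h1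
    exact h4 (h y h3)
  · intro h z hz
    refine sN_all (b := b) (RpP.val (⨅ n, a n ⇨ a' n)) a
      (P := fun F z => In F z (nm F (sN a'))) (fun y => RpP.mem _ _) (fun G hG n hn => ?_) F h z hz
    have h1 := G.1.mono (iInf_le _ n) hG
    rw [G.1.himp_iff] at h1
    exact (In_sN G a' n).2 (h1 hn)

/-- ultrafilters of the quotient model give ultrafilters on the algebra of names -/
def UFu {F : Pt b} {u : Md F} (hu : IsUlt (In F) (nm F om) u) : UF (ℕ → B) where
  U a := In F (nm F (sN a)) u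
  top := by
    rcases hu.ultra (nm F (sN ⊤)) (nm F (sN ⊥)) (fun n hn => sN_sub hn) (fun n => by
      rw [← compl_top, sN_compl]) with h | h
    · exact h
    · exfalso
      obtain ⟨z, hz⟩ := hu.ne _ h
      exact sN_all (b := b) (RpP.const True) ⊥ (P := fun _ _ => False)
        (fun _ => RpP.const False) (fun G _ n hn => G.1.bot hn) F trivial z hz
  bot h := by
    obtain ⟨z, hz⟩ := hu.ne _ h
    exact sN_all (b := b) (RpP.const True) ⊥ (P := fun _ _ => False)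
      (fun _ => RpP.const False) (fun G _ n hn => G.1.bot hn) F trivial z hz
  mono {a a'} h h' := by
    refine hu.mono _ _ h' ((sN_le_iff F a a').2 ?_) fun n hn => sN_sub hn
    have e : (⨅ n, a n ⇨ a' n) = ⊤ := iInf_eq_top.2 fun n => himp_eq_top_iff.2 (h n)
    rw [e]
    exact F.1.top
  inf {a a'} h h' := hu.inter _ _ _ h h' (sN_inf F a a')
  em a := hu.ultra _ _ (fun n hn => sN_sub hn) (sN_compl F a)

theorem UFu_iff {F : Pt b} {u : Md F} (hu : IsUlt (In F) (nm F om) u) (a : ℕ → B) :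
    (UFu hu).U a ↔ In F (nm F (sN a)) u := Iff.rfl

theorem UFu_ne {F : Pt b} {u : Md F} (hu : IsUlt (In F) (nm F om) u) (m : ℕ) :
    (UFu hu).U fun n => tv (n ≠ m) := by
  have e : (fun n => tv (n ≠ m) : ℕ → B) = (fun n => tv (n = m))ᶜ := by
    funext n
    rw [Pi.compl_apply, BVM.tv_compl]
  rw [e, (UFu hu).compl_iff]
  intro h
  obtain ⟨A, hA, hA'⟩ := hu.free _ (In_om F m)
  obtain ⟨a, rfl⟩ := sN_repr F A (hu.sub A hA)
  obtain ⟨z, hz⟩ := hu.ne (nm F (sN ((fun n => tv (n = m)) ⊓ a))) ((UFu hu).inf h hA)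
  have hz := (sN_inf F (fun n => tv (n = m)) a z).1 hz
  have h1 : z = nm F (on m) := by
    refine sN_all (b := b) (RpP.const True) (fun n => tv (n = m))
      (P := fun F z => z = nm F (on m)) (fun _ => RpP.eq _ _) (fun G _ n hn => ?_) F trivial z hz.1
    rw [G.1.tv_iff] at hn
    rw [hn]
  rw [h1] at hz
  exact hA' hz.2

theorem UFu_gt {F : Pt b} {u : Md F} (hu : IsUlt (In F) (nm F om) u) (m : ℕ) :
    (UFu hu).U fun n => tv (m ≤ n) := by
  induction m with
  | zero =>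
    refine (UFu hu).mono (fun n => ?_) (UFu hu).top
    rw [tv_true (Nat.zero_le n)]
    exact le_top
  | succ m ih =>
    refine (UFu hu).mono (fun n => ?_) ((UFu hu).inf ih (UFu_ne hu m))
    rw [Pi.inf_apply, BVM.tv_inf]
    by_cases h : m ≤ n ∧ n ≠ m
    · rw [tv_true (show m + 1 ≤ n by omega)]; exact le_top
    · rw [tv_false h]; exact bot_le

/-- the ultrafilters which come from Boolean-valued ultrafilters -/
theorem isUlt_uN {U : (ℕ → B) → B} (hU : FB U) (hul : ∀ a, U ⊤ ≤ U a ⊔ U aᶜ)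
    (hfr : ∀ m, U ⊤ ≤ U fun n => tv (n ≠ m)) (F : Pt b) (hF : F.1.U (U ⊤)) :
    IsUlt (In F) (nm F om) (nm F (uN U)) := by
  have hmem : ∀ (F : Pt b) a, In F (nm F (sN a)) (nm F (uN U)) ↔ F.1.U (U a) := fun F a => by
    rw [In_nm, memv_uN hU]
  have hsub : ∀ A, In F A (nm F (uN U)) → ∀ n, In F n A → In F n (nm F om) := by
    intro A hA
    obtain ⟨A, rfl⟩ := exists_nm A
    have hR : RpP fun F : Pt b => ∀ n, In F n (nm F A) → In F n (nm F om) :=
      RpP.all fun n => (RpP.mem _ _).imp (RpP.mem _ _)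
    rw [← bv_iff hR]
    have h2 : b ⊓ memv A (uN U) ≤ bv hR := by
      rw [uN, BVM.memv_mk, inf_iSup_eq]
      refine iSup_le fun a => le_bv hR inf_le_left fun G hG => ?_
      rw [G.1.inf_iff, G.1.inf_iff] at hG
      have h3 : nm G A = nm G (sN a) := nm_eq.2 hG.2.2
      intro n hn
      rw [h3] at hn
      exact sN_sub hn
    exact F.1.mono h2 (F.1.inf F.2 hA)
  have hrep : ∀ A, In F A (nm F (uN U)) → ∃ a, A = nm F (sN a) ∧ F.1.U (U a) := by
    intro A hA
    obtain ⟨a, rfl⟩ := sN_repr F A (hsub A hA)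
    exact ⟨a, rfl, (hmem F a).1 hA⟩
  refine ⟨hsub, ?_, ?_, ?_, ?_, ?_⟩
  · intro A A' C hA hA' hC
    obtain ⟨a, rfl, ha⟩ := hrep A hA
    obtain ⟨a', rfl, ha'⟩ := hrep A' hA'
    have e : C = nm F (sN (a ⊓ a')) :=
      (BVM.zfc F.1).ext _ _ fun z => (hC z).trans (sN_inf F a a' z).symm
    rw [e, hmem]
    exact F.1.mono (hU.inf a a') (F.1.inf ha ha')
  · intro A C hA hAC hC
    obtain ⟨a, rfl, ha⟩ := hrep A hA
    obtain ⟨c, rfl⟩ := sN_repr F C hC
    rw [hmem]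
    exact F.1.mono (hU.mono a c) (F.1.inf ((sN_le_iff F a c).1 hAC) ha)
  · intro A hA
    obtain ⟨a, rfl, ha⟩ := hrep A hA
    by_contra hcon
    push Not at hcon
    have h1 := (sN_le_iff F a ⊥).1 fun z hz => absurd hz (hcon z)
    have h2 := F.1.mono (hU.mono a ⊥) (F.1.inf h1 ha)
    rw [hU.bot] at h2
    exact F.1.bot h2
  · intro A C hA hC
    obtain ⟨a, rfl⟩ := sN_repr F A hA
    have e : C = nm F (sN aᶜ) :=
      (BVM.zfc F.1).ext _ _ fun z => (hC z).trans (sN_compl F a z).symm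
    rw [e, hmem, hmem, ← F.1.sup_iff]
    exact F.1.mono (hul a) hF
  · intro n hn
    refine om_all (b := b) (RpP.val (U ⊤))
      (P := fun F n => ∃ A, In F A (nm F (uN U)) ∧ ¬ In F n A)
      (fun y => RpP.ex fun A => (RpP.mem _ _).and (RpP.mem _ _).not) (fun G hG m => ?_) F hF n hn
    refine ⟨nm G (sN fun n => tv (n ≠ m)), (hmem G _).2 (G.1.mono (hfr m) hG), ?_⟩
    rw [In_sN, G.1.tv_iff]
    exact fun h => h rfl

/-- filters extend to ultrafilters -/
theorem exists_ult {D : Pt b → Prop} (hD : RpP D) {P : ∀ F : Pt b, Md F → Prop}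
    (hP : ∀ y, RpP fun F => P F (nm F y))
    (mono : ∀ F, D F → ∀ A C, P F A → (∀ z, In F z A → In F z C) →
      (∀ z, In F z C → In F z (nm F om)) → P F C)
    (inter : ∀ F, D F → ∀ A A' C, P F A → P F A' →
      (∀ z, In F z C ↔ (In F z A ∧ In F z A')) → P F C)
    (ne : ∀ F, D F → ∀ A, P F A → ∃ z, In F z A)
    (free : ∀ F, D F → ∀ m : ℕ, P F (nm F (sN fun n => tv (n ≠ m)))) :
    ∃ u : BSet B, ∀ F, D F → IsUlt (In F) (nm F om) (nm F u) ∧
      ∀ A, P F A → (∀ z, In F z A → In F z (nm F om)) → In F A (nm F u) := by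
  have hU₀ : FB fun a => bv (hD.and (hP (sN a))) := by
    refine ⟨fun a a' => ?_, fun a a' => ?_, ?_⟩
    · refine le_bv _ (inf_le_right.trans (bv_le_b _)) fun F hF => ?_
      rw [F.1.inf_iff, bv_iff] at hF
      exact ⟨hF.2.1, mono F hF.2.1 _ _ hF.2.2 ((sN_le_iff F a a').2 hF.1) fun z hz => sN_sub hz⟩
    · refine le_bv _ (inf_le_right.trans (bv_le_b _)) fun F hF => ?_
      rw [F.1.inf_iff, bv_iff, bv_iff] at hF
      exact ⟨hF.2.1, inter F hF.2.1 _ _ _ hF.1.2 hF.2.2 (sN_inf F a a')⟩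
    · rw [← le_bot_iff]
      refine bv_le _ fun F hF => ?_
      exfalso
      obtain ⟨z, hz⟩ := ne F hF.1 _ hF.2
      exact sN_all (b := b) (RpP.const True) ⊥ (P := fun _ _ => False)
        (fun _ => RpP.const False) (fun G _ n hn => G.1.bot hn) F trivial z hz
  obtain ⟨U, hU, hle, hul⟩ := bpi hU₀
  -- the values of cofinite sets are large below `D`
  have htop : ∀ F, D F → F.1.U (U ⊤) := by
    intro F hF
    refine F.1.mono (hU.mono' (a := fun n => tv (n ≠ 0)) le_top) ?_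
    exact F.1.mono (hle _) ((bv_iff _ F).2 ⟨hF, free F hF 0⟩)
  -- restrict to `D`
  let U' : (ℕ → B) → B := fun a => bv hD ⊓ U a
  have hU' : FB U' := by
    refine ⟨fun a a' => ?_, fun a a' => ?_, ?_⟩
    · show (⨅ n, a n ⇨ a' n) ⊓ (bv hD ⊓ U a) ≤ bv hD ⊓ U a'
      rw [inf_left_comm]
      exact inf_le_inf_left _ (hU.mono a a')
    · show (bv hD ⊓ U a) ⊓ (bv hD ⊓ U a') ≤ bv hD ⊓ U (a ⊓ a')
      exact le_inf (inf_le_left.trans inf_le_left)
        ((inf_le_inf inf_le_right inf_le_right).trans (hU.inf a a'))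
    · show bv hD ⊓ U ⊥ = ⊥
      rw [hU.bot, inf_bot_eq]
  have hul' : ∀ a, U' ⊤ ≤ U' a ⊔ U' aᶜ := by
    intro a
    show bv hD ⊓ U ⊤ ≤ (bv hD ⊓ U a) ⊔ (bv hD ⊓ U aᶜ)
    rw [← inf_sup_left]
    exact inf_le_inf_left _ (hul a)
  have hfr' : ∀ m, U' ⊤ ≤ U' fun n => tv (n ≠ m) := by
    intro m
    refine le_inf inf_le_left (inf_le_left.trans (bv_le _ fun F hF => ?_))
    exact F.1.mono (hle _) ((bv_iff _ F).2 ⟨hF, free F hF m⟩)
  refine ⟨uN U', fun F hF => ⟨isUlt_uN hU' hul' hfr' F ?_, fun A hA hsub => ?_⟩⟩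
  · exact F.1.inf_iff.2 ⟨(bv_iff hD F).2 hF, htop F hF⟩
  · obtain ⟨a, rfl⟩ := sN_repr F A hsub
    rw [In_nm, memv_uN hU', F.1.inf_iff]
    exact ⟨(bv_iff hD F).2 hF, F.1.mono (hle a) ((bv_iff _ F).2 ⟨hF, hA⟩)⟩

end

end Pool.Agent.MAx
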