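import Pool.Agent.MAx.MA

/-!
# Bookkeeping
-/

namespace Pool.Agent.MAx

open Classical Cardinal

/-- `2 ^ ℵ₁` -/
noncomputable abbrev lam : Cardinal.{0} := 2 ^ (ℵ_ 1 : Cardinal.{0})

/-- the well-order of type `(2 ^ ℵ₁)⁺` -/
abbrev IX : Type := (Order.succ lam).ord.ToType

theorem aleph1_le_lam : ℵ_ 1 ≤ lam := (cantor _).le

theorem aleph0_le_lam : ℵ₀ ≤ lam := (aleph0_le_aleph 1).trans aleph1_le_lam

theorem mk_IX : #IX = Order.succ lam := mk_ord_toType _

theorem mk_Iio_IX (a : IX) : #(Set.Iio a) ≤ lam := by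
  have h : #(Set.Iio a) < #IX := mk_Iio_lt a (by simp)
  exact Order.lt_succ_iff.1 (h.trans_eq mk_IX)

theorem bdd_IX : Bdd IX := by
  intro Λ hΛ f
  have hreg : (Order.succ lam).IsRegular := isRegular_succ aleph0_le_lam
  have hcof : Order.cof IX = Order.succ lam := (Ordinal.cof_toType _).trans hreg.cof_ord
  by_contra h
  push Not at h
  have hc : IsCofinal (Set.range f) := by
    intro i
    obtain ⟨x, hx⟩ := h i
    exact ⟨f x, ⟨x, rfl⟩, hx⟩
  have := Order.cof_le hc
  rw [hcof] at this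
  exact absurd (mk_range_le.trans (hΛ.trans aleph1_le_lam)) (not_le.2 ((Order.lt_succ _).trans_le this))

/-- an index set of size `2 ^ ℵ₁` -/
abbrev LX : Type := (lam).ord.ToType

theorem mk_LX : #LX = lam := mk_ord_toType _

theorem exists_enum : ∃ e : IX → IX × LX, ∀ y i, ∃ j, i ≤ j ∧ e j = y := by
  have hcard : #IX = #((IX × LX) × IX) := by
    simp only [mk_prod, lift_id, mk_IX, mk_LX]
    have h0 : ℵ₀ ≤ Order.succ lam := aleph0_le_lam.trans (Order.le_succ _)
    rw [mul_eq_left h0 (Order.le_succ _) (ne_of_gt (lt_of_lt_of_le aleph0_pos aleph0_le_lam)),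
      mul_eq_self h0]
  obtain ⟨f⟩ := Cardinal.eq.1 hcard
  refine ⟨fun j => (f j).1, fun y i => ?_⟩
  by_contra h
  push Not at h
  have hinj : Function.Injective (fun k : IX => (⟨f.symm (y, k), by
      by_contra hlt
      exact h _ (not_lt.1 hlt) (by simp)⟩ : Set.Iio i)) := by
    intro a b hab
    have h1 : f.symm (y, a) = f.symm (y, b) := congrArg Subtype.val hab
    have h2 := f.symm.injective h1
    exact (Prod.mk.inj h2).2
  have h1 := mk_le_of_injective hinj
  rw [mk_IX] at h1
  exact absurd (h1.trans (mk_Iio_IX i)) (not_le.2 (Order.lt_succ _))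

theorem exists_book {A : Type} [Zero A] (hA : #A ≤ ℵ_ 1) :
    ∃ ν : IX → A → A → Set (IX →₀ A), Book ν := by
  -- conditions with support below `i`
  let S : IX → Type := fun i => {s : IX →₀ A // ∀ k, s k ≠ 0 → k < i}
  have hS : ∀ i, #(S i) ≤ lam := by
    intro i
    have h1 : #(Set.Iio i × A) ≤ #LX := by
      simp only [mk_prod, lift_id, mk_LX]
      exact (mul_le_mul' (mk_Iio_IX i) (hA.trans aleph1_le_lam)).trans
        (mul_eq_self aleph0_le_lam).le
    obtain ⟨ε⟩ := Cardinal.le_def _ _ |>.1 h1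
    let g : S i → Finset LX := fun s => s.1.support.attach.image fun k =>
      ε (⟨k.1, s.2 k.1 (Finsupp.mem_support_iff.1 k.2)⟩, s.1 k.1)
    have hg : Function.Injective g := by
      have key : ∀ s t : S i, g s = g t → ∀ k, s.1 k ≠ 0 → s.1 k = t.1 k := by
        intro s t hst k hk
        have h2 : ε (⟨k, s.2 k hk⟩, s.1 k) ∈ g s := Finset.mem_image.2
          ⟨⟨k, Finsupp.mem_support_iff.2 hk⟩, Finset.mem_attach _ _, rfl⟩
        rw [hst] at h2
        obtain ⟨k', _, hk'⟩ := Finset.mem_image.1 h2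
        have h3 := ε.injective hk'
        simp only [Prod.mk.injEq, Subtype.mk.injEq] at h3
        rw [← h3.2, h3.1]
      intro s t hst
      apply Subtype.ext
      ext k
      by_cases hk : s.1 k ≠ 0
      · exact key s t hst k hk
      · push Not at hk
        by_cases hk' : t.1 k ≠ 0
        · exact (key t s hst.symm k hk').symm
        · push Not at hk'
          rw [hk, hk']
    have : Infinite LX := by
      rw [infinite_iff, mk_LX]; exact aleph0_le_lam
    exact (mk_le_of_injective hg).trans (mk_finset_of_infinite LX ▸ mk_LX.le)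
  let F : IX → Type := fun i => A × A × ℕ → Option (S i)
  have hF : ∀ i, #(F i) ≤ #LX := by
    intro i
    rw [mk_LX]
    have h1 : #(A × A × ℕ) ≤ ℵ_ 1 := by
      simp only [mk_prod, lift_id, mk_nat]
      exact (mul_le_mul' hA (mul_le_mul' hA (aleph0_le_aleph 1))).trans
        (by rw [mul_eq_self (aleph0_le_aleph 1), mul_eq_self (aleph0_le_aleph 1)])
    have h2 : #(Option (S i)) ≤ lam := by
      rw [mk_option]
      exact (add_le_add (hS i) (one_le_aleph0.trans aleph0_le_lam)).trans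
        (add_eq_self aleph0_le_lam).le
    calc #(F i) = #(Option (S i)) ^ #(A × A × ℕ) := (power_def _ _).symm
      _ ≤ lam ^ #(A × A × ℕ) := power_le_power_right h2
      _ ≤ lam ^ (ℵ_ 1 : Cardinal.{0}) := power_le_power_left
          (ne_of_gt (lt_of_lt_of_le aleph0_pos aleph0_le_lam)) h1
      _ = lam := by rw [← power_mul, mul_eq_self (aleph0_le_aleph 1)]
  have hsur : ∀ i, ∃ g : LX → F i, Function.Surjective g := by
    intro i
    obtain ⟨ε⟩ := Cardinal.le_def _ _ |>.1 (hF i)
    exact ⟨Function.extend ε id (fun _ => fun _ => none), fun y => ⟨ε y, by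
      rw [ε.injective.extend_apply]; rfl⟩⟩
  choose g hg using hsur
  obtain ⟨e, he⟩ := exists_enum
  let G : (x : IX × LX) → A → A → Set (IX →₀ A) := fun x a b =>
    {s | ∃ n, ∃ s' : S x.1, g x.1 x.2 (a, b, n) = some s' ∧ s = s'.1}
  refine ⟨fun j => G (e j), ?_⟩
  intro N i hN
  -- the function of the name
  have hfun : ∀ a b, ∃ h : ℕ → Option (S i), ∀ s, s ∈ N a b ↔ ∃ n, ∃ s', h n = some s' ∧
      s = s'.1 := by
    intro a b
    rcases (N a b).eq_empty_or_nonempty with h0 | h0
    · exact ⟨fun _ => none, fun s => by simp [h0]⟩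
    · obtain ⟨u, hu⟩ := (hN a b).1.exists_eq_range h0
      have hu' : ∀ n, u n ∈ N a b := fun n => by rw [hu]; exact ⟨n, rfl⟩
      refine ⟨fun n => some ⟨u n, (hN a b).2 _ (hu' n)⟩, fun s => ?_⟩
      constructor
      · intro hs
        rw [hu] at hs
        obtain ⟨n, rfl⟩ := hs
        exact ⟨n, _, rfl, rfl⟩
      · rintro ⟨n, s', h1, rfl⟩
        simp only [Option.some.injEq] at h1
        rw [← h1]
        exact hu' n
  choose h hh using hfun
  obtain ⟨l, hl⟩ := hg i (fun x => h x.1 x.2.1 x.2.2)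
  obtain ⟨j, hij, hj⟩ := he (i, l) i
  refine ⟨j, hij, ?_⟩
  funext a b
  ext s
  rw [hh]
  simp only [hj]
  show (∃ n, ∃ s' : S i, g i l (a, b, n) = some s' ∧ s = s'.1) ↔ _
  rw [hl]

end Pool.Agent.MAx
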