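import Pool.Agent.MAx.Top

/-!
# The extension as an element of the quotient model
-/

namespace Pool.Agent.MAx

open Classical Pool.Agent Pool.Agent.LadderTree Pool.Agent.Forcing
open Pool.Agent.BVM (BSet UF OPair FunOn chk le_of_uf eq_of_uf memv eqv on onT ZFC)

section

variable {B : Type} [CompleteBooleanAlgebra B] {b : B}

theorem exists_powN (x : BSet B) : ∃ p : BSet B, ∀ (F : Pt b) (t : Md F),
    In F t (nm F p) ↔ ∀ z, In F z t → In F z (nm F x) := by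
  obtain ⟨p, hp⟩ := exists_name (b := b) (P := fun F p => ∀ t, In F t p ↔
    ∀ z, In F z t → In F z (nm F x)) (fun p => RpP.all fun t => (RpP.mem _ _).iff
      (RpP.all fun z => (RpP.mem _ _).imp (RpP.mem _ _))) (fun F => (BVM.zfc F.1).power _)
  exact ⟨p, hp⟩

/-- functions given by relations -/
theorem exists_fnP {X Y : BSet B} {P : ∀ F : Pt b, Md F → Md F → Prop}
    (hP : ∀ x y, RpP fun F => P F (nm F x) (nm F y))
    (h : ∀ F x, In F x (nm F X) → ∃ y, In F y (nm F Y) ∧ P F x y ∧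
      ∀ y', In F y' (nm F Y) → P F x y' → y' = y) :
    ∃ f : BSet B, ∀ F, Fn (In F) (nm F f) (nm F X) (nm F Y) ∧
      ∀ x y, BVM.Rel (In F) (nm F f) x y ↔ (In F x (nm F X) ∧ In F y (nm F Y) ∧ P F x y) := by
  obtain ⟨f, hf⟩ := exists_sep (b := b) (prodN X Y)
    (P := fun F p => ∃ x y, OPair (In F) p x y ∧ P F x y)
    (fun p => RpP.ex fun x => RpP.ex fun y => (RpP.opair _ _ _).and (hP x y))
  refine ⟨f, fun F => ?_⟩
  have hrel : ∀ x y, BVM.Rel (In F) (nm F f) x y ↔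
      (In F x (nm F X) ∧ In F y (nm F Y) ∧ P F x y) := by
    intro x y
    constructor
    · rintro ⟨p, hp, hpf⟩
      obtain ⟨h1, x', y', h2, h3⟩ := (hf F p).1 hpf
      obtain ⟨rfl, rfl⟩ := hp.inj h2
      obtain ⟨s, t, hs, ht, h4⟩ := (In_prodN X Y F p).1 h1
      obtain ⟨rfl, rfl⟩ := hp.inj h4
      exact ⟨hs, ht, h3⟩
    · rintro ⟨h1, h2, h3⟩
      obtain ⟨p, hp⟩ := exists_opair (BVM.zfc F.1) x y
      exact ⟨p, hp, (hf F p).2 ⟨(In_prodN X Y F p).2 ⟨x, y, h1, h2, hp⟩, x, y, hp, h3⟩⟩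
  refine ⟨⟨⟨fun p hp => ?_, fun x hx => ?_⟩, fun x y hxy => ((hrel x y).1 hxy).2.1⟩, hrel⟩
  · obtain ⟨h1, -⟩ := (hf F p).1 hp
    obtain ⟨s, t, hs, ht, h4⟩ := (In_prodN X Y F p).1 h1
    exact ⟨s, t, hs, h4⟩
  · obtain ⟨y, h1, h2, h3⟩ := h F x hx
    refine ⟨y, (hrel x y).2 ⟨hx, h1, h2⟩, fun y' hy' => ?_⟩
    obtain ⟨h4, h5, h6⟩ := (hrel x y').1 hy'
    exact h3 y' h5 h6

end

namespace Ctx

variable {P : Type} [Preorder P] {ι : Type} (X : Ctx (RO P) ι) {H : CD ι → RO P}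
  {hH : GF X.toBD H} (hd : X.Dns hH)

/-- `g` is the value of the extension at `x` -/
def GP (hH : GF X.toBD H) (F : Pt X.b) (x : XF X.hK X.hV F) (g : Md F) : Prop :=
  ∀ p, In F p g ↔ ∃ u, ∃ r : KF X.hK F, In F u (nm F X.Z) ∧ OPair (In F) p u r.v ∧
    X.Tr hH F x u r

theorem RpP.opR {B : Type} [CompleteBooleanAlgebra B] {b : B} {K : OF (BSet B)}
    {hK : ∀ F : Pt b, IsReals (In F) (nmK F K)} (p u : BSet B) {r : ∀ F : Pt b, KF hK F}
    (hr : NmR r) : RpP fun F => OPair (In F) (nm F p) (nm F u) (r F).v := by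
  obtain ⟨r', hr'⟩ := hr
  exact (RpP.opair p u r').congr fun F => by rw [hr']

theorem RpP_GP {x : ∀ F : Pt X.b, XF X.hK X.hV F} (hx : NmX x) (g : BSet (RO P)) :
    RpP fun F => X.GP hH F (x F) (nm F g) :=
  RpP.all fun p => (RpP.mem _ _).iff (RpP.ex fun u => RpP.exR fun r hr => (RpP.mem _ _).and
    ((RpP.opR _ _ hr).and (X.RpP_Tr hH hx _ hr)))

theorem GP.rel {F : Pt X.b} {x : XF X.hK X.hV F} {g : Md F} (h : X.GP hH F x g) (u : Md F)
    (r : KF X.hK F) : BVM.Rel (In F) g u r.v ↔ In F u (nm F X.Z) ∧ X.Tr hH F x u r := by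
  constructor
  · rintro ⟨p, hp, hpg⟩
    obtain ⟨u', r', h1, h2, h3⟩ := (h p).1 hpg
    obtain ⟨rfl, h4⟩ := hp.inj h2
    rw [RK.ext h4]
    exact ⟨h1, h3⟩
  · rintro ⟨h1, h2⟩
    obtain ⟨p, hp⟩ := exists_opair (BVM.zfc F.1) u r.v
    exact ⟨p, hp, (h p).2 ⟨u, r, h1, hp, h2⟩⟩

theorem GP.val {F : Pt X.b} {x : XF X.hK X.hV F} {g : Md F} (h : X.GP hH F x g) {u y : Md F}
    (hy : BVM.Rel (In F) g u y) : ∃ r : KF X.hK F, y = r.v := by
  obtain ⟨p, hp, hpg⟩ := hy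
  obtain ⟨u', r', h1, h2, h3⟩ := (h p).1 hpg
  exact ⟨r', (hp.inj h2).2⟩

include hd

theorem GP.isCont {F : Pt X.b} {x : XF X.hK X.hV F} {g : Md F} (h : X.GP hH F x g) :
    IsCont (In F) (nmK F X.K) (nm F X.Z) g := by
  refine ⟨⟨⟨fun p hp => ?_, fun u hu => ?_⟩, fun u y hy => ?_⟩, fun u r e hr he => ?_⟩
  · obtain ⟨u, r, h1, h2, h3⟩ := (h p).1 hp
    exact ⟨u, r.v, h1, h2⟩
  · obtain ⟨r, hr⟩ := X.Tr_ex hd F x u ((X.hZ F u).1 hu)
    refine ⟨r.v, (GP.rel X h u r).2 ⟨hu, hr⟩, fun y hy => ?_⟩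
    obtain ⟨r', rfl⟩ := GP.val X h hy
    rw [X.Tr_uniq hd ((X.hZ F u).1 hu) ((GP.rel X h u r').1 hy).2 hr]
  · obtain ⟨r, rfl⟩ := GP.val X h hy
    exact r.mem
  · obtain ⟨r, rfl⟩ := GP.val X h hr
    have heR := ((X.hK F).lt_dom _ _ he).2
    have he' : (0 : KF X.hK F) < RK.of e heR := he
    obtain ⟨A, hA, hA'⟩ := X.Tr_cont hd ((GP.rel X h u r).1 hr).2 he'
    refine ⟨A, hA, fun v s hs hAv => ?_⟩
    obtain ⟨s, rfl⟩ := GP.val X h hs
    have h1 := (GP.rel X h v s).1 hs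
    exact (RK.close_iff (e := RK.of e heR)).2 (hA' v s ((X.hZ F v).1 h1.1) h1.2 hAv)

/-- the name of the extension -/
theorem exists_T : ∃ T : BSet (RO P), ∀ F : Pt X.b, FunOn (In F) (nm F T) (nm F X.V.X) ∧
    ∀ x g, BVM.Rel (In F) (nm F T) x g ↔ ∃ x' : XF X.hK X.hV F, x'.v = x ∧ X.GP hH F x' g := by
  obtain ⟨PW, hPW⟩ := exists_powN (b := X.b) (prodN X.Z X.K.R)
  have hsubPW : ∀ (F : Pt X.b) (x : XF X.hK X.hV F) (g : Md F), X.GP hH F x g →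
      In F g (nm F PW) := by
    intro F x g hg
    rw [hPW]
    intro p hp
    obtain ⟨u, r, h1, h2, h3⟩ := (hg p).1 hp
    exact (In_prodN _ _ F p).2 ⟨u, r.v, h1, r.mem, h2⟩
  have hex : ∀ (F : Pt X.b) (x : XF X.hK X.hV F), ∃ g, X.GP hH F x g := by
    intro F x
    obtain ⟨x, hx, rfl⟩ := nmX_eq F x
    obtain ⟨g, hg⟩ := exists_sep (b := X.b) (prodN X.Z X.K.R)
      (P := fun F p => ∃ u, ∃ r : KF X.hK F, In F u (nm F X.Z) ∧ OPair (In F) p u r.v ∧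
        X.Tr hH F (x F) u r) (fun p => RpP.ex fun u => RpP.exR fun r hr => (RpP.mem _ _).and
          ((RpP.opR _ _ hr).and (X.RpP_Tr hH hx _ hr)))
    refine ⟨nm F g, fun p => ?_⟩
    rw [hg F p]
    constructor
    · exact fun h => h.2
    · rintro ⟨u, r, h1, h2, h3⟩
      exact ⟨(In_prodN _ _ F p).2 ⟨u, r.v, h1, r.mem, h2⟩, u, r, h1, h2, h3⟩
  obtain ⟨T, hT⟩ := exists_fnP (b := X.b) (X := X.V.X) (Y := PW)
    (P := fun F x g => ∀ x' : XF X.hK X.hV F, x'.v = x → X.GP hH F x' g)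
    (fun x g => RpP.allX fun x' hx' => by
      have h1 : RpP fun F => (x' F).v = nm F x := by
        obtain ⟨z, hz⟩ := hx'
        exact (RpP.eq z x).congr fun F => by rw [hz]
      exact h1.imp (X.RpP_GP hx' g))
    (fun F x hx => by
      obtain ⟨g, hg⟩ := hex F (XK.of x hx)
      refine ⟨g, hsubPW F _ g hg, fun x' hx' => ?_, fun g' _ hg' => ?_⟩
      · have e : x' = XK.of x hx := XK.ext hx'
        rw [e]
        exact hg
      · have h1 := hg' (XK.of x hx) rfl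
        exact (BVM.zfc F.1).ext _ _ fun p => (h1 p).trans (hg p).symm)
  refine ⟨T, fun F => ⟨(hT F).1.1, fun x g => ?_⟩⟩
  rw [(hT F).2]
  constructor
  · rintro ⟨h1, h2, h3⟩
    exact ⟨XK.of x h1, rfl, h3 _ rfl⟩
  · rintro ⟨x', rfl, h2⟩
    refine ⟨x'.mem, hsubPW F x' g h2, fun x'' hx'' => ?_⟩
    rw [XK.ext hx'']
    exact h2

/-- the extension, in one quotient model -/
theorem main (F : Pt X.b)
    (hmin : ∀ c : KF X.hK F, 0 ≤ c → (∀ (x : XF X.hK X.hV F) (u : Md F) (r : KF X.hK F),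
        TR (nm F X.t) x u r → |r| ≤ c * nr x) → X.c₀ F ≤ c) :
    ∃ T, IsOp (In F) (nmK F X.K) (nmV F X.V) (nm F X.Z) (nm F X.V.X) T ∧
      (∀ y g, BVM.Rel (In F) (nm F X.t) y g → BVM.Rel (In F) T y g) ∧
      ∀ c d e, Rel2 (In F) (nm F X.K.add) c c d → Rel2 (In F) (nm F X.K.add) d c e →
        ¬ BVM.Rel (In F) (nm F X.K.lt) c (nm F X.K.zero) →
        Bound (In F) (nmK F X.K) (nmV F X.V) (nm F X.t) c →
        Bound (In F) (nmK F X.K) (nmV F X.V) T e := by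
  obtain ⟨T, hT⟩ := X.exists_T hd
  obtain ⟨hfn, hrel⟩ := hT F
  have hop : IsOp (In F) (nmK F X.K) (nmV F X.V) (nm F X.Z) (nm F X.V.X) (nm F T) := by
    refine ⟨hfn, fun x g hg => ?_, ?_, ?_⟩
    · obtain ⟨x', -, h1⟩ := (hrel x g).1 hg
      exact GP.isCont X hd h1
    · intro x y s f g h hs hf hg hh u p q r hp hq hr
      obtain ⟨x, rfl, h1⟩ := (hrel x f).1 hf
      obtain ⟨y, rfl, h2⟩ := (hrel y g).1 hg
      obtain ⟨s, rfl, h3⟩ := (hrel s h).1 hh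
      obtain ⟨p, rfl⟩ := GP.val X h1 hp
      obtain ⟨q, rfl⟩ := GP.val X h2 hq
      have e1 : s = x + y := XK.ext (XK.add_iff.1 hs)
      have e2 : r = (p + q).v := RK.add_iff.1 hr
      have hp' := (GP.rel X h1 u p).1 hp
      have hq' := (GP.rel X h2 u q).1 hq
      have hu := (X.hZ F u).1 hp'.1
      obtain ⟨r', hr'⟩ := X.Tr_ex hd F (x + y) u hu
      rw [e2, ← X.Tr_add hd hu hp'.2 hq'.2 hr']
      rw [e1] at h3
      exact (GP.rel X h3 u r').2 ⟨hp'.1, hr'⟩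
    · intro c x y f g hc hf hg u p q hp hq
      obtain ⟨x, rfl, h1⟩ := (hrel x f).1 hf
      obtain ⟨y, rfl, h2⟩ := (hrel y g).1 hg
      obtain ⟨p, rfl⟩ := GP.val X h1 hp
      have hcR := ((X.hV F).smul.dom hc).1
      have e1 : y = (RK.of c hcR : KF X.hK F) • x := XK.ext (XK.smul_iff (c := RK.of c hcR).1 hc)
      have e2 : q = ((RK.of c hcR : KF X.hK F) * p).v := RK.mul_iff (x := RK.of c hcR).1 hq
      have hp' := (GP.rel X h1 u p).1 hp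
      have hu := (X.hZ F u).1 hp'.1
      rw [e1] at h2
      rw [e2]
      exact (GP.rel X h2 u _).2 ⟨hp'.1, X.Tr_smul hd hu hp'.2 _⟩
  refine ⟨nm F T, hop, fun y g hg => ?_, fun c d e hcd hde hc hb => ?_⟩
  · have hyY := FunOn.dom' (X.hO F).fn hg
    have hyX := (X.hY F).sub y hyY
    refine (hrel y g).2 ⟨XK.of y hyX, rfl, fun p => ?_⟩
    have hgc := (X.hO F).val y g hg
    constructor
    · intro hp
      obtain ⟨u, r, hu, hur⟩ := hgc.1.1.1 p hp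
      have hrR := hgc.1.2 u r ⟨p, hur, hp⟩
      exact ⟨u, RK.of r hrR, hu, hur, X.Tr_Y hd ⟨g, hg, ⟨p, hur, hp⟩⟩⟩
    · rintro ⟨u, r, hu, hur, hr⟩
      obtain ⟨r', hr'R, hr'⟩ := hgc.1.ex hu
      have h1 := (hr' r').2 rfl
      have h2 : X.Tr hH F (XK.of y hyX) u (RK.of r' hr'R) := X.Tr_Y hd ⟨g, hg, h1⟩
      have h3 := X.Tr_uniq hd ((X.hZ F u).1 hu) hr h2
      rw [h3] at hur
      obtain ⟨p', hp', hp'g⟩ := h1
      rw [opair_uniq (BVM.zfc F.1) hur hp']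
      exact hp'g
  · have hcR := ((X.hK F).add.dom hcd).1
    have e1 : d = ((RK.of c hcR : KF X.hK F) + RK.of c hcR).v :=
      RK.add_iff (x := RK.of c hcR) (y := RK.of c hcR).1 hcd
    rw [e1] at hde
    have e2 : e = ((RK.of c hcR : KF X.hK F) + RK.of c hcR + RK.of c hcR).v :=
      RK.add_iff (x := RK.of c hcR + RK.of c hcR) (y := RK.of c hcR).1 hde
    have hc0 : (0 : KF X.hK F) ≤ RK.of c hcR := hc
    have h1 := (bound_iff (hE := BVM.zfc F.1) (hK := X.hK F) (hV := X.hV F) (X.hO F)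
      (X.hY F).sub (RK.of c hcR)).1 hb
    have h2 := hmin _ hc0 h1
    rw [e2]
    refine (bound_iff (hE := BVM.zfc F.1) (hK := X.hK F) (hV := X.hV F) hop
      (fun _ hx => hx) _).2 fun x u r hr => ?_
    obtain ⟨g, hg, hgr⟩ := hr
    obtain ⟨x', hx', hgp⟩ := (hrel x.v g).1 hg
    rw [XK.ext hx'] at hgp
    have h3 := (GP.rel X hgp u r).1 hgr
    refine (X.Tr_bound hd ((X.hZ F u).1 h3.1) h3.2).trans ?_
    unfold κ
    refine mul_le_mul_of_nonneg_right ?_ (nr_nonneg x)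
    linarith

end Ctx

end Pool.Agent.MAx
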