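import Pool.Agent.MAx.Iter

/-!
# The regular open algebra of the iteration
-/

namespace Pool.Agent.MAx

open Classical Pool.Agent.Forcing

section

variable {P : Type} [Preorder P]

/-- joins are countable in the presence of the countable chain condition -/
theorem countable_iSup (hcc : CC (fun p q : P => p ≤ q)) {ι : Type} (b : ι → RO P) :
    ∃ C : Set ι, C.Countable ∧ ⨆ i, b i = ⨆ i : C, b i := by
  let F : Set (Set (P × ι)) := {T | (∀ y ∈ T, Forc y.1 (b y.2)) ∧
    ∀ y ∈ T, ∀ z ∈ T, y ≠ z → ¬ ∃ r, r ≤ y.1 ∧ r ≤ z.1}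
  obtain ⟨T, hT⟩ := zorn_subset F (by
    intro c hc hch
    refine ⟨⋃₀ c, ⟨?_, ?_⟩, fun s hs => Set.subset_sUnion_of_mem hs⟩
    · rintro s ⟨A, hA, hs⟩
      exact (hc hA).1 s hs
    · rintro s ⟨A, hA, hs⟩ t ⟨A', hA', ht⟩ hst
      rcases hch.total hA hA' with h | h
      · exact (hc hA').2 s (h hs) t ht hst
      · exact (hc hA).2 s hs t (h ht) hst)
  have hTF : T ∈ F := hT.prop
  have hTc : T.Countable := by
    by_contra h
    obtain ⟨y, hy, z, hz, hne, hr⟩ := hcc (P × ι) T h Prod.fst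
    exact hTF.2 y hy z hz hne hr
  refine ⟨Prod.snd '' T, hTc.image _, le_antisymm ?_ (iSup_le fun i => le_iSup b i.1)⟩
  rw [forc_le_iff]
  intro p hp
  by_contra hcon
  obtain ⟨q, hq, hqc⟩ := not_forc hcon
  rw [forc_iSup] at hp
  obtain ⟨r, hr, i, hi⟩ := hp q hq
  have hin : (r, i) ∈ T := by
    have hins : insert (r, i) T ∈ F := by
      have key : ∀ y ∈ T, ¬ ∃ t, t ≤ r ∧ t ≤ y.1 := by
        rintro y hy ⟨t, ht1, ht2⟩
        have h1 : Forc t (⨆ i : (Prod.snd '' T : Set ι), b i) :=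
          Forc.iSup (f := fun i : (Prod.snd '' T : Set ι) => b i) ⟨y.2, ⟨y, hy, rfl⟩⟩
            ((hTF.1 y hy).mono ht2)
        exact forc_compl.1 hqc t (ht1.trans hr) h1
      refine ⟨?_, ?_⟩
      · rintro y (rfl | hy)
        · exact hi
        · exact hTF.1 y hy
      · rintro y (rfl | hy) z (rfl | hz) hyz
        · exact absurd rfl hyz
        · exact key z hz
        · rintro ⟨t, h1, h2⟩
          exact key y hy ⟨t, h2, h1⟩
        · exact hTF.2 y hy z hz hyz
    exact hT.le_of_ge hins (Set.subset_insert _ T) (Set.mem_insert _ _)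
  exact forc_compl.1 hqc r hr (Forc.iSup (f := fun i : (Prod.snd '' T : Set ι) => b i)
    ⟨i, ⟨(r, i), hin, rfl⟩⟩ hi)

/-- every element is generated by countably many conditions -/
theorem exists_countable_below (hcc : CC (fun p q : P => p ≤ q)) (b : RO P) :
    ∃ C : Set P, C.Countable ∧ (∀ s ∈ C, Forc s b) ∧ b = below C := by
  obtain ⟨C, hC, h⟩ := countable_iSup hcc (fun s : {s : P // Forc s b} => pt s.1)
  have h0 : b = ⨆ s : {s : P // Forc s b}, pt s.1 := by
    refine le_antisymm ?_ (iSup_le fun s => pt_le_iff.2 s.2)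
    rw [forc_le_iff]
    intro p hp
    exact Forc.iSup (f := fun s : {s : P // Forc s b} => pt s.1) ⟨p, hp⟩
      (pt_le_iff.1 le_rfl)
  refine ⟨Subtype.val '' C, hC.image _, ?_, ?_⟩
  · rintro _ ⟨s, _, rfl⟩
    exact s.2
  · refine (h0.trans h).trans (le_antisymm (iSup_le fun s => ?_) (iSup_le fun s => ?_))
    · exact le_iSup (fun t : (Subtype.val '' C : Set P) => pt t.1) ⟨s.1.1, ⟨s.1, s.2, rfl⟩⟩
    · obtain ⟨_, t, ht, rfl⟩ := s
      exact le_iSup (fun t : C => pt t.1.1) ⟨t, ht⟩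

end

section

variable {I A : Type} [LinearOrder I] [WellFoundedLT I] [Zero A]

/-- the iteration as a preorder -/
def PP (_ : I → A → A → Set (I →₀ A)) : Type := I →₀ A

variable {ν : I → A → A → Set (I →₀ A)}

instance : Preorder (PP ν) where
  le q p := leD ν Set.univ q p
  le_refl p := leD_refl _ p
  le_trans a b c h1 h2 := leD_trans isLowerSet_univ h1 h2

theorem PP.le_iff {p q : PP ν} : p ≤ q ↔ leD ν Set.univ p q := Iff.rfl

/-- the function of a condition -/
def PP.f (p : PP ν) : I →₀ A := p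

/-- the condition of a function -/
def PP.of (p : I →₀ A) : PP ν := p

theorem toD {p q : PP ν} (h : p ≤ q) {j : I} : leD ν (Set.Iio j) p q :=
  leD.sub h (Set.subset_univ _)

theorem PP.cc : CC (fun p q : PP ν => p ≤ q) := cc_univ

/-- values which only depend on the stages before `j` -/
def Meas (j : I) (b : RO (PP ν)) : Prop :=
  ∀ p q : PP ν, leD ν (Set.Iio j) q p → Forc p b → Forc q b

/-- gluing -/
noncomputable def gl (j : I) (q p : PP ν) : PP ν := glue (Set.Iio j) q p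

theorem gl_le {j : I} {q p : PP ν} (h : leD ν (Set.Iio j) q p) : gl j q p ≤ p :=
  glue_le_right (isLowerSet_Iio j) h _

theorem gl_left {j : I} {q p : PP ν} : leD ν (Set.Iio j) (gl j q p) q := glue_le_left

theorem left_gl {j : I} {q p : PP ν} : leD ν (Set.Iio j) q (gl j q p) := le_glue_left

theorem tr {j : I} {p q r : PP ν} (h : leD ν (Set.Iio j) p q)
    (h' : leD ν (Set.Iio j) q r) : leD ν (Set.Iio j) p r :=
  leD_trans (isLowerSet_Iio j) h h'

theorem Meas.iSup {ι : Sort*} {j : I} {b : ι → RO (PP ν)} (h : ∀ x, Meas j (b x)) :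
    Meas j (⨆ x, b x) := by
  intro p q hqp hp
  rw [forc_iSup] at hp ⊢
  intro q' hq'
  obtain ⟨r, hr, x, hx⟩ := hp (gl j q' p) (gl_le (tr (toD hq') hqp))
  refine ⟨gl j r q', gl_le (tr (toD hr) gl_left), x, h x _ _ gl_left hx⟩

theorem Meas.compl {j : I} {b : RO (PP ν)} (h : Meas j b) : Meas j bᶜ := by
  intro p q hqp hp
  rw [forc_compl] at hp ⊢
  intro q' hq' hb
  exact hp (gl j q' p) (gl_le (tr (toD hq') hqp)) (h _ _ gl_left hb)

theorem Meas.iInf {ι : Sort*} {j : I} {b : ι → RO (PP ν)} (h : ∀ x, Meas j (b x)) :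
    Meas j (⨅ x, b x) := by
  intro p q hqp hp
  rw [forc_iInf] at hp ⊢
  exact fun x => h x p q hqp (hp x)

theorem Meas.inf {j : I} {b c : RO (PP ν)} (h : Meas j b) (h' : Meas j c) :
    Meas j (b ⊓ c) := by
  intro p q hqp hp
  rw [forc_inf] at hp ⊢
  exact ⟨h p q hqp hp.1, h' p q hqp hp.2⟩

theorem Meas.mono {i j : I} {b : RO (PP ν)} (h : Meas i b) (hij : i ≤ j) : Meas j b :=
  fun p q hqp hp => h p q (hqp.sub (Set.Iio_subset_Iio hij)) hp

theorem Meas.below {j : I} {C : Set (PP ν)} (hC : ∀ s ∈ C, ∀ i, s.f i ≠ 0 → i < j) :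
    Meas j (below C) := by
  intro p q hqp hp
  rw [forc_below] at hp ⊢
  intro q' hq'
  obtain ⟨r, hr, s, hs, hrs⟩ := hp (gl j q' p) (gl_le (tr (toD hq') hqp))
  refine ⟨gl j r q', gl_le (tr (toD hr) gl_left), s, hs, ?_⟩
  intro i _
  by_cases hi : i < j
  · exact leD_trans (isLowerSet_Iio j) (gl_left (q := r) (p := q')) (toD hrs) i hi
  · have h0 : s.f i = 0 := by
      by_contra hne
      exact hi (hC s hs i hne)
    show FF ν i _ _ (s.f i)
    rw [h0]
    exact FF_top _ _ _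

/-- the stages used by a value are bounded -/
theorem exists_meas (hcof : ∀ s : Set I, s.Countable → ∃ i, ∀ x ∈ s, x < i) (b : RO (PP ν)) :
    ∃ j, Meas j b := by
  obtain ⟨C, hC, -, hb⟩ := exists_countable_below PP.cc b
  have hc : (⋃ s ∈ C, (s.f.support : Set I)).Countable :=
    hC.biUnion fun s _ => Finset.countable_toSet _
  obtain ⟨j, hj⟩ := hcof _ hc
  refine ⟨j, ?_⟩
  rw [hb]
  refine Meas.below fun s hs i hi => hj i ?_
  simp only [Set.mem_iUnion]
  exact ⟨s, hs, Finsupp.mem_support_iff.2 hi⟩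

/-- names for values -/
theorem Meas.exists_name {j : I} {b : RO (PP ν)} (hb : Meas j b) :
    ∃ C : Set (I →₀ A), C.Countable ∧ (∀ s ∈ C, ∀ i, s i ≠ 0 → i < j) ∧
      ∀ q : PP ν, Fr (leD ν (Set.Iio j)) C q ↔ Forc q b := by
  obtain ⟨C, hC, hCb, h⟩ := exists_countable_below PP.cc b
  refine ⟨(fun s => glue (Set.Iio j) s 0) '' C, hC.image _, ?_, ?_⟩
  · rintro _ ⟨s, _, rfl⟩ i hi
    by_contra hij
    exact hi (by
      show glue _ _ _ i = 0
      rw [glue_out (by simpa using hij)]; rfl)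
  · intro q
    constructor
    · intro hF
      rw [forc_iff_dense]
      intro q' hq'
      obtain ⟨r, hr, _, ⟨s, hs, rfl⟩, hrs⟩ := hF q' (toD hq')
      refine ⟨gl j r q', gl_le hr, ?_⟩
      refine hb (PP.of s : PP ν) _ ?_ (hCb s hs)
      exact tr gl_left (tr hrs glue_le_left)
    · intro hF q' hq'
      have h1 : Forc (PP.of q' : PP ν) b := hb q q' hq' hF
      rw [h, forc_below] at h1
      obtain ⟨r, hr, s, hs, hrs⟩ := h1 _ le_rfl
      exact ⟨r, toD hr, _, ⟨s, hs, rfl⟩, tr (toD hrs) le_glue_left⟩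

end

end Pool.Agent.MAx
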