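import Pool.Agent.H90.InjPoset

/-!
# Real side: the compatibility lemma, rational Helly theorem, normed spaces from rational seminorms
-/

namespace Pool.Agent.MAx

open Finset Filter Topology Pool.Agent.H90

universe v

section Core

variable {ι : Type} {X : Type v} [NormedAddCommGroup X] [NormedSpace ℝ X]
  {u : ι → X} {J : Set ι} {τ : ι → ℕ → ℝ} {K : ℝ}

/-- the compatibility lemma -/
theorem core (H : Hyp u J τ K) (T : Set ι) (q : Cond u J τ K) :
    ∃ (q' : Cond u J τ K) (δ₁ : ℚ), 0 < δ₁ ∧ q' ≤ q ∧ q'.ε = q.ε ∧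
      (∀ i ∈ q'.F, i ∈ q.F ∨ i ∈ T) ∧ SV u J τ K q'.F q'.n δ₁ ∧
      ∀ p' : Cond u J τ K, p'.ε = q.ε → (∀ i ∈ q'.F, i ∈ T → i ∈ p'.F) →
        (∀ i ∈ p'.F, i ∈ T) → p'.n = q'.n →
        (∀ i ∈ q'.F, i ∈ T → ∀ k, k < q'.n → p'.f i k = q'.f i k) →
        SV u J τ K p'.F p'.n δ₁ →
        ∃ r : Cond u J τ K, r ≤ p' ∧ r ≤ q' ∧ ∀ i ∈ r.F, i ∈ p'.F ∨ i ∈ q'.F := by
  classical
  have hK := H.1
  have hε0 : (0 : ℝ) < q.ε := by exact_mod_cast q.hε
  have hδ₂ : (0 : ℝ) < q.ε / (4 * (K + 1)) := by positivity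
  obtain ⟨R, hRT, C, hC, hR⟩ := near_best (q.F.filter (· ∈ J)) u (T ∩ J) hδ₂
  obtain ⟨δ₁, hδ₁0, hδ₁⟩ : ∃ δ₁ : ℚ, 0 < δ₁ ∧ (δ₁ : ℝ) < q.ε / (2 * (1 + 2 * C)) := by
    have : (0 : ℝ) < q.ε / (2 * (1 + 2 * C)) := by positivity
    obtain ⟨r, h1, h2⟩ := exists_rat_btwn this
    exact ⟨r, by exact_mod_cast h1, h2⟩
  have hδ₁0' : (0 : ℝ) < δ₁ := by exact_mod_cast hδ₁0
  obtain ⟨q', hq'q, hq'F, -, hq'ε, hq'SV⟩ := Cond.extend H q (q.F ∪ R) Finset.subset_union_left 0
    q.ε q.hε le_rfl hδ₁0'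
  rw [← hq'F] at hq'SV
  refine ⟨q', δ₁, hδ₁0, hq'q, hq'ε, ?_, hq'SV, ?_⟩
  · intro i hi
    rw [hq'F] at hi
    rcases Finset.mem_union.1 hi with h | h
    · exact Or.inl h
    · exact Or.inr (hRT h).1
  intro p' hp'ε hΔ hp'T hp'n hgr hp'SV
  have hRJ : ∀ i ∈ R, i ∈ J := fun i hi => (hRT hi).2
  have hRp' : R ⊆ p'.F := fun i hi => hΔ i (hq'F ▸ Finset.mem_union_right _ hi) (hRT hi).1
  have hagree : ∀ i ∈ p'.F, i ∈ q'.F → ∀ k, k < q'.n → p'.f i k = q'.f i k := by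
    intro i hi hi' k hk
    exact hgr i hi' (hp'T i hi) k hk
  -- the amalgamated inequality
  have hineq : ∀ k, q'.n ≤ k → ∀ c : ι → ℝ,
      |∑ i ∈ (p'.F ∪ q'.F) with i ∈ J, c i * τ i k| ≤
      3 * K * ‖∑ i ∈ (p'.F ∪ q'.F) with i ∈ J, c i • u i‖ +
        q.ε * ∑ i ∈ (p'.F ∪ q'.F) with i ∈ J, |c i| := by
    intro k hk c
    rw [Finset.filter_union]
    refine amalg (p'.F.filter (· ∈ J)) (q'.F.filter (· ∈ J)) R ?_ ?_ (T ∩ J) ?_ u
      (fun i => τ i k) (δ₁ := δ₁) (δ₂ := q.ε / (4 * (K + 1))) (C := C) hK hδ₁0'.le ?_ ?_ ?_ ?_ ?_ c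
    · exact fun i hi => Finset.mem_filter.2 ⟨hRp' hi, hRJ i hi⟩
    · exact fun i hi => Finset.mem_filter.2 ⟨hq'F ▸ Finset.mem_union_right _ hi, hRJ i hi⟩
    · intro i hi
      obtain ⟨h1, h2⟩ := Finset.mem_filter.1 (Finset.mem_coe.1 hi)
      exact ⟨hp'T i h1, h2⟩
    · have h1 : 2 * K * (q.ε / (4 * (K + 1))) ≤ (q.ε : ℝ) / 2 := by
        rw [mul_div_assoc', div_le_div_iff₀ (by positivity) (by norm_num)]
        nlinarith
      have h2 : (δ₁ : ℝ) * (1 + 2 * C) ≤ q.ε / 2 := by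
        rw [lt_div_iff₀ (by positivity)] at hδ₁
        linarith
      linarith
    · have h2 : (δ₁ : ℝ) * (1 + 2 * C) ≤ q.ε / 2 := by
        rw [lt_div_iff₀ (by positivity)] at hδ₁
        linarith
      nlinarith [mul_nonneg hδ₁0'.le hC]
    · intro c
      exact hp'SV k (by omega) c
    · intro c
      exact hq'SV k hk c
    · intro d
      have hsub : (q'.F.filter (· ∈ J)) \ (p'.F.filter (· ∈ J)) ⊆ q.F.filter (· ∈ J) := by
        intro i hi
        obtain ⟨h1, h2⟩ := Finset.mem_sdiff.1 hi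
        obtain ⟨h3, h4⟩ := Finset.mem_filter.1 h1
        rw [hq'F] at h3
        rcases Finset.mem_union.1 h3 with h5 | h5
        · exact Finset.mem_filter.2 ⟨h5, h4⟩
        · exact absurd (Finset.mem_filter.2 ⟨hRp' h5, h4⟩) h2
      obtain ⟨e, he1, he2⟩ := hR fun i =>
        if i ∈ (q'.F.filter (· ∈ J)) \ (p'.F.filter (· ∈ J)) then d i else 0
      have s1 : ∑ i ∈ q.F.filter (· ∈ J), |(if i ∈ (q'.F.filter (· ∈ J)) \
          (p'.F.filter (· ∈ J)) then d i else 0)| =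
          ∑ i ∈ (q'.F.filter (· ∈ J)) \ (p'.F.filter (· ∈ J)), |d i| := by
        rw [← Finset.sum_subset hsub]
        · exact Finset.sum_congr rfl fun i hi => by rw [if_pos hi]
        · intro i _ hi; rw [if_neg hi, abs_zero]
      have s2 : ∑ i ∈ q.F.filter (· ∈ J), (if i ∈ (q'.F.filter (· ∈ J)) \
          (p'.F.filter (· ∈ J)) then d i else 0) • u i =
          ∑ i ∈ (q'.F.filter (· ∈ J)) \ (p'.F.filter (· ∈ J)), d i • u i := by
        rw [← Finset.sum_subset hsub]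
        · exact Finset.sum_congr rfl fun i hi => by rw [if_pos hi]
        · intro i _ hi; rw [if_neg hi, zero_smul]
      rw [s1] at he1
      simp only [s1, s2] at he2
      exact ⟨e, he1, he2⟩
  refine ⟨⟨p'.F ∪ q'.F, q'.n, fun i k => if i ∈ p'.F then p'.f i k else q'.f i k, q.ε, q.hε, ?_⟩,
    ?_, ?_, fun i hi => Finset.mem_union.1 hi⟩
  · intro k hk
    obtain ⟨ξ, h1, h2⟩ := hb ((p'.F ∪ q'.F).filter (· ∈ J)) u (fun i => τ i k) (3 * K) q.ε
      (by positivity) hε0.le (fun c => hineq k hk c)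
    exact ⟨ξ, h1, fun i hi hJ => h2 i (Finset.mem_filter.2 ⟨hi, hJ⟩)⟩
  · refine ⟨Finset.subset_union_left, hp'n.le, hp'ε.ge, ?_, ?_⟩
    · intro i hi k _
      exact if_pos hi
    · intro k hk1 hk2
      have hk2 : k < q'.n := hk2
      omega
  · refine ⟨Finset.subset_union_right, le_rfl, hq'ε.ge, ?_, ?_⟩
    · intro i hi k hk
      show (if i ∈ p'.F then p'.f i k else q'.f i k) = q'.f i k
      split_ifs with h
      · exact hagree i h hi k hk
      · rfl
    · intro k hk1 hk2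
      have hk2 : k < q'.n := hk2
      omega

/-- inequalities for rational coefficients give inequalities for real coefficients -/
theorem ratD {κ : Type} (F : Finset κ) (v : κ → X) (b : κ → ℝ) (C ε : ℝ)
    (h : ∀ c : κ → ℚ, |∑ i ∈ F, (c i : ℝ) * b i| ≤ C * ‖∑ i ∈ F, (c i : ℝ) • v i‖ +
      ε * ∑ i ∈ F, |(c i : ℝ)|) (c : κ → ℝ) :
    |∑ i ∈ F, c i * b i| ≤ C * ‖∑ i ∈ F, c i • v i‖ + ε * ∑ i ∈ F, |c i| := by
  classical
  -- density of the rational vectors
  let Z : Set (F → ℝ) := {d | |∑ i : F, d i * b i| ≤ C * ‖∑ i : F, d i • v i‖ +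
    ε * ∑ i : F, |d i|}
  have hZ : IsClosed Z := isClosed_le (by fun_prop) (by fun_prop)
  have hd : DenseRange (fun (e : F → ℚ) (i : F) => ((e i : ℚ) : ℝ)) :=
    DenseRange.piMap fun _ => Rat.denseRange_cast
  have hall : ∀ d : F → ℝ, d ∈ Z := by
    intro d
    refine hd.induction_on (p := fun d => d ∈ Z) d hZ fun e => ?_
    have h1 := h fun i => if hi : i ∈ F then e ⟨i, hi⟩ else 0
    have e1 : ∑ i ∈ F, (((if hi : i ∈ F then e ⟨i, hi⟩ else 0 : ℚ) : ℝ) * b i) =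
        ∑ i : F, (e i : ℝ) * b i := by
      rw [← Finset.sum_coe_sort F]
      exact Finset.sum_congr rfl fun i _ => by simp
    have e2 : ∑ i ∈ F, ((if hi : i ∈ F then e ⟨i, hi⟩ else 0 : ℚ) : ℝ) • v i =
        ∑ i : F, (e i : ℝ) • v i := by
      rw [← Finset.sum_coe_sort F]
      exact Finset.sum_congr rfl fun i _ => by simp
    have e3 : ∑ i ∈ F, |((if hi : i ∈ F then e ⟨i, hi⟩ else 0 : ℚ) : ℝ)| =
        ∑ i : F, |(e i : ℝ)| := by
      rw [← Finset.sum_coe_sort F]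
      exact Finset.sum_congr rfl fun i _ => by simp
    rw [e1, e2, e3] at h1
    exact h1
  have := hall fun i => c i
  have e1 : ∑ i ∈ F, c i * b i = ∑ i : F, c i * b i := (Finset.sum_coe_sort F fun i => c i * b i).symm
  have e2 : ∑ i ∈ F, c i • v i = ∑ i : F, c i • v i := (Finset.sum_coe_sort F fun i => c i • v i).symm
  have e3 : ∑ i ∈ F, |c i| = ∑ i : F, |c i| := (Finset.sum_coe_sort F fun i => |c i|).symm
  rw [e1, e2, e3]
  exact this

/-- Helly theorem from rational coefficients -/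
theorem hbD {κ : Type} (F : Finset κ) (v : κ → X) (b : κ → ℝ) (C ε : ℝ) (hC : 0 ≤ C) (hε : 0 ≤ ε)
    (h : ∀ c : κ → ℚ, |∑ i ∈ F, (c i : ℝ) * b i| ≤ C * ‖∑ i ∈ F, (c i : ℝ) • v i‖ +
      ε * ∑ i ∈ F, |(c i : ℝ)|) :
    ∃ ξ : X →L[ℝ] ℝ, ‖ξ‖ ≤ C ∧ ∀ i ∈ F, |ξ (v i) - b i| ≤ ε :=
  hb F v b C ε hC hε (ratD F v b C ε h)

end Core

section Seminorm

variable {ι : Type}

/-- a rational seminorm -/
structure QSem (n : (ι →₀ ℚ) → ℝ) : Prop where
  nonneg : ∀ c, 0 ≤ n c
  add : ∀ c d, n (c + d) ≤ n c + n d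
  smul : ∀ (r : ℚ) c, n (r • c) = |(r : ℝ)| * n c

variable {n : (ι →₀ ℚ) → ℝ}

/-- the weighted `ℓ₁` norm -/
noncomputable def wl (n : (ι →₀ ℚ) → ℝ) (c : ι →₀ ℝ) : ℝ :=
  c.sum fun i x => |x| * n (Finsupp.single i 1)

theorem wl_eq (n : (ι →₀ ℚ) → ℝ) (c : ι →₀ ℝ) (S : Finset ι) (hS : c.support ⊆ S) :
    wl n c = ∑ i ∈ S, |c i| * n (Finsupp.single i 1) := by
  unfold wl
  exact Finsupp.sum_of_support_subset c hS _ (fun i _ => by simp)

theorem wl_add (hn : QSem n) (c d : ι →₀ ℝ) : wl n (c + d) ≤ wl n c + wl n d := by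
  classical
  rw [wl_eq n (c + d) (c.support ∪ d.support) Finsupp.support_add,
    wl_eq n c (c.support ∪ d.support) Finset.subset_union_left,
    wl_eq n d (c.support ∪ d.support) Finset.subset_union_right, ← Finset.sum_add_distrib]
  refine Finset.sum_le_sum fun i _ => ?_
  rw [← add_mul]
  exact mul_le_mul_of_nonneg_right (abs_add_le _ _) (hn.nonneg _)

theorem wl_smul (a : ℝ) (c : ι →₀ ℝ) : wl n (a • c) = |a| * wl n c := by
  rw [wl_eq n (a • c) c.support Finsupp.support_smul, wl_eq n c c.support subset_rfl,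
    Finset.mul_sum]
  refine Finset.sum_congr rfl fun i _ => ?_
  rw [Finsupp.smul_apply, smul_eq_mul, abs_mul, mul_assoc]

/-- real coefficients from rational ones -/
noncomputable def toR (c : ι →₀ ℚ) : ι →₀ ℝ := c.mapRange (fun r : ℚ => (r : ℝ)) (by simp)

theorem toR_apply (c : ι →₀ ℚ) (i : ι) : toR c i = c i := by simp [toR]

theorem toR_add (c d : ι →₀ ℚ) : toR (c + d) = toR c + toR d := by
  ext i; simp [toR_apply]

theorem toR_sub (c d : ι →₀ ℚ) : toR (c - d) = toR c - toR d := by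
  ext i; simp [toR_apply]

theorem toR_smul (r : ℚ) (c : ι →₀ ℚ) : toR (r • c) = (r : ℝ) • toR c := by
  ext i; simp [toR_apply]

theorem QSem.zero (hn : QSem n) : n 0 = 0 := by
  have := hn.smul 0 0
  simpa using this

theorem QSem.le_wl (hn : QSem n) (c : ι →₀ ℚ) : n c ≤ wl n (toR c) := by
  classical
  have hsum : ∀ (S : Finset ι) (g : ι → (ι →₀ ℚ)), n (∑ i ∈ S, g i) ≤ ∑ i ∈ S, n (g i) := by
    intro S g
    induction S using Finset.induction_on with
    | empty => simp [hn.zero]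
    | insert i S hi ih =>
      rw [Finset.sum_insert hi, Finset.sum_insert hi]
      exact (hn.add _ _).trans (by linarith)
  have h1 : c = ∑ i ∈ c.support, (c i) • (Finsupp.single i (1 : ℚ)) := by
    conv_lhs => rw [← Finsupp.sum_single c]
    unfold Finsupp.sum
    exact Finset.sum_congr rfl fun i _ => by simp
  have h2 : wl n (toR c) = ∑ i ∈ c.support, |(c i : ℝ)| * n (Finsupp.single i 1) := by
    rw [wl_eq n (toR c) c.support]
    · exact Finset.sum_congr rfl fun i _ => by rw [toR_apply]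
    · intro i hi
      rw [Finsupp.mem_support_iff, toR_apply] at hi
      exact Finsupp.mem_support_iff.2 fun h => hi (by rw [h]; simp)
  rw [h2]
  conv_lhs => rw [h1]
  refine (hsum _ _).trans (Finset.sum_le_sum fun i _ => ?_)
  rw [hn.smul]

/-- the real extension of a rational seminorm -/
noncomputable def rext (n : (ι →₀ ℚ) → ℝ) (c : ι →₀ ℝ) : ℝ :=
  ⨅ r : ι →₀ ℚ, (n r + wl n (c - toR r))

theorem wl_nonneg (hn : QSem n) (c : ι →₀ ℝ) : 0 ≤ wl n c :=
  Finset.sum_nonneg fun i _ => mul_nonneg (abs_nonneg _) (hn.nonneg _)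

theorem rext_bdd (hn : QSem n) (c : ι →₀ ℝ) :
    BddBelow (Set.range fun r : ι →₀ ℚ => n r + wl n (c - toR r)) :=
  ⟨0, by rintro _ ⟨r, rfl⟩; exact add_nonneg (hn.nonneg _) (wl_nonneg hn _)⟩

theorem rext_le (hn : QSem n) (c : ι →₀ ℝ) (r : ι →₀ ℚ) : rext n c ≤ n r + wl n (c - toR r) :=
  ciInf_le (rext_bdd hn c) r

theorem rext_add (hn : QSem n) (c d : ι →₀ ℝ) : rext n (c + d) ≤ rext n c + rext n d := by
  refine le_ciInf_add_ciInf fun r s => ?_
  refine (rext_le hn (c + d) (r + s)).trans ?_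
  have e : c + d - toR (r + s) = (c - toR r) + (d - toR s) := by rw [toR_add]; abel
  rw [e]
  have h1 := hn.add r s
  have h2 := wl_add hn (c - toR r) (d - toR s)
  linarith

theorem toR_zero : toR (0 : ι →₀ ℚ) = 0 := by ext i; simp [toR_apply]

theorem rext_le_wl (hn : QSem n) (c : ι →₀ ℝ) : rext n c ≤ wl n c := by
  have := rext_le hn c 0
  rw [hn.zero, zero_add, toR_zero, sub_zero] at this
  exact this

theorem rext_smul_rat (hn : QSem n) (q : ℚ) (c : ι →₀ ℝ) :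
    rext n ((q : ℝ) • c) ≤ |(q : ℝ)| * rext n c := by
  have : |(q : ℝ)| * rext n c = ⨅ r : ι →₀ ℚ, |(q : ℝ)| * (n r + wl n (c - toR r)) :=
    Real.mul_iInf_of_nonneg (abs_nonneg _) _
  rw [this]
  refine le_ciInf fun r => ?_
  refine (rext_le hn _ (q • r)).trans ?_
  rw [toR_smul, ← smul_sub, wl_smul, hn.smul]
  linarith

theorem rext_smul_le (hn : QSem n) (a : ℝ) (c : ι →₀ ℝ) :
    rext n (a • c) ≤ |a| * rext n c := by
  have hw := wl_nonneg hn c
  have hr : 0 ≤ rext n c := Real.iInf_nonneg fun r => add_nonneg (hn.nonneg _) (wl_nonneg hn _)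
  refine le_of_forall_pos_le_add fun ε hε => ?_
  have hpos : 0 < ε / (rext n c + wl n c + 1) := by positivity
  obtain ⟨q, hq1, hq2⟩ := exists_rat_btwn (show a - ε / (rext n c + wl n c + 1) < a by linarith)
  have h1 : |a - q| ≤ ε / (rext n c + wl n c + 1) := by
    rw [abs_le]; constructor <;> linarith
  have e : a • c = (q : ℝ) • c + (a - q) • c := by rw [← add_smul]; congr 1; ring
  have h2 : rext n (a • c) ≤ |(q : ℝ)| * rext n c + |a - q| * wl n c := by
    rw [e]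
    refine (rext_add hn _ _).trans (add_le_add (rext_smul_rat hn q c) ?_)
    rw [← wl_smul]
    exact rext_le_wl hn _
  have h3 : |(q : ℝ)| ≤ |a| + |a - q| := by
    have := abs_sub_abs_le_abs_sub (q : ℝ) a
    rw [abs_sub_comm] at this
    linarith
  have h4 : |a - q| * (rext n c + wl n c + 1) ≤ ε := by
    rw [le_div_iff₀ (by positivity)] at h1
    exact h1
  have h5 := mul_le_mul_of_nonneg_right h3 hr
  nlinarith [abs_nonneg (a - q)]

theorem rext_toR (hn : QSem n) (c : ι →₀ ℚ) : rext n (toR c) = n c := by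
  refine le_antisymm ?_ (le_ciInf fun r => ?_)
  · have := rext_le hn (toR c) c
    rw [sub_self] at this
    have e : wl n (0 : ι →₀ ℝ) = 0 := by simp [wl]
    rw [e, add_zero] at this
    exact this
  · have h1 := hn.add r (c - r)
    rw [add_sub_cancel] at h1
    have h2 := hn.le_wl (c - r)
    rw [toR_sub] at h2
    linarith

/-- the real seminorm -/
noncomputable def rsem (hn : QSem n) : Seminorm ℝ (ι →₀ ℝ) :=
  Seminorm.ofSMulLE (rext n)
    (by have := rext_toR hn 0; rw [toR_zero, hn.zero] at this; exact this)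
    (rext_add hn) (fun a c => by rw [Real.norm_eq_abs]; exact rext_smul_le hn a c)

theorem exists_normed (hn : QSem n) : ∃ (X : Type) (_ : NormedAddCommGroup X)
    (_ : NormedSpace ℝ X) (u : ι → X), ∀ (S : Finset ι) (c : ι → ℚ),
      ‖∑ i ∈ S, (c i : ℝ) • u i‖ = n (∑ i ∈ S, Finsupp.single i (c i)) := by
  letI i1 : SeminormedAddCommGroup (ι →₀ ℝ) := (rsem hn).toAddGroupSeminorm.toSeminormedAddCommGroup
  letI i2 : NormedSpace ℝ (ι →₀ ℝ) :=
    { norm_smul_le := fun a c => by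
        show rext n (a • c) ≤ ‖a‖ * rext n c
        rw [Real.norm_eq_abs]
        exact rext_smul_le hn a c }
  refine ⟨SeparationQuotient (ι →₀ ℝ), inferInstance, inferInstance,
    fun i => SeparationQuotient.mk (Finsupp.single i 1), fun S c => ?_⟩
  have e : ∑ i ∈ S, (c i : ℝ) • SeparationQuotient.mk (Finsupp.single i (1 : ℝ)) =
      SeparationQuotient.mk (∑ i ∈ S, (c i : ℝ) • Finsupp.single i (1 : ℝ)) := by
    have := map_sum (SeparationQuotient.mkCLM ℝ (ι →₀ ℝ)).toLinearMap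
      (fun i => (c i : ℝ) • Finsupp.single i (1 : ℝ)) S
    exact this.symm
  rw [e, SeparationQuotient.norm_mk]
  have e2 : ∑ i ∈ S, (c i : ℝ) • Finsupp.single i (1 : ℝ) =
      toR (∑ i ∈ S, Finsupp.single i (c i)) := by
    ext j
    rw [toR_apply]
    simp only [Finsupp.finset_sum_apply, Finsupp.smul_apply, smul_eq_mul, Rat.cast_sum]
    refine Finset.sum_congr rfl fun i _ => ?_
    by_cases h : i = j
    · subst h; simp
    · simp [h]
  rw [e2]
  exact rext_toR hn _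

end Seminorm

end Pool.Agent.MAx
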