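import Pool.Agent.MAx.Gen
import Pool.Agent.MAx.Core
import Pool.Agent.BVM.Deep

/-!
# Boolean-valued seminorms and sequences of functionals, and their evaluation
-/

namespace Pool.Agent.MAx

open Classical Pool.Agent.BVM Pool.Agent.Forcing Pool.Agent.LadderTree

/-- the `ℓ₁` norm -/
noncomputable def l1 {ι : Type} (c : ι →₀ ℚ) : ℚ := c.sum fun _ r => |r|

/-- Boolean-valued data: a seminorm `N`, functionals `W · k`, and a set `J` of indices -/
structure BD (B : Type) [CompleteBooleanAlgebra B] (ι : Type) where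
  /-- the seminorm -/
  N : (ι →₀ ℚ) → BR B
  /-- the functionals -/
  W : (ι →₀ ℚ) → ℕ → BR B
  /-- the domain -/
  J : ι → B
  N_pos : ∀ c q, q ≤ 0 → (N c).lt q = ⊥
  N_add : ∀ c d q q', (N c).lt q ⊓ (N d).lt q' ≤ (N (c + d)).lt (q + q')
  N_smul : ∀ (r : ℚ) c q, r ≠ 0 → (N c).lt q ≤ (N (r • c)).lt (|r| * q)
  N_zero : ∀ q, 0 < q → (N 0).lt q = ⊤
  W_add : ∀ c d k q q', (W c k).lt q ⊓ (W d k).lt q' ≤ (W (c + d) k).lt (q + q')
  W_smul : ∀ (r : ℚ) c k q, 0 < r → (W c k).lt q ≤ (W (r • c) k).lt (r * q)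
  W_neg : ∀ c k q q', -q < q' → ((W c k).lt q)ᶜ ≤ (W (-c) k).lt q'
  W_zero : ∀ k q, (W 0 k).lt q = tv (0 < q)
  hyp : ∀ (c : ι →₀ ℚ) (ε : ℚ), 0 < ε → c.support.inf J ≤ ⨆ n₀ : ℕ, ⨅ x : ℕ × ℚ,
    (tv (n₀ ≤ x.1) ⊓ (N c).lt x.2) ⇨ (W c x.1).lt (x.2 + ε)

section

variable {B : Type} [CompleteBooleanAlgebra B] {ι : Type} (d : BD B ι)

theorem uf_finset_inf {F : UF B} {S : Finset ι} {J : ι → B} :
    F.U (S.inf J) ↔ ∀ i ∈ S, F.U (J i) := by
  induction S using Finset.induction_on with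
  | empty => simp [F.top]
  | insert i S _ ih =>
    rw [Finset.inf_insert, F.inf_iff, ih]
    simp

theorem uf_tv {F : UF B} {p : Prop} : F.U (tv p) ↔ p := by
  by_cases hp : p
  · rw [tv_true hp]; exact ⟨fun _ => hp, fun _ => F.top⟩
  · rw [tv_false hp]; exact ⟨fun h => (F.bot h).elim, fun h => (hp h).elim⟩

/-- finitely supported coefficient vectors in a set -/
abbrev FS (Z : Set ι) : Type := {c : ι →₀ ℚ // ↑c.support ⊆ Z}

theorem countable_finsupp {κ : Type} {Z : Set κ} (hZ : Z.Countable) :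
    Countable {c : κ →₀ ℚ // ↑c.support ⊆ Z} := by
  have : Countable Z := hZ.to_subtype
  let g : {c : κ →₀ ℚ // ↑c.support ⊆ Z} → (Z →₀ ℚ) := fun c => c.1.comapDomain Subtype.val
    Subtype.val_injective.injOn
  have hg : Function.Injective g := by
    intro c c' h
    apply Subtype.ext
    ext i
    by_cases hi : i ∈ Z
    · have := DFunLike.congr_fun h ⟨i, hi⟩
      exact this
    · have h1 : c.1 i = 0 := by
        by_contra hne
        exact hi (c.2 (Finsupp.mem_support_iff.2 hne))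
      have h2 : c'.1 i = 0 := by
        by_contra hne
        exact hi (c'.2 (Finsupp.mem_support_iff.2 hne))
      rw [h1, h2]
  exact hg.countable

instance (S : Finset ι) : Countable (FS (↑S : Set ι)) := countable_finsupp S.countable_toSet

/-- respecting the basic families -/
structure Basic (F : UF B) (Z : Set ι) : Prop where
  N : ∀ c : ι →₀ ℚ, ↑c.support ⊆ Z → Resp F (d.N c)
  W : ∀ c : ι →₀ ℚ, ↑c.support ⊆ Z → ∀ k, Resp F (d.W c k)
  hs : ∀ (c : ι →₀ ℚ) (ε : ℚ), ↑c.support ⊆ Z → RS F fun n₀ : ℕ => ⨅ x : ℕ × ℚ,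
    (tv (n₀ ≤ x.1) ⊓ (d.N c).lt x.2) ⇨ (d.W c x.1).lt (x.2 + ε)

/-- the basic families -/
noncomputable def basicFams (Z : Set ι) : Set (ℕ → B) :=
  (⋃ c : FS Z, (d.N c.1).fams) ∪ (⋃ x : FS Z × ℕ, (d.W x.1.1 x.2).fams) ∪
    Set.range fun x : FS Z × ℚ => seqOf fun n₀ : ℕ => ⨅ y : ℕ × ℚ,
      (tv (n₀ ≤ y.1) ⊓ (d.N x.1.1).lt y.2) ⇨ (d.W x.1.1 y.1).lt (y.2 + x.2)

theorem basicFams_countable {Z : Set ι} (hZ : Z.Countable) : (basicFams d Z).Countable := by
  have : Countable (FS Z) := countable_finsupp hZ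
  refine ((Set.countable_iUnion fun c => BR.fams_countable _).union
    (Set.countable_iUnion fun c => BR.fams_countable _)).union (Set.countable_range _)

theorem basic_of {F : UF B} {Z : Set ι}
    (h : ∀ g ∈ basicFams d Z, F.U (⨆ m, g m) → ∃ m, F.U (g m)) : Basic d F Z := by
  refine ⟨fun c hc => resp_of fun g hg => h g (Or.inl (Or.inl ?_)),
    fun c hc k => resp_of fun g hg => h g (Or.inl (Or.inr ?_)),
    fun c ε hc => rs_of_seq (h _ (Or.inr ⟨(⟨c, hc⟩, ε), rfl⟩))⟩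
  · exact Set.mem_iUnion.2 ⟨⟨c, hc⟩, hg⟩
  · exact Set.mem_iUnion.2 ⟨(⟨c, hc⟩, k), hg⟩

/-- restriction of the support -/
noncomputable def rz (Z : Set ι) (c : ι →₀ ℚ) : ι →₀ ℚ := c.filter (· ∈ Z)

theorem rz_supp (Z : Set ι) (c : ι →₀ ℚ) : ↑(rz Z c).support ⊆ Z := by
  intro i hi
  have hi : i ∈ (rz Z c).support := hi
  rw [rz, Finsupp.support_filter, Finset.mem_filter] at hi
  exact hi.2

theorem rz_eq {Z : Set ι} {c : ι →₀ ℚ} (h : ↑c.support ⊆ Z) : rz Z c = c := by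
  rw [rz, Finsupp.filter_eq_self_iff]
  intro i hi
  exact h (Finsupp.mem_support_iff.2 hi)

theorem rz_add (Z : Set ι) (c c' : ι →₀ ℚ) : rz Z (c + c') = rz Z c + rz Z c' :=
  Finsupp.filter_add

theorem rz_smul (Z : Set ι) (r : ℚ) (c : ι →₀ ℚ) : rz Z (r • c) = r • rz Z c :=
  Finsupp.filter_smul

/-- the evaluated seminorm -/
noncomputable def nF (F : UF B) (Z : Set ι) (c : ι →₀ ℚ) : ℝ := ev F (d.N (rz Z c))

/-- the evaluated functionals -/
noncomputable def wF (F : UF B) (Z : Set ι) (c : ι →₀ ℚ) (k : ℕ) : ℝ := ev F (d.W (rz Z c) k)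

variable {d} {F : UF B} {Z : Set ι}

theorem nF_lt (h : Basic d F Z) {c : ι →₀ ℚ} (hc : ↑c.support ⊆ Z) (q : ℚ) :
    nF d F Z c < q ↔ F.U ((d.N c).lt q) := by
  unfold nF
  rw [rz_eq hc]
  exact ev_lt (h.N c hc) q

theorem wF_lt (h : Basic d F Z) {c : ι →₀ ℚ} (hc : ↑c.support ⊆ Z) (k : ℕ) (q : ℚ) :
    wF d F Z c k < q ↔ F.U ((d.W c k).lt q) := by
  unfold wF
  rw [rz_eq hc]
  exact ev_lt (h.W c hc k) q

theorem split_lt {a b q : ℝ} (h : a + b < q) : ∃ q1 q2 : ℚ, a < q1 ∧ b < q2 ∧ (q1 : ℝ) + q2 < q := by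
  obtain ⟨q1, h1, h2⟩ := exists_rat_btwn (show a < a + (q - a - b) / 2 by linarith)
  obtain ⟨q2, h3, h4⟩ := exists_rat_btwn (show b < b + (q - a - b) / 2 by linarith)
  exact ⟨q1, q2, h1, h3, by linarith⟩

theorem qsem_nF (h : Basic d F Z) : QSem (nF d F Z) := by
  have hlt : ∀ c q, nF d F Z c < (q : ℚ) ↔ F.U ((d.N (rz Z c)).lt q) :=
    fun c q => ev_lt (h.N _ (rz_supp Z c)) q
  have hle : ∀ c (r : ℝ), (∀ q : ℚ, r < q → F.U ((d.N (rz Z c)).lt q)) → nF d F Z c ≤ r :=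
    fun c r h' => ev_le_of (h.N _ (rz_supp Z c)) h'
  have hpos : ∀ c, 0 ≤ nF d F Z c := by
    intro c
    by_contra hcon
    push Not at hcon
    obtain ⟨q, h1, h2⟩ := exists_rat_btwn hcon
    have h3 := (hlt c q).1 h1
    rw [d.N_pos _ q (by exact_mod_cast h2.le)] at h3
    exact F.bot h3
  have hsm : ∀ (r : ℚ) c, r ≠ 0 → nF d F Z (r • c) ≤ |(r : ℝ)| * nF d F Z c := by
    intro r c hr
    refine hle _ _ fun q hq => ?_
    have hr' : (0 : ℚ) < |r| := abs_pos.2 hr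
    have hr'' : (0 : ℝ) < |(r : ℝ)| := by
      rw [abs_pos]; exact_mod_cast hr
    have h1 : nF d F Z c < ((q / |r| : ℚ) : ℝ) := by
      push_cast
      rw [lt_div_iff₀ hr'']
      linarith
    have h2 := F.mono (d.N_smul r _ _ hr) ((hlt c _).1 h1)
    rw [rz_smul]
    rwa [mul_div_cancel₀ _ hr'.ne'] at h2
  refine ⟨hpos, ?_, ?_⟩
  · intro c c'
    refine hle _ _ fun q hq => ?_
    obtain ⟨q1, q2, h1, h2, h3⟩ := split_lt hq
    have h4 := F.mono (d.N_add _ _ q1 q2) (F.inf ((hlt c q1).1 h1) ((hlt c' q2).1 h2))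
    rw [rz_add]
    refine F.mono ((d.N _).mono _ _ ?_) h4
    exact_mod_cast h3.le
  · intro r c
    by_cases hr : r = 0
    · subst hr
      have h0 : nF d F Z ((0 : ℚ) • c) ≤ 0 := by
        refine hle _ _ fun q hq => ?_
        rw [rz_smul, zero_smul, d.N_zero q (by exact_mod_cast hq)]
        exact F.top
      have := hpos ((0 : ℚ) • c)
      simp only [Rat.cast_zero, abs_zero, zero_mul]
      exact le_antisymm h0 this
    · refine le_antisymm (hsm r c hr) ?_
      have h1 := hsm r⁻¹ (r • c) (inv_ne_zero hr)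
      rw [smul_smul, inv_mul_cancel₀ hr, one_smul] at h1
      have hr'' : (0 : ℝ) < |(r : ℝ)| := by
        rw [abs_pos]; exact_mod_cast hr
      rw [Rat.cast_inv, abs_inv] at h1
      rwa [inv_mul_eq_div, le_div_iff₀ hr'', mul_comm] at h1

theorem wF_add (h : Basic d F Z) (c c' : ι →₀ ℚ) (k : ℕ) :
    wF d F Z (c + c') k = wF d F Z c k + wF d F Z c' k := by
  have hlt : ∀ c q, wF d F Z c k < (q : ℚ) ↔ F.U ((d.W (rz Z c) k).lt q) :=
    fun c q => ev_lt (h.W _ (rz_supp Z c) k) q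
  have hle : ∀ c (r : ℝ), (∀ q : ℚ, r < q → F.U ((d.W (rz Z c) k).lt q)) → wF d F Z c k ≤ r :=
    fun c r h' => ev_le_of (h.W _ (rz_supp Z c) k) h'
  have hadd : ∀ c c', wF d F Z (c + c') k ≤ wF d F Z c k + wF d F Z c' k := by
    intro c c'
    refine hle _ _ fun q hq => ?_
    obtain ⟨q1, q2, h1, h2, h3⟩ := split_lt hq
    have h4 := F.mono (d.W_add _ _ k q1 q2) (F.inf ((hlt c q1).1 h1) ((hlt c' q2).1 h2))
    rw [rz_add]
    refine F.mono ((d.W _ _).mono _ _ ?_) h4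
    exact_mod_cast h3.le
  have hneg : ∀ c, wF d F Z (-c) k ≤ - wF d F Z c k := by
    intro c
    refine hle _ _ fun q' hq' => ?_
    obtain ⟨q, h1, h2⟩ := exists_rat_btwn (show -(q' : ℝ) < wF d F Z c k by linarith)
    have h3 : ¬ F.U ((d.W (rz Z c) k).lt q) := fun hU => absurd ((hlt c q).2 hU) (not_lt.2 h2.le)
    rw [← F.compl_iff] at h3
    have e : rz Z (-c) = - rz Z c := by
      have := rz_smul Z (-1) c
      simpa using this
    rw [e]
    refine F.mono (d.W_neg _ k q q' ?_) h3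
    have : (-(q' : ℝ)) < q := h1
    have h5 : -(q : ℝ) < q' := by linarith
    exact_mod_cast h5
  refine le_antisymm (hadd c c') ?_
  have h1 := hadd (c + c') (-c')
  rw [add_neg_cancel_right] at h1
  have h2 := hneg c'
  linarith

theorem wF_zero (h : Basic d F Z) (k : ℕ) : wF d F Z 0 k = 0 := by
  have := wF_add h 0 0 k
  rw [add_zero] at this
  linarith

theorem wF_neg (h : Basic d F Z) (c : ι →₀ ℚ) (k : ℕ) : wF d F Z (-c) k = - wF d F Z c k := by
  have := wF_add h c (-c) k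
  rw [add_neg_cancel, wF_zero h] at this
  linarith

theorem wF_smul (h : Basic d F Z) (r : ℚ) (c : ι →₀ ℚ) (k : ℕ) :
    wF d F Z (r • c) k = r * wF d F Z c k := by
  have hlt : ∀ c q, wF d F Z c k < (q : ℚ) ↔ F.U ((d.W (rz Z c) k).lt q) :=
    fun c q => ev_lt (h.W _ (rz_supp Z c) k) q
  have hle : ∀ c (r : ℝ), (∀ q : ℚ, r < q → F.U ((d.W (rz Z c) k).lt q)) → wF d F Z c k ≤ r :=
    fun c r h' => ev_le_of (h.W _ (rz_supp Z c) k) h'
  have hsm : ∀ (r : ℚ) c, 0 < r → wF d F Z (r • c) k ≤ r * wF d F Z c k := by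
    intro r c hr
    refine hle _ _ fun q hq => ?_
    have hr'' : (0 : ℝ) < (r : ℝ) := by exact_mod_cast hr
    have h1 : wF d F Z c k < ((q / r : ℚ) : ℝ) := by
      push_cast
      rw [lt_div_iff₀ hr'']
      linarith
    have h2 := F.mono (d.W_smul r _ _ _ hr) ((hlt c _).1 h1)
    rw [rz_smul]
    rwa [mul_div_cancel₀ _ hr.ne'] at h2
  have hsm' : ∀ (r : ℚ) c, 0 < r → wF d F Z (r • c) k = r * wF d F Z c k := by
    intro r c hr
    refine le_antisymm (hsm r c hr) ?_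
    have h1 := hsm r⁻¹ (r • c) (inv_pos.2 hr)
    rw [smul_smul, inv_mul_cancel₀ hr.ne', one_smul] at h1
    have hr'' : (0 : ℝ) < (r : ℝ) := by exact_mod_cast hr
    rw [Rat.cast_inv] at h1
    rwa [inv_mul_eq_div, le_div_iff₀ hr'', mul_comm] at h1
  rcases lt_trichotomy r 0 with hr | rfl | hr
  · have h1 := hsm' (-r) c (by linarith)
    rw [neg_smul, wF_neg h] at h1
    push_cast at h1
    linarith
  · rw [zero_smul, wF_zero h]; simp
  · exact hsm' r c hr

/-- the finitely supported function of a vector -/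
noncomputable def fs (S : Finset ι) (c : ι → ℚ) : ι →₀ ℚ := ∑ i ∈ S, Finsupp.single i (c i)

theorem fs_apply (S : Finset ι) (c : ι → ℚ) (i : ι) : fs S c i = if i ∈ S then c i else 0 := by
  unfold fs
  rw [Finsupp.finset_sum_apply]
  by_cases hi : i ∈ S
  · rw [if_pos hi, Finset.sum_eq_single i]
    · simp
    · intro j _ hj; simp [hj]
    · intro h; exact absurd hi h
  · rw [if_neg hi]
    refine Finset.sum_eq_zero fun j hj => ?_
    have : j ≠ i := fun h => hi (h ▸ hj)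
    simp [this]

theorem fs_supp (S : Finset ι) (c : ι → ℚ) : (fs S c).support ⊆ S := by
  intro i hi
  rw [Finsupp.mem_support_iff, fs_apply] at hi
  by_contra h
  exact hi (if_neg h)

theorem fs_self {S : Finset ι} {c : ι →₀ ℚ} (h : c.support ⊆ S) : fs S c = c := by
  ext i
  rw [fs_apply]
  split_ifs with hi
  · rfl
  · by_contra hne
    exact hi (h (Finsupp.mem_support_iff.2 (Ne.symm hne)))

theorem l1_fs (S : Finset ι) (c : ι → ℚ) : l1 (fs S c) = ∑ i ∈ S, |c i| := by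
  unfold l1
  rw [Finsupp.sum_of_support_subset _ (fs_supp S c) _ (fun _ _ => abs_zero)]
  exact Finset.sum_congr rfl fun i hi => by rw [fs_apply, if_pos hi]

theorem l1_nonneg (c : ι →₀ ℚ) : 0 ≤ l1 c := Finset.sum_nonneg fun _ _ => abs_nonneg _

theorem wF_fs (h : Basic d F Z) (S : Finset ι) (c : ι → ℚ) (k : ℕ) :
    wF d F Z (fs S c) k = ∑ i ∈ S, (c i : ℝ) * wF d F Z (Finsupp.single i 1) k := by
  unfold fs
  induction S using Finset.induction_on with
  | empty => simp [wF_zero h]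
  | insert i S hi ih =>
    rw [Finset.sum_insert hi, Finset.sum_insert hi, wF_add h, ih]
    congr 1
    rw [← wF_smul h]
    congr 1
    simp

/-- the evaluated domain -/
def JF (d : BD B ι) (F : UF B) (Z : Set ι) : Set ι := {i | i ∈ Z ∧ F.U (d.J i)}

/-- the evaluated data satisfy the standing hypothesis -/
theorem hypF (h : Basic d F Z) {X : Type} [NormedAddCommGroup X] [NormedSpace ℝ X]
    {u : ι → X} (hu : ∀ (S : Finset ι) (c : ι → ℚ),
      ‖∑ i ∈ S, (c i : ℝ) • u i‖ = nF d F Z (fs S c)) :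
    H90.Hyp u (JF d F Z) (fun i k => wF d F Z (Finsupp.single i 1) k) 1 := by
  refine ⟨zero_le_one, fun S hS δ hδ => ?_⟩
  set τ : ι → ℕ → ℝ := fun i k => wF d F Z (Finsupp.single i 1) k with hτ
  have hq : ∀ (c : ι → ℚ) (η : ℚ), 0 < η → ∀ᶠ k in Filter.atTop,
      ∑ i ∈ S, (c i : ℝ) * τ i k ≤ ‖∑ i ∈ S, (c i : ℝ) • u i‖ + η := by
    intro c η hη
    have hsub : ↑(fs S c).support ⊆ Z := fun i hi => (hS i (fs_supp S c hi)).1
    have h1 : F.U ((fs S c).support.inf d.J) :=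
      uf_finset_inf.2 fun i hi => (hS i (fs_supp S c hi)).2
    have h2 := F.mono (d.hyp (fs S c) η hη) h1
    obtain ⟨n₀, hn⟩ := h.hs (fs S c) η hsub h2
    filter_upwards [Filter.eventually_ge_atTop n₀] with k hk
    rw [hu, ← wF_fs h]
    refine le_of_forall_pos_le_add fun e he => ?_
    obtain ⟨q, hq1, hq2⟩ := exists_rat_btwn (show nF d F Z (fs S c) < nF d F Z (fs S c) + e by
      linarith)
    have h3 := F.mono (iInf_le _ (k, q)) hn
    rw [F.himp_iff, F.inf_iff, uf_tv] at h3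
    have h4 := h3 ⟨hk, (nF_lt h hsub q).1 hq1⟩
    have h5 := (wF_lt h hsub k _).2 h4
    push_cast at h5
    linarith
  have hq' : ∀ (c : ι → ℚ) (η : ℚ), 0 < η → ∀ᶠ k in Filter.atTop,
      |∑ i ∈ S, (c i : ℝ) * τ i k| ≤ ‖∑ i ∈ S, (c i : ℝ) • u i‖ + η := by
    intro c η hη
    filter_upwards [hq c η hη, hq (fun i => - c i) η hη] with k h1 h2
    have e1 : ∑ i ∈ S, ((-c i : ℚ) : ℝ) * τ i k = - ∑ i ∈ S, (c i : ℝ) * τ i k := by
      rw [← Finset.sum_neg_distrib]
      exact Finset.sum_congr rfl fun i _ => by push_cast; ring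
    have e2 : ∑ i ∈ S, ((-c i : ℚ) : ℝ) • u i = - ∑ i ∈ S, (c i : ℝ) • u i := by
      rw [← Finset.sum_neg_distrib]
      exact Finset.sum_congr rfl fun i _ => by push_cast; rw [neg_smul]
    rw [e1, e2, norm_neg] at h2
    rw [abs_le]
    constructor <;> linarith
  -- boundedness
  have hb : ∀ i ∈ S, ∃ C : ℝ, ∀ k, |τ i k| ≤ C := by
    intro i hi
    obtain ⟨N, hN⟩ := Filter.eventually_atTop.1 (hq' (fun j => if j = i then 1 else 0) 1 one_pos)
    refine ⟨(‖∑ j ∈ S, (((if j = i then 1 else 0 : ℚ)) : ℝ) • u j‖ + (1 : ℚ)) +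
      ∑ n ∈ Finset.range N, |τ i n|, fun k => ?_⟩
    have hs : 0 ≤ ∑ n ∈ Finset.range N, |τ i n| := Finset.sum_nonneg fun _ _ => abs_nonneg _
    have e : ∑ j ∈ S, (((if j = i then 1 else 0 : ℚ)) : ℝ) * τ j k = τ i k := by
      rw [Finset.sum_eq_single i]
      · simp
      · intro j _ hj; simp [hj]
      · intro hi'; exact absurd hi hi'
    rcases lt_or_ge k N with hk | hk
    · have := Finset.single_le_sum (f := fun n => |τ i n|) (fun _ _ => abs_nonneg _)
        (Finset.mem_range.2 hk)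
      have h0 := norm_nonneg (∑ j ∈ S, (((if j = i then 1 else 0 : ℚ)) : ℝ) • u j)
      push_cast
      linarith
    · have := hN k hk
      rw [e] at this
      linarith
  choose! C hC using hb
  refine H90.eventually_strong S u τ 1 (∑ i ∈ S, |C i|) ?_ ?_ hδ
  · intro i hi k
    exact ((hC i hi k).trans (le_abs_self _)).trans (Finset.single_le_sum
      (f := fun i => |C i|) (fun i _ => abs_nonneg _) hi)
  · intro c η hη
    -- rational approximation
    have hpos : 0 < η / (4 * (∑ i ∈ S, (|C i| + ‖u i‖) + 1)) := by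
      have : 0 ≤ ∑ i ∈ S, (|C i| + ‖u i‖) :=
        Finset.sum_nonneg fun i _ => add_nonneg (abs_nonneg _) (norm_nonneg _)
      positivity
    have hr : ∀ i, ∃ r : ℚ, |c i - r| ≤ η / (4 * (∑ i ∈ S, (|C i| + ‖u i‖) + 1)) := by
      intro i
      obtain ⟨r, h1, h2⟩ := exists_rat_btwn
        (show c i - η / (4 * (∑ i ∈ S, (|C i| + ‖u i‖) + 1)) < c i by linarith)
      exact ⟨r, by rw [abs_le]; constructor <;> linarith⟩
    choose r hr using hr
    obtain ⟨η', hη'1, hη'2⟩ := exists_rat_btwn (show (0 : ℝ) < η / 2 by linarith)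
    filter_upwards [hq' r η' (by exact_mod_cast hη'1)] with k hk
    set M := ∑ i ∈ S, (|C i| + ‖u i‖) with hM
    have hM0 : 0 ≤ M := Finset.sum_nonneg fun i _ => add_nonneg (abs_nonneg _) (norm_nonneg _)
    have hη4 : η / (4 * (M + 1)) * M ≤ η / 4 := by
      rw [div_mul_eq_mul_div, div_le_div_iff₀ (by positivity) (by norm_num)]
      nlinarith
    have h1 : |∑ i ∈ S, c i * τ i k| ≤ |∑ i ∈ S, (r i : ℝ) * τ i k| + η / 4 := by
      have e : ∑ i ∈ S, c i * τ i k = ∑ i ∈ S, (r i : ℝ) * τ i k +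
          ∑ i ∈ S, (c i - r i) * τ i k := by
        rw [← Finset.sum_add_distrib]
        exact Finset.sum_congr rfl fun i _ => by ring
      rw [e]
      refine (abs_add_le _ _).trans (add_le_add le_rfl ?_)
      refine (Finset.abs_sum_le_sum_abs _ _).trans (le_trans ?_ hη4)
      rw [hM, Finset.mul_sum]
      refine Finset.sum_le_sum fun i hi => ?_
      rw [abs_mul]
      refine mul_le_mul (hr i) ?_ (abs_nonneg _) hpos.le
      exact ((hC i hi k).trans (le_abs_self _)).trans (le_add_of_nonneg_right (norm_nonneg _))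
    have h2 : ‖∑ i ∈ S, (r i : ℝ) • u i‖ ≤ ‖∑ i ∈ S, c i • u i‖ + η / 4 := by
      have e : ∑ i ∈ S, (r i : ℝ) • u i = ∑ i ∈ S, c i • u i + ∑ i ∈ S, ((r i : ℝ) - c i) • u i := by
        rw [← Finset.sum_add_distrib]
        exact Finset.sum_congr rfl fun i _ => by rw [← add_smul]; congr 1; ring
      rw [e]
      refine (norm_add_le _ _).trans (add_le_add le_rfl ?_)
      refine (norm_sum_le _ _).trans (le_trans ?_ hη4)
      rw [hM, Finset.mul_sum]
      refine Finset.sum_le_sum fun i hi => ?_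
      rw [norm_smul, Real.norm_eq_abs, abs_sub_comm]
      exact mul_le_mul (hr i) (le_add_of_nonneg_left (abs_nonneg _)) (norm_nonneg _) hpos.le
    linarith

end

end Pool.Agent.MAx
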