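import Pool.Agent.MAx.BSC
import Pool.Agent.MAx.Book

/-!
# The sequences obtained from the Boolean-valued generic filter
-/

namespace Pool.Agent.MAx

open Classical Pool.Agent.BVM Pool.Agent.Forcing Pool.Agent.LadderTree Cardinal

section

variable {B : Type} [CompleteBooleanAlgebra B] {ι : Type} (d : BD B ι)

theorem real_fs_sum {X : Type} [NormedAddCommGroup X] [NormedSpace ℝ X] {u : ι → X} {F : UF B}
    {Z : Set ι} (hu : Realizes d F Z u) (S : Finset ι) (c : ι →₀ ℚ) (hc : c.support ⊆ S) :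
    ‖∑ i ∈ S, (c i : ℝ) • u i‖ = nF d F Z c := by
  rw [hu, fs_self hc]

/-- the norm estimate -/
theorem est_norm (x y : CD ι) (k : ℕ) (hk : x.n ≤ k) (hk' : k < y.n) (c g : ι →₀ ℚ)
    (hc : c.support ⊆ x.F) (hg : ∀ i ∈ c.support, y.f (i, k) = g i) (q ε : ℚ)
    (hε : x.ε * l1 c ≤ ε) :
    val' d x ⊓ val' d y ⊓ ord' d y x ⊓ (d.N c).lt q ≤
      tv ((c.sum fun i r => r * g i) < 3 * q + ε) := by
  let Z : Set ι := ↑(x.sp ∪ y.sp)
  have hx : ↑x.sp ⊆ Z := by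
    simp only [Z, Finset.coe_union]
    exact Set.subset_union_left
  have hy : ↑y.sp ⊆ Z := by
    simp only [Z, Finset.coe_union]
    exact Set.subset_union_right
  refine le_of_good d (Z := Z) (Finset.countable_toSet _) Set.countable_empty fun F hF _ hU => ?_
  simp only [F.inf_iff] at hU
  obtain ⟨⟨⟨hvx, hvy⟩, hxy⟩, hq⟩ := hU
  obtain ⟨X, _, _, u, hu⟩ := exists_realizes hF.basic
  obtain ⟨p, hp⟩ := exists_rp hF hu hx hvx
  obtain ⟨p', hp'⟩ := exists_rp hF hu hy hvy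
  rw [Rp.ord hF hu hx hy hp hp', H90.Cond.le_def] at hxy
  obtain ⟨ξ, h1, h2, -⟩ := hxy.2.2.2.2 k (hp.n.symm ▸ hk) (hp'.n.symm ▸ hk')
  have hcZ : ↑c.support ⊆ Z := fun i hi => hx (x.F_sub (hc hi))
  have hnq := (nF_lt hF.basic hcZ q).2 hq
  rw [uf_tv]
  have h3 : ∀ i ∈ c.support, |ξ (u i) - (g i : ℝ)| ≤ x.ε := by
    intro i hi
    have h4 := h2 i (hp.F.symm ▸ hc hi)
    rw [hp.ε, hp'.f i (by rw [← hp'.F]; exact hxy.1 (hp.F.symm ▸ hc hi)) k hk', hg i hi] at h4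
    exact h4
  have h4 := sum_bound c.support u (fun i => (g i : ℝ)) ξ h1 h3 (fun i => (c i : ℝ))
  rw [real_fs_sum d hu c.support c subset_rfl] at h4
  have h5 : ((l1 c : ℚ) : ℝ) = ∑ i ∈ c.support, |(c i : ℝ)| := by
    unfold l1 Finsupp.sum
    push_cast
    rfl
  have h6 : (((c.sum fun i r => r * g i) : ℚ) : ℝ) = ∑ i ∈ c.support, (c i : ℝ) * (g i : ℝ) := by
    unfold Finsupp.sum
    push_cast
    rfl
  have h7 : (((c.sum fun i r => r * g i) : ℚ) : ℝ) < ((3 * q + ε : ℚ) : ℝ) := by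
    rw [h6]
    push_cast
    have h8 := (abs_le.1 h4).2
    rw [← h5] at h8
    have h9 : (x.ε : ℝ) * (l1 c : ℝ) ≤ ε := by exact_mod_cast hε
    linarith
  exact_mod_cast h7

/-- the estimate on the domain -/
theorem est_dom (x y : CD ι) (k : ℕ) (hk : x.n ≤ k) (hk' : k < y.n) (i : ι) (hi : i ∈ x.F)
    (a ε : ℚ) (ha : y.f (i, k) = a) (hε : 2 * x.ε < ε) :
    val' d x ⊓ val' d y ⊓ ord' d y x ⊓ d.J i ≤
      (d.W (Finsupp.single i 1) k).lt (a + ε) ⊓ (d.W (-Finsupp.single i 1) k).lt (-a + ε) := by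
  let Z : Set ι := ↑(x.sp ∪ y.sp)
  have hx : ↑x.sp ⊆ Z := by
    simp only [Z, Finset.coe_union]
    exact Set.subset_union_left
  have hy : ↑y.sp ⊆ Z := by
    simp only [Z, Finset.coe_union]
    exact Set.subset_union_right
  refine le_of_good d (Z := Z) (Finset.countable_toSet _) Set.countable_empty fun F hF _ hU => ?_
  simp only [F.inf_iff] at hU
  obtain ⟨⟨⟨hvx, hvy⟩, hxy⟩, hJ⟩ := hU
  obtain ⟨X, _, _, u, hu⟩ := exists_realizes hF.basic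
  obtain ⟨p, hp⟩ := exists_rp hF hu hx hvx
  obtain ⟨p', hp'⟩ := exists_rp hF hu hy hvy
  rw [Rp.ord hF hu hx hy hp hp', H90.Cond.le_def] at hxy
  obtain ⟨ξ, h1, h2, h3⟩ := hxy.2.2.2.2 k (hp.n.symm ▸ hk) (hp'.n.symm ▸ hk')
  have hiZ : i ∈ Z := hx (x.F_sub hi)
  have h4 := h2 i (hp.F.symm ▸ hi)
  rw [hp.ε, hp'.f i (by rw [← hp'.F]; exact hxy.1 (hp.F.symm ▸ hi)) k hk', ha] at h4
  have h5 := h3 i (hp.F.symm ▸ hi) ⟨hiZ, hJ⟩
  rw [hp.ε] at h5
  have hsup : ↑(Finsupp.single i (1 : ℚ)).support ⊆ Z := by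
    intro j hj
    have hj : j ∈ (Finsupp.single i (1 : ℚ)).support := hj
    rw [Finsupp.support_single_ne_zero i one_ne_zero, Finset.mem_singleton] at hj
    exact hj ▸ hiZ
  have hsup' : ↑(-Finsupp.single i (1 : ℚ)).support ⊆ Z := by
    rw [Finsupp.support_neg]; exact hsup
  have hε' : 2 * (x.ε : ℝ) < ε := by exact_mod_cast hε
  rw [abs_le] at h4 h5
  have h6 : tF d F Z i k = wF d F Z (Finsupp.single i 1) k := rfl
  rw [h6] at h5
  rw [F.inf_iff, ← wF_lt hF.basic hsup, ← wF_lt hF.basic hsup', wF_neg hF.basic]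
  push_cast
  constructor <;> linarith [h4.1, h4.2, h5.1, h5.2]

end

section

variable {P : Type} [Preorder P] {ι : Type} {d : BD (RO P) ι}

/-- generic filters on the Boolean-valued poset -/
structure GF (d : BD (RO P) ι) (H : CD ι → RO P) : Prop where
  val : ∀ x, H x ≤ val' d x
  up : ∀ x y, H x ⊓ val' d y ⊓ ord' d x y ≤ H y
  dir : ∀ x y, H x ⊓ H y ≤ ⨆ z, H z ⊓ ord' d z x ⊓ ord' d z y
  dense : ∀ (S : Finset ι) (N : ℕ) (δ : ℚ), 0 < δ →
    ⨆ x, H x ⊓ tv (S ⊆ x.F ∧ N ≤ x.n ∧ x.ε ≤ δ) = ⊤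

/-- the values of the generic sequences -/
noncomputable def fB (H : CD ι → RO P) (i : ι) (k : ℕ) (r : ℚ) : RO P :=
  ⨆ x : CD ι, tv (i ∈ x.F ∧ k < x.n ∧ x.f (i, k) = r) ⊓ H x

theorem ord_O1 (y x : CD ι) : ord' d y x ≤ tv (O1 y x) := inf_le_left

theorem forc_ord {p : P} {y x : CD ι} (h : Forc p (ord' d y x)) : O1 y x :=
  forc_tv.1 (forc_le_iff.1 (ord_O1 y x) p h)

variable {H : CD ι → RO P}

theorem GF.trans (hH : GF d H) {p : P} {x y z : CD ι} (hx : Forc p (H x)) (hy : Forc p (H y))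
    (hz : Forc p (H z)) (h1 : Forc p (ord' d x y)) (h2 : Forc p (ord' d y z)) :
    Forc p (ord' d x z) := by
  refine forc_le_iff.1 (ord_trans d x y z) p ?_
  simp only [forc_inf]
  exact ⟨⟨⟨forc_le_iff.1 (hH.val x) p hx, forc_le_iff.1 (hH.val y) p hy⟩,
    forc_le_iff.1 (hH.val z) p hz⟩, h1, h2⟩

/-- a common extension with given values -/
theorem GF.ext (hH : GF d H) (x : CD ι) (k : ℕ) (g : ι → ℚ) (S : Finset ι) :
    ∀ p : P, Forc p (H x) → (∀ i ∈ S, Forc p (fB H i k (g i))) →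
      ∃ r, r ≤ p ∧ ∃ y, Forc r (H y) ∧ Forc r (ord' d y x) ∧ k < y.n ∧
        ∀ i ∈ S, i ∈ y.F ∧ y.f (i, k) = g i := by
  induction S using Finset.induction_on with
  | empty =>
    intro p hp _
    have h1 : Forc p (⨆ x, H x ⊓ tv (∅ ⊆ x.F ∧ k + 1 ≤ x.n ∧ x.ε ≤ 1)) := by
      rw [hH.dense ∅ (k + 1) 1 one_pos]; exact forc_top
    rw [forc_iSup] at h1
    obtain ⟨r, hr, z, hz⟩ := h1 p le_rfl
    rw [forc_inf, forc_tv] at hz
    have h2 := forc_le_iff.1 (hH.dir x z) r ⟨hp.mono hr, hz.1⟩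
    rw [forc_iSup] at h2
    obtain ⟨r', hr', y, hy⟩ := h2 r le_rfl
    simp only [forc_inf] at hy
    have h3 := forc_ord hy.2
    exact ⟨r', hr'.trans hr, y, hy.1.1, hy.1.2, lt_of_lt_of_le (Nat.lt_succ_self k)
      (hz.2.2.1.trans h3.2.1), by simp⟩
  | insert i S _ ih =>
    intro p hp hf
    obtain ⟨r, hr, y, hy1, hy2, hy3, hy4⟩ := ih p hp fun j hj => hf j (Finset.mem_insert_of_mem hj)
    have h1 := (hf i (Finset.mem_insert_self _ _)).mono hr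
    rw [fB, forc_iSup] at h1
    obtain ⟨r1, hr1, z, hz⟩ := h1 r le_rfl
    rw [forc_inf, forc_tv] at hz
    have h2 := forc_le_iff.1 (hH.dir y z) r1 ⟨hy1.mono hr1, hz.2⟩
    rw [forc_iSup] at h2
    obtain ⟨r2, hr2, w, hw⟩ := h2 r1 le_rfl
    simp only [forc_inf] at hw
    have h3 := forc_ord hw.1.2
    have h4 := forc_ord hw.2
    refine ⟨r2, hr2.trans (hr1.trans hr), w, hw.1.1, ?_, lt_of_lt_of_le hy3 h3.2.1, ?_⟩
    · exact hH.trans hw.1.1 (hy1.mono (hr2.trans hr1)) (hp.mono (hr2.trans (hr1.trans hr))) hw.1.2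
        (hy2.mono (hr2.trans hr1))
    · intro j hj
      rcases Finset.mem_insert.1 hj with rfl | hj
      · exact ⟨h4.1 hz.1.1, (h4.2.2.2 j hz.1.1 k hz.1.2.1).trans hz.1.2.2⟩
      · obtain ⟨h5, h6⟩ := hy4 j hj
        exact ⟨h3.1 h5, (h3.2.2.2 j h5 k hy3).trans h6⟩

theorem GF.total (hH : GF d H) (i : ι) (k : ℕ) : ⨆ r, fB H i k r = ⊤ := by
  rw [eq_top_iff, ← hH.dense {i} (k + 1) 1 one_pos]
  refine iSup_le fun x => ?_
  by_cases h : {i} ⊆ x.F ∧ k + 1 ≤ x.n ∧ x.ε ≤ 1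
  · refine le_iSup_of_le (x.f (i, k)) (le_iSup_of_le x ?_)
    rw [tv_true (show i ∈ x.F ∧ k < x.n ∧ x.f (i, k) = x.f (i, k) from
      ⟨h.1 (Finset.mem_singleton_self i), h.2.1, rfl⟩), top_inf_eq]
    exact inf_le_left
  · rw [tv_false h, inf_bot_eq]; exact bot_le

theorem GF.disj (hH : GF d H) (i : ι) (k : ℕ) {r r' : ℚ} (hr : r ≠ r') :
    fB H i k r ⊓ fB H i k r' = ⊥ := by
  rw [← le_bot_iff, forc_le_iff]
  intro p hp
  rw [forc_inf] at hp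
  have h1 := hp.1
  rw [fB, forc_iSup] at h1
  obtain ⟨r1, hr1, x, hx⟩ := h1 p le_rfl
  rw [forc_inf, forc_tv] at hx
  obtain ⟨r2, hr2, y, hy1, hy2, hy3, hy4⟩ := hH.ext x k (fun _ => r') {i} r1 hx.2
    (fun j hj => by rw [Finset.mem_singleton] at hj; subst hj; exact hp.2.mono hr1)
  have h2 := forc_ord hy2
  have h3 := (hy4 i (Finset.mem_singleton_self i)).2
  exact absurd ((hx.1.2.2.symm.trans (h2.2.2.2 i hx.1.1 k hx.1.2.1).symm).trans h3) hr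

theorem GF.norm (hH : GF d H) (c : ι →₀ ℚ) {ε : ℚ} (hε : 0 < ε) :
    ⨆ n₀ : ℕ, ⨅ y : ℕ × (ι →₀ ℚ) × ℚ, (tv (n₀ ≤ y.1) ⊓
      (c.support.inf fun i => fB H i y.1 (y.2.1 i)) ⊓ (d.N c).lt y.2.2) ⇨
        tv ((c.sum fun i r => r * y.2.1 i) < 3 * y.2.2 + ε) = ⊤ := by
  have hδ : 0 < ε / (l1 c + 1) := by
    have := l1_nonneg c
    positivity
  rw [eq_top_iff, ← hH.dense c.support 0 _ hδ]
  refine iSup_le fun x => ?_
  by_cases h : c.support ⊆ x.F ∧ 0 ≤ x.n ∧ x.ε ≤ ε / (l1 c + 1)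
  · refine inf_le_left.trans (le_iSup_of_le x.n (le_iInf fun y => ?_))
    obtain ⟨k, g, q⟩ := y
    rw [le_himp_iff, forc_le_iff]
    intro p hp
    simp only [forc_inf, forc_tv] at hp
    obtain ⟨hpx, ⟨hk, hf⟩, hq⟩ := hp
    have hf' : ∀ i ∈ c.support, Forc p (fB H i k (g i)) := by
      intro i hi
      exact forc_le_iff.1 (Finset.inf_le hi) p hf
    rw [forc_iff_dense]
    intro p' hp'
    obtain ⟨r, hr, y, hy1, hy2, hy3, hy4⟩ := hH.ext x k g c.support p' (hpx.mono hp')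
      fun i hi => (hf' i hi).mono hp'
    refine ⟨r, hr, ?_⟩
    refine forc_le_iff.1 (est_norm d x y k hk hy3 c g h.1 (fun i hi => (hy4 i hi).2) q ε ?_) r ?_
    · have h0 := l1_nonneg c
      have h1 := h.2.2
      rw [le_div_iff₀ (by linarith)] at h1
      have := x.hε
      nlinarith
    · simp only [forc_inf]
      exact ⟨⟨⟨forc_le_iff.1 (hH.val x) r (hpx.mono (hr.trans hp')),
        forc_le_iff.1 (hH.val y) r hy1⟩, hy2⟩, hq.mono (hr.trans hp')⟩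
  · rw [tv_false h, inf_bot_eq]; exact bot_le

theorem GF.dom (hH : GF d H) (i : ι) {ε : ℚ} (hε : 0 < ε) :
    d.J i ≤ ⨆ n₀ : ℕ, ⨅ y : ℕ × ℚ, (tv (n₀ ≤ y.1) ⊓ fB H i y.1 y.2) ⇨
      ((d.W (Finsupp.single i 1) y.1).lt (y.2 + ε) ⊓
        (d.W (-Finsupp.single i 1) y.1).lt (-y.2 + ε)) := by
  have e : d.J i = d.J i ⊓ ⨆ x, H x ⊓ tv ({i} ⊆ x.F ∧ 0 ≤ x.n ∧ x.ε ≤ ε / 3) := by
    rw [hH.dense {i} 0 (ε / 3) (by positivity), inf_top_eq]
  rw [e, inf_iSup_eq]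
  refine iSup_le fun x => ?_
  by_cases h : {i} ⊆ x.F ∧ 0 ≤ x.n ∧ x.ε ≤ ε / 3
  · refine le_iSup_of_le x.n (le_iInf fun y => ?_)
    obtain ⟨k, a⟩ := y
    rw [le_himp_iff, forc_le_iff]
    intro p hp
    simp only [forc_inf, forc_tv] at hp
    obtain ⟨⟨hJ, hpx, -⟩, hk, hf⟩ := hp
    rw [forc_iff_dense]
    intro p' hp'
    obtain ⟨r, hr, y, hy1, hy2, hy3, hy4⟩ := hH.ext x k (fun _ => a) {i} p' (hpx.mono hp')
      fun j hj => by
        rw [Finset.mem_singleton] at hj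
        subst hj
        exact hf.mono hp'
    refine ⟨r, hr, ?_⟩
    refine forc_le_iff.1 (est_dom d x y k hk hy3 i (h.1 (Finset.mem_singleton_self i)) a ε
      (hy4 i (Finset.mem_singleton_self i)).2 ?_) r ?_
    · have := h.2.2
      linarith
    · simp only [forc_inf]
      exact ⟨⟨⟨forc_le_iff.1 (hH.val x) r (hpx.mono (hr.trans hp')),
        forc_le_iff.1 (hH.val y) r hy1⟩, hy2⟩, hJ.mono (hr.trans hp')⟩
  · rw [tv_false h, inf_bot_eq, inf_bot_eq]; exact bot_le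

end

section

variable {ι : Type}

theorem mk_CD (hι : #ι ≤ ℵ_ 1) : #(CD ι) ≤ ℵ_ 1 := by
  let Ω : Type := (ℵ_ 1 : Cardinal.{0}).ord.ToType
  have hΩ : #Ω = ℵ_ 1 := mk_ord_toType _
  have hΩi : Infinite Ω := by rw [infinite_iff, hΩ]; exact aleph0_le_aleph 1
  have hfin : ∀ (α : Type), #α ≤ ℵ_ 1 → #(Finset α) ≤ ℵ_ 1 := by
    intro α hα
    obtain ⟨ε⟩ := Cardinal.le_def α Ω |>.1 (by rw [hΩ]; exact hα)
    have h1 : #(Finset α) ≤ #(Finset Ω) := mk_le_of_injective (f := Finset.map ε)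
      (Finset.map_injective ε)
    exact h1.trans (by rw [mk_finset_of_infinite, hΩ])
  have hprod : ∀ (α β : Type), #α ≤ ℵ_ 1 → #β ≤ ℵ_ 1 → #(α × β) ≤ ℵ_ 1 := by
    intro α β hα hβ
    simp only [mk_prod, lift_id]
    exact (mul_le_mul' hα hβ).trans (mul_eq_self (aleph0_le_aleph 1)).le
  have hc : ∀ (α : Type) [Countable α], #α ≤ ℵ_ 1 := fun α _ =>
    mk_le_aleph0.trans (aleph0_le_aleph 1)
  let g : CD ι → Finset ι × ℕ × Finset ((ι × ℕ) × ℚ) × ℚ := fun x =>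
    (x.F, x.n, x.f.support.image fun y => (y, x.f y), x.ε)
  have hg : Function.Injective g := by
    rintro ⟨F, n, f, ε, h⟩ ⟨F', n', f', ε', h'⟩ he
    simp only [g, Prod.mk.injEq] at he
    obtain ⟨rfl, rfl, hf, rfl⟩ := he
    have key : ∀ (f f' : (ι × ℕ) →₀ ℚ), (f.support.image fun y => (y, f y)) =
        (f'.support.image fun y => (y, f' y)) → ∀ y, f y ≠ 0 → f y = f' y := by
      intro f f' hf y hy
      have h1 : (y, f y) ∈ f.support.image fun y => (y, f y) :=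
        Finset.mem_image_of_mem (fun y => (y, f y)) (Finsupp.mem_support_iff.2 hy)
      rw [hf] at h1
      obtain ⟨y', _, h2⟩ := Finset.mem_image.1 h1
      simp only [Prod.mk.injEq] at h2
      rw [← h2.2, h2.1]
    have : f = f' := by
      ext y
      by_cases hy : f y ≠ 0
      · exact key f f' hf y hy
      · push Not at hy
        by_cases hy' : f' y ≠ 0
        · exact (key f' f hf.symm y hy').symm
        · push Not at hy'
          rw [hy, hy']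
    subst this
    rfl
  refine (mk_le_of_injective hg).trans ?_
  refine hprod _ _ (hfin _ hι) (hprod _ _ (hc _) (hprod _ _ (hfin _ ?_) (hc _)))
  exact hprod _ _ (hprod _ _ hι (hc _)) (hc _)

theorem exists_gf {ν : IX → WithZero (CD ι) → WithZero (CD ι) → Set (IX →₀ WithZero (CD ι))}
    (hν : Book ν) (hι : #ι ≤ ℵ_ 1) (d : BD (RO (PP ν)) ι) : ∃ H, GF d H := by
  have hfin : #(Finset ι × ℕ × ℕ) ≤ ℵ_ 1 := by
    have h1 := mk_CD hι
    refine le_trans (mk_le_of_injective (f := fun x : Finset ι × ℕ × ℕ =>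
      (⟨x.1, x.2.1, 0, (x.2.2 : ℚ) + 1, by positivity⟩ : CD ι)) ?_) h1
    rintro ⟨a, b, c⟩ ⟨a', b', c'⟩ h
    simp only [CD.mk.injEq, add_left_inj, Nat.cast_inj, true_and] at h
    obtain ⟨rfl, rfl, rfl⟩ := h
    rfl
  obtain ⟨H, h1, h2, h3, h4⟩ := bma' hν bdd_IX (mk_CD hι) (val' d) (ord' d)
    (fun x => by rw [ord_refl]; exact le_top) (ord_trans d) (val_nonempty d)
    (fun Λ S hS x hx => sc PP.cc d Λ S hS x hx) hfin
    (fun ξ y => tv (ξ.1 ⊆ y.F ∧ ξ.2.1 ≤ y.n ∧ y.ε ≤ 1 / ((ξ.2.2 : ℚ) + 1)))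
    (fun ξ x => ext_le d x ξ.1 ξ.2.1 _ (by positivity))
  refine ⟨H, h1, h2, h3, fun S N δ hδ => ?_⟩
  obtain ⟨m, hm⟩ := exists_nat_one_div_lt hδ
  rw [eq_top_iff, ← h4 (S, N, m)]
  refine iSup_mono fun x => inf_le_inf_left _ ?_
  by_cases h : S ⊆ x.F ∧ N ≤ x.n ∧ x.ε ≤ 1 / ((m : ℚ) + 1)
  · rw [tv_true (show S ⊆ x.F ∧ N ≤ x.n ∧ x.ε ≤ δ from ⟨h.1, h.2.1, h.2.2.trans hm.le⟩)]
    exact le_top
  · show tv (S ⊆ x.F ∧ N ≤ x.n ∧ x.ε ≤ 1 / ((m : ℚ) + 1)) ≤ _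
    rw [tv_false h]; exact bot_le

end

end Pool.Agent.MAx
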