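import Pool.Agent.MAx.BData

/-!
# The Boolean-valued poset of finite approximations, and its evaluation
-/

namespace Pool.Agent.MAx

open Classical Pool.Agent.BVM Pool.Agent.Forcing Pool.Agent.LadderTree

/-- data of conditions -/
structure CD (ι : Type) where
  /-- finite set of indices -/
  F : Finset ι
  /-- length -/
  n : ℕ
  /-- values -/
  f : (ι × ℕ) →₀ ℚ
  /-- precision -/
  ε : ℚ
  hε : 0 < ε

section

variable {ι : Type}

/-- the indices occurring in the data -/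
noncomputable def CD.sp (x : CD ι) : Finset ι := x.F ∪ x.f.support.image Prod.fst

theorem CD.F_sub (x : CD ι) : x.F ⊆ x.sp := Finset.subset_union_left

theorem countable_CD {Z : Set ι} (hZ : Z.Countable) : {x : CD ι | ↑x.sp ⊆ Z}.Countable := by
  let g : CD ι → Finset ι × ℕ × ((ι × ℕ) →₀ ℚ) × ℚ := fun x => (x.F, x.n, x.f, x.ε)
  have hg : Function.Injective g := by
    rintro ⟨F, n, f, ε, h⟩ ⟨F', n', f', ε', h'⟩ he
    simp only [g, Prod.mk.injEq] at he
    obtain ⟨rfl, rfl, rfl, rfl⟩ := he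
    rfl
  have hc1 : {F : Finset ι | (↑F : Set ι) ⊆ Z}.Countable := H90.countable_finsets hZ
  have hc2 : {f : (ι × ℕ) →₀ ℚ | ↑f.support ⊆ Z ×ˢ (Set.univ : Set ℕ)}.Countable :=
    Set.countable_coe_iff.1 (countable_finsupp (hZ.prod Set.countable_univ))
  refine Set.MapsTo.countable_of_injOn (f := g) ?_ hg.injOn
    (hc1.prod ((Set.countable_univ (α := ℕ)).prod (hc2.prod (Set.countable_univ (α := ℚ)))))
  intro x hx
  have hx : ↑x.sp ⊆ Z := hx
  refine ⟨fun i hi => hx (x.F_sub hi), trivial, ?_, trivial⟩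
  intro y hy
  exact ⟨hx (Finset.mem_union_right _ (Finset.mem_image_of_mem _ hy)), trivial⟩

end

section

variable {B : Type} [CompleteBooleanAlgebra B] {ι : Type} (d : BD B ι)

/-- elementary values -/
noncomputable def el (c e : ι →₀ ℚ) (k : ℕ) (q a : ℚ) : B :=
  (e.support.inf d.J ⊓ (d.N (c + e)).lt q) ⇨ (d.W e k).lt a

/-- body of validity -/
noncomputable def vBody (x : CD ι) (α β : ℚ) (y : ℕ × FS (↑x.F : Set ι) × ℚ) : B :=
  tv (x.n ≤ y.1) ⇨ el d 0 y.2.1.1 y.1 y.2.2 (α * y.2.2 + β * l1 y.2.1.1)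

/-- general form of validity -/
noncomputable def VA (x : CD ι) (α β : ℚ) : B := ⨅ y, vBody d x α β y

/-- validity -/
noncomputable def val' (x : CD ι) : B := VA d x 3 x.ε

/-- the elementary requirements of the order -/
def O1 (y x : CD ι) : Prop :=
  x.F ⊆ y.F ∧ x.n ≤ y.n ∧ y.ε ≤ x.ε ∧ ∀ i ∈ x.F, ∀ k, k < x.n → y.f (i, k) = x.f (i, k)

/-- body of the order -/
noncomputable def oBody (y x : CD ι) (z : ℕ × FS (↑x.F : Set ι) × FS (↑x.F : Set ι) × ℚ) : B :=
  tv (x.n ≤ z.1 ∧ z.1 < y.n) ⇨ el d z.2.1.1 z.2.2.1.1 z.1 z.2.2.2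
    (3 * z.2.2.2 + x.ε * (l1 z.2.1.1 + l1 z.2.2.1.1) -
      z.2.1.1.sum fun i r => r * y.f (i, z.1))

/-- the order -/
noncomputable def ord' (y x : CD ι) : B := tv (O1 y x) ⊓ ⨅ z, oBody d y x z

/-- all families which have to be respected -/
noncomputable def fams (Z : Set ι) : Set (ℕ → B) :=
  basicFams d Z ∪
  (Set.range fun x : {x : CD ι // ↑x.sp ⊆ Z} × ℚ × ℚ =>
    seqOf fun y => (vBody d x.1.1 x.2.1 x.2.2 y)ᶜ) ∪
  Set.range fun x : {x : CD ι // ↑x.sp ⊆ Z} × {x : CD ι // ↑x.sp ⊆ Z} =>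
    seqOf fun z => (oBody d x.1.1 x.2.1 z)ᶜ

theorem fams_countable {Z : Set ι} (hZ : Z.Countable) : (fams d Z).Countable := by
  have : Countable {x : CD ι // ↑x.sp ⊆ Z} := (countable_CD hZ).to_subtype
  exact ((basicFams_countable d hZ).union (Set.countable_range _)).union (Set.countable_range _)

/-- sufficiently generic ultrafilters -/
structure GoodF (F : UF B) (Z : Set ι) : Prop where
  basic : Basic d F Z
  v : ∀ x : CD ι, ↑x.sp ⊆ Z → ∀ α β, RS F fun y => (vBody d x α β y)ᶜ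
  o : ∀ y x : CD ι, ↑y.sp ⊆ Z → ↑x.sp ⊆ Z → RS F fun z => (oBody d y x z)ᶜ

theorem goodF_of {F : UF B} {Z : Set ι}
    (h : ∀ g ∈ fams d Z, F.U (⨆ m, g m) → ∃ m, F.U (g m)) : GoodF d F Z :=
  ⟨basic_of d fun g hg => h g (Or.inl (Or.inl hg)),
    fun x hx α β => rs_of_seq (h _ (Or.inl (Or.inr ⟨(⟨x, hx⟩, α, β), rfl⟩))),
    fun y x hy hx => rs_of_seq (h _ (Or.inr ⟨(⟨y, hy⟩, ⟨x, hx⟩), rfl⟩))⟩

/-- inequalities in the algebra can be checked with generic ultrafilters -/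
theorem le_of_gen {b c : B} {𝒮 : Set (ℕ → B)} (h𝒮 : 𝒮.Countable)
    (h : ∀ F : UF B, (∀ g ∈ 𝒮, F.U (⨆ m, g m) → ∃ m, F.U (g m)) → F.U b → F.U c) : b ≤ c := by
  by_contra hcon
  have hne : b ⊓ cᶜ ≠ ⊥ := by
    intro h
    apply hcon
    rwa [← disjoint_iff, disjoint_compl_right_iff] at h
  obtain ⟨F, hF, hg⟩ := exists_generic hne 𝒮 h𝒮
  rw [F.inf_iff, F.compl_iff] at hF
  exact hF.2 (h F hg hF.1)

variable {d} {F : UF B} {Z : Set ι}

theorem add_supp {Z : Set ι} {c e : ι →₀ ℚ} (hc : ↑c.support ⊆ Z) (he : ↑e.support ⊆ Z) :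
    ↑(c + e).support ⊆ Z := by
  intro i hi
  rcases Finset.mem_union.1 (Finsupp.support_add hi) with h | h
  · exact hc h
  · exact he h

theorem el_iff (h : Basic d F Z) {c e : ι →₀ ℚ} (hc : ↑c.support ⊆ Z) (he : ↑e.support ⊆ Z)
    (k : ℕ) (q a : ℚ) : F.U (el d c e k q a) ↔
      ((∀ i ∈ e.support, i ∈ JF d F Z) → nF d F Z (c + e) < q → wF d F Z e k < a) := by
  unfold el
  rw [F.himp_iff, F.inf_iff, uf_finset_inf, ← nF_lt h (add_supp hc he), ← wF_lt h he]
  constructor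
  · intro h1 h2 h3
    exact h1 ⟨fun i hi => (h2 i hi).2, h3⟩
  · rintro h1 ⟨h2, h3⟩
    exact h1 (fun i hi => ⟨he hi, h2 i hi⟩) h3

theorem lin_iff {n w α β : ℝ} (hα : 0 < α) :
    (∀ q : ℚ, n < q → w < α * q + β) ↔ w ≤ α * n + β := by
  constructor
  · intro h
    refine le_of_forall_pos_le_add fun e he => ?_
    obtain ⟨q, h1, h2⟩ := exists_rat_btwn (show n < n + e / α by
      have : 0 < e / α := by positivity
      linarith)
    have h3 := h q h1
    have h4 : α * q < α * n + e := by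
      have := mul_lt_mul_of_pos_left h2 hα
      rw [mul_add, mul_div_cancel₀ _ hα.ne'] at this
      exact this
    linarith
  · intro h q hq
    have := mul_lt_mul_of_pos_left hq hα
    linarith

theorem VA_iff (h : GoodF d F Z) {x : CD ι} (hx : ↑x.sp ⊆ Z) {α β : ℚ} (hα : 0 < α) :
    F.U (VA d x α β) ↔ ∀ k, x.n ≤ k → ∀ e : ι →₀ ℚ, e.support ⊆ x.F →
      (∀ i ∈ e.support, i ∈ JF d F Z) → wF d F Z e k ≤ α * nF d F Z e + β * l1 e := by
  have hα' : (0 : ℝ) < α := by exact_mod_cast hα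
  unfold VA
  rw [(h.v x hx α β).inf]
  constructor
  · intro h1 k hk e he hJ
    rw [← lin_iff hα']
    intro q hq
    have h2 := h1 (k, ⟨e, by exact_mod_cast he⟩, q)
    unfold vBody at h2
    rw [F.himp_iff, uf_tv] at h2
    have h3 := (el_iff h.basic (by simp) (fun i hi => hx (x.F_sub (he hi))) k q _).1 (h2 hk) hJ
      (by rw [zero_add]; exact hq)
    push_cast at h3
    exact h3
  · rintro h1 ⟨k, ⟨e, he⟩, q⟩
    have he' : e.support ⊆ x.F := by exact_mod_cast he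
    unfold vBody
    rw [F.himp_iff, uf_tv]
    intro hk
    refine (el_iff h.basic (by simp) (fun i hi => hx (x.F_sub (he' hi))) k q _).2 ?_
    intro hJ hq
    rw [zero_add] at hq
    have h2 := (lin_iff hα').2 (h1 k hk e he' hJ) q hq
    push_cast
    exact h2

theorem ord_iff (h : GoodF d F Z) {y x : CD ι} (hy : ↑y.sp ⊆ Z) (hx : ↑x.sp ⊆ Z) :
    F.U (ord' d y x) ↔ O1 y x ∧ ∀ k, x.n ≤ k → k < y.n → ∀ c e : ι →₀ ℚ, c.support ⊆ x.F →
      e.support ⊆ x.F → (∀ i ∈ e.support, i ∈ JF d F Z) →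
        wF d F Z e k ≤ 3 * nF d F Z (c + e) + (x.ε * (l1 c + l1 e) -
          (c.sum fun i r => r * y.f (i, k) : ℚ)) := by
  unfold ord'
  rw [F.inf_iff, uf_tv, (h.o y x hy hx).inf]
  refine and_congr_right fun _ => ?_
  constructor
  · intro h1 k hk hk' c e hc he hJ
    rw [← lin_iff (by norm_num)]
    intro q hq
    have h2 := h1 (k, ⟨c, by exact_mod_cast hc⟩, ⟨e, by exact_mod_cast he⟩, q)
    unfold oBody at h2
    rw [F.himp_iff, uf_tv] at h2
    have h3 := (el_iff h.basic (fun i hi => hx (x.F_sub (hc hi)))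
      (fun i hi => hx (x.F_sub (he hi))) k q _).1 (h2 ⟨hk, hk'⟩) hJ hq
    push_cast at h3 ⊢
    linarith
  · rintro h1 ⟨k, ⟨c, hc⟩, ⟨e, he⟩, q⟩
    have hc' : c.support ⊆ x.F := by exact_mod_cast hc
    have he' : e.support ⊆ x.F := by exact_mod_cast he
    unfold oBody
    rw [F.himp_iff, uf_tv]
    rintro ⟨hk, hk'⟩
    refine (el_iff h.basic (fun i hi => hx (x.F_sub (hc' hi)))
      (fun i hi => hx (x.F_sub (he' hi))) k q _).2 ?_
    intro hJ hq
    have h2 := (lin_iff (by norm_num)).2 (h1 k hk hk' c e hc' he' hJ) q hq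
    push_cast at h2 ⊢
    linarith

end

end Pool.Agent.MAx
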