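import Pool.Agent.MAx.BPoset

/-!
# Comparison of the Boolean-valued poset with the real poset
-/

namespace Pool.Agent.MAx

open Classical Pool.Agent.BVM Pool.Agent.Forcing Pool.Agent.LadderTree

section

variable {B : Type} [CompleteBooleanAlgebra B] {ι : Type} {d : BD B ι} {F : UF B} {Z : Set ι}

theorem nF_neg (h : Basic d F Z) (c : ι →₀ ℚ) : nF d F Z (-c) = nF d F Z c := by
  have := (qsem_nF h).smul (-1) c
  simpa using this

theorem fs_neg (S : Finset ι) (c : ι → ℚ) : fs S (fun i => - c i) = - fs S c := by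
  ext i
  rw [Finsupp.neg_apply, fs_apply, fs_apply]
  split_ifs <;> simp

/-- `u` realizes the evaluated seminorm -/
def Realizes (d : BD B ι) (F : UF B) (Z : Set ι) {X : Type} [NormedAddCommGroup X]
    [NormedSpace ℝ X] (u : ι → X) : Prop :=
  ∀ (S : Finset ι) (c : ι → ℚ), ‖∑ i ∈ S, (c i : ℝ) • u i‖ = nF d F Z (fs S c)

variable {X : Type} [NormedAddCommGroup X] [NormedSpace ℝ X] {u : ι → X}

/-- the evaluated sequences -/
noncomputable def tF (d : BD B ι) (F : UF B) (Z : Set ι) (i : ι) (k : ℕ) : ℝ :=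
  wF d F Z (Finsupp.single i 1) k

/-- the real conditions -/
abbrev RC (d : BD B ι) (F : UF B) (Z : Set ι) (u : ι → X) : Type :=
  H90.Cond u (JF d F Z) (tF d F Z) 1

theorem real_eq (h : Basic d F Z) (hu : Realizes d F Z u) (S : Finset ι) (α β : ℝ) (k : ℕ) :
    (∀ e : ι →₀ ℚ, e.support ⊆ S → wF d F Z e k ≤ α * nF d F Z e + β * l1 e) ↔
    ∀ c : ι → ℚ, |∑ i ∈ S, (c i : ℝ) * tF d F Z i k| ≤ α * ‖∑ i ∈ S, (c i : ℝ) • u i‖ +
      β * ∑ i ∈ S, |(c i : ℝ)| := by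
  have hl : ∀ c : ι → ℚ, ((l1 (fs S c) : ℚ) : ℝ) = ∑ i ∈ S, |(c i : ℝ)| := by
    intro c
    rw [l1_fs]
    push_cast
    rfl
  constructor
  · intro h1 c
    have h2 := h1 (fs S c) (fs_supp S c)
    have h3 := h1 (fs S fun i => - c i) (fs_supp S _)
    rw [fs_neg, wF_neg h, nF_neg h, ← fs_neg, hl] at h3
    rw [hl] at h2
    have e3 : ∑ i ∈ S, |((-c i : ℚ) : ℝ)| = ∑ i ∈ S, |(c i : ℝ)| :=
      Finset.sum_congr rfl fun i _ => by push_cast; rw [abs_neg]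
    rw [e3] at h3
    rw [wF_fs h] at h2 h3
    rw [hu, abs_le]
    have e4 : ∑ i ∈ S, (c i : ℝ) * tF d F Z i k =
      ∑ i ∈ S, (c i : ℝ) * wF d F Z (Finsupp.single i 1) k := rfl
    rw [e4]
    constructor <;> linarith
  · intro h1 e he
    have h2 := h1 e
    rw [hu, fs_self he, ← hl, fs_self he] at h2
    have h3 := wF_fs h S e k
    rw [fs_self he] at h3
    rw [h3]
    exact (le_abs_self _).trans h2

theorem VA_real (h : GoodF d F Z) (hu : Realizes d F Z u) {x : CD ι} (hx : ↑x.sp ⊆ Z) {α β : ℚ}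
    (hα : 0 < α) : F.U (VA d x α β) ↔ ∀ k, x.n ≤ k → ∀ c : ι → ℚ,
      |∑ i ∈ x.F.filter (· ∈ JF d F Z), (c i : ℝ) * tF d F Z i k| ≤
        α * ‖∑ i ∈ x.F.filter (· ∈ JF d F Z), (c i : ℝ) • u i‖ +
        β * ∑ i ∈ x.F.filter (· ∈ JF d F Z), |(c i : ℝ)| := by
  rw [VA_iff h hx hα]
  refine forall_congr' fun k => imp_congr_right fun _ => ?_
  rw [← real_eq h.basic hu]
  constructor
  · intro h1 e he
    exact h1 e (he.trans (Finset.filter_subset _ _)) fun i hi => (Finset.mem_filter.1 (he hi)).2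
  · intro h1 e he hJ
    exact h1 e fun i hi => Finset.mem_filter.2 ⟨he hi, hJ i hi⟩

/-- a real condition represented by data -/
structure Rp (x : CD ι) (p : RC d F Z u) : Prop where
  F : p.F = x.F
  n : p.n = x.n
  ε : p.ε = x.ε
  f : ∀ i ∈ x.F, ∀ k, k < x.n → p.f i k = x.f (i, k)

theorem sum_bound {κ : Type} (S : Finset κ) (v : κ → X) (b : κ → ℝ) (ξ : X →L[ℝ] ℝ) {C ε : ℝ}
    (h1 : ‖ξ‖ ≤ C) (h2 : ∀ i ∈ S, |ξ (v i) - b i| ≤ ε) (c : κ → ℝ) :
    |∑ i ∈ S, c i * b i| ≤ C * ‖∑ i ∈ S, c i • v i‖ + ε * ∑ i ∈ S, |c i| := by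
  have e : ∑ i ∈ S, c i * b i = ξ (∑ i ∈ S, c i • v i) - ∑ i ∈ S, c i * (ξ (v i) - b i) := by
    rw [map_sum, ← Finset.sum_sub_distrib]
    exact Finset.sum_congr rfl fun i _ => by rw [map_smul, smul_eq_mul]; ring
  rw [e]
  refine (abs_sub _ _).trans (add_le_add ?_ ?_)
  · rw [← Real.norm_eq_abs]
    exact (ξ.le_opNorm _).trans (mul_le_mul_of_nonneg_right h1 (norm_nonneg _))
  · refine (Finset.abs_sum_le_sum_abs _ _).trans ?_
    rw [Finset.mul_sum]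
    refine Finset.sum_le_sum fun i hi => ?_
    rw [abs_mul, mul_comm]
    exact mul_le_mul_of_nonneg_right (h2 i hi) (abs_nonneg _)

theorem val_real (h : GoodF d F Z) (hu : Realizes d F Z u) {x : CD ι} (hx : ↑x.sp ⊆ Z) :
    F.U (val' d x) ↔ ∀ k, x.n ≤ k → ∃ ξ : X →L[ℝ] ℝ, ‖ξ‖ ≤ 3 * 1 ∧
      ∀ i ∈ x.F, i ∈ JF d F Z → |ξ (u i) - tF d F Z i k| ≤ x.ε := by
  have hε : (0 : ℝ) ≤ x.ε := by exact_mod_cast x.hε.le
  rw [val', VA_real h hu hx (by norm_num)]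
  refine forall_congr' fun k => imp_congr_right fun _ => ?_
  constructor
  · intro h1
    obtain ⟨ξ, h2, h3⟩ := hbD (x.F.filter (· ∈ JF d F Z)) u (fun i => tF d F Z i k) 3 x.ε
      (by norm_num) hε (by
        intro c
        have := h1 c
        push_cast at this
        exact this)
    exact ⟨ξ, by linarith, fun i hi hJ => h3 i (Finset.mem_filter.2 ⟨hi, hJ⟩)⟩
  · rintro ⟨ξ, h2, h3⟩ c
    have := sum_bound (x.F.filter (· ∈ JF d F Z)) u (fun i => tF d F Z i k) ξ h2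
      (fun i hi => h3 i (Finset.mem_filter.1 hi).1 (Finset.mem_filter.1 hi).2) (fun i => (c i : ℝ))
    push_cast
    linarith

theorem exists_rp (h : GoodF d F Z) (hu : Realizes d F Z u) {x : CD ι} (hx : ↑x.sp ⊆ Z)
    (hv : F.U (val' d x)) : ∃ p : RC d F Z u, Rp x p := by
  rw [val_real h hu hx] at hv
  exact ⟨⟨x.F, x.n, fun i k => x.f (i, k), x.ε, x.hε, hv⟩, rfl, rfl, rfl, fun _ _ _ _ => rfl⟩

theorem Rp.valid (h : GoodF d F Z) (hu : Realizes d F Z u) {x : CD ι} (hx : ↑x.sp ⊆ Z)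
    {p : RC d F Z u} (hp : Rp x p) : F.U (val' d x) := by
  rw [val_real h hu hx]
  intro k hk
  obtain ⟨ξ, h1, h2⟩ := p.valid k (hp.n ▸ hk)
  refine ⟨ξ, h1, fun i hi hJ => ?_⟩
  rw [← hp.ε]
  exact h2 i (hp.F ▸ hi) hJ

/-- data for a real condition -/
theorem exists_cd (p : RC d F Z u) : ∃ x : CD ι, Rp x p ∧ x.sp ⊆ p.F := by
  let f : (ι × ℕ) →₀ ℚ := Finsupp.onFinset (p.F ×ˢ Finset.range p.n)
    (fun y => if y ∈ p.F ×ˢ Finset.range p.n then p.f y.1 y.2 else 0) (fun y hy => by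
      by_contra hne
      exact hy (if_neg hne))
  refine ⟨⟨p.F, p.n, f, p.ε, p.hε⟩, ⟨rfl, rfl, rfl, fun i hi k hk => ?_⟩, ?_⟩
  · show p.f i k = if (i, k) ∈ p.F ×ˢ Finset.range p.n then p.f i k else 0
    rw [if_pos (Finset.mem_product.2 ⟨hi, Finset.mem_range.2 hk⟩)]
  · intro i hi
    rcases Finset.mem_union.1 hi with h | h
    · exact h
    · obtain ⟨y, hy, rfl⟩ := Finset.mem_image.1 h
      have h1 : y ∈ p.F ×ˢ Finset.range p.n := by
        by_contra hne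
        exact (Finsupp.mem_support_iff.1 hy) (if_neg hne)
      exact (Finset.mem_product.1 h1).1

theorem Rp.sv (h : GoodF d F Z) (hu : Realizes d F Z u) {x : CD ι} (hx : ↑x.sp ⊆ Z)
    {p : RC d F Z u} (hp : Rp x p) (δ : ℚ) :
    F.U (VA d x 1 δ) ↔ H90.SV u (JF d F Z) (tF d F Z) 1 p.F p.n δ := by
  rw [VA_real h hu hx (by norm_num)]
  constructor
  · intro h1 k hk c
    have h2 := ratD (x.F.filter (· ∈ JF d F Z)) u (fun i => tF d F Z i k) 1 δ (by
      intro c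
      have := h1 k (hp.n ▸ hk) c
      push_cast at this
      exact this) c
    rw [hp.F]
    exact h2
  · intro h1 k hk c
    have h2 := h1 k (hp.n ▸ hk) fun i => (c i : ℝ)
    rw [hp.F] at h2
    push_cast
    exact h2

theorem fs_add_filter (S S' : Finset ι) (hS : S' ⊆ S) (c e : ι → ℚ) :
    fs S (fun i => c i + if i ∈ S' then e i else 0) = fs S c + fs S' e := by
  ext i
  rw [Finsupp.add_apply, fs_apply, fs_apply, fs_apply]
  by_cases h : i ∈ S
  · rw [if_pos h, if_pos h]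
  · rw [if_neg h, if_neg h, if_neg (fun h' => h (hS h')), add_zero]

theorem sum_two (S S' : Finset ι) (hS : S' ⊆ S) (c e : ι → ℚ) :
    ∑ i ∈ S, (c i : ℝ) • u i + ∑ i ∈ S', (e i : ℝ) • u i =
      ∑ i ∈ S, ((c i + if i ∈ S' then e i else 0 : ℚ) : ℝ) • u i := by
  have e1 : ∑ i ∈ S', (e i : ℝ) • u i = ∑ i ∈ S, ((if i ∈ S' then e i else 0 : ℚ) : ℝ) • u i := by
    rw [← Finset.sum_subset hS]
    · exact Finset.sum_congr rfl fun i hi => by rw [if_pos hi]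
    · intro i _ hi; rw [if_neg hi]; simp
  rw [e1, ← Finset.sum_add_distrib]
  exact Finset.sum_congr rfl fun i _ => by push_cast; rw [add_smul]

/-- the promise of the order -/
theorem prom_real (h : Basic d F Z) (hu : Realizes d F Z u) (S : Finset ι) {ε : ℚ} (hε : 0 < ε)
    (g : ι → ℚ) (k : ℕ) :
    (∀ c e : ι →₀ ℚ, c.support ⊆ S → e.support ⊆ S → (∀ i ∈ e.support, i ∈ JF d F Z) →
        wF d F Z e k ≤ 3 * nF d F Z (c + e) + (ε * (l1 c + l1 e) -
          (c.sum fun i r => r * g i : ℚ))) ↔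
    ∃ ξ : X →L[ℝ] ℝ, ‖ξ‖ ≤ 3 * 1 ∧ (∀ i ∈ S, |ξ (u i) - g i| ≤ ε) ∧
      ∀ i ∈ S, i ∈ JF d F Z → |ξ (u i) - tF d F Z i k| ≤ ε := by
  have hε' : (0 : ℝ) ≤ ε := by exact_mod_cast hε.le
  have hl : ∀ (S : Finset ι) (c : ι → ℚ), ((l1 (fs S c) : ℚ) : ℝ) = ∑ i ∈ S, |(c i : ℝ)| := by
    intro S c
    rw [l1_fs]
    push_cast
    rfl
  have hsumg : ∀ c : ι → ℚ, (((fs S c).sum fun i r => r * g i : ℚ) : ℝ) =
      ∑ i ∈ S, (c i : ℝ) * (g i : ℝ) := by
    intro c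
    rw [Finsupp.sum_of_support_subset _ (fs_supp S c) (fun i r => r * g i)
      (fun _ _ => zero_mul _)]
    push_cast
    exact Finset.sum_congr rfl fun i hi => by rw [fs_apply, if_pos hi]
  set S' := S.filter (· ∈ JF d F Z) with hS'
  have hSS : S' ⊆ S := Finset.filter_subset _ _
  have hnF : ∀ c e : ι → ℚ, nF d F Z (fs S c + fs S' e) =
      ‖∑ i ∈ S, (c i : ℝ) • u i + ∑ i ∈ S', (e i : ℝ) • u i‖ := by
    intro c e
    rw [sum_two S S' hSS, hu, fs_add_filter S S' hSS]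
  constructor
  · intro h1
    have key : ∀ c e : ι → ℚ, ∑ i ∈ S, (c i : ℝ) * (g i : ℝ) + ∑ i ∈ S', (e i : ℝ) * tF d F Z i k ≤
        3 * ‖∑ i ∈ S, (c i : ℝ) • u i + ∑ i ∈ S', (e i : ℝ) • u i‖ +
        ε * (∑ i ∈ S, |(c i : ℝ)| + ∑ i ∈ S', |(e i : ℝ)|) := by
      intro c e
      have h2 := h1 (fs S c) (fs S' e) (fs_supp S c) ((fs_supp S' e).trans hSS)
        (fun i hi => (Finset.mem_filter.1 (fs_supp S' e hi)).2)
      rw [hnF, hl, hl, hsumg, wF_fs h] at h2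
      have e4 : ∑ i ∈ S', (e i : ℝ) * tF d F Z i k =
        ∑ i ∈ S', (e i : ℝ) * wF d F Z (Finsupp.single i 1) k := rfl
      rw [e4]
      linarith
    obtain ⟨ξ, h2, h3⟩ := hbD (S.disjSum S') (Sum.elim u u)
      (Sum.elim (fun i => (g i : ℝ)) (fun i => tF d F Z i k)) 3 ε (by norm_num) hε' (by
        intro c
        simp only [Finset.sum_disjSum, Sum.elim_inl, Sum.elim_inr]
        have k1 := key (fun i => c (Sum.inl i)) (fun i => c (Sum.inr i))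
        have k2 := key (fun i => - c (Sum.inl i)) (fun i => - c (Sum.inr i))
        have e1 : ∀ (T : Finset ι) (c : ι → ℚ) (w : ι → ℝ), ∑ i ∈ T, ((-c i : ℚ) : ℝ) * w i =
            - ∑ i ∈ T, (c i : ℝ) * w i := by
          intro T c w
          rw [← Finset.sum_neg_distrib]
          exact Finset.sum_congr rfl fun i _ => by push_cast; ring
        have e2 : ∀ (T : Finset ι) (c : ι → ℚ), ∑ i ∈ T, ((-c i : ℚ) : ℝ) • u i =
            - ∑ i ∈ T, (c i : ℝ) • u i := by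
          intro T c
          rw [← Finset.sum_neg_distrib]
          exact Finset.sum_congr rfl fun i _ => by push_cast; rw [neg_smul]
        have e3 : ∀ (T : Finset ι) (c : ι → ℚ), ∑ i ∈ T, |((-c i : ℚ) : ℝ)| =
            ∑ i ∈ T, |(c i : ℝ)| := fun T c =>
          Finset.sum_congr rfl fun i _ => by push_cast; rw [abs_neg]
        rw [e1, e1, e2, e2, e3, e3, ← neg_add, ← neg_add, norm_neg] at k2
        rw [abs_le]
        constructor <;> linarith)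
    refine ⟨ξ, by linarith, fun i hi => ?_, fun i hi hJ => ?_⟩
    · exact h3 (Sum.inl i) (Finset.inl_mem_disjSum.2 hi)
    · exact h3 (Sum.inr i) (Finset.inr_mem_disjSum.2 (Finset.mem_filter.2 ⟨hi, hJ⟩))
  · rintro ⟨ξ, h1, h2, h3⟩ c e hc he hJ
    have he' : e.support ⊆ S' := fun i hi => Finset.mem_filter.2 ⟨he hi, hJ i hi⟩
    have k1 := sum_bound (S.disjSum S') (Sum.elim u u)
      (Sum.elim (fun i => (g i : ℝ)) (fun i => tF d F Z i k)) ξ h1 (ε := (ε : ℝ)) (by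
        rintro (i | i) hi
        · exact h2 i (Finset.inl_mem_disjSum.1 hi)
        · obtain ⟨h4, h5⟩ := Finset.mem_filter.1 (Finset.inr_mem_disjSum.1 hi)
          exact h3 i h4 h5) (Sum.elim (fun i => (c i : ℝ)) (fun i => (e i : ℝ)))
    simp only [Finset.sum_disjSum, Sum.elim_inl, Sum.elim_inr] at k1
    have e1 := hnF c e
    have e2 := hl S c
    have e3 := hl S' e
    have e4 := hsumg c
    have e5 := wF_fs h S' e k
    rw [fs_self hc] at e1 e2 e4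
    rw [fs_self he'] at e1 e3 e5
    have e6 : ∑ i ∈ S', (e i : ℝ) * tF d F Z i k =
        ∑ i ∈ S', (e i : ℝ) * wF d F Z (Finsupp.single i 1) k := rfl
    rw [e6] at k1
    rw [e1, e2, e3, e4, e5]
    have k2 := (abs_le.1 k1).2
    linarith

theorem Rp.ord (h : GoodF d F Z) (hu : Realizes d F Z u) {x y : CD ι} (hx : ↑x.sp ⊆ Z)
    (hy : ↑y.sp ⊆ Z) {p q : RC d F Z u} (hp : Rp x p) (hq : Rp y q) :
    F.U (ord' d y x) ↔ q ≤ p := by
  have hO : O1 y x ↔ p.F ⊆ q.F ∧ p.n ≤ q.n ∧ q.ε ≤ p.ε ∧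
      ∀ i ∈ p.F, ∀ k, k < p.n → q.f i k = p.f i k := by
    unfold O1
    rw [hp.F, hp.n, hp.ε, hq.F, hq.n, hq.ε]
    constructor
    · rintro ⟨h1, h2, h3, h4⟩
      refine ⟨h1, h2, h3, fun i hi k hk => ?_⟩
      rw [hp.f i hi k hk, hq.f i (h1 hi) k (hk.trans_le h2)]
      exact h4 i hi k hk
    · rintro ⟨h1, h2, h3, h4⟩
      refine ⟨h1, h2, h3, fun i hi k hk => ?_⟩
      rw [← hp.f i hi k hk, ← hq.f i (h1 hi) k (hk.trans_le h2)]
      exact h4 i hi k hk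
  rw [ord_iff h hy hx, H90.Cond.le_def, hO]
  constructor
  · rintro ⟨⟨h1, h2, h3, h4⟩, h5⟩
    refine ⟨h1, h2, h3, h4, fun k hk hk' => ?_⟩
    rw [hp.n] at hk
    rw [hq.n] at hk'
    obtain ⟨ξ, k1, k2, k3⟩ := (prom_real h.basic hu x.F x.hε (fun i => y.f (i, k)) k).1
      (h5 k hk hk')
    refine ⟨ξ, k1, fun i hi => ?_, fun i hi hJ => ?_⟩
    · have hi' : i ∈ x.F := hp.F ▸ hi
      rw [hp.ε, hq.f i (by rw [← hq.F]; exact h1 hi) k hk']
      exact k2 i hi'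
    · rw [hp.ε]
      exact k3 i (hp.F ▸ hi) hJ
  · rintro ⟨h1, h2, h3, h4, h5⟩
    refine ⟨⟨h1, h2, h3, h4⟩, fun k hk hk' => ?_⟩
    obtain ⟨ξ, k1, k2, k3⟩ := h5 k (hp.n.symm ▸ hk) (hq.n.symm ▸ hk')
    refine (prom_real h.basic hu x.F x.hε (fun i => y.f (i, k)) k).2 ⟨ξ, k1, fun i hi => ?_,
      fun i hi hJ => ?_⟩
    · have := k2 i (hp.F.symm ▸ hi)
      rw [hp.ε, hq.f i (by rw [← hq.F]; exact h1 (hp.F.symm ▸ hi)) k hk'] at this
      exact this
    · have := k3 i (hp.F.symm ▸ hi) hJ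
      rw [hp.ε] at this
      exact this

end

end Pool.Agent.MAx
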