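import Pool.Agent.MAx.BRep

/-!
# Chain condition and density for the Boolean-valued poset
-/

namespace Pool.Agent.MAx

open Classical Pool.Agent.BVM Pool.Agent.Forcing Pool.Agent.LadderTree

section

variable {B : Type} [CompleteBooleanAlgebra B] {ι : Type} {d : BD B ι} {F : UF B} {Z : Set ι}

theorem exists_realizes (h : Basic d F Z) : ∃ (X : Type) (_ : NormedAddCommGroup X)
    (_ : NormedSpace ℝ X) (u : ι → X), Realizes d F Z u := by
  obtain ⟨X, i1, i2, u, hu⟩ := exists_normed (qsem_nF h)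
  exact ⟨X, i1, i2, u, hu⟩

variable (d) in
theorem le_of_good {b c : B} {Z : Set ι} (hZ : Z.Countable) {𝒮 : Set (ℕ → B)}
    (h𝒮 : 𝒮.Countable)
    (h : ∀ F : UF B, GoodF d F Z → (∀ g ∈ 𝒮, F.U (⨆ m, g m) → ∃ m, F.U (g m)) →
      F.U b → F.U c) : b ≤ c :=
  le_of_gen ((fams_countable d hZ).union h𝒮) fun F hF => h F
    (goodF_of d fun g hg => hF g (Or.inl hg)) fun g hg => hF g (Or.inr hg)

variable (d)

theorem ord_refl (x : CD ι) : ord' d x x = ⊤ := by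
  unfold ord'
  rw [tv_true (show O1 x x from ⟨subset_rfl, le_rfl, le_rfl, fun _ _ _ _ => rfl⟩), top_inf_eq,
    iInf_eq_top]
  intro z
  unfold oBody
  rw [tv_false (by omega), bot_himp]

theorem ord_trans (x y z : CD ι) : val' d x ⊓ val' d y ⊓ val' d z ⊓ (ord' d x y ⊓ ord' d y z) ≤
    ord' d x z := by
  let Z : Set ι := ↑(x.sp ∪ y.sp ∪ z.sp)
  have hx : ↑x.sp ⊆ Z := by
    simp only [Z, Finset.coe_union]
    exact Set.subset_union_left.trans Set.subset_union_left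
  have hy : ↑y.sp ⊆ Z := by
    simp only [Z, Finset.coe_union]
    exact Set.subset_union_right.trans Set.subset_union_left
  have hz : ↑z.sp ⊆ Z := by
    simp only [Z, Finset.coe_union]
    exact Set.subset_union_right
  refine le_of_good d (Z := Z) (Finset.countable_toSet _) Set.countable_empty fun F hF _ hU => ?_
  simp only [F.inf_iff] at hU
  obtain ⟨⟨⟨hvx, hvy⟩, hvz⟩, hxy, hyz⟩ := hU
  obtain ⟨X, _, _, u, hu⟩ := exists_realizes hF.basic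
  obtain ⟨p, hp⟩ := exists_rp hF hu hx hvx
  obtain ⟨q, hq⟩ := exists_rp hF hu hy hvy
  obtain ⟨r, hr⟩ := exists_rp hF hu hz hvz
  rw [Rp.ord hF hu hy hx hq hp] at hxy
  rw [Rp.ord hF hu hz hy hr hq] at hyz
  rw [Rp.ord hF hu hz hx hr hp]
  exact le_trans hxy hyz

theorem val_nonempty : ⨆ x : CD ι, val' d x = ⊤ := by
  let x : CD ι := ⟨∅, 0, 0, 1, one_pos⟩
  rw [eq_top_iff]
  refine le_trans ?_ (le_iSup _ x)
  have hx : ↑x.sp ⊆ (∅ : Set ι) := by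
    intro i hi
    have : i ∈ x.sp := hi
    simp [CD.sp, x] at this
  refine le_of_good d (Z := ∅) Set.countable_empty Set.countable_empty fun F hF _ _ => ?_
  obtain ⟨X, _, _, u, hu⟩ := exists_realizes hF.basic
  rw [val_real hF hu hx]
  intro k _
  exact ⟨0, by simp, fun i hi => by simp [x] at hi⟩

/-- density -/
theorem ext_le (x : CD ι) (S : Finset ι) (N : ℕ) (δ : ℚ) (hδ : 0 < δ) :
    val' d x ≤ ⨆ y, val' d y ⊓ ord' d y x ⊓ tv (S ⊆ y.F ∧ N ≤ y.n ∧ y.ε ≤ δ) := by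
  let Z : Set ι := ↑(x.sp ∪ S)
  have hx : ↑x.sp ⊆ Z := by
    simp only [Z, Finset.coe_union]
    exact Set.subset_union_left
  refine le_of_good d (Z := Z) (Finset.countable_toSet _) Set.countable_empty fun F hF _ hU => ?_
  obtain ⟨X, _, _, u, hu⟩ := exists_realizes hF.basic
  obtain ⟨p, hp⟩ := exists_rp hF hu hx hU
  have H := hypF hF.basic hu
  obtain ⟨q, h1, h2, h3, h4, -⟩ := H90.Cond.extend H p (p.F ∪ S) Finset.subset_union_left N
    (min p.ε δ) (lt_min p.hε hδ) (min_le_left _ _) one_pos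
  obtain ⟨y, hy, hysp⟩ := exists_cd (d := d) (F := F) (Z := Z) (u := u) q
  have hyZ : ↑y.sp ⊆ Z := by
    intro i hi
    have h5 := hysp hi
    rw [h2, hp.F] at h5
    rcases Finset.mem_union.1 h5 with h6 | h6
    · exact hx (x.F_sub h6)
    · exact Finset.mem_union_right _ h6
  refine F.mono (le_iSup _ y) ?_
  rw [F.inf_iff, F.inf_iff, uf_tv]
  refine ⟨⟨hy.valid hF hu hyZ, (Rp.ord hF hu hx hyZ hp hy).2 h1⟩, ?_, ?_, ?_⟩
  · rw [← hy.F, h2]; exact Finset.subset_union_right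
  · rw [← hy.n]; exact h3
  · rw [← hy.ε, h4]; exact min_le_right _ _

end

section

variable {P : Type} [Preorder P] {ι : Type}

/-- the chain condition of the two-step iteration -/
theorem sc (hcc : CC (fun p q : P => p ≤ q)) (d : BD (RO P) ι) (Λ : Type) (S : Set Λ)
    (hS : ¬ S.Countable) (x : Λ → P × CD ι) (hx : ∀ a, Forc (x a).1 (val' d (x a).2)) :
    ∃ a ∈ S, ∃ b ∈ S, a ≠ b ∧ ∃ r y, r ≤ (x a).1 ∧ r ≤ (x b).1 ∧
      Forc r (val' d y ⊓ (ord' d y (x a).2 ⊓ ord' d y (x b).2)) := by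
  -- the value that some member of the family has a given trace
  let T1 : CD ι → Λ × CD ι → Prop := fun x₀ z => z.1 ∈ S ∧ z.2.ε = x₀.ε ∧ x₀.F ⊆ z.2.F ∧
    z.2.n = x₀.n ∧ ∀ i ∈ x₀.F, ∀ k, k < x₀.n → z.2.f (i, k) = x₀.f (i, k)
  let body : CD ι → ℚ → Λ × CD ι → RO P := fun x₀ δ z =>
    tv (T1 x₀ z) ⊓ pt (x z.1).1 ⊓ val' d z.2 ⊓ ord' d z.2 (x z.1).2 ⊓ VA d z.2 1 δ
  choose C hC hCs using fun x₀ : CD ι × ℚ => countable_iSup hcc (body x₀.1 x₀.2)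
  let cl : List (ι ⊕ Λ) → Set (ι ⊕ Λ) := fun l =>
    (⋃ x₀ : {x₀ : CD ι // ↑x₀.sp ⊆ {i : ι | Sum.inl i ∈ l}} × ℚ, ⋃ z ∈ C (x₀.1.1, x₀.2),
      (Sum.inl '' (↑z.2.sp : Set ι) ∪ {Sum.inr z.1})) ∪
    ⋃ a ∈ {a : Λ | Sum.inr a ∈ l}, Sum.inl '' (↑(x a).2.sp : Set ι)
  have hlc1 : ∀ l : List (ι ⊕ Λ), {i : ι | Sum.inl i ∈ l}.Countable := by
    intro l
    exact ((l.finite_toSet).preimage Sum.inl_injective.injOn).countable
  have hlc2 : ∀ l : List (ι ⊕ Λ), {a : Λ | Sum.inr a ∈ l}.Countable := by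
    intro l
    exact ((l.finite_toSet).preimage Sum.inr_injective.injOn).countable
  have hcl : ∀ l, (cl l).Countable := by
    intro l
    refine Set.Countable.union ?_ ?_
    · have : Countable {x₀ : CD ι // ↑x₀.sp ⊆ {i : ι | Sum.inl i ∈ l}} :=
        (countable_CD (hlc1 l)).to_subtype
      refine Set.countable_iUnion fun x₀ => (hC _).biUnion fun z _ => ?_
      exact ((Finset.countable_toSet _).image _).union (Set.countable_singleton _)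
    · exact (hlc2 l).biUnion fun a _ => (Finset.countable_toSet _).image _
  obtain ⟨Y, hY, -, hYcl⟩ := exists_closed cl hcl ∅ Set.countable_empty
  let T : Set ι := {i | Sum.inl i ∈ Y}
  let A : Set Λ := {a | Sum.inr a ∈ Y}
  have hT : T.Countable := hY.preimage_of_injOn Sum.inl_injective.injOn
  have hA : A.Countable := hY.preimage_of_injOn Sum.inr_injective.injOn
  -- closure properties
  have hcl1 : ∀ (x₀ : CD ι) (δ : ℚ), ↑x₀.sp ⊆ T → ∀ z ∈ C (x₀, δ), ↑z.2.sp ⊆ T ∧ z.1 ∈ A := by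
    intro x₀ δ hx₀ z hz
    let l : List (ι ⊕ Λ) := x₀.sp.toList.map Sum.inl
    have hl : ∀ y ∈ l, y ∈ Y := by
      intro y hy
      obtain ⟨i, hi, rfl⟩ := List.mem_map.1 hy
      exact hx₀ (Finset.mem_toList.1 hi)
    have h1 := hYcl l hl
    have h2 : ↑x₀.sp ⊆ {i : ι | Sum.inl i ∈ l} := by
      intro i hi
      exact List.mem_map.2 ⟨i, Finset.mem_toList.2 hi, rfl⟩
    have h3 : (Sum.inl '' (↑z.2.sp : Set ι) ∪ {Sum.inr z.1}) ⊆ Y := by
      refine subset_trans ?_ h1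
      refine subset_trans ?_ Set.subset_union_left
      refine subset_trans ?_ (Set.subset_iUnion _ (⟨x₀, h2⟩, δ))
      exact Set.subset_biUnion_of_mem (u := fun z : Λ × CD ι =>
        (Sum.inl '' (↑z.2.sp : Set ι) ∪ {Sum.inr z.1})) hz
    refine ⟨fun i hi => h3 (Or.inl ⟨i, hi, rfl⟩), h3 (Or.inr rfl)⟩
  have hcl2 : ∀ a ∈ A, ↑(x a).2.sp ⊆ T := by
    intro a ha i hi
    have h1 := hYcl [Sum.inr a] (by
      intro y hy
      rw [List.mem_singleton] at hy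
      subst hy
      exact ha)
    refine h1 (Or.inr ?_)
    refine Set.mem_biUnion (x := a) (by simp) ⟨i, hi, rfl⟩
  -- a member outside
  obtain ⟨b, hb, hbA⟩ : ∃ b ∈ S, b ∉ A := by
    by_contra h
    push Not at h
    exact hS (hA.mono h)
  let Z : Set ι := T ∪ ↑(x b).2.sp
  have hZ : Z.Countable := hT.union (Finset.countable_toSet _)
  have hTZ : T ⊆ Z := Set.subset_union_left
  have hbZ : ↑(x b).2.sp ⊆ Z := Set.subset_union_right
  let 𝒮 : Set (ℕ → RO P) := Set.range fun x₀ : {x₀ : CD ι // ↑x₀.sp ⊆ T} × ℚ =>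
    haveI : Countable (C (x₀.1.1, x₀.2)) := (hC _).to_subtype
    seqOf fun z : C (x₀.1.1, x₀.2) => body x₀.1.1 x₀.2 z.1
  have h𝒮 : 𝒮.Countable := by
    have : Countable {x₀ : CD ι // ↑x₀.sp ⊆ T} := (countable_CD hT).to_subtype
    exact Set.countable_range _
  have hne : pt (x b).1 ≠ ⊥ := by
    intro h
    have := pt_le_iff.1 h.le
    exact forc_bot this
  obtain ⟨F, hFb, hFg⟩ := exists_generic hne (fams d Z ∪ 𝒮) ((fams_countable d hZ).union h𝒮)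
  have hF : GoodF d F Z := goodF_of d fun g hg => hFg g (Or.inl hg)
  have hFD : ∀ (x₀ : CD ι) (δ : ℚ), ↑x₀.sp ⊆ T → F.U (⨆ z, body x₀ δ z) →
      ∃ z ∈ C (x₀, δ), F.U (body x₀ δ z) := by
    intro x₀ δ hx₀ hU
    haveI : Countable (C (x₀, δ)) := (hC _).to_subtype
    rw [hCs (x₀, δ)] at hU
    obtain ⟨z, hz⟩ := rs_of_seq (F := F) (g := fun z : C (x₀, δ) => body x₀ δ z.1)
      (hFg _ (Or.inr ⟨(⟨x₀, hx₀⟩, δ), rfl⟩)) hU
    exact ⟨z.1, z.2, hz⟩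
  -- the real world
  obtain ⟨X, _, _, u, hu⟩ := exists_realizes hF.basic
  have H := hypF hF.basic hu
  have hvb : F.U (val' d (x b).2) := F.mono (pt_le_iff.2 (hx b)) hFb
  obtain ⟨pb, hpb⟩ := exists_rp hF hu hbZ hvb
  obtain ⟨q', δ₁, hδ₁, hq'p, hq'ε, hq'F, hq'SV, hcore⟩ := core H T pb
  obtain ⟨x', hx', hx'sp⟩ := exists_cd (d := d) (F := F) (Z := Z) (u := u) q'
  have hx'Z : ↑x'.sp ⊆ Z := by
    intro i hi
    rcases hq'F i (hx'sp hi) with h | h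
    · rw [hpb.F] at h
      exact hbZ ((x b).2.F_sub h)
    · exact hTZ h
  -- the trace of `x'` on `T`
  let x₀ : CD ι := ⟨x'.F.filter (· ∈ T), x'.n, x'.f.filter (fun y => y.1 ∈ T), x'.ε, x'.hε⟩
  have hx₀ : ↑x₀.sp ⊆ T := by
    intro i hi
    rcases Finset.mem_union.1 hi with h | h
    · exact (Finset.mem_filter.1 h).2
    · obtain ⟨y, hy, rfl⟩ := Finset.mem_image.1 h
      have hy : y ∈ (x'.f.filter (fun y => y.1 ∈ T)).support := hy
      rw [Finsupp.support_filter, Finset.mem_filter] at hy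
      exact hy.2
  have hD : F.U (⨆ z, body x₀ δ₁ z) := by
    refine F.mono (le_iSup _ (b, x')) ?_
    simp only [body, F.inf_iff, uf_tv]
    refine ⟨⟨⟨⟨⟨hb, rfl, Finset.filter_subset _ _, rfl, fun i hi k _ => ?_⟩, hFb⟩,
      hx'.valid hF hu hx'Z⟩, (Rp.ord hF hu hbZ hx'Z hpb hx').2 hq'p⟩,
      (hx'.sv hF hu hx'Z δ₁).2 hq'SV⟩
    show x'.f (i, k) = (x'.f.filter (fun y => y.1 ∈ T)) (i, k)
    rw [Finsupp.filter_apply, if_pos (Finset.mem_filter.1 hi).2]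
  obtain ⟨⟨a, y⟩, hz, hU⟩ := hFD x₀ δ₁ hx₀ hD
  obtain ⟨hyT, haA⟩ := hcl1 x₀ δ₁ hx₀ _ hz
  simp only [body, F.inf_iff, uf_tv] at hU
  obtain ⟨⟨⟨⟨⟨haS, hyε, hyF, hyn, hyf⟩, hFa⟩, hvy⟩, hoy⟩, hsy⟩ := hU
  have hyZ : ↑y.sp ⊆ Z := hyT.trans hTZ
  have haZ : ↑(x a).2.sp ⊆ Z := (hcl2 a haA).trans hTZ
  have hva : F.U (val' d (x a).2) := F.mono (pt_le_iff.2 (hx a)) hFa
  obtain ⟨pa, hpa⟩ := exists_rp hF hu haZ hva
  obtain ⟨p', hp'⟩ := exists_rp hF hu hyZ hvy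
  have hp'a : p' ≤ pa := (Rp.ord hF hu haZ hyZ hpa hp').1 hoy
  obtain ⟨r, hr1, hr2, hrF⟩ := hcore p' (by rw [hp'.ε, hyε]; exact (hx'.ε.symm.trans hq'ε))
    (fun i hi hiT => by
      rw [hp'.F]
      exact hyF (Finset.mem_filter.2 ⟨hx'.F ▸ hi, hiT⟩))
    (fun i hi => hyT (y.F_sub (hp'.F ▸ hi)))
    (by rw [hp'.n, hyn]; exact hx'.n.symm)
    (fun i hi hiT k hk => by
      have hi' : i ∈ x'.F := hx'.F ▸ hi
      have hi0 : i ∈ x₀.F := Finset.mem_filter.2 ⟨hi', hiT⟩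
      have hk' : k < x'.n := hx'.n ▸ hk
      rw [hp'.f i (hyF hi0) k (by rw [hyn]; exact hk'), hx'.f i hi' k hk', hyf i hi0 k hk']
      show (x'.f.filter (fun y => y.1 ∈ T)) (i, k) = _
      rw [Finsupp.filter_apply, if_pos hiT])
    ((hp'.sv hF hu hyZ δ₁).1 hsy)
  obtain ⟨z, hz', hzsp⟩ := exists_cd (d := d) (F := F) (Z := Z) (u := u) r
  have hzZ : ↑z.sp ⊆ Z := by
    intro i hi
    rcases hrF i (hzsp hi) with h | h
    · exact hyZ (y.F_sub (hp'.F ▸ h))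
    · exact hx'Z (x'.F_sub (hx'.F ▸ h))
  have hfin : F.U (pt (x a).1 ⊓ pt (x b).1 ⊓
      (val' d z ⊓ (ord' d z (x a).2 ⊓ ord' d z (x b).2))) := by
    simp only [F.inf_iff]
    exact ⟨⟨hFa, hFb⟩, hz'.valid hF hu hzZ,
      (Rp.ord hF hu haZ hzZ hpa hz').2 (le_trans hr1 hp'a),
      (Rp.ord hF hu hbZ hzZ hpb hz').2 (le_trans hr2 hq'p)⟩
  have hne2 : pt (x a).1 ⊓ pt (x b).1 ⊓
      (val' d z ⊓ (ord' d z (x a).2 ⊓ ord' d z (x b).2)) ≠ ⊥ := by
    intro h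
    rw [h] at hfin
    exact F.bot hfin
  obtain ⟨t, ht⟩ := exists_forc hne2
  rw [forc_inf, forc_inf] at ht
  obtain ⟨⟨ht1, ht2⟩, ht3⟩ := ht
  obtain ⟨r1, hr1t, hr1a⟩ := forc_pt.1 ht1 t le_rfl
  obtain ⟨r2, hr2t, hr2b⟩ := forc_pt.1 ht2 r1 hr1t
  refine ⟨a, haS, b, hb, fun h => hbA (h ▸ haA), r2, z, hr2t.trans hr1a, hr2b,
    ht3.mono (hr2t.trans hr1t)⟩

end

end Pool.Agent.MAx
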