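import Pool.Agent.MAx.Xf

/-!
# The Boolean-valued data of an extension problem
-/

namespace Pool.Agent.MAx

open Classical Pool.Agent Pool.Agent.LadderTree
open Pool.Agent.BVM (BSet UF OPair FunOn chk le_of_uf eq_of_uf memv eqv on onT ZFC)

theorem In_on {B : Type} [CompleteBooleanAlgebra B] {b : B} (F : Pt b) (k n : ℕ) :
    In F (nm F (on k)) (nm F (on n)) ↔ k < n := BVM.E_on_iff F.1

/-- names for an extension problem -/
structure Ctx (B : Type) [CompleteBooleanAlgebra B] (ι : Type) where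
  /-- the value -/
  b : B
  /-- the field -/
  K : OF (BSet B)
  /-- the space -/
  V : NS (BSet B)
  /-- `ℕ*` -/
  Z : BSet B
  /-- the subspace -/
  Y : BSet B
  /-- the operator -/
  t : BSet B
  hK : ∀ F : Pt b, IsReals (In F) (nmK F K)
  hV : ∀ F : Pt b, IsNormed (In F) (nmK F K) (nmV F V)
  hZ : ∀ F : Pt b, IsStar (In F) (nm F om) (nm F Z)
  hY : ∀ F : Pt b, IsSubspace (In F) (nmK F K) (nmV F V) (nm F Y)
  hO : ∀ F : Pt b, IsOp (In F) (nmK F K) (nmV F V) (nm F Z) (nm F Y) (nm F t)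
  /-- the norm of the operator -/
  c₀ : ∀ F : Pt b, KF hK F
  hc₀ : NmR c₀
  c₀_nonneg : ∀ F, 0 ≤ c₀ F
  c₀_bound : ∀ F (x : XF hK hV F) (u : Md F) (r : KF hK F), TR (nm F t) x u r → |r| ≤ c₀ F * nr x
  /-- the points -/
  u : ι → ∀ F : Pt b, XF hK hV F
  hu : ∀ i, NmX (u i)

section

variable {B : Type} [CompleteBooleanAlgebra B] {b : B} {K : OF (BSet B)}
  {hK : ∀ F : Pt b, IsReals (In F) (nmK F K)}

theorem sq_ex {h : ℕ → ∀ F : Pt b, KF hK F} (hh : ∀ n, NmR (h n)) (F : Pt b) {k : Md F}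
    (hk : In F k (nm F om)) : ∃ y : KF hK F, BVM.Rel (In F) (nm F (sqN hh)) k y.v := by
  obtain ⟨y, hy, hy'⟩ := (fn_sqN hh F).ex hk
  exact ⟨RK.of y hy, (hy' y).2 rfl⟩

theorem lim_add {h h₁ h₂ : ℕ → ∀ F : Pt b, KF hK F} (hh : ∀ n, NmR (h n))
    (hh₁ : ∀ n, NmR (h₁ n)) (hh₂ : ∀ n, NmR (h₂ n)) (he : ∀ k F, h k F = h₁ k F + h₂ k F)
    {F : Pt b} {u : Md F} (hu : IsUlt (In F) (nm F om) u) {r₁ r₂ : KF hK F}
    (H₁ : Lim F (nm F (sqN hh₁)) u r₁) (H₂ : Lim F (nm F (sqN hh₂)) u r₂) :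
    Lim F (nm F (sqN hh)) u (r₁ + r₂) := by
  intro e he'
  obtain ⟨A, hA, hA'⟩ := H₁ (e / 2) (half_pos he')
  obtain ⟨C, hC, hC'⟩ := H₂ (e / 2) (half_pos he')
  obtain ⟨D, hD⟩ := exists_inter (BVM.zfc F.1) A C
  refine ⟨D, hu.inter _ _ _ hA hC hD, fun k y hk hy => ?_⟩
  have hk' := (hD k).1 hk
  have hkω := hu.sub _ hA k hk'.1
  obtain ⟨y₁, hy₁⟩ := sq_ex hh₁ F hkω
  obtain ⟨y₂, hy₂⟩ := sq_ex hh₂ F hkω
  have e1 : y = y₁ + y₂ := by
    refine om_all (b := b) (RpP.const True) (P := fun F k => ∀ y y₁ y₂ : KF hK F,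
      BVM.Rel (In F) (nm F (sqN hh)) k y.v → BVM.Rel (In F) (nm F (sqN hh₁)) k y₁.v →
      BVM.Rel (In F) (nm F (sqN hh₂)) k y₂.v → y = y₁ + y₂) (fun k => RpP.allR fun y hy =>
        RpP.allR fun y₁ hy₁ => RpP.allR fun y₂ hy₂ => (RpP.relR _ _ hy).imp
          ((RpP.relR _ _ hy₁).imp ((RpP.relR _ _ hy₂).imp (RpP.eqR hy (hy₁.add hy₂)))))
      (fun F _ n y y₁ y₂ h1 h2 h3 => ?_) F trivial k hkω y y₁ y₂ hy hy₁ hy₂
    rw [rel_sqN'] at h1 h2 h3
    rw [h1, h2, h3, he]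
  have h1 := hA' k y₁ hk'.1 hy₁
  have h2 := hC' k y₂ hk'.2 hy₂
  rw [e1]
  calc |y₁ + y₂ - (r₁ + r₂)| = |(y₁ - r₁) + (y₂ - r₂)| := by congr 1; ring
    _ ≤ |y₁ - r₁| + |y₂ - r₂| := abs_add_le _ _
    _ < e / 2 + e / 2 := add_lt_add h1 h2
    _ = e := add_halves e

theorem lim_mul {h h₁ : ℕ → ∀ F : Pt b, KF hK F} (hh : ∀ n, NmR (h n))
    (hh₁ : ∀ n, NmR (h₁ n)) (q : ℚ) (he : ∀ k F, h k F = (q : KF hK F) * h₁ k F)
    {F : Pt b} {u : Md F} (hu : IsUlt (In F) (nm F om) u) {r₁ : KF hK F}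
    (H₁ : Lim F (nm F (sqN hh₁)) u r₁) : Lim F (nm F (sqN hh)) u ((q : KF hK F) * r₁) := by
  intro e he'
  have hq : 0 < |(q : KF hK F)| + 1 := by positivity
  obtain ⟨A, hA, hA'⟩ := H₁ (e / (|(q : KF hK F)| + 1)) (div_pos he' hq)
  refine ⟨A, hA, fun k y hk hy => ?_⟩
  have hkω := hu.sub _ hA k hk
  obtain ⟨y₁, hy₁⟩ := sq_ex hh₁ F hkω
  have e1 : y = (q : KF hK F) * y₁ := by
    refine om_all (b := b) (RpP.const True) (P := fun F k => ∀ y y₁ : KF hK F,
      BVM.Rel (In F) (nm F (sqN hh)) k y.v → BVM.Rel (In F) (nm F (sqN hh₁)) k y₁.v →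
      y = (q : KF hK F) * y₁) (fun k => RpP.allR fun y hy =>
        RpP.allR fun y₁ hy₁ => (RpP.relR _ _ hy).imp
          ((RpP.relR _ _ hy₁).imp (RpP.eqR hy ((NmR.rat q).mul hy₁))))
      (fun F _ n y y₁ h1 h2 => ?_) F trivial k hkω y y₁ hy hy₁
    rw [rel_sqN'] at h1 h2
    rw [h1, h2, he]
  have h1 := hA' k y₁ hk hy₁
  rw [e1, ← mul_sub, abs_mul]
  rw [lt_div_iff₀ hq] at h1
  nlinarith [abs_nonneg (y₁ - r₁), abs_nonneg (q : KF hK F)]

theorem lim_zero {h : ℕ → ∀ F : Pt b, KF hK F} (hh : ∀ n, NmR (h n))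
    (he : ∀ k F, h k F = 0) {F : Pt b} {u : Md F} (hu : IsUlt (In F) (nm F om) u) :
    Lim F (nm F (sqN hh)) u (0 : KF hK F) := by
  intro e he'
  refine ⟨nm F (sN fun n => tv (n ≠ 0)), UFu_ne hu 0, fun k y hk hy => ?_⟩
  have e1 : y = 0 := by
    refine om_all (b := b) (RpP.const True) (P := fun F k => ∀ y : KF hK F,
      BVM.Rel (In F) (nm F (sqN hh)) k y.v → y = 0) (fun k => RpP.allR fun y hy =>
        (RpP.relR _ _ hy).imp (RpP.eqR hy NmR.zero))
      (fun F _ n y h1 => ?_) F trivial k (sN_sub hk) y hy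
    rw [rel_sqN'] at h1
    rw [h1, he]
  rw [e1, sub_zero, abs_zero]
  exact he'

/-- linear combinations -/
noncomputable def lin {ι : Type} (x : ι → ∀ F : Pt b, KF hK F) (c : ι →₀ ℚ) (F : Pt b) : KF hK F :=
  c.sum fun i q => (q : KF hK F) * x i F

theorem lin_nm {ι : Type} {x : ι → ∀ F : Pt b, KF hK F} (hx : ∀ i, NmR (x i)) (c : ι →₀ ℚ) :
    NmR (lin x c) := NmR.sum c.support fun i => (NmR.rat (c i)).mul (hx i)

theorem lin_add {ι : Type} (x : ι → ∀ F : Pt b, KF hK F) (c d : ι →₀ ℚ) (F : Pt b) :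
    lin x (c + d) F = lin x c F + lin x d F := by
  unfold lin
  rw [Finsupp.sum_add_index']
  · intro i; push_cast; ring
  · intro i p q; push_cast; ring

theorem lin_zero {ι : Type} (x : ι → ∀ F : Pt b, KF hK F) (F : Pt b) : lin x 0 F = 0 :=
  Finsupp.sum_zero_index

theorem lin_single {ι : Type} (x : ι → ∀ F : Pt b, KF hK F) (i : ι) (q : ℚ) (F : Pt b) :
    lin x (Finsupp.single i q) F = (q : KF hK F) * x i F := by
  unfold lin
  rw [Finsupp.sum_single_index]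
  push_cast; ring

theorem lin_smul {ι : Type} (x : ι → ∀ F : Pt b, KF hK F) (r : ℚ) (c : ι →₀ ℚ) (F : Pt b) :
    lin x (r • c) F = (r : KF hK F) * lin x c F := by
  unfold lin
  rw [Finsupp.sum_smul_index', Finsupp.mul_sum]
  · refine Finsupp.sum_congr fun i _ => ?_
    rw [smul_eq_mul]; push_cast; ring
  · intro i; push_cast; ring

theorem lin_neg {ι : Type} (x : ι → ∀ F : Pt b, KF hK F) (c : ι →₀ ℚ) (F : Pt b) :
    lin x (-c) F = -lin x c F := by
  have h := lin_add x (-c) c F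
  rw [neg_add_cancel, lin_zero] at h
  exact eq_neg_of_add_eq_zero_left h.symm

theorem lin_sub {ι : Type} (x : ι → ∀ F : Pt b, KF hK F) (c d : ι →₀ ℚ) (F : Pt b) :
    lin x (c - d) F = lin x c F - lin x d F := by
  rw [sub_eq_add_neg, lin_add, lin_neg, sub_eq_add_neg]

end

namespace Ctx

variable {B : Type} [CompleteBooleanAlgebra B] {ι : Type} (X : Ctx B ι)

/-- linear combinations of the points -/
noncomputable def S (c : ι →₀ ℚ) (F : Pt X.b) : XF X.hK X.hV F :=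
  c.sum fun i q => (q : KF X.hK F) • X.u i F

theorem S_nm (c : ι →₀ ℚ) : NmX (X.S c) := NmX.sum c.support fun i => (X.hu i).smul (NmR.rat (c i))

theorem S_add (c d : ι →₀ ℚ) (F : Pt X.b) : X.S (c + d) F = X.S c F + X.S d F := by
  unfold S
  rw [Finsupp.sum_add_index']
  · intro i; rw [Rat.cast_zero, zero_smul]
  · intro i p q; rw [Rat.cast_add, add_smul]

theorem S_zero (F : Pt X.b) : X.S 0 F = 0 := Finsupp.sum_zero_index

theorem S_single (i : ι) (q : ℚ) (F : Pt X.b) :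
    X.S (Finsupp.single i q) F = (q : KF X.hK F) • X.u i F := by
  unfold S
  rw [Finsupp.sum_single_index]
  rw [Rat.cast_zero, zero_smul]

theorem S_smul (r : ℚ) (c : ι →₀ ℚ) (F : Pt X.b) : X.S (r • c) F = (r : KF X.hK F) • X.S c F := by
  unfold S
  rw [Finsupp.sum_smul_index', Finsupp.smul_sum]
  · refine Finsupp.sum_congr fun i _ => ?_
    rw [smul_eq_mul, Rat.cast_mul, mul_smul]
  · intro i; rw [Rat.cast_zero, zero_smul]

theorem S_neg (c : ι →₀ ℚ) (F : Pt X.b) : X.S (-c) F = -X.S c F := by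
  have h := X.S_add (-c) c F
  rw [neg_add_cancel, S_zero] at h
  exact eq_neg_of_add_eq_zero_left h.symm

theorem S_sub (c d : ι →₀ ℚ) (F : Pt X.b) : X.S (c - d) F = X.S c F - X.S d F := by
  rw [sub_eq_add_neg, S_add, S_neg, sub_eq_add_neg]

/-- the seminorm -/
noncomputable def NF (c : ι →₀ ℚ) (F : Pt X.b) : KF X.hK F := X.c₀ F * nr (X.S c F)

theorem NF_nm (c : ι →₀ ℚ) : NmR (X.NF c) := X.hc₀.mul (NmR.nr (X.S_nm c))

theorem NF_nonneg (c : ι →₀ ℚ) (F : Pt X.b) : 0 ≤ X.NF c F :=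
  mul_nonneg (X.c₀_nonneg F) (nr_nonneg _)

/-- liftings of the values of the operator -/
theorem exists_tau (i : ι) : ∃ (τ : ℕ → ∀ F : Pt X.b, KF X.hK F) (hτ : ∀ n, NmR (τ n)),
    ∀ F, In F (X.u i F).v (nm F X.Y) → ∀ u (r : KF X.hK F), TR (nm F X.t) (X.u i F) u r →
      Lim F (nm F (sqN hτ)) u r := by
  have hD : RpP fun F => In F (X.u i F).v (nm F X.Y) := RpP.inX (X.hu i) _
  obtain ⟨g, hg⟩ := exists_name (b := X.b)
    (P := fun F g => In F (X.u i F).v (nm F X.Y) → BVM.Rel (In F) (nm F X.t) (X.u i F).v g)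
    (fun g => hD.imp (RpP.relX (X.hu i) _ _)) (fun F => by
      by_cases h : In F (X.u i F).v (nm F X.Y)
      · obtain ⟨g, hg, _⟩ := (X.hO F).fn.2 _ h
        exact ⟨g, fun _ => hg⟩
      · exact ⟨nm F om, fun h' => absurd h' h⟩)
  obtain ⟨τ, hτ, hlim⟩ := exists_lift X.hZ hD (fun F hF => (X.hO F).val _ _ (hg F hF))
    (X.hc₀.mul (NmR.nr (X.hu i))) (fun F hF u r hur =>
      (abs_le.1 (X.c₀_bound F (X.u i F) u r ⟨_, hg F hF, hur⟩)).1)
  refine ⟨τ, hτ, fun F hF u r hur => hlim F hF u r ?_⟩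
  obtain ⟨g', h1, h2⟩ := hur
  rw [← FunOn.uniq (X.hO F).fn h1 (hg F hF)]
  exact h2

/-- the lifting of `t(u_i)` -/
noncomputable def τ (i : ι) : ℕ → ∀ F : Pt X.b, KF X.hK F := (X.exists_tau i).choose

theorem τ_nm (i : ι) (n : ℕ) : NmR (X.τ i n) := (X.exists_tau i).choose_spec.choose n

theorem τ_lim (i : ι) (F : Pt X.b) (hF : In F (X.u i F).v (nm F X.Y)) (u : Md F)
    (r : KF X.hK F) (h : TR (nm F X.t) (X.u i F) u r) : Lim F (nm F (sqN (X.τ_nm i))) u r :=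
  (X.exists_tau i).choose_spec.choose_spec F hF u r h

/-- the functionals -/
noncomputable def WF (c : ι →₀ ℚ) (k : ℕ) : ∀ F : Pt X.b, KF X.hK F := lin (fun i => X.τ i k) c

theorem WF_nm (c : ι →₀ ℚ) (k : ℕ) : NmR (X.WF c k) := lin_nm (fun i => X.τ_nm i k) c

theorem lim_WF (c : ι →₀ ℚ) : ∀ (h : ℕ → ∀ F : Pt X.b, KF X.hK F) (hh : ∀ n, NmR (h n)),
    (∀ k F, h k F = X.WF c k F) → ∀ (F : Pt X.b) (u : Md F), IsUlt (In F) (nm F om) u →
      (∀ i ∈ c.support, In F (X.u i F).v (nm F X.Y)) →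
      ∃ r : KF X.hK F, TR (nm F X.t) (X.S c F) u r ∧ Lim F (nm F (sqN hh)) u r := by
  induction c using Finsupp.induction with
  | zero =>
    intro h hh he F u hu _
    obtain ⟨r, hr⟩ := TR.ex (hE := BVM.zfc F.1) (hK := X.hK F) (hV := X.hV F) (X.hO F)
      (x := (0 : XF X.hK X.hV F)) (X.hY F).zero ((X.hZ F u).2 hu)
    have h1 := X.c₀_bound F _ _ _ hr
    rw [nr_zero, mul_zero] at h1
    have h2 : r = 0 := abs_eq_zero.1 (le_antisymm h1 (abs_nonneg _))
    refine ⟨0, ?_, lim_zero hh (fun k F => by rw [he]; exact lin_zero _ _) hu⟩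
    rw [S_zero, ← h2]
    exact hr
  | single_add i q c hi hq ih =>
    intro h hh he F u hu hs
    have hsup : (Finsupp.single i q + c).support = insert i c.support := by
      rw [Finsupp.support_single_add hi hq, Finset.cons_eq_insert]
    rw [hsup] at hs
    obtain ⟨r, hr, hr'⟩ := ih (X.WF c) (X.WF_nm c) (fun _ _ => rfl) F u hu fun j hj =>
      hs j (Finset.mem_insert_of_mem hj)
    have hiY := hs i (Finset.mem_insert_self _ _)
    obtain ⟨p, hp⟩ := TR.ex (hE := BVM.zfc F.1) (hK := X.hK F) (hV := X.hV F) (X.hO F)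
      (x := X.u i F) hiY ((X.hZ F u).2 hu)
    have h1 := X.τ_lim i F hiY u p hp
    have h2 := lim_mul (fun n => (NmR.rat q).mul (X.τ_nm i n)) (X.τ_nm i) q (fun _ _ => rfl) hu h1
    refine ⟨(q : KF X.hK F) * p + r, ?_, lim_add hh _ (X.WF_nm c) (fun k F => ?_) hu h2 hr'⟩
    · rw [S_add, S_single]
      exact (hp.smul (X.hO F) (X.hY F) _).add (X.hO F) (X.hY F) hr
    · rw [he, WF, lin_add, lin_single]
      rfl

theorem hypX (c : ι →₀ ℚ) (ε : ℚ) (hε : 0 < ε) :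
    (c.support.inf fun i => bv (RpP.inX (X.hu i) X.Y)) ≤ ⨆ n₀ : ℕ, ⨅ x : ℕ × ℚ,
      (tv (n₀ ≤ x.1) ⊓ (toBR (X.NF_nm c)).lt x.2) ⇨ (toBR (X.WF_nm c x.1)).lt (x.2 + ε) := by
  by_cases hc : c = 0
  · subst hc
    refine le_iSup_of_le 0 (le_iInf fun x => ?_)
    rw [le_himp_iff]
    refine inf_le_right.trans (inf_le_right.trans (le_of_uf fun F hF => ?_))
    rw [toBR_lt] at hF ⊢
    by_cases hb : F.U X.b
    · have h1 := (ltB_pt (X.NF_nm 0) x.2 ⟨F, hb⟩).1 hF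
      refine (ltB_pt (X.WF_nm 0 x.1) (x.2 + ε) ⟨F, hb⟩).2 ?_
      have h2 := X.NF_nonneg 0 ⟨F, hb⟩
      have h3 : X.WF 0 x.1 ⟨F, hb⟩ = 0 := lin_zero _ _
      have h4 : (0 : KF X.hK ⟨F, hb⟩) < (ε : KF X.hK ⟨F, hb⟩) := by exact_mod_cast hε
      rw [h3]
      push_cast
      linarith
    · rw [ltB_out _ _ hb] at hF ⊢
      linarith
  · obtain ⟨i, hi⟩ := Finsupp.support_nonempty_iff.2 hc
    refine le_of_pt ((Finset.inf_le hi).trans (bv_le_b _)) fun F hF => ?_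
    by_contra hcon
    rw [← F.1.compl_iff] at hcon
    set R : B := ⨆ n₀ : ℕ, ⨅ x : ℕ × ℚ, (tv (n₀ ≤ x.1) ⊓ (toBR (X.NF_nm c)).lt x.2) ⇨
      (toBR (X.WF_nm c x.1)).lt (x.2 + ε) with hR
    have hα : ∀ k, RpP fun F => X.NF c F + (ε : KF X.hK F) < X.WF c k F := fun k =>
      RpP.ltR ((X.NF_nm c).add (NmR.rat ε)) (X.WF_nm c k)
    have hD : RpP fun F : Pt X.b => (∀ i ∈ c.support, In F (X.u i F).v (nm F X.Y)) ∧ F.1.U Rᶜ := by
      refine ((RpP.val (c.support.inf fun i => bv (RpP.inX (X.hu i) X.Y))).and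
        (RpP.val Rᶜ)).congr fun F => ?_
      rw [uf_finset_inf]
      simp only [bv_iff]
    -- the exceptional set is infinite
    have hinf : ∀ F : Pt X.b, ((∀ i ∈ c.support, In F (X.u i F).v (nm F X.Y)) ∧ F.1.U Rᶜ) →
        ∀ n, In F n (nm F om) → ∃ k, In F k (nm F om) ∧ (¬ In F k n ∧
          In F k (nm F (sN fun k => bv (hα k)))) := by
      intro F hF n hn
      refine om_all hD (P := fun F n => ∃ k, In F k (nm F om) ∧ (¬ In F k n ∧
          In F k (nm F (sN fun k => bv (hα k))))) (fun n => RpP.ex fun k => (RpP.mem _ _).and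
            ((RpP.mem _ _).not.and (RpP.mem _ _))) (fun F hF n₀ => ?_) F hF n hn
      have hP : ∀ k, RpP fun F : Pt X.b => ¬ In F (nm F k) (nm F (on n₀)) ∧
          In F (nm F k) (nm F (sN fun k => bv (hα k))) := fun k =>
        (RpP.mem _ _).not.and (RpP.mem _ _)
      refine (chk_ex (on : ℕ → BSet B) (P := fun F k => ¬ In F k (nm F (on n₀)) ∧
          In F k (nm F (sN fun k => bv (hα k)))) hP F).1 ?_
      have h1 : F.1.U (⨅ x : ℕ × ℚ, (tv (n₀ ≤ x.1) ⊓ (toBR (X.NF_nm c)).lt x.2) ⇨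
          (toBR (X.WF_nm c x.1)).lt (x.2 + ε))ᶜ := by
        refine F.1.mono (compl_le_compl ?_) hF.2
        exact le_iSup (fun n₀ => ⨅ x : ℕ × ℚ, (tv (n₀ ≤ x.1) ⊓ (toBR (X.NF_nm c)).lt x.2) ⇨
          (toBR (X.WF_nm c x.1)).lt (x.2 + ε)) n₀
      rw [compl_iInf] at h1
      refine F.1.mono ?_ (F.1.inf h1 F.2)
      rw [iSup_inf_eq]
      refine iSup_le fun x => le_iSup_of_le x.1 (le_bv _ inf_le_right fun G hG => ?_)
      rw [G.1.inf_iff, G.1.compl_iff, G.1.himp_iff, Classical.not_imp, G.1.inf_iff,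
        G.1.tv_iff, toBR_lt, toBR_lt, ltB_pt, ltB_pt] at hG
      obtain ⟨⟨⟨h2, h3⟩, h4⟩, _⟩ := hG
      rw [In_on, In_sN, bv_iff]
      refine ⟨not_lt.2 h2, ?_⟩
      push Not at h4
      push_cast at h4
      linarith
    obtain ⟨u, hu⟩ := exists_ult hD (P := fun F A => ∃ n, In F n (nm F om) ∧
        ∀ k, In F k (nm F om) → ¬ In F k n → In F k (nm F (sN fun k => bv (hα k))) → In F k A)
      (fun A => RpP.ex fun n => (RpP.mem _ _).and (RpP.all fun k => (RpP.mem _ _).imp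
        ((RpP.mem _ _).not.imp ((RpP.mem _ _).imp (RpP.mem _ _)))))
      (by
        rintro F - A C ⟨n, hn, h⟩ hAC -
        exact ⟨n, hn, fun k h1 h2 h3 => hAC k (h k h1 h2 h3)⟩)
      (by
        rintro F - A A' C ⟨n, hn, h⟩ ⟨n', hn', h'⟩ hC
        have hmax : ∀ n, In F n (nm F om) → ∀ n', In F n' (nm F om) → ∃ m, In F m (nm F om) ∧
            ∀ k, In F k (nm F om) → (In F k n ∨ In F k n') → In F k m := by
          intro n hn n' hn'
          refine om_all (b := X.b) (RpP.const True) (P := fun F n => ∀ n', In F n' (nm F om) →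
            ∃ m, In F m (nm F om) ∧
            ∀ k, In F k (nm F om) → (In F k n ∨ In F k n') → In F k m)
            (fun n => RpP.all fun n' => (RpP.mem _ _).imp (RpP.ex fun m => (RpP.mem _ _).and
              (RpP.all fun k => (RpP.mem _ _).imp (((RpP.mem _ _).or (RpP.mem _ _)).imp
                (RpP.mem _ _))))) (fun F _ n n' hn' => ?_) F trivial n hn n' hn'
          refine om_all (b := X.b) (RpP.const True) (P := fun F n' =>
            ∃ m, In F m (nm F om) ∧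
            ∀ k, In F k (nm F om) → (In F k (nm F (on n)) ∨ In F k n') → In F k m)
            (fun n' => RpP.ex fun m => (RpP.mem _ _).and
              (RpP.all fun k => (RpP.mem _ _).imp (((RpP.mem _ _).or (RpP.mem _ _)).imp
                (RpP.mem _ _)))) (fun F _ n' => ?_) F trivial n' hn'
          refine ⟨nm F (on (max n n')), In_om F _, fun k hk => ?_⟩
          refine om_all (b := X.b) (RpP.const True) (P := fun F k =>
            (In F k (nm F (on n)) ∨ In F k (nm F (on n'))) → In F k (nm F (on (max n n'))))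
            (fun k => ((RpP.mem _ _).or (RpP.mem _ _)).imp (RpP.mem _ _))
            (fun F _ k => ?_) F trivial k hk
          rw [In_on, In_on, In_on]
          rintro (h | h)
          · exact lt_max_of_lt_left h
          · exact lt_max_of_lt_right h
        obtain ⟨m, hm, hm'⟩ := hmax n hn n' hn'
        refine ⟨m, hm, fun k h1 h2 h3 => (hC k).2 ⟨h k h1 (fun h4 => h2 (hm' k h1 (Or.inl h4))) h3,
          h' k h1 (fun h4 => h2 (hm' k h1 (Or.inr h4))) h3⟩⟩)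
      (by
        rintro F hF A ⟨n, hn, h⟩
        obtain ⟨k, h1, h2, h3⟩ := hinf F hF n hn
        exact ⟨k, h k h1 h2 h3⟩)
      (by
        intro F _ m
        refine ⟨nm F (on (m + 1)), In_om F _, fun k hk h1 _ => ?_⟩
        refine om_all (b := X.b) (RpP.const True) (P := fun F k =>
            ¬ In F k (nm F (on (m + 1))) → In F k (nm F (sN fun n => tv (n ≠ m))))
            (fun k => (RpP.mem _ _).not.imp (RpP.mem _ _))
            (fun F _ k => ?_) F trivial k hk h1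
        rw [In_on, In_sN, F.1.tv_iff]
        intro h
        omega)
    have hF' : (∀ i ∈ c.support, In F (X.u i F).v (nm F X.Y)) ∧ F.1.U Rᶜ := by
      refine ⟨fun i hi => ?_, hcon⟩
      exact (bv_iff (RpP.inX (X.hu i) X.Y) F).1 (F.1.mono
        (Finset.inf_le (f := fun i => bv (RpP.inX (X.hu i) X.Y)) hi) hF)
    obtain ⟨h1, h2⟩ := hu F hF'
    have hA₀ := h2 (nm F (sN fun k => bv (hα k))) ⟨nm F (on 0), In_om F _, fun k _ _ h => h⟩
      fun z hz => sN_sub hz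
    obtain ⟨r, hr, hlim⟩ := X.lim_WF c (X.WF c) (X.WF_nm c) (fun _ _ => rfl) F _ h1 hF'.1
    have hεF : (0 : KF X.hK F) < (ε : KF X.hK F) := by exact_mod_cast hε
    obtain ⟨A, hA, hA'⟩ := hlim _ hεF
    obtain ⟨C, hC⟩ := exists_inter (BVM.zfc F.1) A (nm F (sN fun k => bv (hα k)))
    obtain ⟨k, hk⟩ := h1.ne _ (h1.inter _ _ _ hA hA₀ hC)
    have hk' := (hC k).1 hk
    have hkω := sN_sub hk'.2
    obtain ⟨y, hy⟩ := sq_ex (X.WF_nm c) F hkω
    have h3 := hA' k y hk'.1 hy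
    have h4 : X.NF c F + (ε : KF X.hK F) < y := by
      refine sN_all (b := X.b) (RpP.const True) (fun k => bv (hα k)) (P := fun F k =>
        ∀ y : KF X.hK F, BVM.Rel (In F) (nm F (sqN (X.WF_nm c))) k y.v →
        X.NF c F + (ε : KF X.hK F) < y) (fun k => RpP.allR fun y hy => (RpP.relR _ _ hy).imp
          (RpP.ltR ((X.NF_nm c).add (NmR.rat ε)) hy)) (fun F _ n hn y hy => ?_) F trivial k
          hk'.2 y hy
      rw [rel_sqN'] at hy
      rw [hy]
      exact (bv_iff _ F).1 hn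
    have h5 := X.c₀_bound F _ _ _ hr
    have h6 := (abs_lt.1 h3).2
    have h7 := le_abs_self r
    have h8 : X.NF c F = X.c₀ F * nr (X.S c F) := rfl
    linarith

/-- the Boolean-valued data -/
noncomputable def toBD : BD B ι where
  N c := toBR (X.NF_nm c)
  W c k := toBR (X.WF_nm c k)
  J i := bv (RpP.inX (X.hu i) X.Y)
  N_pos c q hq := by
    rw [← le_bot_iff]
    refine le_of_uf fun F hF => ?_
    exfalso
    rw [toBR_lt] at hF
    by_cases hb : F.U X.b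
    · have h1 := (ltB_pt (X.NF_nm c) q ⟨F, hb⟩).1 hF
      have h2 := X.NF_nonneg c ⟨F, hb⟩
      have h3 : (q : KF X.hK ⟨F, hb⟩) ≤ 0 := by exact_mod_cast hq
      linarith
    · rw [ltB_out _ _ hb] at hF
      linarith
  N_add c d q q' := by
    refine le_of_uf fun F hF => ?_
    rw [F.inf_iff, toBR_lt, toBR_lt] at hF
    rw [toBR_lt]
    by_cases hb : F.U X.b
    · have h1 := (ltB_pt (X.NF_nm c) q ⟨F, hb⟩).1 hF.1
      have h2 := (ltB_pt (X.NF_nm d) q' ⟨F, hb⟩).1 hF.2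
      refine (ltB_pt (X.NF_nm (c + d)) _ ⟨F, hb⟩).2 ?_
      unfold NF at h1 h2 ⊢
      rw [S_add]
      have h3 := mul_le_mul_of_nonneg_left (nr_add (X.S c ⟨F, hb⟩) (X.S d ⟨F, hb⟩))
        (X.c₀_nonneg ⟨F, hb⟩)
      push_cast
      linarith
    · rw [ltB_out _ _ hb] at hF ⊢
      rw [ltB_out _ _ hb] at hF
      linarith [hF.1, hF.2]
  N_smul r c q hr := by
    refine le_of_uf fun F hF => ?_
    rw [toBR_lt] at hF ⊢
    have hr' : 0 < |r| := abs_pos.2 hr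
    by_cases hb : F.U X.b
    · have h1 := (ltB_pt (X.NF_nm c) q ⟨F, hb⟩).1 hF
      refine (ltB_pt (X.NF_nm (r • c)) _ ⟨F, hb⟩).2 ?_
      unfold NF at h1 ⊢
      rw [S_smul, nr_smul]
      have h2 : (0 : KF X.hK ⟨F, hb⟩) < |(r : KF X.hK ⟨F, hb⟩)| := by
        rw [abs_pos]
        exact_mod_cast hr
      push_cast
      calc _ = |(r : KF X.hK ⟨F, hb⟩)| * (X.c₀ ⟨F, hb⟩ * nr (X.S c ⟨F, hb⟩)) := by ring
        _ < _ := by
          exact mul_lt_mul_of_pos_left h1 h2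
    · rw [ltB_out _ _ hb] at hF ⊢
      exact mul_pos hr' hF
  N_zero q hq := by
    rw [eq_top_iff]
    refine le_of_uf fun F _ => ?_
    rw [toBR_lt]
    by_cases hb : F.U X.b
    · refine (ltB_pt (X.NF_nm 0) q ⟨F, hb⟩).2 ?_
      unfold NF
      rw [S_zero, nr_zero, mul_zero]
      exact_mod_cast hq
    · rw [ltB_out _ _ hb]
      exact hq
  W_add c d k q q' := by
    refine le_of_uf fun F hF => ?_
    rw [F.inf_iff, toBR_lt, toBR_lt] at hF
    rw [toBR_lt]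
    by_cases hb : F.U X.b
    · have h1 := (ltB_pt (X.WF_nm c k) q ⟨F, hb⟩).1 hF.1
      have h2 := (ltB_pt (X.WF_nm d k) q' ⟨F, hb⟩).1 hF.2
      refine (ltB_pt (X.WF_nm (c + d) k) _ ⟨F, hb⟩).2 ?_
      unfold WF at h1 h2 ⊢
      rw [lin_add]
      push_cast
      linarith
    · rw [ltB_out _ _ hb] at hF ⊢
      rw [ltB_out _ _ hb] at hF
      linarith [hF.1, hF.2]
  W_smul r c k q hr := by
    refine le_of_uf fun F hF => ?_
    rw [toBR_lt] at hF ⊢
    by_cases hb : F.U X.b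
    · have h1 := (ltB_pt (X.WF_nm c k) q ⟨F, hb⟩).1 hF
      refine (ltB_pt (X.WF_nm (r • c) k) _ ⟨F, hb⟩).2 ?_
      unfold WF at h1 ⊢
      rw [lin_smul]
      have h2 : (0 : KF X.hK ⟨F, hb⟩) < (r : KF X.hK ⟨F, hb⟩) := by exact_mod_cast hr
      push_cast
      exact mul_lt_mul_of_pos_left h1 h2
    · rw [ltB_out _ _ hb] at hF ⊢
      exact mul_pos hr hF
  W_neg c k q q' hq := by
    refine le_of_uf fun F hF => ?_
    rw [F.compl_iff, toBR_lt] at hF
    rw [toBR_lt]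
    by_cases hb : F.U X.b
    · have h1 := mt (ltB_pt (X.WF_nm c k) q ⟨F, hb⟩).2 hF
      push Not at h1
      refine (ltB_pt (X.WF_nm (-c) k) _ ⟨F, hb⟩).2 ?_
      unfold WF at h1 ⊢
      rw [lin_neg]
      have h2 : (-(q : KF X.hK ⟨F, hb⟩)) < (q' : KF X.hK ⟨F, hb⟩) := by exact_mod_cast hq
      linarith
    · rw [ltB_out _ _ hb] at hF ⊢
      linarith
  W_zero k q := by
    refine eq_of_uf fun F => ?_
    rw [toBR_lt, F.tv_iff]
    by_cases hb : F.U X.b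
    · rw [ltB_pt (X.WF_nm 0 k) q ⟨F, hb⟩]
      unfold WF
      rw [lin_zero]
      exact_mod_cast Iff.rfl
    · rw [ltB_out _ _ hb]
  hyp c ε hε := X.hypX c ε hε

end Ctx

end Pool.Agent.MAx
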