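import Pool.Agent.MAx.Rl
import Pool.Agent.MAx.Om
import Pool.Agent.MAx.BData

/-!
# Continuous functions on `ℕ*` in the quotient models are given by sequences
-/

namespace Pool.Agent.MAx

open Classical Pool.Agent Pool.Agent.LadderTree
open Pool.Agent.BVM (BSet UF OPair FunOn chk le_of_uf eq_of_uf memv eqv on onT ZFC)

theorem exists_inter {M : Type*} {E : M → M → Prop} (hE : ZFC E) (A A' : M) :
    ∃ C, ∀ z, E z C ↔ E z A ∧ E z A' :=
  hE.sep (.mem 0 1) (fun _ => A') A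

theorem exists_diff {M : Type*} {E : M → M → Prop} (hE : ZFC E) (A A' : M) :
    ∃ C, ∀ z, E z C ↔ E z A ∧ ¬ E z A' :=
  hE.sep (.neg (.mem 0 1)) (fun _ => A') A

theorem uf_finset_sup {B : Type} [CompleteBooleanAlgebra B] {ι : Type} {F : UF B} {S : Finset ι}
    {J : ι → B} : F.U (S.sup J) ↔ ∃ i ∈ S, F.U (J i) := by
  induction S using Finset.induction_on with
  | empty => simp [F.bot]
  | insert i S _ ih =>
    rw [Finset.sup_insert, F.sup_iff, ih]
    simp

section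

variable {B : Type} [CompleteBooleanAlgebra B] {b : B} {K : OF (BSet B)}
  {hK : ∀ F : Pt b, IsReals (In F) (nmK F K)}

theorem RpP.relR (g u : BSet B) {r : ∀ F : Pt b, KF hK F} (hr : NmR r) :
    RpP fun F => BVM.Rel (In F) (nm F g) (nm F u) (r F).v := by
  obtain ⟨r', hr'⟩ := hr
  exact (RpP.rel g u r').congr fun F => by rw [hr']

/-- the name of a sequence -/
noncomputable def sqN {h : ℕ → ∀ F : Pt b, KF hK F} (hh : ∀ n, NmR (h n)) : BSet B :=
  fnN on fun n => (hh n).choose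

theorem rel_sqN {h : ℕ → ∀ F : Pt b, KF hK F} (hh : ∀ n, NmR (h n)) (F : Pt b) (n : ℕ)
    (y : Md F) : BVM.Rel (In F) (nm F (sqN hh)) (nm F (on n)) y ↔ y = (h n F).v := by
  rw [sqN, rel_fnN BVM.disc_on, (hh n).choose_spec F]

theorem rel_sqN' {h : ℕ → ∀ F : Pt b, KF hK F} (hh : ∀ n, NmR (h n)) (F : Pt b) (n : ℕ)
    (y : KF hK F) : BVM.Rel (In F) (nm F (sqN hh)) (nm F (on n)) y.v ↔ y = h n F := by
  rw [rel_sqN, RK.ext_iff]

theorem fn_sqN {h : ℕ → ∀ F : Pt b, KF hK F} (hh : ∀ n, NmR (h n)) (F : Pt b) :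
    Fn (In F) (nm F (sqN hh)) (nm F om) (nm F K.R) := by
  have h1 := funOn_fnN (b := b) (x := (on : ℕ → BSet B)) (y := fun n => (hh n).choose)
    BVM.disc_on F
  refine ⟨h1, fun x y hxy => ?_⟩
  have hx : In F x (nm F om) := by
    obtain ⟨z, hz, hf⟩ := hxy
    obtain ⟨x', y', hx', hz'⟩ := h1.1 z hf
    rw [(hz.inj hz').1]
    exact hx'
  refine om_all (b := b) (RpP.const True) (P := fun F x => ∀ y, BVM.Rel (In F) (nm F (sqN hh)) x y →
    In F y (nm F K.R)) (fun x => RpP.all fun y => (RpP.rel _ _ _).imp (RpP.mem _ _))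
    (fun F _ n y hy => ?_) F trivial x hx y hxy
  rw [rel_sqN] at hy
  rw [hy]
  exact (h n F).mem

/-- values of a sequence, over internal natural numbers -/
theorem sq_all {h : ℕ → ∀ F : Pt b, KF hK F} (hh : ∀ n, NmR (h n)) {D : Pt b → Prop}
    (hD : RpP D) {P : ∀ F : Pt b, Md F → KF hK F → Prop}
    (hP : ∀ k (y : ∀ F : Pt b, KF hK F), NmR y → RpP fun F => P F (nm F k) (y F))
    (H : ∀ F : Pt b, D F → ∀ n, P F (nm F (on n)) (h n F)) (F : Pt b) (hF : D F) (k : Md F)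
    (y : KF hK F) (hk : In F k (nm F om)) (hy : BVM.Rel (In F) (nm F (sqN hh)) k y.v) :
    P F k y := by
  refine om_all hD (P := fun F k => ∀ y : KF hK F, BVM.Rel (In F) (nm F (sqN hh)) k y.v → P F k y)
    (fun k => RpP.allR fun y hy => (RpP.relR _ _ hy).imp (hP k y hy)) (fun F hF n y hy => ?_)
    F hF k hk y hy
  rw [rel_sqN'] at hy
  rw [hy]
  exact H F hF n

/-- `r` is the limit of the sequence `s` along `u` -/
def Lim (F : Pt b) (s u : Md F) (r : KF hK F) : Prop :=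
  ∀ e : KF hK F, 0 < e → ∃ A, In F A u ∧ ∀ k (y : KF hK F), In F k A →
    BVM.Rel (In F) s k y.v → |y - r| < e

theorem RpP.lim (s u : BSet B) {r : ∀ F : Pt b, KF hK F} (hr : NmR r) :
    RpP fun F => Lim F (nm F s) (nm F u) (r F) := by
  unfold Lim
  refine RpP.allR fun e he => (RpP.ltR NmR.zero he).imp (RpP.ex fun A => (RpP.mem _ _).and
    (RpP.all fun k => RpP.allR fun y hy => (RpP.mem _ _).imp ((RpP.relR _ _ hy).imp
      (RpP.ltR (hy.sub hr).abs he))))

section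

variable {Z : BSet B} (hZ : ∀ F : Pt b, IsStar (In F) (nm F om) (nm F Z))

include hZ

theorem ult_of_rel {F : Pt b} {g u : Md F} {r : Md F} (hg : Fn (In F) g (nm F Z) (nm F K.R))
    (h : BVM.Rel (In F) g u r) : IsUlt (In F) (nm F om) u := (hZ F u).1 (hg.dom h).1

/-- separation of level sets -/
theorem exists_sepset {D : Pt b → Prop} (hD : RpP D) {g : BSet B}
    (hg : ∀ F, D F → IsCont (In F) (nmK F K) (nm F Z) (nm F g))
    {p q : ∀ F : Pt b, KF hK F} (hp : NmR p) (hq : NmR q) (hpq : ∀ F, D F → p F < q F) :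
    ∃ a : ℕ → B, ∀ F, D F →
      (∀ u (r : KF hK F), BVM.Rel (In F) (nm F g) u r.v → r ≤ p F → In F (nm F (sN a)) u) ∧
      ∀ u (r : KF hK F), BVM.Rel (In F) (nm F g) u r.v → q F ≤ r → ¬ In F (nm F (sN a)) u := by
  -- the property of the separating set
  let Lo : ∀ F : Pt b, Md F → Prop := fun F A =>
    ∀ u (r : KF hK F), BVM.Rel (In F) (nm F g) u r.v → r ≤ p F → In F A u
  let Hi : ∀ F : Pt b, Md F → Prop := fun F A =>
    ∀ u (r : KF hK F), BVM.Rel (In F) (nm F g) u r.v → q F ≤ r → In F A u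
  let Hi' : ∀ F : Pt b, Md F → Prop := fun F A =>
    ∀ u (r : KF hK F), BVM.Rel (In F) (nm F g) u r.v → q F ≤ r → ¬ In F A u
  let Sb : ∀ F : Pt b, Md F → Prop := fun F A => ∀ z, In F z A → In F z (nm F om)
  have hLo : ∀ y, RpP fun F => Lo F (nm F y) := fun y => RpP.all fun u => RpP.allR fun r hr =>
    (RpP.relR _ _ hr).imp ((RpP.leR hr hp).imp (RpP.mem _ _))
  have hHi : ∀ y, RpP fun F => Hi F (nm F y) := fun y => RpP.all fun u => RpP.allR fun r hr =>
    (RpP.relR _ _ hr).imp ((RpP.leR hq hr).imp (RpP.mem _ _))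
  have hHi' : ∀ y, RpP fun F => Hi' F (nm F y) := fun y => RpP.all fun u => RpP.allR fun r hr =>
    (RpP.relR _ _ hr).imp ((RpP.leR hq hr).imp (RpP.mem _ _).not)
  have hSb : ∀ y, RpP fun F : Pt b => Sb F (nm F y) := fun y =>
    RpP.all fun z => (RpP.mem _ _).imp (RpP.mem _ _)
  let σ : ∀ F : Pt b, Prop := fun F => ∃ A, Sb F A ∧ Lo F A ∧ Hi' F A
  have hσ : RpP σ := RpP.ex fun A => (hSb A).and ((hLo A).and (hHi' A))
  let P : ∀ F : Pt b, Md F → Prop := fun F A => ∃ A₁ A₂, (Sb F A₁ ∧ Sb F A₂) ∧ (Lo F A₁ ∧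
    Hi F A₂) ∧ ∀ z, In F z A₁ → In F z A₂ → In F z A
  have hP : ∀ y, RpP fun F => P F (nm F y) := fun y => RpP.ex fun A₁ => RpP.ex fun A₂ =>
    ((hSb _).and (hSb _)).and (((hLo _).and (hHi _)).and
      (RpP.all fun z => (RpP.mem _ _).imp ((RpP.mem _ _).imp (RpP.mem _ _))))
  obtain ⟨u, hu⟩ := exists_ult (hD.and hσ.not) hP
    (by
      rintro F - A C ⟨A₁, A₂, h1, h2, h3⟩ hAC -
      exact ⟨A₁, A₂, h1, h2, fun z hz hz' => hAC z (h3 z hz hz')⟩)
    (by
      rintro F ⟨hF, -⟩ A A' C ⟨A₁, A₂, h1, h2, h3⟩ ⟨A₁', A₂', h1', h2', h3'⟩ hC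
      obtain ⟨C₁, hC₁⟩ := exists_inter (BVM.zfc F.1) A₁ A₁'
      obtain ⟨C₂, hC₂⟩ := exists_inter (BVM.zfc F.1) A₂ A₂'
      refine ⟨C₁, C₂, ⟨fun z hz => h1.1 z ((hC₁ z).1 hz).1, fun z hz => h1.2 z ((hC₂ z).1 hz).1⟩,
        ⟨fun u r hr hrp => ?_, fun u r hr hrp => ?_⟩, fun z hz hz' => ?_⟩
      · have hul := ult_of_rel hZ (hg F hF).1 hr
        exact hul.inter _ _ _ (h2.1 u r hr hrp) (h2'.1 u r hr hrp) hC₁
      · have hul := ult_of_rel hZ (hg F hF).1 hr
        exact hul.inter _ _ _ (h2.2 u r hr hrp) (h2'.2 u r hr hrp) hC₂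
      · exact (hC z).2 ⟨h3 z ((hC₁ z).1 hz).1 ((hC₂ z).1 hz').1,
          h3' z ((hC₁ z).1 hz).2 ((hC₂ z).1 hz').2⟩)
    (by
      rintro F ⟨hF, hF'⟩ A ⟨A₁, A₂, h1, h2, h3⟩
      by_contra hcon
      push Not at hcon
      apply hF'
      refine ⟨A₁, h1.1, h2.1, fun u r hr hrq hA => ?_⟩
      have hul := ult_of_rel hZ (hg F hF).1 hr
      obtain ⟨C₁, hC₁⟩ := exists_inter (BVM.zfc F.1) A₁ A₂
      obtain ⟨z, hz⟩ := hul.ne _ (hul.inter _ _ _ hA (h2.2 u r hr hrq) hC₁)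
      exact hcon z (h3 z ((hC₁ z).1 hz).1 ((hC₁ z).1 hz).2))
    (by
      rintro F ⟨hF, -⟩ m
      refine ⟨nm F (sN fun n => tv (n ≠ m)), nm F (sN fun n => tv (n ≠ m)),
        ⟨fun z hz => sN_sub hz, fun z hz => sN_sub hz⟩, ⟨fun u r hr hrp => ?_,
        fun u r hr hrp => ?_⟩, fun z hz _ => hz⟩
      · exact UFu_ne (ult_of_rel hZ (hg F hF).1 hr) m
      · exact UFu_ne (ult_of_rel hZ (hg F hF).1 hr) m)
  have key : ∀ F, D F → σ F := by
    intro F hF
    by_contra hcon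
    obtain ⟨h1, h2⟩ := hu F ⟨hF, hcon⟩
    have hgF := hg F hF
    obtain ⟨r, hrR, hr⟩ := hgF.1.ex ((hZ F _).2 h1)
    have hr : BVM.Rel (In F) (nm F g) (nm F u) (RK.of r hrR : KF hK F).v := (hr r).2 rfl
    have comp : ∀ A, In F A (nm F u) → (∀ v (s : KF hK F), BVM.Rel (In F) (nm F g) v s.v →
        s ≤ p F → ¬ In F A v) → False := by
      intro A hA hAv
      obtain ⟨a, rfl⟩ := sN_repr F A (h1.sub A hA)
      have h3 : P F (nm F (sN aᶜ)) := by
        refine ⟨_, nm F om, ⟨fun z hz => sN_sub hz, fun z hz => hz⟩, ⟨fun v s hs hsp => ?_,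
          fun v s hs hsp => ?_⟩, fun z hz _ => hz⟩
        · have hul := ult_of_rel hZ hgF.1 hs
          exact (UFu hul).compl_iff.2 (hAv v s hs hsp)
        · have hul := ult_of_rel hZ hgF.1 hs
          have e : nm F (sN (⊤ : ℕ → B)) = nm F om := by
            refine (BVM.zfc F.1).ext _ _ fun z => ⟨sN_sub, fun hz => ?_⟩
            refine om_all (b := b) (RpP.const True) (P := fun F z => In F z (nm F (sN ⊤)))
              (fun _ => RpP.mem _ _) (fun F _ n => ?_) F trivial z hz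
            rw [In_sN]
            exact F.1.top
          rw [← e]
          exact (UFu hul).top
      have h4 := h2 _ h3 fun z hz => sN_sub hz
      exact (UFu h1).compl_iff.1 h4 hA
    have comp' : ∀ A, In F A (nm F u) → (∀ v (s : KF hK F), BVM.Rel (In F) (nm F g) v s.v →
        q F ≤ s → ¬ In F A v) → False := by
      intro A hA hAv
      obtain ⟨a, rfl⟩ := sN_repr F A (h1.sub A hA)
      have h3 : P F (nm F (sN aᶜ)) := by
        refine ⟨nm F om, _, ⟨fun z hz => hz, fun z hz => sN_sub hz⟩, ⟨fun v s hs hsp => ?_,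
          fun v s hs hsp => ?_⟩, fun z _ hz => hz⟩
        · have hul := ult_of_rel hZ hgF.1 hs
          have e : nm F (sN (⊤ : ℕ → B)) = nm F om := by
            refine (BVM.zfc F.1).ext _ _ fun z => ⟨sN_sub, fun hz => ?_⟩
            refine om_all (b := b) (RpP.const True) (P := fun F z => In F z (nm F (sN ⊤)))
              (fun _ => RpP.mem _ _) (fun F _ n => ?_) F trivial z hz
            rw [In_sN]
            exact F.1.top
          rw [← e]
          exact (UFu hul).top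
        · have hul := ult_of_rel hZ hgF.1 hs
          exact (UFu hul).compl_iff.2 (hAv v s hs hsp)
      have h4 := h2 _ h3 fun z hz => sN_sub hz
      exact (UFu h1).compl_iff.1 h4 hA
    have hcont : ∀ e : KF hK F, 0 < e → ∃ A, In F A (nm F u) ∧ ∀ v (s : KF hK F),
        BVM.Rel (In F) (nm F g) v s.v → In F A v → |(RK.of r hrR : KF hK F) - s| < e := by
      intro e he
      obtain ⟨A, hA, hA'⟩ := hgF.2 _ _ e.v hr he
      exact ⟨A, hA, fun v s hs hv => RK.close_iff.1 (hA' v s.v hs hv)⟩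
    have hle : (RK.of r hrR : KF hK F) ≤ p F := by
      by_contra hlt
      push Not at hlt
      obtain ⟨A, hA, hA'⟩ := hcont _ (sub_pos.2 hlt)
      refine comp A hA fun v s hs hsp hv => ?_
      have := (abs_lt.1 (hA' v s hs hv)).2
      linarith
    have hge : q F ≤ (RK.of r hrR : KF hK F) := by
      by_contra hlt
      push Not at hlt
      obtain ⟨A, hA, hA'⟩ := hcont _ (sub_pos.2 hlt)
      refine comp' A hA fun v s hs hsp hv => ?_
      have := (abs_lt.1 (hA' v s hs hv)).1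
      linarith
    exact absurd (hpq F hF) (not_lt.2 (hge.trans hle))
  obtain ⟨A, hA⟩ := exists_name (b := b) (P := fun F A => D F → Sb F A ∧ Lo F A ∧ Hi' F A)
    (fun A => hD.imp ((hSb A).and ((hLo A).and (hHi' A)))) (fun F => by
      by_cases hF : D F
      · obtain ⟨A, hA⟩ := key F hF
        exact ⟨A, fun _ => hA⟩
      · exact ⟨nm F om, fun h => absurd h hF⟩)
  refine ⟨fun n => memv (on n) A, fun F hF => ?_⟩
  rw [← sN_repr' F A (hA F hF).1]
  exact (hA F hF).2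

end

end

section

variable {B : Type} [CompleteBooleanAlgebra B]

/-- the coherent correction of a sequence of separating sets -/
noncomputable def cor (α : ℕ → ℕ → B) (pq : ℕ → ℚ × ℚ) (k : ℕ) : ℕ → B :=
  (α k ⊔ (Finset.univ.filter fun l : Fin k => (pq l).2 < (pq k).1).sup fun l => cor α pq l) ⊓
    (Finset.univ.filter fun l : Fin k => (pq k).2 < (pq l).1).inf fun l => cor α pq l
termination_by k
decreasing_by all_goals exact l.2

theorem cor_le (α : ℕ → ℕ → B) {pq : ℕ → ℚ × ℚ} (hpq : ∀ k, (pq k).1 < (pq k).2) (n : ℕ) :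
    ∀ k l, k < n → l < n → (pq l).2 < (pq k).1 → cor α pq l ≤ cor α pq k := by
  induction n with
  | zero => intro k l hk; exact absurd hk (Nat.not_lt_zero _)
  | succ n ih =>
    intro k l hk hl hlk
    rcases lt_trichotomy l k with h | h | h
    · rw [cor.eq_def α pq k]
      refine le_inf (le_sup_of_le_right ?_) (Finset.le_inf fun l' hl' => ?_)
      · exact Finset.le_sup (f := fun l : Fin k => cor α pq l) (b := ⟨l, h⟩)
          (Finset.mem_filter.2 ⟨Finset.mem_univ _, hlk⟩)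
      · have h1 := (Finset.mem_filter.1 hl').2
        have h2 := l'.2
        exact ih l'.1 l (by omega) (by omega) (hlk.trans ((hpq k).trans h1))
    · rw [h] at hlk
      exact absurd (hpq k) hlk.not_gt
    · rw [cor.eq_def α pq l]
      exact inf_le_right.trans (Finset.inf_le (f := fun l' : Fin l => cor α pq l') (b := ⟨k, h⟩)
          (Finset.mem_filter.2 ⟨Finset.mem_univ _, hlk⟩))

end

section

variable {B : Type} [CompleteBooleanAlgebra B] {b : B} {K : OF (BSet B)}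
  {hK : ∀ F : Pt b, IsReals (In F) (nmK F K)}

/-- the values of the lifting -/
noncomputable def hh (hK : ∀ F : Pt b, IsReals (In F) (nmK F K)) (β : ℕ → ℕ → B) (p : ℕ → ℚ)
    (n : ℕ) : ℕ → ∀ F : Pt b, KF hK F
  | 0, _ => 0
  | j + 1, F => if F.1.U (β j n) then hh hK β p n j F else max (hh hK β p n j F) (p j : KF hK F)

theorem hh_nm (β : ℕ → ℕ → B) (p : ℕ → ℚ) (n j : ℕ) : NmR (hh hK β p n j) := by
  induction j with
  | zero => exact NmR.zero
  | succ j ih => exact ih.ite (ih.max (NmR.rat _)) (RpP.val _)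

theorem hh_nonneg (β : ℕ → ℕ → B) (p : ℕ → ℚ) (n j : ℕ) (F : Pt b) : 0 ≤ hh hK β p n j F := by
  induction j with
  | zero => exact le_rfl
  | succ j ih =>
    rw [hh]
    split_ifs
    · exact ih
    · exact le_max_of_le_left ih

theorem le_hh (β : ℕ → ℕ → B) (p : ℕ → ℚ) (n m : ℕ) (F : Pt b) (j : ℕ) (hj : j < m)
    (hF : ¬ F.1.U (β j n)) : (p j : KF hK F) ≤ hh hK β p n m F := by
  induction m with
  | zero => exact absurd hj (Nat.not_lt_zero _)
  | succ m ih =>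
    rw [hh]
    rcases Nat.lt_succ_iff_lt_or_eq.1 hj with h | h
    · split_ifs
      · exact ih h
      · exact le_max_of_le_left (ih h)
    · subst h
      rw [if_neg hF]
      exact le_max_right _ _

theorem hh_le (β : ℕ → ℕ → B) (p : ℕ → ℚ) (n m : ℕ) (F : Pt b) (s : KF hK F) (hs : 0 ≤ s)
    (h : ∀ j < m, ¬ F.1.U (β j n) → (p j : KF hK F) ≤ s) : hh hK β p n m F ≤ s := by
  induction m with
  | zero => exact hs
  | succ m ih =>
    have h1 := ih fun j hj => h j (Nat.lt_succ_of_lt hj)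
    rw [hh]
    split_ifs with h2
    · exact h1
    · exact max_le h1 (h m (Nat.lt_succ_self m) h2)

variable {Z : BSet B} (hZ : ∀ F : Pt b, IsStar (In F) (nm F om) (nm F Z))

include hZ

/-- continuous functions on `ℕ*` are given by sequences -/
theorem exists_lift {D : Pt b → Prop} (hD : RpP D) {g : BSet B}
    (hg : ∀ F, D F → IsCont (In F) (nmK F K) (nm F Z) (nm F g))
    {c : ∀ F : Pt b, KF hK F} (hc : NmR c)
    (hbd : ∀ F, D F → ∀ u (r : KF hK F), BVM.Rel (In F) (nm F g) u r.v → -c F ≤ r) :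
    ∃ (h : ℕ → ∀ F : Pt b, KF hK F) (hh : ∀ n, NmR (h n)), ∀ F, D F → ∀ u (r : KF hK F),
      BVM.Rel (In F) (nm F g) u r.v → Lim F (nm F (sqN hh)) u r := by
  have : Nonempty {x : ℚ × ℚ // x.1 < x.2} := ⟨⟨(0, 1), one_pos⟩⟩
  obtain ⟨e, he⟩ := exists_surjective_nat {x : ℚ × ℚ // x.1 < x.2}
  let pq : ℕ → ℚ × ℚ := fun k => (e k).1
  have hpq : ∀ k, (pq k).1 < (pq k).2 := fun k => (e k).2
  choose α hα using fun k => exists_sepset hZ hD hg ((NmR.rat (pq k).1).sub hc)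
    ((NmR.rat (pq k).2).sub hc) (fun F _ => by
      have : ((pq k).1 : KF hK F) < ((pq k).2 : KF hK F) := by exact_mod_cast hpq k
      linarith)
  have hsep : ∀ F, D F → ∀ u (r : KF hK F) (hur : BVM.Rel (In F) (nm F g) u r.v)
      (hu : IsUlt (In F) (nm F om) u) k,
      (r ≤ ((pq k).1 : KF hK F) - c F → (UFu hu).U (cor α pq k)) ∧
      (((pq k).2 : KF hK F) - c F ≤ r → ¬ (UFu hu).U (cor α pq k)) := by
    intro F hF u r hur hu k
    induction k using Nat.strong_induction_on with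
    | _ k ih =>
      constructor
      · intro hr
        rw [cor.eq_def, UF.inf_iff, UF.sup_iff, uf_finset_inf]
        refine ⟨Or.inl ((hα k F hF).1 u r hur hr), fun l hl => (ih l.1 l.2).1 ?_⟩
        have h1 := (Finset.mem_filter.1 hl).2
        have h2 : ((pq k).1 : KF hK F) ≤ ((pq l).1 : KF hK F) := by
          exact_mod_cast ((hpq k).trans h1).le
        linarith
      · intro hr hcon
        rw [cor.eq_def, UF.inf_iff, UF.sup_iff, uf_finset_sup] at hcon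
        rcases hcon.1 with h | ⟨l, hl, h⟩
        · exact (hα k F hF).2 u r hur hr h
        · refine (ih l.1 l.2).2 ?_ h
          have h1 := (Finset.mem_filter.1 hl).2
          have h2 : ((pq l).2 : KF hK F) ≤ ((pq k).2 : KF hK F) := by
            exact_mod_cast (h1.trans (hpq k)).le
          linarith
  have hn : ∀ n, NmR fun F => hh hK (cor α pq) (fun k => (pq k).1) n n F - c F := fun n =>
    (hh_nm _ _ _ _).sub hc
  refine ⟨fun n F => hh hK (cor α pq) (fun k => (pq k).1) n n F - c F, hn,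
    fun F hF u r hur ε hε => ?_⟩
  obtain ⟨u, rfl⟩ := exists_nm u
  obtain ⟨r, hr, rfl⟩ := nmR_eq F r
  obtain ⟨ε, hε', rfl⟩ := nmR_eq F ε
  have hC : RpP fun F => ∃ A, In F A (nm F u) ∧ ∀ k (y : KF hK F), In F k A →
      BVM.Rel (In F) (nm F (sqN hn)) k y.v → |y - r F| < ε F :=
    RpP.ex fun A => (RpP.mem _ _).and (RpP.all fun k => RpP.allR fun y hy =>
      (RpP.mem _ _).imp ((RpP.relR _ _ hy).imp (RpP.ltR (hy.sub hr).abs hε')))
  have hD₁ : RpP fun F => D F ∧ BVM.Rel (In F) (nm F g) (nm F u) (r F).v :=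
    hD.and (RpP.relR _ _ hr)
  -- choose rational numbers
  have hrc : NmR fun F => r F + c F := hr.add hc
  refine cov_between hrc (hrc.add hε') (fun F => (D F ∧ BVM.Rel (In F) (nm F g) (nm F u) (r F).v) →
    _) (hD₁.imp hC) (fun q₁ F _ hq₁ hF₁ => ?_) F (lt_add_of_pos_right _ hε) ⟨hF, hur⟩
  refine cov_between hrc (NmR.rat q₁) (fun F => (D F ∧ BVM.Rel (In F) (nm F g) (nm F u) (r F).v) →
    (r F + c F < (q₁ : KF hK F) ∧ (q₁ : KF hK F) < r F + c F + ε F) → _)
    (hD₁.imp (((RpP.ltR hrc (NmR.rat q₁)).and (RpP.ltR (NmR.rat q₁) (hrc.add hε'))).imp hC))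
    (fun p₁ F _ hp₁ hF₁ hq₁ => ?_) F hq₁.1 hF₁ hq₁
  have hε0 : (0 : KF hK F) < ε F := by linarith [hq₁.1, hq₁.2]
  refine cov_between (hrc.sub hε') hrc
    (fun F => (D F ∧ BVM.Rel (In F) (nm F g) (nm F u) (r F).v) →
    (r F + c F < (q₁ : KF hK F) ∧ (q₁ : KF hK F) < r F + c F + ε F) →
    (r F + c F < (p₁ : KF hK F) ∧ (p₁ : KF hK F) < q₁) → _)
    (hD₁.imp (((RpP.ltR hrc (NmR.rat q₁)).and (RpP.ltR (NmR.rat q₁) (hrc.add hε'))).imp
      (((RpP.ltR hrc (NmR.rat p₁)).and (RpP.ltR (NmR.rat p₁) (NmR.rat q₁))).imp hC)))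
    (fun p₂ F _ hp₂ hF₁ hq₁ hp₁ => ?_) F (by linarith) hF₁ hq₁ hp₁
  refine cov_between (NmR.rat p₂) hrc
    (fun F => (D F ∧ BVM.Rel (In F) (nm F g) (nm F u) (r F).v) →
    (r F + c F < (q₁ : KF hK F) ∧ (q₁ : KF hK F) < r F + c F + ε F) →
    (r F + c F < (p₁ : KF hK F) ∧ (p₁ : KF hK F) < q₁) →
    (r F + c F - ε F < (p₂ : KF hK F) ∧ (p₂ : KF hK F) < r F + c F) → _)
    (hD₁.imp (((RpP.ltR hrc (NmR.rat q₁)).and (RpP.ltR (NmR.rat q₁) (hrc.add hε'))).imp
      (((RpP.ltR hrc (NmR.rat p₁)).and (RpP.ltR (NmR.rat p₁) (NmR.rat q₁))).imp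
      (((RpP.ltR (hrc.sub hε') (NmR.rat p₂)).and (RpP.ltR (NmR.rat p₂) hrc)).imp hC))))
    (fun q₂ F _ hq₂ hF₁ hq₁ hp₁ hp₂ => ?_) F hp₂.2 hF₁ hq₁ hp₁ hp₂
  have hpq₁ : p₁ < q₁ := by exact_mod_cast hp₁.2
  have hpq₂ : p₂ < q₂ := by exact_mod_cast hq₂.1
  obtain ⟨l, hl⟩ := he ⟨(p₁, q₁), hpq₁⟩
  obtain ⟨m, hm⟩ := he ⟨(p₂, q₂), hpq₂⟩
  have hl1 : (pq l).1 = p₁ := by simp only [pq, hl]
  have hl2 : (pq l).2 = q₁ := by simp only [pq, hl]
  have hm1 : (pq m).1 = p₂ := by simp only [pq, hm]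
  have hm2 : (pq m).2 = q₂ := by simp only [pq, hm]
  have hu := ult_of_rel hZ (hg F hF₁.1).1 hF₁.2
  have hUl := (hsep F hF₁.1 _ _ hF₁.2 hu l).1 (by rw [hl1]; linarith [hp₁.1])
  have hUm := (hsep F hF₁.1 _ _ hF₁.2 hu m).2 (by rw [hm2]; linarith [hq₂.2])
  refine ⟨nm F (sN (cor α pq l ⊓ (cor α pq m)ᶜ ⊓ fun n => tv (m + 1 ≤ n))), ?_, ?_⟩
  · exact (UFu hu).inf ((UFu hu).inf hUl ((UFu hu).compl_iff.2 hUm)) (UFu_gt hu _)
  · intro k y hk hy
    have hc0 : 0 ≤ r F + c F := by linarith [hbd F hF₁.1 _ _ hF₁.2]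
    refine sN_all (b := b) (D := fun F => 0 ≤ r F + c F ∧ (r F + c F < (q₁ : KF hK F) ∧
      (q₁ : KF hK F) < r F + c F + ε F) ∧ r F + c F - ε F < (p₂ : KF hK F))
      ((RpP.leR NmR.zero hrc).and (((RpP.ltR hrc (NmR.rat q₁)).and
        (RpP.ltR (NmR.rat q₁) (hrc.add hε'))).and (RpP.ltR (hrc.sub hε') (NmR.rat p₂))))
      (cor α pq l ⊓ (cor α pq m)ᶜ ⊓ fun n => tv (m + 1 ≤ n))
      (P := fun F k => ∀ y : KF hK F, BVM.Rel (In F) (nm F (sqN hn)) k y.v → |y - r F| < ε F)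
      (fun k => RpP.allR fun y hy => (RpP.relR _ _ hy).imp (RpP.ltR (hy.sub hr).abs hε'))
      (fun G hG n hn' y hy => ?_) F ⟨hc0, hq₁, hp₂.1⟩ k hk y hy
    rw [Pi.inf_apply, Pi.inf_apply, G.1.inf_iff, G.1.inf_iff, Pi.compl_apply, G.1.compl_iff,
      G.1.tv_iff] at hn'
    rw [rel_sqN'] at hy
    rw [hy, abs_lt]
    have h1 := le_hh (hK := hK) (cor α pq) (fun k => (pq k).1) n n G m (by omega) hn'.1.2
    have h2 := hh_le (hK := hK) (cor α pq) (fun k => (pq k).1) n n G (q₁ : KF hK G)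
      (hG.1.trans hG.2.1.1.le) fun j hj hj' => by
        by_contra hcon
        push Not at hcon
        apply hj'
        have h3 : (pq l).2 < (pq j).1 := by
          rw [hl2]
          exact_mod_cast hcon
        exact G.1.mono (cor_le α hpq (max j l + 1) j l (by omega) (by omega) h3 n) hn'.1.1
    simp only [hm1] at h1
    constructor
    · linarith [hG.2.2]
    · linarith [hG.2.1.2]

end

end Pool.Agent.MAx
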