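import Pool.Agent.BVM.Notions

/-!
# Analysis inside a structure `(M, E)` of set theory

`E x y` is read `x ∈ y`.  All notions are relativized to the structure: all quantifiers range
over `M`, so that for a model `(M, E)` of ZFC they express that `(M, E)` satisfies the
corresponding statement of set theory.
-/

namespace Pool.Agent.MAx

open Pool.Agent.BVM (OPair FunOn Omega SuccCard CardLE)

section

variable {M : Type*} (E : M → M → Prop)

/-- `P = X × Y` -/
def IsProd (P X Y : M) : Prop := ∀ p, E p P ↔ ∃ x y, E x X ∧ E y Y ∧ OPair E p x y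

/-- `f` is a function from `X` to `Y` -/
def Fn (f X Y : M) : Prop := FunOn E f X ∧ ∀ x y, BVM.Rel E f x y → E y Y

/-- `f` is a function from `X × Y` to `Z` -/
def Fn2 (f X Y Z : M) : Prop := ∃ P, IsProd E P X Y ∧ Fn E f P Z

/-- `f (x, y) = z` -/
def Rel2 (f x y z : M) : Prop := ∃ p, OPair E p x y ∧ BVM.Rel E f p z

end

/-- the data of an ordered field: the set `R`, the sum `add : R × R → R`, the product
`mul : R × R → R`, the set `lt` of all pairs `(x, y)` with `x < y`, and the elements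
`zero` and `one` -/
structure OF (M : Type*) where
  /-- the set of all elements -/
  R : M
  /-- the sum -/
  add : M
  /-- the product -/
  mul : M
  /-- the order -/
  lt : M
  /-- zero -/
  zero : M
  /-- one -/
  one : M

/-- the data of a normed space: the set `X`, the sum `add : X × X → X`, the product
`smul : R × X → X` with scalars, the norm `norm : X → R`, and the element `zero` -/
structure NS (M : Type*) where
  /-- the set of all vectors -/
  X : M
  /-- the sum -/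
  add : M
  /-- the product with scalars -/
  smul : M
  /-- the norm -/
  norm : M
  /-- the zero vector -/
  zero : M

section

variable {M : Type*} (E : M → M → Prop)

/-- `(M, E)` satisfies: `K` is a complete ordered field, that is, `K` is the field of real
numbers -/
structure IsReals (K : OF M) : Prop where
  add : Fn2 E K.add K.R K.R K.R
  mul : Fn2 E K.mul K.R K.R K.R
  zero : E K.zero K.R
  one : E K.one K.R
  ne : K.zero ≠ K.one
  /-- `x + y = y + x` -/
  add_comm : ∀ x y s, Rel2 E K.add x y s → Rel2 E K.add y x s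
  /-- `(x + y) + u = x + (y + u)` -/
  add_assoc : ∀ x y u s t r, Rel2 E K.add x y s → Rel2 E K.add s u r → Rel2 E K.add y u t →
    Rel2 E K.add x t r
  /-- `x + 0 = x` -/
  add_zero : ∀ x, E x K.R → Rel2 E K.add x K.zero x
  /-- `x + (- x) = 0` -/
  add_neg : ∀ x, E x K.R → ∃ y, Rel2 E K.add x y K.zero
  /-- `x y = y x` -/
  mul_comm : ∀ x y s, Rel2 E K.mul x y s → Rel2 E K.mul y x s
  /-- `(x y) u = x (y u)` -/
  mul_assoc : ∀ x y u s t r, Rel2 E K.mul x y s → Rel2 E K.mul s u r → Rel2 E K.mul y u t →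
    Rel2 E K.mul x t r
  /-- `x 1 = x` -/
  mul_one : ∀ x, E x K.R → Rel2 E K.mul x K.one x
  /-- every `x ≠ 0` has an inverse -/
  mul_inv : ∀ x, E x K.R → x ≠ K.zero → ∃ y, Rel2 E K.mul x y K.one
  /-- `x (y + u) = x y + x u` -/
  distrib : ∀ x y u s r p q, Rel2 E K.add y u s → Rel2 E K.mul x s r → Rel2 E K.mul x y p →
    Rel2 E K.mul x u q → Rel2 E K.add p q r
  lt_dom : ∀ x y, BVM.Rel E K.lt x y → E x K.R ∧ E y K.R
  irrefl : ∀ x, ¬ BVM.Rel E K.lt x x
  trans : ∀ x y u, BVM.Rel E K.lt x y → BVM.Rel E K.lt y u → BVM.Rel E K.lt x u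
  tri : ∀ x y, E x K.R → E y K.R → BVM.Rel E K.lt x y ∨ x = y ∨ BVM.Rel E K.lt y x
  /-- `x < y` implies `x + u < y + u` -/
  add_lt : ∀ x y u s t, BVM.Rel E K.lt x y → Rel2 E K.add x u s → Rel2 E K.add y u t →
    BVM.Rel E K.lt s t
  /-- `0 < x` and `0 < y` imply `0 < x y` -/
  mul_pos : ∀ x y s, BVM.Rel E K.lt K.zero x → BVM.Rel E K.lt K.zero y → Rel2 E K.mul x y s →
    BVM.Rel E K.lt K.zero s
  /-- every nonempty set `s` of reals which is bounded from above has a least upper bound -/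
  sup : ∀ s, (∀ x, E x s → E x K.R) → (∃ x, E x s) →
    (∃ y, E y K.R ∧ ∀ x, E x s → ¬ BVM.Rel E K.lt y x) →
    ∃ y, (E y K.R ∧ ∀ x, E x s → ¬ BVM.Rel E K.lt y x) ∧
      ∀ y', E y' K.R → (∀ x, E x s → ¬ BVM.Rel E K.lt y' x) → ¬ BVM.Rel E K.lt y' y

/-- `d = |c|` -/
def IsAbs (K : OF M) (c d : M) : Prop :=
  (¬ BVM.Rel E K.lt c K.zero ∧ d = c) ∨ (BVM.Rel E K.lt c K.zero ∧ Rel2 E K.add c d K.zero)

/-- `|r - s| < e`, in the form `s < r + e` and `r < s + e` -/
def Close (K : OF M) (r s e : M) : Prop := ∃ p q, Rel2 E K.add r e p ∧ BVM.Rel E K.lt s p ∧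
  Rel2 E K.add s e q ∧ BVM.Rel E K.lt r q

/-- `(M, E)` satisfies: `V` is a normed space over the real field `K` -/
structure IsNormed (K : OF M) (V : NS M) : Prop where
  add : Fn2 E V.add V.X V.X V.X
  smul : Fn2 E V.smul K.R V.X V.X
  norm : Fn E V.norm V.X K.R
  zero : E V.zero V.X
  add_comm : ∀ x y s, Rel2 E V.add x y s → Rel2 E V.add y x s
  add_assoc : ∀ x y u s t r, Rel2 E V.add x y s → Rel2 E V.add s u r → Rel2 E V.add y u t →
    Rel2 E V.add x t r
  add_zero : ∀ x, E x V.X → Rel2 E V.add x V.zero x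
  add_neg : ∀ x, E x V.X → ∃ y, Rel2 E V.add x y V.zero
  /-- `1 x = x` -/
  one_smul : ∀ x, E x V.X → Rel2 E V.smul K.one x x
  /-- `(c d) x = c (d x)` -/
  mul_smul : ∀ c d e x y u, Rel2 E K.mul c d e → Rel2 E V.smul d x y → Rel2 E V.smul c y u →
    Rel2 E V.smul e x u
  /-- `c (x + y) = c x + c y` -/
  smul_add : ∀ c x y s r p q, Rel2 E V.add x y s → Rel2 E V.smul c s r → Rel2 E V.smul c x p →
    Rel2 E V.smul c y q → Rel2 E V.add p q r
  /-- `(c + d) x = c x + d x` -/
  add_smul : ∀ c d e x r p q, Rel2 E K.add c d e → Rel2 E V.smul e x r → Rel2 E V.smul c x p →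
    Rel2 E V.smul d x q → Rel2 E V.add p q r
  /-- `0 < ‖x‖` for `x ≠ 0` -/
  norm_pos : ∀ x r, BVM.Rel E V.norm x r → x ≠ V.zero → BVM.Rel E K.lt K.zero r
  /-- `‖c x‖ = |c| ‖x‖` -/
  norm_smul : ∀ c x y r s d, Rel2 E V.smul c x y → BVM.Rel E V.norm x r →
    BVM.Rel E V.norm y s → IsAbs E K c d → Rel2 E K.mul d r s
  /-- `‖x + y‖ ≤ ‖x‖ + ‖y‖` -/
  norm_add : ∀ x y s p q r t, Rel2 E V.add x y s → BVM.Rel E V.norm x p →
    BVM.Rel E V.norm y q → BVM.Rel E V.norm s r → Rel2 E K.add p q t → ¬ BVM.Rel E K.lt t r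

/-- `‖x - y‖ < e` -/
def Near (K : OF M) (V : NS M) (x y e : M) : Prop :=
  ∃ d r, Rel2 E V.add y d x ∧ BVM.Rel E V.norm d r ∧ BVM.Rel E K.lt r e

/-- `(M, E)` satisfies: `V` is a Banach space over the real field `K`; here `w = ω` -/
def IsBanach (w : M) (K : OF M) (V : NS M) : Prop :=
  IsNormed E K V ∧ ∀ s, Fn E s w V.X →
    (∀ e, BVM.Rel E K.lt K.zero e → ∃ n, E n w ∧ ∀ p q x y, E p w → E q w → ¬ E p n → ¬ E q n →
      BVM.Rel E s p x → BVM.Rel E s q y → Near E K V x y e) →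
    ∃ x, E x V.X ∧ ∀ e, BVM.Rel E K.lt K.zero e → ∃ n, E n w ∧ ∀ p y, E p w → ¬ E p n →
      BVM.Rel E s p y → Near E K V y x e

/-- the density character of `V` is at most the cardinality of `κ`: there is a dense set `D`
with `|D| ≤ |κ|` -/
def DensLE (K : OF M) (V : NS M) (κ : M) : Prop :=
  ∃ D, (∀ x, E x D → E x V.X) ∧ CardLE E D κ ∧
    ∀ x e, E x V.X → BVM.Rel E K.lt K.zero e → ∃ y, E y D ∧ Near E K V x y e

/-- `Y` is a closed linear subspace of `V` -/
structure IsSubspace (K : OF M) (V : NS M) (Y : M) : Prop where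
  sub : ∀ x, E x Y → E x V.X
  zero : E V.zero Y
  add : ∀ x y s, E x Y → E y Y → Rel2 E V.add x y s → E s Y
  smul : ∀ c x y, E x Y → Rel2 E V.smul c x y → E y Y
  closed : ∀ x, E x V.X → (∀ e, BVM.Rel E K.lt K.zero e → ∃ y, E y Y ∧ Near E K V x y e) →
    E x Y

/-- `u` is a nonprincipal ultrafilter on `w = ω`, that is, a point of `ℕ* = βℕ ∖ ℕ` -/
structure IsUlt (w u : M) : Prop where
  sub : ∀ A, E A u → ∀ n, E n A → E n w
  /-- `u` is closed under intersections -/
  inter : ∀ A A' C, E A u → E A' u → (∀ n, E n C ↔ (E n A ∧ E n A')) → E C u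
  /-- `u` is closed under supersets -/
  mono : ∀ A C, E A u → (∀ n, E n A → E n C) → (∀ n, E n C → E n w) → E C u
  /-- the empty set is not in `u` -/
  ne : ∀ A, E A u → ∃ n, E n A
  /-- one of `A` and `w ∖ A` is in `u` -/
  ultra : ∀ A C, (∀ n, E n A → E n w) → (∀ n, E n C ↔ (E n w ∧ ¬ E n A)) → E A u ∨ E C u
  /-- `u` is not principal -/
  free : ∀ n, E n w → ∃ A, E A u ∧ ¬ E n A

/-- `Z = ℕ*` -/
def IsStar (w Z : M) : Prop := ∀ u, E u Z ↔ IsUlt E w u

/-- `g` is a continuous real function on `Z = ℕ*`, that is, an element of `C(ℕ*)`: it is a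
function from `Z` to the reals, and for each `u` in `Z` and each `e > 0` there is `A` in `u`
(a basic neighbourhood of `u`) such that `|g(v) - g(u)| < e` for all `v` in `Z` with `A ∈ v` -/
def IsCont (K : OF M) (Z g : M) : Prop :=
  Fn E g Z K.R ∧ ∀ u r e, BVM.Rel E g u r → BVM.Rel E K.lt K.zero e →
    ∃ A, E A u ∧ ∀ v s, BVM.Rel E g v s → E A v → Close E K r s e

/-- `t` is a linear operator from the subspace `Y` of `V` to the space `C(ℕ*)` -/
structure IsOp (K : OF M) (V : NS M) (Z Y t : M) : Prop where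
  fn : FunOn E t Y
  val : ∀ y g, BVM.Rel E t y g → IsCont E K Z g
  /-- `t(x + y) = t(x) + t(y)`, pointwise on `ℕ*` -/
  add : ∀ x y s f g h, Rel2 E V.add x y s → BVM.Rel E t x f → BVM.Rel E t y g →
    BVM.Rel E t s h → ∀ u p q r, BVM.Rel E f u p → BVM.Rel E g u q → Rel2 E K.add p q r →
      BVM.Rel E h u r
  /-- `t(c x) = c t(x)`, pointwise on `ℕ*` -/
  smul : ∀ c x y f g, Rel2 E V.smul c x y → BVM.Rel E t x f → BVM.Rel E t y g →
    ∀ u p q, BVM.Rel E f u p → Rel2 E K.mul c p q → BVM.Rel E g u q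

/-- `‖t(x)‖ ≤ c ‖x‖` for all `x` in the domain of the operator `t`, in the supremum norm of
`C(ℕ*)` -/
def Bound (K : OF M) (V : NS M) (t c : M) : Prop :=
  ∀ x g r p, BVM.Rel E t x g → BVM.Rel E V.norm x r → Rel2 E K.mul c r p →
    ∀ u q d, BVM.Rel E g u q → IsAbs E K q d → ¬ BVM.Rel E K.lt p d

/-- `(M, E)` satisfies: `C(ℕ*)` is `(3, ℵ₂)`-injective; here `w = ω` and `w1 = ω₁`.  For every
Banach space `V` whose density character is at most `ℵ₁`, every closed subspace `Y` of `V` and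
every bounded linear operator `t` from `Y` to `C(ℕ*)` there is a linear operator `T` from `V` to
`C(ℕ*)` which extends `t` and has `‖T‖ ≤ 3 ‖t‖`: for each `c ≥ 0`, if `c` is a bound of `t`, then
`3 c = (c + c) + c` is a bound of `T` -/
def TripleInjective (w w1 : M) : Prop :=
  ∀ (K : OF M) (Z : M) (V : NS M) (Y t : M), IsReals E K → IsStar E w Z → IsBanach E w K V →
    DensLE E K V w1 → IsSubspace E K V Y → IsOp E K V Z Y t →
    (∃ c, E c K.R ∧ Bound E K V t c) →
    ∃ T, IsOp E K V Z V.X T ∧ (∀ y g, BVM.Rel E t y g → BVM.Rel E T y g) ∧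
      ∀ c d e, Rel2 E K.add c c d → Rel2 E K.add d c e → ¬ BVM.Rel E K.lt c K.zero →
        Bound E K V t c → Bound E K V T e

end

end Pool.Agent.MAx
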