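import Pool.Agent.MAx.Ctx
import Pool.Agent.MAx.BOut

/-!
# The estimates for the generic sequences, in the quotient models
-/

namespace Pool.Agent.MAx

open Classical Pool.Agent Pool.Agent.LadderTree Pool.Agent.Forcing
open Pool.Agent.BVM (BSet UF OPair FunOn chk le_of_uf eq_of_uf memv eqv on onT ZFC)

section

variable {B : Type} [CompleteBooleanAlgebra B] {b : B}

theorem cov_of_le' {D : Pt b → Prop} {κ : Sort*} {c : κ → B} (hD : RpP D)
    (h : bv hD ≤ ⨆ i, c i) : Cov D fun i F => F.1.U (c i) := by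
  refine cov_of_le hD (fun i => RpP.val (c i)) ?_
  have h1 : bv hD ≤ (⨆ i, c i) ⊓ b := le_inf h (bv_le_b _)
  rw [iSup_inf_eq] at h1
  refine h1.trans (iSup_mono fun i => le_bv _ inf_le_right fun F hF => (F.1.inf_iff.1 hF).1)

/-- `φ` holds for all large natural numbers -/
def Ev (F : Pt b) (φ : Md F → Prop) : Prop :=
  ∃ n, In F n (nm F om) ∧ ∀ k, In F k (nm F om) → ¬ In F k n → φ k

theorem ev_ult {F : Pt b} {u : Md F} (hu : IsUlt (In F) (nm F om) u) {φ : Md F → Prop}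
    (h : Ev F φ) : ∃ A, In F A u ∧ ∀ k, In F k A → φ k := by
  obtain ⟨n, hn, hφ⟩ := h
  obtain ⟨u, rfl⟩ := exists_nm u
  obtain ⟨A, hA, hA'⟩ := om_all (b := b) (RpP.isUlt om u)
    (P := fun F n => ∃ A, In F A (nm F u) ∧ ∀ k, In F k A → ¬ In F k n)
    (fun n => RpP.ex fun A => (RpP.mem _ _).and (RpP.all fun k => (RpP.mem _ _).imp
      (RpP.mem _ _).not)) (fun F hF n => by
        refine ⟨nm F (sN fun k => tv (n ≤ k)), UFu_gt hF n, fun k hk => ?_⟩
        refine sN_all (b := b) (RpP.const True) (fun k => tv (n ≤ k))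
          (P := fun F k => ¬ In F k (nm F (on n))) (fun k => (RpP.mem _ _).not)
          (fun F _ k hk => ?_) F trivial k hk
        rw [F.1.tv_iff] at hk
        rw [In_on]
        exact not_lt.2 hk) F hu n hn
  exact ⟨A, hA, fun k hk => hφ k (hu.sub A hA k hk) (hA' k hk)⟩

end

namespace Ctx

variable {P : Type} [Preorder P] {ι : Type} (X : Ctx (RO P) ι) {H : CD ι → RO P}

theorem exists_fh (hH : GF X.toBD H) (i : ι) (k : ℕ) : ∃ y : ∀ F : Pt X.b, KF X.hK F, NmR y ∧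
    ∀ F (r : ℚ), F.1.U (fB H i k r) → y F = (r : KF X.hK F) := by
  obtain ⟨y, hy⟩ := BVM.exists_mix (fun r => fB H i k r) (fun r r' h => hH.disj i k h)
    (fun r => qn X.hK r)
  have h1 : ∀ (F : Pt X.b) (r : ℚ), F.1.U (fB H i k r) → nm F y = (r : KF X.hK F).v := by
    intro F r hr
    rw [← nm_qn, nm_eq]
    exact F.1.mono (hy r) hr
  have h2 : ∀ F : Pt X.b, In F (nm F y) (nm F X.K.R) := by
    intro F
    refine cov_top (b := X.b) (hH.total i k) (fun F => In F (nm F y) (nm F X.K.R))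
      (RpP.mem _ _) (fun r F _ hr => ?_) F trivial
    rw [h1 F r hr]
    exact (r : KF X.hK F).mem
  refine ⟨fun F => RK.of (nm F y) (h2 F), ⟨y, fun F => rfl⟩, fun F r hr => RK.ext (h1 F r hr)⟩

/-- the generic sequences -/
noncomputable def fh (hH : GF X.toBD H) (i : ι) (k : ℕ) : ∀ F : Pt X.b, KF X.hK F :=
  (X.exists_fh hH i k).choose

theorem fh_nm (hH : GF X.toBD H) (i : ι) (k : ℕ) : NmR (X.fh hH i k) :=
  (X.exists_fh hH i k).choose_spec.1

theorem fh_eq (hH : GF X.toBD H) (i : ι) (k : ℕ) (F : Pt X.b) (r : ℚ)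
    (h : F.1.U (fB H i k r)) : X.fh hH i k F = (r : KF X.hK F) :=
  (X.exists_fh hH i k).choose_spec.2 F r h

/-- covers by the values of finitely many generic sequences -/
theorem cov_g (hH : GF X.toBD H) (k : ℕ) (S : Finset ι) : ∀ C : Pt X.b → Prop, RpP C →
    (∀ (g : ι →₀ ℚ) F, (∀ i ∈ S, F.1.U (fB H i k (g i))) → C F) → ∀ F, C F := by
  induction S using Finset.induction_on with
  | empty =>
    intro C _ h F
    exact h 0 F (by simp)
  | insert j S hj ih =>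
    intro C hC h F
    refine cov_top (b := X.b) (hH.total j k) C hC (fun r F _ hr => ?_) F trivial
    refine ih (fun F => F.1.U (fB H j k r) → C F) ((RpP.val _).imp hC) (fun g F hg hr => ?_) F hr
    refine h (g.update j r) F fun i hi => ?_
    rcases Finset.mem_insert.1 hi with rfl | hi
    · rw [Finsupp.update_apply, if_pos rfl]
      exact hr
    · have hne : i ≠ j := fun e => hj (e ▸ hi)
      rw [Finsupp.update_apply, if_neg hne]
      exact hg i hi

/-- linear combinations of the generic sequences -/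
noncomputable def LF (hH : GF X.toBD H) (c : ι →₀ ℚ) (k : ℕ) : ∀ F : Pt X.b, KF X.hK F :=
  lin (fun i => X.fh hH i k) c

theorem LF_nm (hH : GF X.toBD H) (c : ι →₀ ℚ) (k : ℕ) : NmR (X.LF hH c k) :=
  lin_nm (fun i => X.fh_nm hH i k) c

/-- the value of the estimate -/
noncomputable def GG (X : Ctx (RO P) ι) (H : CD ι → RO P) (c : ι →₀ ℚ) (ε : ℚ) (n₀ : ℕ) : RO P :=
  ⨅ y : ℕ × (ι →₀ ℚ) × ℚ, (tv (n₀ ≤ y.1) ⊓
      (c.support.inf fun i => fB H i y.1 (y.2.1 i)) ⊓ (X.toBD.N c).lt y.2.2) ⇨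
        tv ((c.sum fun i r => r * y.2.1 i) < 3 * y.2.2 + ε)

theorem est_ground (hH : GF X.toBD H) (c : ι →₀ ℚ) {ε : ℚ} (hε : 0 < ε) (n₀ k : ℕ)
    (hk : n₀ ≤ k) (F : Pt X.b) (hF : F.1.U (X.GG H c ε n₀)) :
    X.LF hH c k F < 3 * X.NF c F + 2 * (ε : KF X.hK F) := by
  have hRHS : NmR fun F => 3 * X.NF c F + 2 * (ε : KF X.hK F) := by
    refine (((NmR.rat 3).mul (X.NF_nm c)).add ((NmR.rat 2).mul (NmR.rat ε))).congr fun F => ?_
    push_cast
    rfl
  have hC : RpP fun F => X.LF hH c k F < 3 * X.NF c F + 2 * (ε : KF X.hK F) :=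
    RpP.ltR (X.LF_nm hH c k) hRHS
  have hG : RpP fun F : Pt X.b => F.1.U (X.GG H c ε n₀) := RpP.val _
  refine cov_between (X.NF_nm c) ((X.NF_nm c).add (NmR.rat (ε / 3)))
    (fun F => F.1.U (X.GG H c ε n₀) → _) (hG.imp hC) (fun q F _ hq hF => ?_) F
    (by
      have : (0 : KF X.hK F) < ((ε / 3 : ℚ) : KF X.hK F) := by
        exact_mod_cast (by positivity : (0 : ℚ) < ε / 3)
      linarith) hF
  refine X.cov_g hH k c.support (fun F => F.1.U (X.GG H c ε n₀) →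
    (X.NF c F < (q : KF X.hK F) ∧ (q : KF X.hK F) < X.NF c F + ((ε / 3 : ℚ) : KF X.hK F)) → _)
    (hG.imp (((RpP.ltR (X.NF_nm c) (NmR.rat q)).and (RpP.ltR (NmR.rat q)
      ((X.NF_nm c).add (NmR.rat (ε / 3))))).imp hC)) (fun g F hg hF hq => ?_) F hF hq
  have h1 := F.1.mono (iInf_le _ (k, g, q)) hF
  rw [F.1.himp_iff, F.1.inf_iff, F.1.inf_iff, F.1.tv_iff, uf_finset_inf, F.1.tv_iff] at h1
  have h2 := h1 ⟨⟨hk, hg⟩, (ltB_pt (X.NF_nm c) q F).2 hq.1⟩
  have h3 : X.LF hH c k F = ((c.sum fun i r => r * g i : ℚ) : KF X.hK F) := by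
    unfold LF lin Finsupp.sum
    push_cast
    refine Finset.sum_congr rfl fun i hi => ?_
    rw [X.fh_eq hH i k F (g i) (hg i hi)]
  have h4 : ((c.sum fun i r => r * g i : ℚ) : KF X.hK F) < ((3 * q + ε : ℚ) : KF X.hK F) := by
    exact_mod_cast h2
  rw [h3]
  refine h4.trans ?_
  have h5 := hq.2
  push_cast at h5 ⊢
  linarith

theorem NF_neg (c : ι →₀ ℚ) (F : Pt X.b) : X.NF (-c) F = X.NF c F := by
  unfold NF
  rw [S_neg, nr_neg]

theorem est_c (hH : GF X.toBD H) (c : ι →₀ ℚ) (F : Pt X.b) (e : KF X.hK F) (he : 0 < e) :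
    Ev F fun k => ∀ y : KF X.hK F, BVM.Rel (In F) (nm F (sqN (X.LF_nm hH c))) k y.v →
      |y| < 3 * X.NF c F + e := by
  obtain ⟨e, he', rfl⟩ := nmR_eq F e
  have h3N : NmR fun F => 3 * X.NF c F := by
    refine ((NmR.rat 3).mul (X.NF_nm c)).congr fun F => ?_
    push_cast
    rfl
  have hy : ∀ k, RpP fun F => ∀ y : KF X.hK F,
      BVM.Rel (In F) (nm F (sqN (X.LF_nm hH c))) (nm F k) y.v → |y| < 3 * X.NF c F + e F :=
    fun k => RpP.allR fun y hy => (RpP.relR _ _ hy).imp (RpP.ltR hy.abs (h3N.add he'))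
  have hC : RpP fun F => Ev F fun k => ∀ y : KF X.hK F,
      BVM.Rel (In F) (nm F (sqN (X.LF_nm hH c))) k y.v → |y| < 3 * X.NF c F + e F :=
    RpP.ex fun n => (RpP.mem _ _).and (RpP.all fun k => (RpP.mem _ _).imp
      ((RpP.mem _ _).not.imp (hy k)))
  refine cov_pos he' _ hC (fun q F _ hq => ?_) F he
  have hε : 0 < q / 3 := by
    have := hq.1
    positivity
  have hD : RpP fun F : Pt X.b => (q : KF X.hK F) < e F := RpP.ltR (NmR.rat q) he'
  refine cov_top (b := X.b) (hH.norm c hε) (fun F => (q : KF X.hK F) < e F → _) (hD.imp hC)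
    (fun n₀ F _ h₀ hq' => ?_) F trivial hq.2
  refine cov_top (b := X.b) (hH.norm (-c) hε) (fun F => F.1.U (X.GG H c (q / 3) n₀) →
    (q : KF X.hK F) < e F → _) ((RpP.val _).imp (hD.imp hC))
    (fun n₁ F _ h₁ h₀ hq' => ?_) F trivial h₀ hq'
  refine ⟨nm F (on (max n₀ n₁)), In_om F _, fun k hk => ?_⟩
  refine om_all (b := X.b) (D := fun F => F.1.U (X.GG H c (q / 3) n₀) ∧
    F.1.U (X.GG H (-c) (q / 3) n₁) ∧ (q : KF X.hK F) < e F) ((RpP.val _).and ((RpP.val _).and hD))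
    (P := fun F k => ¬ In F k (nm F (on (max n₀ n₁))) → ∀ y : KF X.hK F,
      BVM.Rel (In F) (nm F (sqN (X.LF_nm hH c))) k y.v → |y| < 3 * X.NF c F + e F)
    (fun k => (RpP.mem _ _).not.imp (hy k)) (fun F hF k hk y hy => ?_) F ⟨h₀, h₁, hq'⟩ k hk
  rw [In_on, not_lt] at hk
  rw [rel_sqN'] at hy
  have h2 := X.est_ground hH c hε n₀ k ((le_max_left _ _).trans hk) F hF.1
  have h3 := X.est_ground hH (-c) hε n₁ k ((le_max_right _ _).trans hk) F hF.2.1
  unfold LF at h3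
  rw [lin_neg, NF_neg] at h3
  have h4 := hF.2.2
  have h5 : (0 : KF X.hK F) < (q : KF X.hK F) := by
    have := hq.1
    exact_mod_cast this
  push_cast at h2 h3
  rw [hy, abs_lt]
  unfold LF at h2 ⊢
  constructor <;> linarith

theorem est_Y (hH : GF X.toBD H) (i : ι) (F : Pt X.b) (hF : In F (X.u i F).v (nm F X.Y))
    (u : Md F) (hu : IsUlt (In F) (nm F om) u) (r : KF X.hK F)
    (hr : TR (nm F X.t) (X.u i F) u r) : Lim F (nm F (sqN (X.fh_nm hH i))) u r := by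
  intro e he
  have hlim := X.τ_lim i F hF u r hr
  obtain ⟨A, hA, hA'⟩ := hlim (e / 2) (half_pos he)
  have key : Ev F fun k => ∀ y y' : KF X.hK F, BVM.Rel (In F) (nm F (sqN (X.fh_nm hH i))) k y.v →
      BVM.Rel (In F) (nm F (sqN (X.τ_nm i))) k y'.v → |y - y'| < e / 2 := by
    obtain ⟨e, he', rfl⟩ := nmR_eq F e
    have he2 : NmR fun F => e F / 2 := by
      refine (he'.div (NmR.rat 2)).congr fun F => ?_
      push_cast
      rfl
    have hy : ∀ k, RpP fun F => ∀ y y' : KF X.hK F,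
        BVM.Rel (In F) (nm F (sqN (X.fh_nm hH i))) (nm F k) y.v →
        BVM.Rel (In F) (nm F (sqN (X.τ_nm i))) (nm F k) y'.v → |y - y'| < e F / 2 :=
      fun k => RpP.allR fun y hy => RpP.allR fun y' hy' => (RpP.relR _ _ hy).imp
        ((RpP.relR _ _ hy').imp (RpP.ltR (hy.sub hy').abs he2))
    have hC : RpP fun F => Ev F fun k => ∀ y y' : KF X.hK F,
        BVM.Rel (In F) (nm F (sqN (X.fh_nm hH i))) k y.v →
        BVM.Rel (In F) (nm F (sqN (X.τ_nm i))) k y'.v → |y - y'| < e F / 2 :=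
      RpP.ex fun n => (RpP.mem _ _).and (RpP.all fun k => (RpP.mem _ _).imp
        ((RpP.mem _ _).not.imp (hy k)))
    have hDY : RpP fun F => In F (X.u i F).v (nm F X.Y) := RpP.inX (X.hu i) _
    refine cov_pos he2 (fun F => In F (X.u i F).v (nm F X.Y) → _) (hDY.imp hC)
      (fun q F _ hq hF => ?_) F (half_pos he) hF
    have hD : RpP fun F : Pt X.b => (q : KF X.hK F) < e F / 2 := RpP.ltR (NmR.rat q) he2
    refine cov_of_le' hDY (hH.dom i hq.1) (fun F => (q : KF X.hK F) < e F / 2 → _) (hD.imp hC)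
      (fun n₀ F _ h₀ hq' => ?_) F hF hq.2
    refine ⟨nm F (on n₀), In_om F _, fun k hk => ?_⟩
    refine om_all (b := X.b) (D := fun F => F.1.U (⨅ y : ℕ × ℚ, (tv (n₀ ≤ y.1) ⊓
        fB H i y.1 y.2) ⇨ ((X.toBD.W (Finsupp.single i 1) y.1).lt (y.2 + q) ⊓
        (X.toBD.W (-Finsupp.single i 1) y.1).lt (-y.2 + q))) ∧
        (q : KF X.hK F) < e F / 2) ((RpP.val _).and hD)
      (P := fun F k => ¬ In F k (nm F (on n₀)) → ∀ y y' : KF X.hK F,
        BVM.Rel (In F) (nm F (sqN (X.fh_nm hH i))) k y.v →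
        BVM.Rel (In F) (nm F (sqN (X.τ_nm i))) k y'.v → |y - y'| < e F / 2)
      (fun k => (RpP.mem _ _).not.imp (hy k)) (fun F hF k hk y y' hy hy' => ?_) F ⟨h₀, hq'⟩ k hk
    rw [In_on, not_lt] at hk
    rw [rel_sqN'] at hy hy'
    rw [hy, hy']
    have hC2 : RpP fun F => |X.fh hH i k F - X.τ i k F| < e F / 2 :=
      RpP.ltR ((X.fh_nm hH i k).sub (X.τ_nm i k)).abs he2
    refine cov_top (b := X.b) (hH.total i k) (fun F => (F.1.U (⨅ y : ℕ × ℚ, (tv (n₀ ≤ y.1) ⊓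
        fB H i y.1 y.2) ⇨ ((X.toBD.W (Finsupp.single i 1) y.1).lt (y.2 + q) ⊓
        (X.toBD.W (-Finsupp.single i 1) y.1).lt (-y.2 + q))) ∧
        (q : KF X.hK F) < e F / 2) → _) (((RpP.val _).and hD).imp hC2)
      (fun a F _ ha hF => ?_) F trivial hF
    have h1 := F.1.mono (iInf_le _ (k, a)) hF.1
    rw [F.1.himp_iff, F.1.inf_iff, F.1.tv_iff, F.1.inf_iff] at h1
    obtain ⟨h2, h3⟩ := h1 ⟨hk, ha⟩
    have h2 := (ltB_pt (X.WF_nm _ k) _ F).1 h2
    have h3 := (ltB_pt (X.WF_nm _ k) _ F).1 h3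
    unfold WF at h2 h3
    rw [lin_neg, lin_single] at h3
    rw [lin_single] at h2
    rw [X.fh_eq hH i k F a ha, abs_lt]
    push_cast at h2 h3
    rw [one_mul] at h2 h3
    have h4 := hF.2
    constructor <;> linarith
  obtain ⟨A', hA1, hA2⟩ := ev_ult hu key
  obtain ⟨C, hC⟩ := exists_inter (BVM.zfc F.1) A A'
  refine ⟨C, hu.inter _ _ _ hA hA1 hC, fun k y hk hy => ?_⟩
  have hk' := (hC k).1 hk
  obtain ⟨y', hy'⟩ := sq_ex (X.τ_nm i) F (hu.sub _ hA k hk'.1)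
  have h1 := hA' k y' hk'.1 hy'
  have h2 := hA2 k hk'.2 y y' hy hy'
  calc |y - r| = |(y - y') + (y' - r)| := by congr 1; ring
    _ ≤ |y - y'| + |y' - r| := abs_add_le _ _
    _ < e / 2 + e / 2 := add_lt_add h2 h1
    _ = e := add_halves e

end Ctx

end Pool.Agent.MAx
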