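import Pool.Agent.MAx.Est

/-!
# The extension of the operator
-/

namespace Pool.Agent.MAx

open Classical Pool.Agent Pool.Agent.LadderTree Pool.Agent.Forcing
open Pool.Agent.BVM (BSet UF OPair FunOn chk le_of_uf eq_of_uf memv eqv on onT ZFC)

section

variable {B : Type} [CompleteBooleanAlgebra B] {b : B}

/-- `φ` holds almost everywhere with respect to `u` -/
def UA (F : Pt b) (u : Md F) (φ : Md F → Prop) : Prop := ∃ A, In F A u ∧ ∀ k, In F k A → φ k

theorem UA.and {F : Pt b} {u : Md F} (hu : IsUlt (In F) (nm F om) u) {φ ψ : Md F → Prop}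
    (h : UA F u φ) (h' : UA F u ψ) : UA F u fun k => φ k ∧ ψ k := by
  obtain ⟨A, hA, hφ⟩ := h
  obtain ⟨A', hA', hψ⟩ := h'
  obtain ⟨C, hC⟩ := exists_inter (BVM.zfc F.1) A A'
  exact ⟨C, hu.inter _ _ _ hA hA' hC, fun k hk => ⟨hφ k ((hC k).1 hk).1, hψ k ((hC k).1 hk).2⟩⟩

theorem UA.ex {F : Pt b} {u : Md F} (hu : IsUlt (In F) (nm F om) u) {φ : Md F → Prop}
    (h : UA F u φ) : ∃ k, In F k (nm F om) ∧ φ k := by
  obtain ⟨A, hA, hφ⟩ := h
  obtain ⟨k, hk⟩ := hu.ne A hA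
  exact ⟨k, hu.sub A hA k hk, hφ k hk⟩

theorem UA.mono {F : Pt b} {u : Md F} {φ ψ : Md F → Prop}
    (h : UA F u φ) (h' : ∀ k, φ k → ψ k) : UA F u ψ := by
  obtain ⟨A, hA, hφ⟩ := h
  exact ⟨A, hA, fun k hk => h' k (hφ k hk)⟩

theorem Ev.ua {F : Pt b} {u : Md F} (hu : IsUlt (In F) (nm F om) u) {φ : Md F → Prop}
    (h : Ev F φ) : UA F u φ := ev_ult hu h

theorem RpP.ua (u : BSet B) {φ : ∀ F : Pt b, Md F → Prop} (h : ∀ k, RpP fun F => φ F (nm F k)) :
    RpP fun F => UA F (nm F u) (φ F) :=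
  RpP.ex fun A => (RpP.mem _ _).and (RpP.all fun k => (RpP.mem _ _).imp (h k))

theorem RpP.ev {φ : ∀ F : Pt b, Md F → Prop} (h : ∀ k, RpP fun F => φ F (nm F k)) :
    RpP fun F => Ev F (φ F) :=
  RpP.ex fun n => (RpP.mem _ _).and (RpP.all fun k => (RpP.mem _ _).imp
      ((RpP.mem _ _).not.imp (h k)))

variable {K : OF (BSet B)} {hK : ∀ F : Pt b, IsReals (In F) (nmK F K)}

/-- dichotomy for real sequences -/
theorem dich {F : Pt b} {s u : Md F} (hs : Fn (In F) s (nm F om) (nm F K.R))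
    (hu : IsUlt (In F) (nm F om) u) (θ : KF hK F) :
    (UA F u fun k => ∀ y : KF hK F, BVM.Rel (In F) s k y.v → θ < y) ∨
      UA F u fun k => ∀ y : KF hK F, BVM.Rel (In F) s k y.v → y ≤ θ := by
  obtain ⟨s, rfl⟩ := exists_nm s
  obtain ⟨θ, hθ, rfl⟩ := nmR_eq F θ
  obtain ⟨A, hA⟩ := exists_sep (b := b) om (P := fun F k => ∀ y : KF hK F,
    BVM.Rel (In F) (nm F s) k y.v → θ F < y) (fun k => RpP.allR fun y hy =>
      (RpP.relR _ _ hy).imp (RpP.ltR hθ hy))
  obtain ⟨C, hC⟩ := exists_diff (BVM.zfc F.1) (nm F om) (nm F A)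
  rcases hu.ultra (nm F A) C (fun n hn => ((hA F n).1 hn).1) hC with h | h
  · exact Or.inl ⟨_, h, fun k hk => ((hA F k).1 hk).2⟩
  · refine Or.inr ⟨_, h, fun k hk y hy => ?_⟩
    by_contra hcon
    push Not at hcon
    have hk' := (hC k).1 hk
    apply hk'.2
    refine (hA F k).2 ⟨hk'.1, fun y' hy' => ?_⟩
    rw [← RK.ext (FunOn.uniq hs.1 hy hy')]
    exact hcon

theorem val_ex {F : Pt b} {s k : Md F} (hs : Fn (In F) s (nm F om) (nm F K.R))
    (hk : In F k (nm F om)) : ∃ y : KF hK F, BVM.Rel (In F) s k y.v := by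
  obtain ⟨y, hy, hy'⟩ := hs.ex hk
  exact ⟨RK.of y hy, (hy' y).2 rfl⟩

end

namespace Ctx

variable {P : Type} [Preorder P] {ι : Type} (X : Ctx (RO P) ι) {H : CD ι → RO P}
  (hH : GF X.toBD H)

/-- the name of a point -/
noncomputable def un (i : ι) : BSet (RO P) := (X.hu i).choose

theorem nm_un (i : ι) (F : Pt X.b) : nm F (X.un i) = (X.u i F).v := (X.hu i).choose_spec F

/-- the name of a generic sequence -/
noncomputable def sn (i : ι) : BSet (RO P) := sqN (X.fh_nm hH i)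

/-- the name of the set of all pairs of a point and its sequence -/
noncomputable def Gn : BSet (RO P) := chk fun i => BVM.op (X.un i) (X.sn hH i)

/-- `x` is a point with the sequence `s` -/
def GR (F : Pt X.b) (x : XF X.hK X.hV F) (s : Md F) : Prop :=
  ∃ p, In F p (nm F (X.Gn hH)) ∧ OPair (In F) p x.v s

theorem GR_self (F : Pt X.b) (i : ι) : X.GR hH F (X.u i F) (nm F (X.sn hH i)) := by
  refine ⟨_, In_chk _ i F, ?_⟩
  rw [← nm_un, OPair_nm]

theorem RpP_GR {x : ∀ F : Pt X.b, XF X.hK X.hV F} (hx : NmX x) (s : BSet (RO P)) :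
    RpP fun F => X.GR hH F (x F) (nm F s) :=
  RpP.ex fun p => (RpP.mem _ _).and (RpP.opX hx _ _)

theorem GR_all {D : Pt X.b → Prop} (hD : RpP D) {Q : ∀ F : Pt X.b, XF X.hK X.hV F → Md F → Prop}
    (hQ : ∀ x, NmX x → ∀ s, RpP fun F => Q F (x F) (nm F s))
    (h : ∀ F, D F → ∀ i, Q F (X.u i F) (nm F (X.sn hH i))) (F : Pt X.b) (hF : D F)
    (x : XF X.hK X.hV F) (s : Md F) (hx : X.GR hH F x s) : Q F x s := by
  obtain ⟨p, hp, hp'⟩ := hx
  refine chk_all (b := X.b) (fun i => BVM.op (X.un i) (X.sn hH i)) hD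
    (P := fun F p => ∀ (x : XF X.hK X.hV F) (s : Md F), OPair (In F) p x.v s → Q F x s)
    (fun p => RpP.allX fun x hx => RpP.all fun s => (RpP.opX hx _ _).imp (hQ x hx s))
    (fun F hF i x s hxs => ?_) F hF p hp x s hp'
  have h1 : OPair (In F) (nm F (BVM.op (X.un i) (X.sn hH i))) (nm F (X.un i))
      (nm F (X.sn hH i)) := OPair_nm.2 rfl
  obtain ⟨h2, h3⟩ := h1.inj hxs
  rw [← h3, ← XK.ext (show (X.u i F).v = x.v by rw [← h2, nm_un])]
  exact h F hF i

/-- `3 ‖t‖` -/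
noncomputable def κ (F : Pt X.b) : KF X.hK F := 3 * X.c₀ F

theorem κ_nm : NmR X.κ := by
  refine ((NmR.rat 3).mul X.hc₀).congr fun F => ?_
  push_cast
  rfl

theorem κ_nonneg (F : Pt X.b) : 0 ≤ X.κ F := mul_nonneg (by norm_num) (X.c₀_nonneg F)

theorem κ_NF (c : ι →₀ ℚ) (F : Pt X.b) : 3 * X.NF c F = X.κ F * nr (X.S c F) := by
  unfold NF κ
  ring

theorem E5 (F : Pt X.b) (x : XF X.hK X.hV F) (s : Md F) (hx : X.GR hH F x s) :
    Fn (In F) s (nm F om) (nm F X.K.R) :=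
  X.GR_all hH (RpP.const True) (Q := fun F _ s => Fn (In F) s (nm F om) (nm F X.K.R))
    (fun _ _ s => RpP.fn _ _ _) (fun F _ i => fn_sqN _ F) F trivial x s hx

theorem E1 (F : Pt X.b) (x : XF X.hK X.hV F) (s : Md F) (hx : X.GR hH F x s) (e : KF X.hK F)
    (he : 0 < e) : Ev F fun k => ∀ y : KF X.hK F, BVM.Rel (In F) s k y.v →
      |y| < X.κ F * nr x + e := by
  refine X.GR_all hH (RpP.const True) (Q := fun F x s => ∀ e : KF X.hK F, 0 < e →
    Ev F fun k => ∀ y : KF X.hK F, BVM.Rel (In F) s k y.v → |y| < X.κ F * nr x + e)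
    (fun x hx s => RpP.allR fun e he => (RpP.ltR NmR.zero he).imp (RpP.ev fun k =>
      RpP.allR fun y hy => (RpP.relR _ _ hy).imp (RpP.ltR hy.abs
        ((X.κ_nm.mul (NmR.nr hx)).add he))))
    (fun F _ i e he => ?_) F trivial x s hx e he
  obtain ⟨n, hn, h⟩ := X.est_c hH (Finsupp.single i 1) F e he
  refine ⟨n, hn, fun k hk hk' y hy => ?_⟩
  have h1 := h k hk hk' y (by
    refine om_all (b := X.b) (RpP.const True) (P := fun F k => ∀ y : KF X.hK F,
      BVM.Rel (In F) (nm F (X.sn hH i)) k y.v →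
      BVM.Rel (In F) (nm F (sqN (X.LF_nm hH (Finsupp.single i 1)))) k y.v)
      (fun k => RpP.allR fun y hy => (RpP.relR _ _ hy).imp (RpP.relR _ _ hy))
      (fun F _ k y hy => ?_) F trivial k hk y hy
    rw [sn, rel_sqN'] at hy
    rw [rel_sqN', hy]
    unfold LF
    rw [lin_single]
    push_cast
    ring)
  rw [κ_NF, S_single, Rat.cast_one, one_smul] at h1
  exact h1

theorem E2 (F : Pt X.b) (x x' : XF X.hK X.hV F) (s s' : Md F) (hx : X.GR hH F x s)
    (hx' : X.GR hH F x' s') (e : KF X.hK F) (he : 0 < e) :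
    Ev F fun k => ∀ y y' : KF X.hK F, BVM.Rel (In F) s k y.v → BVM.Rel (In F) s' k y'.v →
      |y - y'| < X.κ F * nr (x - x') + e := by
  refine X.GR_all hH (RpP.const True) (Q := fun F x s => ∀ (x' : XF X.hK X.hV F) (s' : Md F),
    X.GR hH F x' s' → ∀ e : KF X.hK F, 0 < e →
    Ev F fun k => ∀ y y' : KF X.hK F, BVM.Rel (In F) s k y.v → BVM.Rel (In F) s' k y'.v →
      |y - y'| < X.κ F * nr (x - x') + e)
    (fun x hx s => RpP.allX fun x' hx' => RpP.all fun s' => (X.RpP_GR hH hx' _).imp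
      (RpP.allR fun e he => (RpP.ltR NmR.zero he).imp (RpP.ev fun k =>
      RpP.allR fun y hy => RpP.allR fun y' hy' => (RpP.relR _ _ hy).imp ((RpP.relR _ _ hy').imp
        (RpP.ltR (hy.sub hy').abs ((X.κ_nm.mul (NmR.nr (hx.sub hx'))).add he))))))
    (fun F _ i x' s' hx' e he => ?_) F trivial x s hx x' s' hx' e he
  refine X.GR_all hH (RpP.const True) (Q := fun F x' s' => ∀ e : KF X.hK F, 0 < e →
    Ev F fun k => ∀ y y' : KF X.hK F, BVM.Rel (In F) (nm F (X.sn hH i)) k y.v →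
      BVM.Rel (In F) s' k y'.v → |y - y'| < X.κ F * nr (X.u i F - x') + e)
    (fun x' hx' s' => RpP.allR fun e he => (RpP.ltR NmR.zero he).imp (RpP.ev fun k =>
      RpP.allR fun y hy => RpP.allR fun y' hy' => (RpP.relR _ _ hy).imp ((RpP.relR _ _ hy').imp
        (RpP.ltR (hy.sub hy').abs ((X.κ_nm.mul (NmR.nr ((X.hu i).sub hx'))).add he)))))
    (fun F _ j e he => ?_) F trivial x' s' hx' e he
  obtain ⟨n, hn, h⟩ := X.est_c hH (Finsupp.single i 1 - Finsupp.single j 1) F e he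
  refine ⟨n, hn, fun k hk hk' y y' hy hy' => ?_⟩
  have h1 := h k hk hk' (y - y') (by
    refine om_all (b := X.b) (RpP.const True) (P := fun F k => ∀ y y' : KF X.hK F,
      BVM.Rel (In F) (nm F (X.sn hH i)) k y.v → BVM.Rel (In F) (nm F (X.sn hH j)) k y'.v →
      BVM.Rel (In F) (nm F (sqN (X.LF_nm hH (Finsupp.single i 1 - Finsupp.single j 1)))) k
        (y - y').v)
      (fun k => RpP.allR fun y hy => RpP.allR fun y' hy' => (RpP.relR _ _ hy).imp
        ((RpP.relR _ _ hy').imp (RpP.relR _ _ (hy.sub hy'))))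
      (fun F _ k y y' hy hy' => ?_) F trivial k hk y y' hy hy'
    rw [sn, rel_sqN'] at hy hy'
    rw [rel_sqN', hy, hy']
    unfold LF
    rw [lin_sub, lin_single, lin_single]
    push_cast
    ring)
  rw [κ_NF, S_sub, S_single, S_single, Rat.cast_one, one_smul, one_smul] at h1
  exact h1

theorem E3 (F : Pt X.b) (x x' x'' : XF X.hK X.hV F) (s s' s'' : Md F) (hx : X.GR hH F x s)
    (hx' : X.GR hH F x' s') (hx'' : X.GR hH F x'' s'') (e : KF X.hK F) (he : 0 < e) :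
    Ev F fun k => ∀ y y' y'' : KF X.hK F, BVM.Rel (In F) s k y.v → BVM.Rel (In F) s' k y'.v →
      BVM.Rel (In F) s'' k y''.v → |y - y' - y''| < X.κ F * nr (x - x' - x'') + e := by
  refine X.GR_all hH (RpP.const True) (Q := fun F x s => ∀ (x' : XF X.hK X.hV F) (s' : Md F),
    X.GR hH F x' s' → ∀ (x'' : XF X.hK X.hV F) (s'' : Md F),
    X.GR hH F x'' s'' → ∀ e : KF X.hK F, 0 < e →
    Ev F fun k => ∀ y y' y'' : KF X.hK F, BVM.Rel (In F) s k y.v → BVM.Rel (In F) s' k y'.v →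
      BVM.Rel (In F) s'' k y''.v → |y - y' - y''| < X.κ F * nr (x - x' - x'') + e)
    (fun x hx s => RpP.allX fun x' hx' => RpP.all fun s' => (X.RpP_GR hH hx' _).imp
      (RpP.allX fun x'' hx'' => RpP.all fun s'' => (X.RpP_GR hH hx'' _).imp
      (RpP.allR fun e he => (RpP.ltR NmR.zero he).imp (RpP.ev fun k =>
      RpP.allR fun y hy => RpP.allR fun y' hy' => RpP.allR fun y'' hy'' =>
        (RpP.relR _ _ hy).imp ((RpP.relR _ _ hy').imp ((RpP.relR _ _ hy'').imp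
        (RpP.ltR ((hy.sub hy').sub hy'').abs
          ((X.κ_nm.mul (NmR.nr ((hx.sub hx').sub hx''))).add he))))))))
    (fun F _ i x' s' hx' x'' s'' hx'' e he => ?_) F trivial x s hx x' s' hx' x'' s'' hx'' e he
  refine X.GR_all hH (RpP.const True) (Q := fun F x' s' =>
    ∀ (x'' : XF X.hK X.hV F) (s'' : Md F),
    X.GR hH F x'' s'' → ∀ e : KF X.hK F, 0 < e →
    Ev F fun k => ∀ y y' y'' : KF X.hK F, BVM.Rel (In F) (nm F (X.sn hH i)) k y.v →
      BVM.Rel (In F) s' k y'.v →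
      BVM.Rel (In F) s'' k y''.v → |y - y' - y''| < X.κ F * nr (X.u i F - x' - x'') + e)
    (fun x' hx' s' =>
      (RpP.allX fun x'' hx'' => RpP.all fun s'' => (X.RpP_GR hH hx'' _).imp
      (RpP.allR fun e he => (RpP.ltR NmR.zero he).imp (RpP.ev fun k =>
      RpP.allR fun y hy => RpP.allR fun y' hy' => RpP.allR fun y'' hy'' =>
        (RpP.relR _ _ hy).imp ((RpP.relR _ _ hy').imp ((RpP.relR _ _ hy'').imp
        (RpP.ltR ((hy.sub hy').sub hy'').abs
          ((X.κ_nm.mul (NmR.nr (((X.hu i).sub hx').sub hx''))).add he))))))))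
    (fun F _ j x'' s'' hx'' e he => ?_) F trivial x' s' hx' x'' s'' hx'' e he
  refine X.GR_all hH (RpP.const True) (Q := fun F x'' s'' =>
    ∀ e : KF X.hK F, 0 < e →
    Ev F fun k => ∀ y y' y'' : KF X.hK F, BVM.Rel (In F) (nm F (X.sn hH i)) k y.v →
      BVM.Rel (In F) (nm F (X.sn hH j)) k y'.v →
      BVM.Rel (In F) s'' k y''.v → |y - y' - y''| < X.κ F * nr (X.u i F - X.u j F - x'') + e)
    (fun x'' hx'' s'' =>
      (RpP.allR fun e he => (RpP.ltR NmR.zero he).imp (RpP.ev fun k =>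
      RpP.allR fun y hy => RpP.allR fun y' hy' => RpP.allR fun y'' hy'' =>
        (RpP.relR _ _ hy).imp ((RpP.relR _ _ hy').imp ((RpP.relR _ _ hy'').imp
        (RpP.ltR ((hy.sub hy').sub hy'').abs
          ((X.κ_nm.mul (NmR.nr (((X.hu i).sub (X.hu j)).sub hx''))).add he)))))))
    (fun F _ l e he => ?_) F trivial x'' s'' hx'' e he
  obtain ⟨n, hn, h⟩ := X.est_c hH (Finsupp.single i 1 - Finsupp.single j 1 -
    Finsupp.single l 1) F e he
  refine ⟨n, hn, fun k hk hk' y y' y'' hy hy' hy'' => ?_⟩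
  have h1 := h k hk hk' (y - y' - y'') (by
    refine om_all (b := X.b) (RpP.const True) (P := fun F k => ∀ y y' y'' : KF X.hK F,
      BVM.Rel (In F) (nm F (X.sn hH i)) k y.v → BVM.Rel (In F) (nm F (X.sn hH j)) k y'.v →
      BVM.Rel (In F) (nm F (X.sn hH l)) k y''.v →
      BVM.Rel (In F) (nm F (sqN (X.LF_nm hH (Finsupp.single i 1 - Finsupp.single j 1 -
        Finsupp.single l 1)))) k (y - y' - y'').v)
      (fun k => RpP.allR fun y hy => RpP.allR fun y' hy' => RpP.allR fun y'' hy'' =>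
        (RpP.relR _ _ hy).imp ((RpP.relR _ _ hy').imp ((RpP.relR _ _ hy'').imp
          (RpP.relR _ _ ((hy.sub hy').sub hy'')))))
      (fun F _ k y y' y'' hy hy' hy'' => ?_) F trivial k hk y y' y'' hy hy' hy''
    rw [sn, rel_sqN'] at hy hy' hy''
    rw [rel_sqN', hy, hy', hy'']
    unfold LF
    rw [lin_sub, lin_sub, lin_single, lin_single, lin_single]
    push_cast
    ring)
  rw [κ_NF, S_sub, S_sub, S_single, S_single, S_single, Rat.cast_one, one_smul, one_smul,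
    one_smul] at h1
  exact h1

theorem E4 (F : Pt X.b) (x : XF X.hK X.hV F) (s : Md F) (hx : X.GR hH F x s)
    (hxY : In F x.v (nm F X.Y)) (u : Md F) (r : KF X.hK F) (hr : TR (nm F X.t) x u r) :
    Lim F s u r := by
  obtain ⟨u, rfl⟩ := exists_nm u
  obtain ⟨r, hr', rfl⟩ := nmR_eq F r
  refine X.GR_all hH (RpP.const True) (Q := fun F x s => In F x.v (nm F X.Y) →
    TR (nm F X.t) x (nm F u) (r F) → Lim F s (nm F u) (r F))
    (fun x hx s => (RpP.inX hx _).imp ((RpP.tr _ hx _ hr').imp (RpP.lim _ _ hr')))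
    (fun F _ i hY hr => ?_) F trivial x s hx hxY hr
  exact X.est_Y hH i F hY _ ((X.hZ F _).1 (hr.dom (X.hO F)).2) _ hr

end Ctx

end Pool.Agent.MAx
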