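import Pool.Agent.MAx.Tname
import Pool.Agent.BVM.Final

/-!
# `C(ℕ*)` is `(3, ℵ₂)`-injective in the quotient models of the iteration
-/

namespace Pool.Agent.MAx

open Classical Pool.Agent Pool.Agent.LadderTree Pool.Agent.Forcing Cardinal
open Pool.Agent.BVM (BSet UF OPair FunOn chk le_of_uf eq_of_uf memv eqv on onT ZFC Al)

section

variable {B : Type} [CompleteBooleanAlgebra B] {b : B} {K : OF (BSet B)} {V : NS (BSet B)}
  {hK : ∀ F : Pt b, IsReals (In F) (nmK F K)}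
  {hV : ∀ F : Pt b, IsNormed (In F) (nmK F K) (nmV F V)}

/-- the hypotheses on a dense set: `f` maps `w1` onto the dense set `D` -/
def DH (w1 D f : BSet B) (K : OF (BSet B)) (V : NS (BSet B)) (F : Pt b) : Prop :=
  (∀ x, In F x (nm F D) → In F x (nm F V.X)) ∧
    (∀ x y y', BVM.Rel (In F) (nm F f) x y → BVM.Rel (In F) (nm F f) x y' → y' = y) ∧
    (∀ y, In F y (nm F D) → ∃ x, In F x (nm F w1) ∧ BVM.Rel (In F) (nm F f) x y) ∧
    ∀ x e, In F x (nm F V.X) → BVM.Rel (In F) (nm F K.lt) (nm F K.zero) e →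
      ∃ y, In F y (nm F D) ∧ Near (In F) (nmK F K) (nmV F V) x y e

theorem RpP.dh (w1 D f : BSet B) (K : OF (BSet B)) (V : NS (BSet B)) :
    RpP fun F : Pt b => DH w1 D f K V F := by
  unfold DH
  repeat' (first
    | exact RpP.rel _ _ _ | exact RpP.near _ _ _ _ _ | exact RpP.mem _ _
    | exact RpP.eq _ _ | refine RpP.and ?_ ?_ | refine RpP.ex fun _ => ?_
    | refine RpP.all fun _ => ?_ | refine RpP.imp ?_ ?_)

/-- points from a function on a check set -/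
theorem exists_pts {Ω : Type} (w : Ω → BSet B) (f Y : BSet B) :
    ∃ u : Ω × ℕ → ∀ F : Pt b, XF hK hV F, (∀ i, NmX (u i)) ∧
      (∀ i F, (∃ y : XF hK hV F, BVM.Rel (In F) (nm F f) (nm F (w i)) y.v) →
        BVM.Rel (In F) (nm F f) (nm F (w i)) (u (i, 0) F).v) ∧
      ∀ i (n : ℕ) F, (∃ y : XF hK hV F, In F y.v (nm F Y) ∧
        nr (u (i, 0) F - y) < ((1 / ((n : ℚ) + 1) : ℚ) : KF hK F)) →
        In F (u (i, n + 1) F).v (nm F Y) ∧
          nr (u (i, 0) F - u (i, n + 1) F) < ((1 / ((n : ℚ) + 1) : ℚ) : KF hK F) := by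
  have h0 : ∀ i, ∃ y : ∀ F : Pt b, XF hK hV F, NmX y ∧ ∀ F,
      (∃ y : XF hK hV F, BVM.Rel (In F) (nm F f) (nm F (w i)) y.v) →
        BVM.Rel (In F) (nm F f) (nm F (w i)) (y F).v := by
    intro i
    refine exists_nmX (Q := fun F y => (∃ y : XF hK hV F,
      BVM.Rel (In F) (nm F f) (nm F (w i)) y.v) → BVM.Rel (In F) (nm F f) (nm F (w i)) y.v)
      (fun y hy => RpP.imp (RpP.exX fun y hy => RpP.relX' hy _ _) (RpP.relX' hy _ _))
      fun F => ?_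
    by_cases h : ∃ y : XF hK hV F, BVM.Rel (In F) (nm F f) (nm F (w i)) y.v
    · obtain ⟨y, hy⟩ := h
      exact ⟨y, fun _ => hy⟩
    · exact ⟨0, fun h' => absurd h' h⟩
  choose u0 hu0 hu0' using h0
  have h1 : ∀ i (n : ℕ), ∃ y : ∀ F : Pt b, XF hK hV F, NmX y ∧ ∀ F,
      (∃ y : XF hK hV F, In F y.v (nm F Y) ∧
        nr (u0 i F - y) < ((1 / ((n : ℚ) + 1) : ℚ) : KF hK F)) →
        (In F (y F).v (nm F Y) ∧
        nr (u0 i F - y F) < ((1 / ((n : ℚ) + 1) : ℚ) : KF hK F)) := by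
    intro i n
    have hR : ∀ y : ∀ F : Pt b, XF hK hV F, NmX y → RpP fun F => In F (y F).v (nm F Y) ∧
        nr (u0 i F - y F) < ((1 / ((n : ℚ) + 1) : ℚ) : KF hK F) := fun y hy =>
      (RpP.inX hy _).and (RpP.ltR (NmR.nr ((hu0 i).sub hy)) (NmR.rat _))
    refine exists_nmX (Q := fun F y => (∃ y : XF hK hV F, In F y.v (nm F Y) ∧
        nr (u0 i F - y) < ((1 / ((n : ℚ) + 1) : ℚ) : KF hK F)) →
        (In F y.v (nm F Y) ∧
        nr (u0 i F - y) < ((1 / ((n : ℚ) + 1) : ℚ) : KF hK F)))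
      (fun y hy => (RpP.exX fun y hy => hR y hy).imp (hR y hy)) fun F => ?_
    by_cases h : ∃ y : XF hK hV F, In F y.v (nm F Y) ∧
        nr (u0 i F - y) < ((1 / ((n : ℚ) + 1) : ℚ) : KF hK F)
    · obtain ⟨y, hy⟩ := h
      exact ⟨y, fun _ => hy⟩
    · exact ⟨0, fun h' => absurd h' h⟩
  choose u1 hu1 hu1' using h1
  refine ⟨fun s => match s with
    | (i, 0) => u0 i
    | (i, n + 1) => u1 i n, ?_, fun i F h => hu0' i F h, fun i n F h => hu1' i n F h⟩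
  rintro ⟨i, _ | n⟩
  · exact hu0 i
  · exact hu1 i n

end

namespace Ctx

variable {P : Type} [Preorder P] {Ω : Type} (X : Ctx (RO P) (Ω × ℕ)) {H : CD (Ω × ℕ) → RO P}
  (hH : GF X.toBD H)

theorem dns (w : Ω → BSet (RO P)) (D f : BSet (RO P))
    (hDH : ∀ F : Pt X.b, DH (chk w) D f X.K X.V F)
    (h0 : ∀ i F, (∃ y : XF X.hK X.hV F, BVM.Rel (In F) (nm F f) (nm F (w i)) y.v) →
        BVM.Rel (In F) (nm F f) (nm F (w i)) (X.u (i, 0) F).v)
    (h1 : ∀ i (n : ℕ) F, (∃ y : XF X.hK X.hV F, In F y.v (nm F X.Y) ∧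
        nr (X.u (i, 0) F - y) < ((1 / ((n : ℚ) + 1) : ℚ) : KF X.hK F)) →
        In F (X.u (i, n + 1) F).v (nm F X.Y) ∧
          nr (X.u (i, 0) F - X.u (i, n + 1) F) < ((1 / ((n : ℚ) + 1) : ℚ) : KF X.hK F)) :
    X.Dns hH := by
  -- near points of the dense set
  have hD : ∀ (F : Pt X.b) (x : XF X.hK X.hV F) (e : KF X.hK F), 0 < e →
      ∃ (j : Md F) (y : XF X.hK X.hV F), In F j (nm F (chk w)) ∧
        BVM.Rel (In F) (nm F f) j y.v ∧ nr (x - y) < e := by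
    intro F x e he
    obtain ⟨hD1, hD2, hD3, hD4⟩ := hDH F
    obtain ⟨y, hy, hn⟩ := hD4 x.v e.v x.mem he
    obtain ⟨j, hj, hj'⟩ := hD3 y hy
    exact ⟨j, XK.of y (hD1 y hy), hj, hj', near_iff.1 hn⟩
  refine ⟨fun F x e he => ?_, fun F x hx e he => ?_⟩
  · obtain ⟨j, y, hj, hy, hn⟩ := hD F x e he
    obtain ⟨s, hs⟩ := chk_all (b := X.b) w (RpP.const True) (P := fun F j =>
      ∀ y : XF X.hK X.hV F, BVM.Rel (In F) (nm F f) j y.v → ∃ s, X.GR hH F y s)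
      (fun j => RpP.allX fun y hy => (RpP.relX' hy _ _).imp
        (RpP.ex fun s => X.RpP_GR hH hy s)) (fun F _ i y hy => by
          have h2 := h0 i F ⟨y, hy⟩
          have h3 : (X.u (i, 0) F).v = y.v := (hDH F).2.1 _ _ _ hy h2
          rw [← XK.ext h3]
          exact ⟨_, X.GR_self hH F (i, 0)⟩) F trivial j hj y hy
    exact ⟨y, s, hs, hn⟩
  · obtain ⟨x, hx', rfl⟩ := nmX_eq F x
    obtain ⟨e, he', rfl⟩ := nmR_eq F e
    have he2 : NmR fun F => e F / 2 := by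
      refine (he'.div (NmR.rat 2)).congr fun F => ?_
      push_cast
      rfl
    have hxY : RpP fun F => In F (x F).v (nm F X.Y) := RpP.inX hx' _
    have hC : RpP fun F => ∃ (x' : XF X.hK X.hV F) (s : Md F), X.GR hH F x' s ∧
        In F x'.v (nm F X.Y) ∧ nr (x F - x') < e F :=
      RpP.exX fun x' hx'' => RpP.ex fun s => (X.RpP_GR hH hx'' s).and ((RpP.inX hx'' _).and
        (RpP.ltR (NmR.nr (hx'.sub hx'')) he'))
    refine cov_pos he2 (fun F => In F (x F).v (nm F X.Y) → _) (hxY.imp hC)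
      (fun q F _ hq hx => ?_) F (half_pos he) hx
    obtain ⟨n, hn⟩ := exists_nat_one_div_lt hq.1
    have hn1 : (0 : KF X.hK F) < ((1 / ((n : ℚ) + 1) : ℚ) : KF X.hK F) := by
      have : (0 : ℚ) < 1 / ((n : ℚ) + 1) := by positivity
      exact_mod_cast this
    have hn2 : ((1 / ((n : ℚ) + 1) : ℚ) : KF X.hK F) < e F / 2 := by
      have h2 : ((1 / ((n : ℚ) + 1) : ℚ) : KF X.hK F) < (q : KF X.hK F) := by exact_mod_cast hn
      exact h2.trans hq.2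
    obtain ⟨j, y, hj, hy, hn3⟩ := hD F (x F) _ hn1
    obtain ⟨z, s, hz1, hz2, hz3⟩ := chk_all (b := X.b) w (RpP.const True) (P := fun F j =>
      ∀ y : XF X.hK X.hV F, BVM.Rel (In F) (nm F f) j y.v →
      (∃ z : XF X.hK X.hV F, In F z.v (nm F X.Y) ∧
        nr (y - z) < ((1 / ((n : ℚ) + 1) : ℚ) : KF X.hK F)) →
      ∃ (z : XF X.hK X.hV F) (s : Md F), X.GR hH F z s ∧ In F z.v (nm F X.Y) ∧
        nr (y - z) < ((1 / ((n : ℚ) + 1) : ℚ) : KF X.hK F))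
      (fun j => RpP.allX fun y hy => (RpP.relX' hy _ _).imp
        (RpP.imp (RpP.exX fun z hz => (RpP.inX hz _).and
          (RpP.ltR (NmR.nr (hy.sub hz)) (NmR.rat _)))
        (RpP.exX fun z hz => RpP.ex fun s => (X.RpP_GR hH hz s).and ((RpP.inX hz _).and
          (RpP.ltR (NmR.nr (hy.sub hz)) (NmR.rat _))))))
      (fun F _ i y hy hz => by
          have h2 := h0 i F ⟨y, hy⟩
          have h3 : (X.u (i, 0) F).v = y.v := (hDH F).2.1 _ _ _ hy h2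
          have h4 : X.u (i, 0) F = y := XK.ext h3
          have h5 := h1 i n F (by rw [h4]; exact hz)
          rw [h4] at h5
          exact ⟨_, _, X.GR_self hH F (i, n + 1), h5⟩) F trivial j hj y hy
      ⟨x F, hx, by rw [nr_sub_comm]; exact hn3⟩
    refine ⟨z, s, hz1, hz2, ?_⟩
    have h6 := nr_tri (x F) y z
    linarith

end Ctx

section

variable {A : Type} [Zero A] {ν : IX → A → A → Set (IX →₀ A)}

theorem onto_bot' {X Y : Type} (h : ∀ f : Y → X, ∃ x, ¬ (f ⁻¹' {x}).Countable)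
    (e : X → Y → RO (PP ν)) : OntoV e = ⊥ := by
  by_contra hne
  obtain ⟨p, hp⟩ := exists_forc hne
  simp only [OntoV, forc_inf, forc_iInf, forc_iSup, forc_himp, forc_tv] at hp
  obtain ⟨h1, h2⟩ := hp
  choose q hq x hx using fun y => h2 y p le_rfl
  obtain ⟨x0, hx0⟩ := h x
  obtain ⟨y, hy, z, hz, hyz, r, hr1, hr2⟩ := PP.cc (ν := ν) Y _ hx0 q
  have hy' : x y = x0 := hy
  have hz' : x z = x0 := hz
  refine hyz (h1 x0 y z r (hr1.trans (hq y)) ?_ r le_rfl ?_)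
  · rw [← hy']; exact (hx y).mono hr1
  · rw [← hz']; exact (hx z).mono hr2

/-- successor cardinals are preserved -/
theorem succCard' {X Y : Type} [LinearOrder X] [WellFoundedLT X] [LinearOrder Y]
    [WellFoundedLT Y] (h1 : ∀ f : Y → X, ∃ x, ¬ (f ⁻¹' {x}).Countable)
    (h2 : ∀ y : Y, #(Set.Iio y) ≤ #X) (F : UF (RO (PP ν))) :
    BVM.SuccCard (BVM.Mod.E F) (BVM.Mod.mk F (onT Y)) (BVM.Mod.mk F (onT X)) := by
  refine ⟨BVM.ordl_onT F, ?_, ?_⟩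
  · exact BVM.not_cardLE BVM.disc_on (fun e => onto_bot' h1 e) F
  · intro y hy
    refine BVM.ball_chk (on : Y → BSet (RO (PP ν))) (BVM.fCardLE 0 1) (fun _ => onT X) ⊤
      (fun G _ b => ?_) F F.top y hy
    obtain ⟨i⟩ := Cardinal.le_def _ _ |>.1 (h2 b)
    have hc : BVM.CardLE (BVM.Mod.E G) (BVM.Mod.mk G (chk fun a : Set.Iio b => on a.1))
        (BVM.Mod.mk G (onT X)) := by
      refine BVM.cardLE_chk BVM.disc_on (BVM.disc_on.comp Subtype.val_injective)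
        (fun (x : X) (a : Set.Iio b) => i a = x) (fun a b b' h h' => i.injective (h.trans h'.symm))
        (fun a => ⟨i a, rfl⟩) G
    rw [← BVM.on_def b] at hc
    exact hc

end

theorem mk_idx : #(Al 1 × ℕ) ≤ ℵ_ 1 := by
  have h1 : #(Al 1) = ℵ_ 1 := by
    rw [BVM.mk_Al]
    norm_num
  simp only [mk_prod, lift_id, h1, mk_nat]
  exact (mul_aleph0_eq (aleph0_le_aleph 1)).le

theorem triple {ν : IX → WithZero (CD (Al 1 × ℕ)) → WithZero (CD (Al 1 × ℕ)) →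
    Set (IX →₀ WithZero (CD (Al 1 × ℕ)))} (hν : Book ν) (F₀ : UF (RO (PP ν))) :
    TripleInjective (BVM.Mod.E F₀) (BVM.Mod.mk F₀ om) (BVM.Mod.mk F₀ (onT (Al 1))) := by
  rintro ⟨R, a, m, l, z, o⟩ Z ⟨XX, A, S, N, O⟩ Y t h1 h2 h3 h4 h5 h6 h7
  obtain ⟨R, rfl⟩ := R.exists_rep
  obtain ⟨a, rfl⟩ := a.exists_rep
  obtain ⟨m, rfl⟩ := m.exists_rep
  obtain ⟨l, rfl⟩ := l.exists_rep
  obtain ⟨z, rfl⟩ := z.exists_rep
  obtain ⟨o, rfl⟩ := o.exists_rep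
  obtain ⟨Z, rfl⟩ := Z.exists_rep
  obtain ⟨XX, rfl⟩ := XX.exists_rep
  obtain ⟨A, rfl⟩ := A.exists_rep
  obtain ⟨S, rfl⟩ := S.exists_rep
  obtain ⟨N, rfl⟩ := N.exists_rep
  obtain ⟨O, rfl⟩ := O.exists_rep
  obtain ⟨Y, rfl⟩ := Y.exists_rep
  obtain ⟨t, rfl⟩ := t.exists_rep
  obtain ⟨D, hD1, ⟨f, hf1, hf2⟩, hD2⟩ := h4
  obtain ⟨D, rfl⟩ := D.exists_rep
  obtain ⟨f, rfl⟩ := f.exists_rep
  let K : OF (BSet (RO (PP ν))) := ⟨R, a, m, l, z, o⟩
  let V : NS (BSet (RO (PP ν))) := ⟨XX, A, S, N, O⟩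
  let Φ : Pt (⊤ : RO (PP ν)) → Prop := fun F => IsReals (In F) (nmK F K) ∧
    IsStar (In F) (nm F om) (nm F Z) ∧ IsNormed (In F) (nmK F K) (nmV F V) ∧
    IsSubspace (In F) (nmK F K) (nmV F V) (nm F Y) ∧
    IsOp (In F) (nmK F K) (nmV F V) (nm F Z) (nm F Y) (nm F t) ∧
    (∃ c, In F c (nm F K.R) ∧ Bound (In F) (nmK F K) (nmV F V) (nm F t) c) ∧
    DH (onT (Al 1)) D f K V F
  have hΦ : RpP Φ := (RpP.isReals K).and ((RpP.isStar _ _).and ((RpP.isNormed _ _).and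
    ((RpP.isSubspace _ _ _).and ((RpP.isOp _ _ _ _ _).and ((RpP.ex fun c => (RpP.mem _ _).and
      (RpP.bound _ _ _ _)).and (RpP.dh _ _ _ _ _))))))
  have hF₀ : F₀.U (bv hΦ) := (bv_iff hΦ ⟨F₀, F₀.top⟩).2 ⟨h1, h2, h3.1, h5, h6, h7, hD1, hf1,
    hf2, hD2⟩
  have hall : ∀ F : Pt (bv hΦ), Φ ⟨F.1, F.1.top⟩ := fun F =>
    (bv_iff hΦ ⟨F.1, F.1.top⟩).1 F.2
  have hK : ∀ F : Pt (bv hΦ), IsReals (In F) (nmK F K) := fun F => (hall F).1
  have hZ : ∀ F : Pt (bv hΦ), IsStar (In F) (nm F om) (nm F Z) := fun F => (hall F).2.1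
  have hV : ∀ F : Pt (bv hΦ), IsNormed (In F) (nmK F K) (nmV F V) := fun F => (hall F).2.2.1
  have hY : ∀ F : Pt (bv hΦ), IsSubspace (In F) (nmK F K) (nmV F V) (nm F Y) :=
    fun F => (hall F).2.2.2.1
  have hO : ∀ F : Pt (bv hΦ), IsOp (In F) (nmK F K) (nmV F V) (nm F Z) (nm F Y) (nm F t) :=
    fun F => (hall F).2.2.2.2.1
  have hbd : ∀ F : Pt (bv hΦ), ∃ c, In F c (nm F K.R) ∧
      Bound (In F) (nmK F K) (nmV F V) (nm F t) c := fun F => (hall F).2.2.2.2.2.1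
  have hDH : ∀ F : Pt (bv hΦ), DH (onT (Al 1)) D f K V F := fun F => (hall F).2.2.2.2.2.2
  obtain ⟨c₀, hc₀, hc₀'⟩ := exists_c0 (hK := hK) (hV := hV) hO hY hbd
  obtain ⟨u, hu, hu0, hu1⟩ := exists_pts (hK := hK) (hV := hV)
    (on : Al 1 → BSet (RO (PP ν))) f Y
  let X : Ctx (RO (PP ν)) (Al 1 × ℕ) :=
    { b := bv hΦ, K := K, V := V, Z := Z, Y := Y, t := t, hK := hK, hV := hV, hZ := hZ, hY := hY,
      hO := hO, c₀ := c₀, hc₀ := hc₀, c₀_nonneg := fun F => (hc₀' F).1,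
      c₀_bound := fun F => (hc₀' F).2.1, u := u, hu := hu }
  obtain ⟨H, hH⟩ := exists_gf hν mk_idx X.toBD
  have hd : X.Dns hH := X.dns hH (on : Al 1 → BSet (RO (PP ν))) D f hDH hu0 hu1
  exact X.main hd ⟨F₀, hF₀⟩ (hc₀' ⟨F₀, hF₀⟩).2.2

/-- there is a model of ZFC in which `C(ℕ*)` is `(3, ℵ₂)`-injective -/
theorem exists_model : ∃ (M : Type 1) (E : M → M → Prop), ZFC E ∧
    ∃ w w1 : M, BVM.Omega E w ∧ BVM.SuccCard E w1 w ∧ TripleInjective E w w1 := by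
  have hA : #(WithZero (CD (Al 1 × ℕ))) ≤ ℵ_ 1 := by
    have h1 : #(WithZero (CD (Al 1 × ℕ))) = #(CD (Al 1 × ℕ)) + 1 := mk_option
    rw [h1]
    exact (add_le_add_left (mk_CD mk_idx) 1).trans
      (by rw [add_one_eq (aleph0_le_aleph 1)])
  obtain ⟨ν, hν⟩ := exists_book hA
  have hne : (⊤ : RO (PP ν)) ≠ ⊥ := by
    intro h
    have : Forc (PP.of 0 : PP ν) (⊤ : RO (PP ν)) := forc_top
    rw [h] at this
    exact forc_bot this
  obtain ⟨F, _⟩ := BVM.exists_uf hne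
  refine ⟨BVM.Mod F, BVM.Mod.E F, BVM.zfc F, BVM.Mod.mk F om, BVM.Mod.mk F (onT (Al 1)),
    BVM.omega_onT F, ?_, triple hν F⟩
  refine succCard' (BVM.fibre 0 ?_ (BVM.mk_Al 1)) (fun y => ?_) F
  · simp
  · refine (BVM.mk_Iio_Al 0 y).trans ?_
    simp

end Pool.Agent.MAx
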