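import Pool.Agent.MAx.Defs
import Pool.Agent.BVM.Eval

/-!
# The ordered field and the normed space of a structure, as types
-/

namespace Pool.Agent.MAx

open Classical Pool.Agent
open Pool.Agent.BVM (OPair FunOn UPair ZFC)

section

variable {M : Type*} {E : M → M → Prop}

theorem exists_upair (hE : ZFC E) (x y : M) : ∃ z, UPair E z x y := hE.pair x y

theorem exists_opair (hE : ZFC E) (x y : M) : ∃ p, OPair E p x y := by
  obtain ⟨a, ha⟩ := exists_upair hE x x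
  obtain ⟨b, hb⟩ := exists_upair hE x y
  obtain ⟨p, hp⟩ := exists_upair hE a b
  exact ⟨p, a, b, ha, hb, hp⟩

theorem upair_uniq (hE : ZFC E) {x y z z' : M} (h : UPair E z x y) (h' : UPair E z' x y) :
    z = z' := hE.ext _ _ fun t => (h t).trans (h' t).symm

theorem opair_uniq (hE : ZFC E) {x y p p' : M} (h : OPair E p x y) (h' : OPair E p' x y) :
    p = p' := by
  obtain ⟨a, b, h1, h2, h3⟩ := h
  obtain ⟨a', b', h1', h2', h3'⟩ := h'
  rw [upair_uniq hE h1 h1', upair_uniq hE h2 h2'] at h3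
  exact upair_uniq hE h3 h3'

theorem Fn.dom {f X Y x y : M} (h : Fn E f X Y) (hxy : BVM.Rel E f x y) : E x X ∧ E y Y := by
  refine ⟨?_, h.2 x y hxy⟩
  obtain ⟨z, hz, hf⟩ := hxy
  obtain ⟨x', y', hx', hz'⟩ := h.1.1 z hf
  rw [(hz.inj hz').1]
  exact hx'

theorem Fn.ex {f X Y x : M} (h : Fn E f X Y) (hx : E x X) :
    ∃ y, E y Y ∧ ∀ y', BVM.Rel E f x y' ↔ y' = y := by
  obtain ⟨y, hy, hy'⟩ := h.1.2 x hx
  exact ⟨y, h.2 x y hy, fun y' => ⟨hy' y', fun e => e ▸ hy⟩⟩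

/-- the elements of `X` -/
abbrev El (E : M → M → Prop) (X : M) : Type _ := {x : M // E x X}

/-- application of a function -/
noncomputable def ap {f X Y : M} (h : Fn E f X Y) (x : El E X) : El E Y :=
  ⟨(h.ex x.2).choose, (h.ex x.2).choose_spec.1⟩

theorem ap_iff {f X Y : M} (h : Fn E f X Y) (x : El E X) (y : M) :
    BVM.Rel E f x.1 y ↔ y = (ap h x).1 := (h.ex x.2).choose_spec.2 y

theorem ap_iff' {f X Y : M} (h : Fn E f X Y) (x y : M) :
    BVM.Rel E f x y ↔ ∃ hx : E x X, y = (ap h ⟨x, hx⟩).1 :=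
  ⟨fun h' => ⟨(h.dom h').1, (ap_iff h ⟨x, _⟩ y).1 h'⟩, fun ⟨hx, h'⟩ => (ap_iff h ⟨x, hx⟩ y).2 h'⟩

theorem Fn2.dom {f X Y Z x y z : M} (h : Fn2 E f X Y Z) (hxy : Rel2 E f x y z) :
    E x X ∧ E y Y ∧ E z Z := by
  obtain ⟨P, hP, hf⟩ := h
  obtain ⟨p, hp, hz⟩ := hxy
  obtain ⟨h1, h2⟩ := hf.dom hz
  obtain ⟨x', y', hx, hy, hp'⟩ := (hP p).1 h1
  obtain ⟨rfl, rfl⟩ := hp.inj hp'
  exact ⟨hx, hy, h2⟩

theorem Fn2.ex (hE : ZFC E) {f X Y Z x y : M} (h : Fn2 E f X Y Z) (hx : E x X) (hy : E y Y) :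
    ∃ z, E z Z ∧ ∀ z', Rel2 E f x y z' ↔ z' = z := by
  obtain ⟨P, hP, hf⟩ := h
  obtain ⟨p, hp⟩ := exists_opair hE x y
  obtain ⟨z, hz, hz'⟩ := hf.ex ((hP p).2 ⟨x, y, hx, hy, hp⟩)
  refine ⟨z, hz, fun z' => ⟨?_, fun e => ⟨p, hp, (hz' z').2 e⟩⟩⟩
  rintro ⟨p', hp', h'⟩
  rw [opair_uniq hE hp' hp] at h'
  exact (hz' z').1 h'

/-- application of a function of two variables -/
noncomputable def ap2 (hE : ZFC E) {f X Y Z : M} (h : Fn2 E f X Y Z) (x : El E X) (y : El E Y) :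
    El E Z := ⟨(h.ex hE x.2 y.2).choose, (h.ex hE x.2 y.2).choose_spec.1⟩

theorem ap2_iff (hE : ZFC E) {f X Y Z : M} (h : Fn2 E f X Y Z) (x : El E X) (y : El E Y)
    (z : M) : Rel2 E f x.1 y.1 z ↔ z = (ap2 hE h x y).1 := (h.ex hE x.2 y.2).choose_spec.2 z

theorem ap2_self (hE : ZFC E) {f X Y Z : M} (h : Fn2 E f X Y Z) (x : El E X) (y : El E Y) :
    Rel2 E f x.1 y.1 (ap2 hE h x y).1 := (ap2_iff hE h x y _).2 rfl

/-- the type of real numbers of the structure -/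
def RK (_ : ZFC E) {K : OF M} (_ : IsReals E K) : Type _ := El E K.R

variable {hE : ZFC E} {K : OF M} {hK : IsReals E K}

/-- the underlying element -/
def RK.v (x : RK hE hK) : M := x.1

/-- real numbers from elements -/
def RK.of (x : M) (hx : E x K.R) : RK hE hK := ⟨x, hx⟩

@[simp] theorem RK.v_of (x : M) (hx : E x K.R) : (RK.of x hx : RK hE hK).v = x := rfl

theorem RK.ext {x y : RK hE hK} (h : x.v = y.v) : x = y := Subtype.ext h

theorem RK.ext_iff {x y : RK hE hK} : x.v = y.v ↔ x = y := ⟨RK.ext, fun h => h ▸ rfl⟩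

theorem RK.mem (x : RK hE hK) : E x.v K.R := x.2

noncomputable instance : Add (RK hE hK) := ⟨fun x y => ap2 hE hK.add x y⟩
noncomputable instance : Mul (RK hE hK) := ⟨fun x y => ap2 hE hK.mul x y⟩
noncomputable instance : Zero (RK hE hK) := ⟨⟨K.zero, hK.zero⟩⟩
noncomputable instance : One (RK hE hK) := ⟨⟨K.one, hK.one⟩⟩

theorem RK.zero_v : (0 : RK hE hK).v = K.zero := rfl
theorem RK.one_v : (1 : RK hE hK).v = K.one := rfl

theorem RK.add_iff {x y : RK hE hK} {s : M} : Rel2 E K.add x.v y.v s ↔ s = (x + y).v :=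
  ap2_iff hE hK.add x y s

theorem RK.mul_iff {x y : RK hE hK} {s : M} : Rel2 E K.mul x.v y.v s ↔ s = (x * y).v :=
  ap2_iff hE hK.mul x y s

theorem RK.exists_neg (x : RK hE hK) : ∃ y : RK hE hK, x + y = 0 := by
  obtain ⟨y, hy⟩ := hK.add_neg x.v x.mem
  refine ⟨RK.of y (hK.add.dom hy).2.1, RK.ext ?_⟩
  exact (RK.add_iff (y := (RK.of y (hK.add.dom hy).2.1 : RK hE hK)).1 hy).symm

theorem RK.exists_inv (x : RK hE hK) (hx : x ≠ 0) : ∃ y : RK hE hK, x * y = 1 := by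
  obtain ⟨y, hy⟩ := hK.mul_inv x.v x.mem fun h => hx (RK.ext h)
  refine ⟨RK.of y (hK.mul.dom hy).2.1, RK.ext ?_⟩
  exact (RK.mul_iff (y := (RK.of y (hK.mul.dom hy).2.1 : RK hE hK)).1 hy).symm

noncomputable instance : Neg (RK hE hK) := ⟨fun x => (RK.exists_neg x).choose⟩
noncomputable instance : Inv (RK hE hK) :=
  ⟨fun x => if h : x = 0 then 0 else (RK.exists_inv x h).choose⟩

theorem RK.add_comm' (x y : RK hE hK) : x + y = y + x :=
  RK.ext (RK.add_iff.1 (hK.add_comm _ _ _ (RK.add_iff.2 rfl)))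

theorem RK.mul_comm' (x y : RK hE hK) : x * y = y * x :=
  RK.ext (RK.mul_iff.1 (hK.mul_comm _ _ _ (RK.mul_iff.2 rfl)))

noncomputable instance : Field (RK hE hK) :=
  Field.ofMinimalAxioms (RK hE hK)
    (fun x y z => RK.ext (RK.add_iff.1 (hK.add_assoc x.v y.v z.v _ _ _ (RK.add_iff.2 rfl)
      (RK.add_iff.2 rfl) (RK.add_iff.2 rfl))))
    (fun x => by
      rw [RK.add_comm']
      exact RK.ext (RK.add_iff.1 (hK.add_zero x.v x.mem)).symm)
    (fun x => by
      rw [RK.add_comm']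
      exact (RK.exists_neg x).choose_spec)
    (fun x y z => RK.ext (RK.mul_iff.1 (hK.mul_assoc x.v y.v z.v _ _ _ (RK.mul_iff.2 rfl)
      (RK.mul_iff.2 rfl) (RK.mul_iff.2 rfl))))
    RK.mul_comm'
    (fun x => by
      rw [RK.mul_comm']
      exact RK.ext (RK.mul_iff.1 (hK.mul_one x.v x.mem)).symm)
    (fun x hx => by
      have e : x⁻¹ = (RK.exists_inv x hx).choose := dif_neg hx
      rw [e]
      exact (RK.exists_inv x hx).choose_spec)
    (dif_pos rfl)
    (fun x y z => RK.ext (RK.add_iff.1 (hK.distrib x.v y.v z.v _ _ _ _ (RK.add_iff.2 rfl)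
      (RK.mul_iff.2 rfl) (RK.mul_iff.2 rfl) (RK.mul_iff.2 rfl))))
    ⟨0, 1, fun h => hK.ne (RK.ext_iff.2 h)⟩

theorem RK.asymm {x y : M} (h : BVM.Rel E K.lt x y) (hK : IsReals E K) : ¬ BVM.Rel E K.lt y x :=
  fun h' => hK.irrefl x (hK.trans x y x h h')

noncomputable instance : LinearOrder (RK hE hK) where
  le x y := ¬ BVM.Rel E K.lt y.v x.v
  lt x y := BVM.Rel E K.lt x.v y.v
  le_refl x := hK.irrefl x.v
  le_trans x y z h1 h2 h3 := by
    rcases hK.tri x.v y.v x.mem y.mem with h | h | h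
    · exact h2 (hK.trans _ _ _ h3 h)
    · rw [h] at h3; exact h2 h3
    · exact h1 h
  lt_iff_le_not_ge x y :=
    ⟨fun h => ⟨RK.asymm h hK, fun h' => h' h⟩, fun h => not_not.1 h.2⟩
  le_antisymm x y h1 h2 := by
    rcases hK.tri x.v y.v x.mem y.mem with h | h | h
    · exact absurd h h2
    · exact RK.ext h
    · exact absurd h h1
  le_total x y := by
    by_contra hcon
    push Not at hcon
    exact RK.asymm hcon.1 hK hcon.2
  toDecidableLE := Classical.decRel _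

theorem RK.lt_iff {x y : RK hE hK} : x < y ↔ BVM.Rel E K.lt x.v y.v := Iff.rfl

theorem RK.add_lt' {x y : RK hE hK} (h : x < y) (z : RK hE hK) : x + z < y + z :=
  hK.add_lt _ _ _ _ _ h (RK.add_iff.2 rfl) (RK.add_iff.2 rfl)

theorem RK.mul_pos' {x y : RK hE hK} (h : 0 < x) (h' : 0 < y) : 0 < x * y :=
  hK.mul_pos _ _ _ h h' (RK.mul_iff.2 rfl)

instance : IsOrderedAddMonoid (RK hE hK) where
  add_le_add_left a b h c := by
    rcases h.lt_or_eq with h | h
    · exact (RK.add_lt' h c).le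
    · rw [h]

instance : ZeroLEOneClass (RK hE hK) where
  zero_le_one := by
    by_contra hcon
    push Not at hcon
    have h1 : (0 : RK hE hK) < -1 := by
      have := RK.add_lt' hcon (-1)
      rwa [add_neg_cancel, zero_add] at this
    have h2 := RK.mul_pos' h1 h1
    rw [neg_mul_neg, one_mul] at h2
    exact absurd h2 hcon.le.not_gt

instance : IsStrictOrderedRing (RK hE hK) := IsStrictOrderedRing.of_mul_pos fun _ _ =>
  RK.mul_pos'

/-- least upper bounds -/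
theorem RK.exists_sup (s : M) (hs : ∀ x, E x s → E x K.R) (h1 : ∃ x, E x s)
    (h2 : ∃ y : RK hE hK, ∀ x : RK hE hK, E x.v s → x ≤ y) :
    ∃ y : RK hE hK, (∀ x : RK hE hK, E x.v s → x ≤ y) ∧
      ∀ y' : RK hE hK, (∀ x : RK hE hK, E x.v s → x ≤ y') → y ≤ y' := by
  obtain ⟨y0, hy0⟩ := h2
  obtain ⟨y, ⟨hy, h3⟩, h4⟩ := hK.sup s hs h1 ⟨y0.v, y0.mem, fun x hx => hy0 ⟨x, hs x hx⟩ hx⟩
  exact ⟨⟨y, hy⟩, fun x hx => h3 x.v hx, fun y' hy' => h4 y'.v y'.mem fun x hx =>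
    hy' ⟨x, hs x hx⟩ hx⟩

theorem RK.isAbs_iff {x : RK hE hK} {d : M} : IsAbs E K x.v d ↔ d = (|x|).v := by
  have e : ∀ s, Rel2 E K.add x.v s K.zero ↔ s = (-x).v := by
    intro s
    constructor
    · intro h
      have hs := (hK.add.dom h).2.1
      have h1 : x + (RK.of s hs : RK hE hK) = 0 :=
        RK.ext (RK.add_iff (y := (RK.of s hs : RK hE hK)).1 h).symm
      exact congrArg RK.v (eq_neg_of_add_eq_zero_right h1)
    · rintro rfl
      rw [RK.add_iff, add_neg_cancel]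
      rfl
  unfold IsAbs
  rw [e]
  rcases le_or_gt 0 x with h | h
  · rw [abs_of_nonneg h]
    constructor
    · rintro (h' | h')
      · exact h'.2
      · exact absurd h'.1 h
    · exact fun h' => Or.inl ⟨h, h'⟩
  · rw [abs_of_neg h]
    constructor
    · rintro (h' | h')
      · exact absurd h h'.1
      · exact h'.2
    · exact fun h' => Or.inr ⟨h, h'⟩

theorem RK.close_iff {r s e : RK hE hK} : Close E K r.v s.v e.v ↔ |r - s| < e := by
  unfold Close
  rw [abs_lt]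
  constructor
  · rintro ⟨p, q, h1, h2, h3, h4⟩
    rw [RK.add_iff] at h1 h3
    subst h1 h3
    have h2 : s < r + e := h2
    have h4 : r < s + e := h4
    constructor <;> linarith
  · rintro ⟨h1, h2⟩
    refine ⟨_, _, RK.add_iff.2 rfl, ?_, RK.add_iff.2 rfl, ?_⟩
    · show s < r + e
      linarith
    · show r < s + e
      linarith

/-- the type of vectors -/
def XK (_ : ZFC E) {K : OF M} (_ : IsReals E K) {V : NS M} (_ : IsNormed E K V) : Type _ :=
  El E V.X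

variable {V : NS M} {hV : IsNormed E K V}

/-- the underlying element -/
def XK.v (x : XK hE hK hV) : M := x.1

/-- vectors from elements -/
def XK.of (x : M) (hx : E x V.X) : XK hE hK hV := ⟨x, hx⟩

@[simp] theorem XK.v_of (x : M) (hx : E x V.X) : (XK.of x hx : XK hE hK hV).v = x := rfl

theorem XK.ext {x y : XK hE hK hV} (h : x.v = y.v) : x = y := Subtype.ext h

theorem XK.ext_iff {x y : XK hE hK hV} : x.v = y.v ↔ x = y := ⟨XK.ext, fun h => h ▸ rfl⟩

theorem XK.mem (x : XK hE hK hV) : E x.v V.X := x.2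

noncomputable instance : Add (XK hE hK hV) := ⟨fun x y => ap2 hE hV.add x y⟩
noncomputable instance : Zero (XK hE hK hV) := ⟨⟨V.zero, hV.zero⟩⟩
noncomputable instance : SMul (RK hE hK) (XK hE hK hV) := ⟨fun c x => ap2 hE hV.smul c x⟩

/-- the norm -/
noncomputable def nr (x : XK hE hK hV) : RK hE hK := ap hV.norm x

theorem XK.zero_v : (0 : XK hE hK hV).v = V.zero := rfl

theorem XK.add_iff {x y : XK hE hK hV} {s : M} : Rel2 E V.add x.v y.v s ↔ s = (x + y).v :=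
  ap2_iff hE hV.add x y s

theorem XK.smul_iff {c : RK hE hK} {y : XK hE hK hV} {s : M} :
    Rel2 E V.smul c.v y.v s ↔ s = (c • y).v :=
  ap2_iff hE hV.smul c y s

theorem nr_iff {x : XK hE hK hV} {s : M} : BVM.Rel E V.norm x.v s ↔ s = (nr x).v :=
  ap_iff hV.norm x s

theorem XK.exists_neg (x : XK hE hK hV) : ∃ y : XK hE hK hV, x + y = 0 := by
  obtain ⟨y, hy⟩ := hV.add_neg x.v x.mem
  refine ⟨XK.of y (hV.add.dom hy).2.1, XK.ext ?_⟩
  exact (XK.add_iff (y := (XK.of y (hV.add.dom hy).2.1 : XK hE hK hV)).1 hy).symm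

noncomputable instance : Neg (XK hE hK hV) := ⟨fun x => (XK.exists_neg x).choose⟩

theorem XK.add_comm' (x y : XK hE hK hV) : x + y = y + x :=
  XK.ext (XK.add_iff.1 (hV.add_comm _ _ _ (XK.add_iff.2 rfl)))

theorem XK.add_assoc' (x y z : XK hE hK hV) : x + y + z = x + (y + z) :=
  XK.ext (XK.add_iff.1 (hV.add_assoc x.v y.v z.v _ _ _ (XK.add_iff.2 rfl)
      (XK.add_iff.2 rfl) (XK.add_iff.2 rfl)))

theorem XK.zero_add' (x : XK hE hK hV) : 0 + x = x := by
  rw [XK.add_comm']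
  exact XK.ext (XK.add_iff.1 (hV.add_zero x.v x.mem)).symm

theorem XK.neg_add' (x : XK hE hK hV) : -x + x = 0 := by
  rw [XK.add_comm']
  exact (XK.exists_neg x).choose_spec

noncomputable instance : AddCommGroup (XK hE hK hV) :=
  { AddGroup.ofLeftAxioms XK.add_assoc' XK.zero_add' XK.neg_add' with
    add_comm := XK.add_comm' }

theorem XK.smul_add' (c : RK hE hK) (x y : XK hE hK hV) : c • (x + y) = c • x + c • y :=
  (XK.ext (XK.add_iff.1 (hV.smul_add c.v x.v y.v _ _ _ _ (XK.add_iff.2 rfl)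
      (XK.smul_iff.2 rfl) (XK.smul_iff.2 rfl) (XK.smul_iff.2 rfl)))).symm.symm

theorem XK.add_smul' (c d : RK hE hK) (x : XK hE hK hV) : (c + d) • x = c • x + d • x :=
  XK.ext (XK.add_iff.1 (hV.add_smul c.v d.v _ x.v _ _ _ (RK.add_iff.2 rfl)
      (XK.smul_iff.2 rfl) (XK.smul_iff.2 rfl) (XK.smul_iff.2 rfl)))

theorem XK.mul_smul' (c d : RK hE hK) (x : XK hE hK hV) : (c * d) • x = c • d • x :=
  (XK.ext (XK.smul_iff.1 (hV.mul_smul c.v d.v _ x.v _ _ (RK.mul_iff.2 rfl)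
      (XK.smul_iff.2 rfl) (XK.smul_iff.2 rfl)))).symm

theorem XK.one_smul' (x : XK hE hK hV) : (1 : RK hE hK) • x = x :=
  (XK.ext (XK.smul_iff.1 (hV.one_smul x.v x.mem))).symm

noncomputable instance : Module (RK hE hK) (XK hE hK hV) where
  one_smul := XK.one_smul'
  mul_smul := XK.mul_smul'
  smul_add := XK.smul_add'
  smul_zero c := by
    have h := XK.smul_add' c (0 : XK hE hK hV) 0
    rw [add_zero] at h
    exact left_eq_add.1 h
  add_smul := XK.add_smul'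
  zero_smul x := by
    have h := XK.add_smul' (0 : RK hE hK) 0 x
    rw [add_zero] at h
    exact left_eq_add.1 h

theorem nr_smul (c : RK hE hK) (x : XK hE hK hV) : nr (c • x) = |c| * nr x :=
  RK.ext (RK.mul_iff.1 (hV.norm_smul c.v x.v _ _ _ _ (XK.smul_iff.2 rfl) (nr_iff.2 rfl)
    (nr_iff.2 rfl) (RK.isAbs_iff.2 rfl)))

theorem nr_zero : nr (0 : XK hE hK hV) = 0 := by
  have h := nr_smul (0 : RK hE hK) (0 : XK hE hK hV)
  rwa [zero_smul, abs_zero, zero_mul] at h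

theorem nr_pos {x : XK hE hK hV} (hx : x ≠ 0) : 0 < nr x :=
  hV.norm_pos x.v _ (nr_iff.2 rfl) fun h => hx (XK.ext h)

theorem nr_nonneg (x : XK hE hK hV) : 0 ≤ nr x := by
  by_cases hx : x = 0
  · rw [hx, nr_zero]
  · exact (nr_pos hx).le

theorem nr_add (x y : XK hE hK hV) : nr (x + y) ≤ nr x + nr y :=
  hV.norm_add x.v y.v _ _ _ _ _ (XK.add_iff.2 rfl) (nr_iff.2 rfl) (nr_iff.2 rfl) (nr_iff.2 rfl)
    (RK.add_iff.2 rfl)

theorem nr_neg (x : XK hE hK hV) : nr (-x) = nr x := by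
  have h := nr_smul (-1 : RK hE hK) x
  rwa [neg_one_smul, abs_neg, abs_one, one_mul] at h

theorem nr_sub_comm (x y : XK hE hK hV) : nr (x - y) = nr (y - x) := by
  rw [← nr_neg, neg_sub]

theorem nr_tri (x y z : XK hE hK hV) : nr (x - z) ≤ nr (x - y) + nr (y - z) := by
  have := nr_add (x - y) (y - z)
  rwa [sub_add_sub_cancel] at this

theorem near_iff {x y : XK hE hK hV} {e : RK hE hK} :
    Near E K V x.v y.v e.v ↔ nr (x - y) < e := by
  unfold Near
  constructor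
  · rintro ⟨d, r, h1, h2, h3⟩
    have hd := (hV.add.dom h1).2.1
    have h4 : y + (XK.of d hd : XK hE hK hV) = x :=
      XK.ext (XK.add_iff (y := (XK.of d hd : XK hE hK hV)).1 h1).symm
    have h5 : r = (nr (XK.of d hd : XK hE hK hV)).v := nr_iff.1 h2
    rw [← h4, add_sub_cancel_left]
    rw [h5] at h3
    exact h3
  · intro h
    refine ⟨(x - y).v, (nr (x - y)).v, ?_, nr_iff.2 rfl, h⟩
    rw [XK.add_iff, add_sub_cancel]

end

end Pool.Agent.MAx
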