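import Pool.Agent.BVM.Los
import Pool.Agent.MAx.Alg

/-!
# Ultrafilters respecting countably many countable joins; Boolean-valued reals
-/

namespace Pool.Agent.MAx

open Classical Pool.Agent.BVM Pool.Agent.Forcing

section

variable {B : Type} [CompleteBooleanAlgebra B]

theorem exists_uf_seq (s : ℕ → B) (hs : Antitone s) (h0 : ∀ n, s n ≠ ⊥) :
    ∃ F : UF B, ∀ n, F.U (s n) := by
  let K : Order.PFilter B := Order.IsPFilter.toPFilter (F := {x | ∃ n, s n ≤ x})
    (Order.IsPFilter.of_def ⟨s 0, 0, le_rfl⟩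
      (by
        rintro x ⟨n, hn⟩ y ⟨m, hm⟩
        exact ⟨s (max n m), ⟨_, le_rfl⟩, (hs (le_max_left _ _)).trans hn,
          (hs (le_max_right _ _)).trans hm⟩)
      (by
        rintro x y hxy ⟨n, hn⟩
        exact ⟨n, hn.trans hxy⟩))
  have hmem : ∀ x, x ∈ K ↔ ∃ n, s n ≤ x := fun x => Iff.rfl
  have hdis : Disjoint (K : Set B) ((Order.Ideal.principal (⊥ : B) : Order.Ideal B) : Set B) := by
    rw [Set.disjoint_left]
    intro x hx hx'
    obtain ⟨n, hn⟩ := (hmem x).1 hx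
    have h2 : x ≤ ⊥ := Order.Ideal.mem_principal.1 hx'
    exact h0 n (le_bot_iff.1 (hn.trans h2))
  obtain ⟨J, hJ, _, hJ2⟩ := DistribLattice.prime_ideal_of_disjoint_filter_ideal hdis
  have hbJ : ∀ n, s n ∉ J := fun n h => Set.disjoint_left.1 hJ2 ((hmem _).2 ⟨n, le_rfl⟩) h
  have htop : (⊤ : B) ∉ J := fun h => hbJ 0 (J.lower le_top h)
  refine ⟨⟨fun x => x ∉ J, htop, fun h => h J.bot_mem, fun hab ha hb => ha (J.lower hab hb),
    fun {x y} hx hy hxy => ?_, fun x => ?_⟩, hbJ⟩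
  · rcases hJ.mem_or_mem hxy with h | h
    · exact hx h
    · exact hy h
  · by_contra hcon
    push Not at hcon
    apply htop
    rw [← sup_compl_eq_top (x := x)]
    exact J.sup_mem hcon.1 hcon.2

theorem exists_generic {b : B} (hb : b ≠ ⊥) (𝒮 : Set (ℕ → B)) (h𝒮 : 𝒮.Countable) :
    ∃ F : UF B, F.U b ∧ ∀ g ∈ 𝒮, F.U (⨆ m, g m) → ∃ m, F.U (g m) := by
  rcases 𝒮.eq_empty_or_nonempty with hne | hne
  · obtain ⟨F, hF⟩ := exists_uf hb
    exact ⟨F, hF, fun g hg => by simp [hne] at hg⟩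
  obtain ⟨e, he⟩ := h𝒮.exists_eq_range hne
  let step : ℕ → {x : B // x ≠ ⊥} → {x : B // x ≠ ⊥} := fun n x =>
    if h : ∃ m, x.1 ⊓ e n m ≠ ⊥ then ⟨x.1 ⊓ e n h.choose, h.choose_spec⟩ else x
  let s : ℕ → {x : B // x ≠ ⊥} := fun n => Nat.rec ⟨b, hb⟩ (fun n x => step n x) n
  have hs : ∀ n, s (n + 1) = step n (s n) := fun n => rfl
  have hanti : Antitone fun n => (s n).1 := antitone_nat_of_succ_le fun n => by
    rw [hs]
    show (step n (s n)).1 ≤ _
    simp only [step]
    split_ifs with h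
    · exact inf_le_left
    · exact le_rfl
  obtain ⟨F, hF⟩ := exists_uf_seq _ hanti fun n => (s n).2
  refine ⟨F, hF 0, fun g hg hU => ?_⟩
  rw [he] at hg
  obtain ⟨n, rfl⟩ := hg
  have h1 := hF (n + 1)
  simp only [hs, step] at h1
  by_cases h : ∃ m, (s n).1 ⊓ e n m ≠ ⊥
  · rw [dif_pos h] at h1
    exact ⟨_, F.mono inf_le_right h1⟩
  · push Not at h
    exfalso
    apply F.bot
    have h2 := F.inf (hF n) hU
    rw [inf_iSup_eq] at h2
    refine F.mono (iSup_le fun m => (h m).le) h2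

/-- `F` respects the join of `g` -/
def RS {K : Type} (F : UF B) (g : K → B) : Prop := F.U (⨆ k, g k) → ∃ k, F.U (g k)

/-- a sequence enumerating a countable family -/
noncomputable def seqOf {K : Type} [Countable K] (g : K → B) : ℕ → B :=
  if h : Nonempty K then fun n => g ((exists_surjective_nat K).choose n) else fun _ => ⊥

theorem iSup_seqOf {K : Type} [Countable K] (g : K → B) : ⨆ n, seqOf g n = ⨆ k, g k := by
  unfold seqOf
  split_ifs with h
  · exact (exists_surjective_nat K).choose_spec.iSup_comp g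
  · rw [not_nonempty_iff] at h
    rw [iSup_bot, iSup_of_empty g]

theorem rs_of_seq {K : Type} [Countable K] {F : UF B} {g : K → B}
    (h : F.U (⨆ m, seqOf g m) → ∃ m, F.U (seqOf g m)) : RS F g := by
  intro hU
  rw [← iSup_seqOf] at hU
  obtain ⟨m, hm⟩ := h hU
  unfold seqOf at hm
  split_ifs at hm with hK
  · exact ⟨_, hm⟩
  · exact (F.bot hm).elim

/-- `F` respects the meet of `g` -/
theorem RS.inf {K : Type} {F : UF B} {g : K → B} (h : RS F (fun k => (g k)ᶜ)) :
    F.U (⨅ k, g k) ↔ ∀ k, F.U (g k) := by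
  constructor
  · exact fun hU k => F.mono (iInf_le _ k) hU
  · intro hU
    by_contra hcon
    rw [← F.compl_iff, compl_iInf] at hcon
    obtain ⟨k, hk⟩ := h hcon
    exact F.compl_iff.1 hk (hU k)

theorem RS.sup {K : Type} {F : UF B} {g : K → B} (h : RS F g) :
    F.U (⨆ k, g k) ↔ ∃ k, F.U (g k) :=
  ⟨h, fun ⟨k, hk⟩ => F.mono (le_iSup g k) hk⟩

/-- closing off -/
theorem exists_closed {Y : Type} (cl : List Y → Set Y) (hcl : ∀ l, (cl l).Countable) (S0 : Set Y)
    (h0 : S0.Countable) : ∃ S : Set Y, S.Countable ∧ S0 ⊆ S ∧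
      ∀ l : List Y, (∀ y ∈ l, y ∈ S) → cl l ⊆ S := by
  let nx : Set Y → Set Y := fun S => S ∪ ⋃ l : List S, cl (l.map Subtype.val)
  have hnx : ∀ S : Set Y, S.Countable → (nx S).Countable := by
    intro S hS
    have : Countable S := hS.to_subtype
    exact hS.union (Set.countable_iUnion fun l => hcl _)
  let Ts : ℕ → Set Y := fun m => nx^[m] S0
  have hTs : ∀ m, Ts (m + 1) = nx (Ts m) := fun m => Function.iterate_succ_apply' nx m S0
  have hTc : ∀ m, (Ts m).Countable := by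
    intro m
    induction m with
    | zero => exact h0
    | succ m ih => rw [hTs]; exact hnx _ ih
  have hmono : Monotone Ts := monotone_nat_of_le_succ fun m => by
    rw [hTs]; exact Set.subset_union_left
  refine ⟨⋃ m, Ts m, Set.countable_iUnion hTc, Set.subset_iUnion Ts 0, ?_⟩
  intro l hl
  have hm : ∃ m, ∀ y ∈ l, y ∈ Ts m := by
    induction l with
    | nil => exact ⟨0, by simp⟩
    | cons a l ih =>
      obtain ⟨m, hm⟩ := ih fun y hy => hl y (List.mem_cons_of_mem _ hy)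
      obtain ⟨m', hm'⟩ := Set.mem_iUnion.1 (hl a List.mem_cons_self)
      refine ⟨max m m', fun y hy => ?_⟩
      rcases List.mem_cons.1 hy with rfl | hy
      · exact hmono (le_max_right _ _) hm'
      · exact hmono (le_max_left _ _) (hm y hy)
  obtain ⟨m, hm⟩ := hm
  refine subset_trans ?_ (Set.subset_iUnion Ts (m + 1))
  rw [hTs]
  refine subset_trans ?_ Set.subset_union_right
  have h1 := Set.subset_iUnion (fun l : List (Ts m) => cl (l.map Subtype.val))
    (l.attach.map fun y => ⟨y.1, hm y.1 y.2⟩)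
  have e : (l.attach.map fun y => (⟨y.1, hm y.1 y.2⟩ : Ts m)).map Subtype.val = l := by
    rw [List.map_map]
    exact List.attach_map_subtype_val l
  simp only [e] at h1
  exact h1

/-- Boolean-valued reals, given by their upper cuts of rationals -/
structure BR (B : Type) [CompleteBooleanAlgebra B] where
  /-- the value of `x < q` -/
  lt : ℚ → B
  mono : ∀ q q', q ≤ q' → lt q ≤ lt q'
  op : ∀ q, lt q ≤ ⨆ q' : {q' : ℚ // q' < q}, lt q'.1
  top : ⨆ q, lt q = ⊤
  bot : ⨅ q, lt q = ⊥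

/-- `F` respects the joins which matter for `x` -/
structure Resp (F : UF B) (x : BR B) : Prop where
  op : ∀ q, F.U (x.lt q) → ∃ q' < q, F.U (x.lt q')
  top : ∃ q, F.U (x.lt q)
  bot : ∃ q, ¬ F.U (x.lt q)

/-- the families which matter for `x` -/
noncomputable def BR.fams (x : BR B) : Set (ℕ → B) :=
  (Set.range fun q => seqOf fun q' : {q' : ℚ // q' < q} => x.lt q'.1) ∪
    {seqOf x.lt, seqOf fun q => (x.lt q)ᶜ}

theorem BR.fams_countable (x : BR B) : x.fams.Countable :=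
  (Set.countable_range _).union (Set.toFinite _).countable

theorem resp_of {F : UF B} {x : BR B} (h : ∀ g ∈ x.fams, F.U (⨆ m, g m) → ∃ m, F.U (g m)) :
    Resp F x := by
  refine ⟨fun q hq => ?_, ?_, ?_⟩
  · obtain ⟨q', hq'⟩ := rs_of_seq (F := F) (g := fun q' : {q' : ℚ // q' < q} => x.lt q'.1)
      (h _ (Or.inl ⟨q, rfl⟩)) (F.mono (x.op q) hq)
    exact ⟨q'.1, q'.2, hq'⟩
  · exact rs_of_seq (F := F) (g := x.lt) (h _ (Or.inr (Or.inl rfl))) (by rw [x.top]; exact F.top)
  · obtain ⟨q, hq⟩ := rs_of_seq (F := F) (g := fun q => (x.lt q)ᶜ)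
      (h _ (Or.inr (Or.inr rfl))) (by rw [← compl_iInf, x.bot, compl_bot]; exact F.top)
    exact ⟨q, F.compl_iff.1 hq⟩

/-- the real number given by a Boolean-valued real and an ultrafilter -/
noncomputable def ev (F : UF B) (x : BR B) : ℝ := sInf {r | ∃ q : ℚ, F.U (x.lt q) ∧ r = q}

theorem ev_lt {F : UF B} {x : BR B} (h : Resp F x) (q : ℚ) : ev F x < q ↔ F.U (x.lt q) := by
  obtain ⟨q0, hq0⟩ := h.bot
  obtain ⟨q1, hq1⟩ := h.top
  have hne : {r : ℝ | ∃ q : ℚ, F.U (x.lt q) ∧ r = q}.Nonempty := ⟨q1, q1, hq1, rfl⟩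
  have hbd : BddBelow {r : ℝ | ∃ q : ℚ, F.U (x.lt q) ∧ r = q} := by
    refine ⟨q0, ?_⟩
    rintro _ ⟨q, hq, rfl⟩
    by_contra hlt
    push Not at hlt
    have : q ≤ q0 := by exact_mod_cast hlt.le
    exact hq0 (F.mono (x.mono _ _ this) hq)
  constructor
  · intro hlt
    obtain ⟨_, ⟨q', hq', rfl⟩, h1⟩ := exists_lt_of_csInf_lt hne hlt
    have : q' ≤ q := by exact_mod_cast h1.le
    exact F.mono (x.mono _ _ this) hq'
  · intro hU
    obtain ⟨q', hq', h1⟩ := h.op q hU
    refine lt_of_le_of_lt (csInf_le hbd ⟨q', h1, rfl⟩) ?_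
    exact_mod_cast hq'

theorem ev_le_of {F : UF B} {x : BR B} (h : Resp F x) {r : ℝ}
    (h' : ∀ q : ℚ, r < q → F.U (x.lt q)) : ev F x ≤ r := by
  by_contra hcon
  push Not at hcon
  obtain ⟨q, h1, h2⟩ := exists_rat_btwn hcon
  exact absurd ((ev_lt h q).2 (h' q h1)) (not_lt.2 h2.le)

end

end Pool.Agent.MAx
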