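import Pool.Agent.Lib.DeltaSystem
import Pool.Agent.Forcing.RO

/-!
# Finite support iterations of c.c.c. posets on a fixed set

The conditions are the finitely supported functions `I →₀ A`.  At stage `j` a name `ν j` for a
binary relation on `A` is used if it names a preorder with largest element `0` such that the
two-step iteration satisfies the countable chain condition; otherwise the stage is trivial.
-/

namespace Pool.Agent.MAx

open Classical

section General

variable {C A : Type}

/-- `q` forces that the generic filter meets `S` (with respect to the relation `le`) -/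
def Fr (le : C → C → Prop) (S : Set C) (q : C) : Prop :=
  ∀ q', le q' q → ∃ r, le r q' ∧ ∃ s ∈ S, le r s

/-- the countable chain condition, for families -/
def CC (le : C → C → Prop) : Prop :=
  ∀ (X : Type) (S : Set X), ¬ S.Countable → ∀ x : X → C,
    ∃ a ∈ S, ∃ b ∈ S, a ≠ b ∧ ∃ r, le r (x a) ∧ le r (x b)

/-- `N` names a preorder with largest element `0`, and the two-step iteration is c.c.c. -/
structure Good [Zero A] (le : C → C → Prop) (N : A → A → Set C) : Prop where
  refl : ∀ q a, Fr le (N a a) q
  trans : ∀ q a b c, Fr le (N a b) q → Fr le (N b c) q → Fr le (N a c) q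
  top : ∀ q a, Fr le (N a 0) q
  cc : ∀ (X : Type) (S : Set X), ¬ S.Countable → ∀ x : X → C × A,
    ∃ a ∈ S, ∃ b ∈ S, a ≠ b ∧ ∃ r c, le r (x a).1 ∧ le r (x b).1 ∧
      Fr le (N c (x a).2) r ∧ Fr le (N c (x b).2) r

/-- one step of the iteration: `q` forces `a ≤ b` -/
def Stp [Zero A] (le : C → C → Prop) (N : A → A → Set C) (q : C) (a b : A) : Prop :=
  Good le N → Fr le (N a b) q

theorem Fr.mono {le : C → C → Prop} (htr : ∀ a b c, le a b → le b c → le a c) {S : Set C}
    {q q' : C} (h : Fr le S q) (hq : le q' q) : Fr le S q' :=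
  fun r hr => h r (htr _ _ _ hr hq)

end General

section

variable {I A : Type} [LinearOrder I] [WellFoundedLT I] [Zero A]

/-- the forced orders: `FF ν j q a b` says that the part of `q` below `j` forces `a ≤ b` in the
`j`-th iterand -/
noncomputable def FF (ν : I → A → A → Set (I →₀ A)) : I → (I →₀ A) → A → A → Prop :=
  WellFounded.fix (wellFounded_lt (α := I)) fun j rec =>
    Stp (fun q p => ∀ i (hi : i < j), rec i hi q (q i) (p i)) (ν j)

/-- the order of the iteration of the stages in `D` -/
def leD (ν : I → A → A → Set (I →₀ A)) (D : Set I) (q p : I →₀ A) : Prop :=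
  ∀ i ∈ D, FF ν i q (q i) (p i)

variable {ν : I → A → A → Set (I →₀ A)}

theorem FF_def (j : I) : FF ν j = Stp (leD ν (Set.Iio j)) (ν j) := by
  unfold FF
  rw [WellFounded.fix_eq]
  rfl

theorem FF_refl (j : I) (q : I →₀ A) (a : A) : FF ν j q a a := by
  rw [FF_def]
  exact fun h => h.refl q a

theorem FF_trans {j : I} {q : I →₀ A} {a b c : A} (h : FF ν j q a b) (h' : FF ν j q b c) :
    FF ν j q a c := by
  rw [FF_def] at h h' ⊢
  exact fun hg => hg.trans q a b c (h hg) (h' hg)

theorem FF_top (j : I) (q : I →₀ A) (a : A) : FF ν j q a 0 := by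
  rw [FF_def]
  exact fun hg => hg.top q a

theorem leD.sub {D D' : Set I} {q p : I →₀ A} (h : leD ν D q p) (hD : D' ⊆ D) : leD ν D' q p :=
  fun i hi => h i (hD hi)

theorem leD_refl (D : Set I) (q : I →₀ A) : leD ν D q q := fun i _ => FF_refl i q _

theorem leD_congr {D : Set I} {q p : I →₀ A} (h : ∀ i ∈ D, q i = p i) : leD ν D q p :=
  fun i hi => by rw [h i hi]; exact FF_refl i q _

theorem Iio_sub {D : Set I} (hD : IsLowerSet D) {i : I} (hi : i ∈ D) : Set.Iio i ⊆ D :=
  fun _ hk => hD (le_of_lt hk) hi

theorem leD_trans_aux {D : Set I} (hD : IsLowerSet D)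
    (ih : ∀ i ∈ D, ∀ q q' a b, leD ν (Set.Iio i) q' q → FF ν i q a b → FF ν i q' a b)
    {q p s : I →₀ A} (h : leD ν D q p) (h' : leD ν D p s) : leD ν D q s := by
  intro i hi
  exact FF_trans (h i hi) (ih i hi p q _ _ (h.sub (Iio_sub hD hi)) (h' i hi))

theorem isLowerSet_Iio' (j : I) : IsLowerSet (Set.Iio j) := isLowerSet_Iio j

theorem FF_mono (j : I) : ∀ q q' a b, leD ν (Set.Iio j) q' q → FF ν j q a b → FF ν j q' a b := by
  induction j using WellFoundedLT.induction with
  | _ j ih =>
    intro q q' a b hq h
    rw [FF_def] at h ⊢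
    intro hg
    refine (h hg).mono ?_ hq
    intro a b c hab hbc
    exact leD_trans_aux (isLowerSet_Iio j) (fun i hi => ih i hi) hab hbc

theorem leD_trans {D : Set I} (hD : IsLowerSet D) {q p s : I →₀ A} (h : leD ν D q p)
    (h' : leD ν D p s) : leD ν D q s :=
  leD_trans_aux hD (fun i _ => FF_mono i) h h'

/-- a finitely supported function from a function -/
noncomputable def mkf (S : Finset I) (f : I → A) : I →₀ A :=
  Finsupp.onFinset S (fun i => if i ∈ S then f i else 0) (fun i hi => by
    by_contra h
    exact hi (if_neg h))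

theorem mkf_apply (S : Finset I) (f : I → A) (i : I) : mkf S f i = if i ∈ S then f i else 0 := rfl

/-- `q` on `D`, `p` outside `D` -/
noncomputable def glue (D : Set I) (q p : I →₀ A) : I →₀ A :=
  mkf (q.support ∪ p.support) fun i => if i ∈ D then q i else p i

theorem glue_apply (D : Set I) (q p : I →₀ A) (i : I) :
    glue D q p i = if i ∈ D then q i else p i := by
  unfold glue
  rw [mkf_apply]
  by_cases h : i ∈ q.support ∪ p.support
  · rw [if_pos h]
  · rw [if_neg h]
    rw [Finset.mem_union, Finsupp.mem_support_iff, Finsupp.mem_support_iff] at h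
    push Not at h
    rw [h.1, h.2]
    simp

theorem glue_in {D : Set I} {q p : I →₀ A} {i : I} (h : i ∈ D) : glue D q p i = q i := by
  rw [glue_apply, if_pos h]

theorem glue_out {D : Set I} {q p : I →₀ A} {i : I} (h : i ∉ D) : glue D q p i = p i := by
  rw [glue_apply, if_neg h]

theorem glue_le_left {D : Set I} {q p : I →₀ A} : leD ν D (glue D q p) q :=
  leD_congr fun _ hi => glue_in hi

theorem le_glue_left {D : Set I} {q p : I →₀ A} : leD ν D q (glue D q p) :=
  leD_congr fun _ hi => (glue_in hi).symm

theorem glue_le_right {D : Set I} (hD : IsLowerSet D) {q p : I →₀ A} (h : leD ν D q p)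
    (D' : Set I) : leD ν D' (glue D q p) p := by
  intro i _
  by_cases hi : i ∈ D
  · rw [glue_in hi]
    exact FF_mono i q _ _ _ (glue_le_left.sub (Iio_sub hD hi)) (h i hi)
  · rw [glue_out hi]
    exact FF_refl i _ _

/-- the chain condition for the stages in a lower set -/
theorem cc_step {D : Set I} (hD : IsLowerSet D) (ih : ∀ j ∈ D, CC (leD ν (Set.Iio j))) :
    CC (leD ν D) := by
  intro X S hS x
  by_cases hmax : ∃ m ∈ D, ∀ j ∈ D, j ≤ m
  · obtain ⟨m, hm, hmax⟩ := hmax
    by_cases hg : Good (leD ν (Set.Iio m)) (ν m)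
    · obtain ⟨a, ha, b, hb, hab, r, c, h1, h2, h3, h4⟩ := hg.cc X S hS fun a => (x a, x a m)
      let r' : I →₀ A := glue (Set.Iio m) r (mkf {m} fun _ => c)
      have hr' : leD ν (Set.Iio m) r' r := glue_le_left
      have hrm : r' m = c := by
        show glue _ _ _ m = c
        rw [glue_out (by simp), mkf_apply, if_pos (Finset.mem_singleton_self m)]
      have key : ∀ y : I →₀ A, leD ν (Set.Iio m) r y →
          Fr (leD ν (Set.Iio m)) (ν m c (y m)) r → leD ν D r' y := by
        intro y hy hF i hi
        rcases (hmax i hi).lt_or_eq with him | rfl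
        · exact leD_trans (isLowerSet_Iio m) hr' hy i him
        · rw [FF_def]
          intro _
          rw [hrm]
          exact hF.mono (fun _ _ _ => leD_trans (isLowerSet_Iio _)) hr'
      exact ⟨a, ha, b, hb, hab, r', key _ h1 h3, key _ h2 h4⟩
    · obtain ⟨a, ha, b, hb, hab, r, h1, h2⟩ := ih m hm X S hS x
      have key : ∀ y : I →₀ A, leD ν (Set.Iio m) r y → leD ν D r y := by
        intro y hy i hi
        rcases (hmax i hi).lt_or_eq with him | rfl
        · exact hy i him
        · rw [FF_def]
          exact fun h => absurd h hg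
      exact ⟨a, ha, b, hb, hab, r, key _ h1, key _ h2⟩
  · push Not at hmax
    obtain ⟨R, T, hTS, hT, hR⟩ := Lib.DeltaSystem.deltaSystem
      (fun a => (x a).support.filter (· ∈ D)) S hS
    have hTne : ∃ a ∈ T, ∃ b ∈ T, a ≠ b := by
      by_contra hcon
      push Not at hcon
      exact hT (Set.Subsingleton.countable fun a ha b hb => hcon a ha b hb)
    obtain ⟨a0, ha0, b0, hb0, hab0⟩ := hTne
    have hRD : ∀ i ∈ R, i ∈ D := by
      intro i hi
      rw [← hR a0 ha0 b0 hb0 hab0] at hi
      exact (Finset.mem_filter.1 (Finset.mem_inter.1 hi).1).2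
    -- either `D` is empty or the root is bounded
    rcases Set.eq_empty_or_nonempty D with hDe | hDne
    · exact ⟨a0, hTS ha0, b0, hTS hb0, hab0, 0, fun i hi => by simp [hDe] at hi,
        fun i hi => by simp [hDe] at hi⟩
    obtain ⟨j, hj, hRj⟩ : ∃ j ∈ D, ∀ i ∈ R, i < j := by
      obtain ⟨j0, hj0⟩ := hDne
      have : ∀ (R' : Finset I), (∀ i ∈ R', i ∈ D) → ∃ j ∈ D, ∀ i ∈ R', i < j := by
        intro R'
        induction R' using Finset.induction_on with
        | empty => intro _; exact ⟨j0, hj0, by simp⟩
        | insert k R' _ ih' =>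
          intro hk
          obtain ⟨j, hj, h1⟩ := ih' fun i hi => hk i (Finset.mem_insert_of_mem hi)
          obtain ⟨j', hj', h2⟩ := hmax (max j k) (by
            rcases max_choice j k with h | h <;> rw [h]
            · exact hj
            · exact hk k (Finset.mem_insert_self _ _))
          refine ⟨j', hj', fun i hi => ?_⟩
          rcases Finset.mem_insert.1 hi with rfl | hi
          · exact (le_max_right _ _).trans_lt h2
          · exact (h1 i hi).trans ((le_max_left _ _).trans_lt h2)
      exact this R hRD
    obtain ⟨a, ha, b, hb, hab, r, h1, h2⟩ := ih j hj X T hT x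
    let s : I →₀ A := glue (Set.Iio j) r
      (mkf ((x a).support ∪ (x b).support) fun i => if x a i ≠ 0 then x a i else x b i)
    have hs : leD ν (Set.Iio j) s r := glue_le_left
    have hsj : ∀ i, ¬ i < j → s i = if x a i ≠ 0 then x a i else x b i := by
      intro i hi
      show glue _ _ _ i = _
      rw [glue_out (by simpa using hi), mkf_apply]
      by_cases hi' : i ∈ (x a).support ∪ (x b).support
      · rw [if_pos hi']
      · rw [if_neg hi']
        rw [Finset.mem_union, Finsupp.mem_support_iff, Finsupp.mem_support_iff] at hi'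
        push Not at hi'
        rw [hi'.1, hi'.2]; simp
    have hdis : ∀ i ∈ D, ¬ i < j → x a i ≠ 0 → x b i ≠ 0 → False := by
      intro i hi hij hia hib
      have : i ∈ R := by
        rw [← hR a ha b hb hab]
        exact Finset.mem_inter.2 ⟨Finset.mem_filter.2 ⟨Finsupp.mem_support_iff.2 hia, hi⟩,
          Finset.mem_filter.2 ⟨Finsupp.mem_support_iff.2 hib, hi⟩⟩
      exact hij (hRj i this)
    refine ⟨a, hTS ha, b, hTS hb, hab, s, ?_, ?_⟩
    · intro i hi
      by_cases hij : i < j
      · exact leD_trans (isLowerSet_Iio j) hs h1 i hij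
      · rw [hsj i hij]
        by_cases h0 : x a i ≠ 0
        · rw [if_pos h0]; exact FF_refl _ _ _
        · push Not at h0
          rw [h0]; exact FF_top _ _ _
    · intro i hi
      by_cases hij : i < j
      · exact leD_trans (isLowerSet_Iio j) hs h2 i hij
      · rw [hsj i hij]
        by_cases h0 : x a i ≠ 0
        · rw [if_pos h0]
          have h0' : x b i = 0 := by
            by_contra hne
            exact hdis i hi hij h0 hne
          rw [h0']; exact FF_top _ _ _
        · rw [if_neg h0]; exact FF_refl _ _ _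

theorem cc_Iio (j : I) : CC (leD ν (Set.Iio j)) := by
  induction j using WellFoundedLT.induction with
  | _ j ih => exact cc_step (isLowerSet_Iio j) fun i hi => ih i hi

theorem cc_univ : CC (leD ν Set.univ) := cc_step isLowerSet_univ fun i _ => cc_Iio i

end

end Pool.Agent.MAx
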