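import Pool.Agent.MAx.Alg

/-!
# Boolean-valued Martin's axiom in the iteration
-/

namespace Pool.Agent.MAx

open Classical Pool.Agent.Forcing Cardinal

section

variable {I A : Type} [LinearOrder I] [WellFoundedLT I] [Zero A]

/-- every name depending on fewer stages is used cofinally often -/
def Book (ν : I → A → A → Set (I →₀ A)) : Prop :=
  ∀ (N : A → A → Set (I →₀ A)) (i : I),
    (∀ a b, (N a b).Countable ∧ ∀ s ∈ N a b, ∀ k, s k ≠ 0 → k < i) → ∃ j, i ≤ j ∧ ν j = N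

/-- families of size at most `ℵ₁` are bounded -/
def Bdd (I : Type) [LinearOrder I] : Prop :=
  ∀ (Λ : Type), #Λ ≤ ℵ_ 1 → ∀ f : Λ → I, ∃ i, ∀ x, f x < i

theorem Bdd.cof (h : Bdd I) (s : Set I) (hs : s.Countable) : ∃ i, ∀ x ∈ s, x < i := by
  obtain ⟨i, hi⟩ := h s (hs.le_aleph0.trans (aleph0_le_aleph 1)) Subtype.val
  exact ⟨i, fun x hx => hi ⟨x, hx⟩⟩

variable {ν : I → A → A → Set (I →₀ A)}

/-- Boolean-valued Martin's axiom -/
theorem bma (hν : Book ν) (hbd : Bdd I) (hA : #A ≤ ℵ_ 1) (Q : A → A → RO (PP ν))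
    (hrefl : ∀ a, Q a a = ⊤) (htrans : ∀ a b c, Q a b ⊓ Q b c ≤ Q a c) (htop : ∀ a, Q a 0 = ⊤)
    (hcc : ∀ (X : Type) (S : Set X), ¬ S.Countable → ∀ x : X → PP ν × A,
      ∃ a ∈ S, ∃ b ∈ S, a ≠ b ∧ ∃ r c, r ≤ (x a).1 ∧ r ≤ (x b).1 ∧
        Forc r (Q c (x a).2) ∧ Forc r (Q c (x b).2))
    {Ξ : Type} (hΞ : #Ξ ≤ ℵ_ 1) (D : Ξ → A → RO (PP ν))
    (hD : ∀ ξ a, ⨆ b, Q b a ⊓ D ξ b = ⊤) :
    ∃ H : A → RO (PP ν), H 0 = ⊤ ∧ (∀ a b, H a ⊓ Q a b ≤ H b) ∧
      (∀ a b, H a ⊓ H b ≤ ⨆ c, H c ⊓ Q c a ⊓ Q c b) ∧ ∀ ξ, ⨆ a, H a ⊓ D ξ a = ⊤ := by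
  -- a common bound for the stages
  obtain ⟨i, hiQ, hiD⟩ : ∃ i, (∀ a b, Meas i (Q a b)) ∧ ∀ ξ a, Meas i (D ξ a) := by
    choose m1 hm1 using fun x : A × A => exists_meas hbd.cof (Q x.1 x.2)
    choose m2 hm2 using fun x : Ξ × A => exists_meas hbd.cof (D x.1 x.2)
    have h1 : #(A × A) ≤ ℵ_ 1 := by
      simp only [mk_prod, lift_id]
      exact (mul_le_mul' hA hA).trans (mul_eq_self (aleph0_le_aleph 1)).le
    have h2 : #(Ξ × A) ≤ ℵ_ 1 := by
      simp only [mk_prod, lift_id]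
      exact (mul_le_mul' hΞ hA).trans (mul_eq_self (aleph0_le_aleph 1)).le
    obtain ⟨i1, hi1⟩ := hbd _ h1 m1
    obtain ⟨i2, hi2⟩ := hbd _ h2 m2
    exact ⟨max i1 i2, fun a b => (hm1 (a, b)).mono ((hi1 (a, b)).le.trans (le_max_left _ _)),
      fun ξ a => (hm2 (ξ, a)).mono ((hi2 (ξ, a)).le.trans (le_max_right _ _))⟩
  choose N hN1 hN2 hN3 using fun a b => (hiQ a b).exists_name
  obtain ⟨j, hij, hj⟩ := hν N i fun a b => ⟨hN1 a b, hN2 a b⟩
  have hiQ' : ∀ a b, Meas j (Q a b) := fun a b => (hiQ a b).mono hij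
  have hiD' : ∀ ξ a, Meas j (D ξ a) := fun ξ a => (hiD ξ a).mono hij
  -- the name is correct at stage `j`
  have hN : ∀ a b (q : PP ν), Fr (leD ν (Set.Iio j)) (N a b) q ↔ Forc q (Q a b) := by
    intro a b q
    rw [← hN3 a b]
    constructor
    · intro h
      rw [hN3]
      rw [forc_iff_dense]
      intro q' hq'
      obtain ⟨r, hr, s, hs, hrs⟩ := h q' (toD hq')
      refine ⟨gl j r q', gl_le hr, ?_⟩
      have h1 : Forc (PP.of s : PP ν) (Q a b) := by
        rw [← hN3]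
        intro q2 hq2
        exact ⟨q2, leD_refl _ _, s, hs, hq2⟩
      exact hiQ' a b _ _ (tr gl_left hrs) h1
    · intro h q' hq'
      rw [hN3] at h
      have h1 : Forc (PP.of q' : PP ν) (Q a b) := hiQ' a b _ _ hq' h
      rw [← hN3] at h1
      obtain ⟨r, hr, s, hs, hrs⟩ := h1 q' (leD_refl _ _)
      -- replace `r` by a condition below `q'` up to stage `j`
      refine ⟨glue (Set.Iio i) r q', glue_le_right (isLowerSet_Iio i) hr _, s, hs, ?_⟩
      intro k hk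
      by_cases hki : k < i
      · exact leD_trans (isLowerSet_Iio i) glue_le_left hrs k hki
      · have h0 : s k = 0 := by
          by_contra hne
          exact hki (hN2 a b s hs k hne)
        rw [h0]
        exact FF_top _ _ _
  have hgood : Good (leD ν (Set.Iio j)) (ν j) := by
    rw [hj]
    refine ⟨fun q a => ?_, fun q a b c h h' => ?_, fun q a => ?_, fun X S hS x => ?_⟩
    · rw [hN, hrefl]; exact forc_top
    · rw [hN] at h h' ⊢
      exact forc_le_iff.1 (htrans a b c) q ⟨h, h'⟩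
    · rw [hN, htop]; exact forc_top
    · obtain ⟨a, ha, b, hb, hab, r, c, h1, h2, h3, h4⟩ := hcc X S hS x
      exact ⟨a, ha, b, hb, hab, r, c, toD h1, toD h2, (hN _ _ _).2 h3, (hN _ _ _).2 h4⟩
  have hFF : ∀ (q : PP ν) a b, FF ν j q a b ↔ Forc q (Q a b) := by
    intro q a b
    rw [FF_def, ← hN a b q, hj]
    constructor
    · intro h
      exact h (hj ▸ hgood)
    · exact fun h _ => h
  let S : A → Set (PP ν) := fun a => {q | FF ν j q.f (q.f j) a}
  have hSd : ∀ a (r s : PP ν), r ≤ s → s ∈ S a → r ∈ S a := by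
    intro a r s hrs hs
    exact FF_trans (hrs j trivial) (FF_mono j s.f r.f _ _ (toD hrs) hs)
  have hH : ∀ a (p : PP ν), Forc p (below (S a)) ↔ ∀ q, q ≤ p → ∃ r, r ≤ q ∧ r ∈ S a := by
    intro a p
    rw [forc_below]
    refine forall_congr' fun q => imp_congr_right fun _ => exists_congr fun r =>
      and_congr_right fun _ => ⟨?_, fun h => ⟨r, h, le_rfl⟩⟩
    rintro ⟨s, hs, hrs⟩
    exact hSd a r s hrs hs
  have hHS : ∀ a (p : PP ν), p ∈ S a → Forc p (below (S a)) := fun a p hp =>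
    (hH a p).2 fun q hq => ⟨q, le_rfl, hSd a q p hq hp⟩
  refine ⟨fun a => below (S a), ?_, ?_, ?_, ?_⟩
  · rw [eq_top_iff_forc]
    intro p
    exact hHS 0 p (FF_top _ _ _)
  · intro a b
    rw [forc_le_iff]
    intro p hp
    rw [forc_inf] at hp
    rw [hH]
    intro q hq
    obtain ⟨r, hr, hra⟩ := (hH a p).1 hp.1 q hq
    exact ⟨r, hr, FF_trans hra ((hFF r a b).2 (hp.2.mono (hr.trans hq)))⟩
  · intro a b
    rw [forc_le_iff]
    intro p hp
    rw [forc_inf] at hp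
    rw [forc_iSup]
    intro q hq
    obtain ⟨r, hr, hra⟩ := (hH a p).1 hp.1 q hq
    obtain ⟨r', hr', hrb⟩ := (hH b p).1 hp.2 r (hr.trans hq)
    refine ⟨r', hr'.trans hr, r'.f j, ?_⟩
    rw [forc_inf, forc_inf]
    exact ⟨⟨hHS _ _ (FF_refl _ _ _), (hFF _ _ _).1 (hSd a r' r hr' hra)⟩, (hFF _ _ _).1 hrb⟩
  · intro ξ
    rw [eq_top_iff_forc]
    intro p
    rw [forc_iSup]
    intro q _
    have h1 : Forc q (⨆ b, Q b (q.f j) ⊓ D ξ b) := by rw [hD]; exact forc_top
    rw [forc_iSup] at h1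
    obtain ⟨r, hr, a, ha⟩ := h1 q le_rfl
    rw [forc_inf] at ha
    -- change the value at `j`
    let t : PP ν := glue (Set.Iio j) r.f (glue (Set.Iic j) (mkf {j} fun _ => a) q.f)
    have ht1 : ∀ k, k < j → t.f k = r.f k := fun k hk => glue_in hk
    have ht2 : t.f j = a := by
      show glue _ _ _ j = a
      rw [glue_out (by simp), glue_in (by simp), mkf_apply, if_pos (Finset.mem_singleton_self j)]
    have ht3 : ∀ k, j < k → t.f k = q.f k := by
      intro k hk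
      show glue _ _ _ k = _
      rw [glue_out (by simpa using hk.le), glue_out (by simpa using hk)]
    have htr : leD ν (Set.Iio j) t.f r.f := leD_congr fun k hk => ht1 k hk
    refine ⟨t, ?_, a, ?_⟩
    · intro k _
      rcases lt_trichotomy k j with hk | rfl | hk
      · exact leD_trans (isLowerSet_Iio j) htr (toD hr) k hk
      · show FF ν k t (t.f k) (q.f k)
        rw [ht2, hFF]
        exact hiQ' _ _ r t htr ha.1
      · show FF ν k t (t.f k) (q.f k)
        rw [ht3 k hk]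
        exact FF_refl _ _ _
    · rw [forc_inf]
      refine ⟨hHS _ _ ?_, hiD' _ _ r t htr ha.2⟩
      show FF ν j t.f (t.f j) a
      rw [ht2]
      exact FF_refl _ _ _

end

section

variable {I X : Type} [LinearOrder I] [WellFoundedLT I]
  {ν : I → WithZero X → WithZero X → Set (I →₀ WithZero X)}

/-- the relation on `WithZero X` -/
noncomputable def QQ (V : X → RO (PP ν)) (O : X → X → RO (PP ν)) :
    WithZero X → WithZero X → RO (PP ν)
  | _, none => ⊤
  | none, some y => (V y)ᶜ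
  | some x, some y => (V y)ᶜ ⊔ (V x ⊓ O x y)

theorem forc_sup_left {P : Type} [Preorder P] {p : P} {a b : RO P} (h : Forc p a) :
    Forc p (a ⊔ b) := forc_le_iff.1 le_sup_left p h

theorem forc_sup_right {P : Type} [Preorder P] {p : P} {a b : RO P} (h : Forc p b) :
    Forc p (a ⊔ b) := forc_le_iff.1 le_sup_right p h

theorem not_forc_compl {P : Type} [Preorder P] {p : P} {a : RO P} (h : Forc p a)
    (h' : Forc p aᶜ) : False := forc_compl.1 h' p le_rfl h

theorem inf_sup_compl {B : Type*} [BooleanAlgebra B] (a b : B) : a ⊓ (aᶜ ⊔ b) = a ⊓ b := by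
  rw [inf_sup_left, inf_compl_self, bot_sup_eq]

/-- Boolean-valued Martin's axiom for Boolean-valued posets with a Boolean-valued domain -/
theorem bma' (hν : Book ν) (hbd : Bdd I) (hX : #X ≤ ℵ_ 1) (V : X → RO (PP ν))
    (O : X → X → RO (PP ν)) (hrefl : ∀ x, V x ≤ O x x)
    (htrans : ∀ x y z, V x ⊓ V y ⊓ V z ⊓ (O x y ⊓ O y z) ≤ O x z) (hne : ⨆ x, V x = ⊤)
    (hcc : ∀ (Λ : Type) (S : Set Λ), ¬ S.Countable → ∀ x : Λ → PP ν × X,
      (∀ a, Forc (x a).1 (V (x a).2)) →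
      ∃ a ∈ S, ∃ b ∈ S, a ≠ b ∧ ∃ r y, r ≤ (x a).1 ∧ r ≤ (x b).1 ∧
        Forc r (V y ⊓ (O y (x a).2 ⊓ O y (x b).2)))
    {Ξ : Type} (hΞ : #Ξ ≤ ℵ_ 1) (D : Ξ → X → RO (PP ν))
    (hD : ∀ ξ x, V x ≤ ⨆ y, V y ⊓ O y x ⊓ D ξ y) :
    ∃ H : X → RO (PP ν), (∀ x, H x ≤ V x) ∧ (∀ x y, H x ⊓ V y ⊓ O x y ≤ H y) ∧
      (∀ x y, H x ⊓ H y ≤ ⨆ z, H z ⊓ O z x ⊓ O z y) ∧ ∀ ξ, ⨆ x, H x ⊓ D ξ x = ⊤ := by
  have hVD : ∀ ξ, ⨆ y, V y ⊓ D ξ y = ⊤ := by
    intro ξ
    rw [eq_top_iff, ← hne]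
    refine iSup_le fun x => (hD ξ x).trans (iSup_mono fun y => ?_)
    exact inf_le_inf_right _ inf_le_left
  let D' : Ξ → WithZero X → RO (PP ν) := fun ξ a => match a with
      | none => ⊥
      | some x => V x ⊓ D ξ x
  suffices hsuf : ∃ H : WithZero X → RO (PP ν), H 0 = ⊤ ∧ (∀ a b, H a ⊓ QQ V O a b ≤ H b) ∧
      (∀ a b, H a ⊓ H b ≤ ⨆ c, H c ⊓ QQ V O c a ⊓ QQ V O c b) ∧ ∀ ξ, ⨆ a, H a ⊓ D' ξ a = ⊤ by
    obtain ⟨H, h0, h1, h2, h3⟩ := hsuf
    refine ⟨fun x => H (some x) ⊓ V x, fun x => inf_le_right, ?_, ?_, ?_⟩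
    · intro x y
      refine le_inf (le_trans ?_ (h1 (some x) (some y))) (inf_le_left.trans inf_le_right)
      refine le_inf (inf_le_left.trans (inf_le_left.trans inf_le_left)) ?_
      refine le_trans ?_ le_sup_right
      exact le_inf (inf_le_left.trans (inf_le_left.trans inf_le_right)) inf_le_right
    · intro x y
      have e := h2 (some x) (some y)
      rw [forc_le_iff]
      intro p hp
      simp only [forc_inf] at hp
      obtain ⟨⟨hx, hVx⟩, hy, hVy⟩ := hp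
      have h4 := forc_le_iff.1 e p ⟨hx, hy⟩
      rw [forc_iSup] at h4 ⊢
      intro q hq
      obtain ⟨r, hr, c, hc⟩ := h4 q hq
      simp only [forc_inf] at hc
      obtain ⟨⟨hc1, hc2⟩, hc3⟩ := hc
      have hVx' := hVx.mono (hr.trans hq)
      have hVy' := hVy.mono (hr.trans hq)
      rcases c with _ | z
      · exact absurd hc2 (fun h => not_forc_compl hVx' h)
      · have e1 : Forc r (V x ⊓ ((V x)ᶜ ⊔ (V z ⊓ O z x))) := ⟨hVx', hc2⟩
        have e2 : Forc r (V y ⊓ ((V y)ᶜ ⊔ (V z ⊓ O z y))) := ⟨hVy', hc3⟩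
        rw [inf_sup_compl] at e1 e2
        simp only [forc_inf] at e1 e2
        refine ⟨r, hr, z, ?_⟩
        simp only [forc_inf]
        exact ⟨⟨⟨hc1, e1.2.1⟩, e1.2.2⟩, e2.2.2⟩
    · intro ξ
      rw [eq_top_iff, ← h3 ξ]
      refine iSup_le fun a => ?_
      rcases a with _ | x
      · exact inf_le_right.trans bot_le
      · refine le_iSup_of_le x ?_
        exact (inf_assoc _ _ _).ge
  refine bma (A := WithZero X) hν hbd ?_ (QQ V O) ?_ ?_ ?_ ?_ hΞ D' ?_
  · rw [show WithZero X = Option X from rfl, mk_option]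
    exact (add_le_add hX (one_le_aleph0.trans (aleph0_le_aleph 1))).trans
        (add_eq_self (aleph0_le_aleph 1)).le
  · rintro (_ | x)
    · rfl
    · show (V x)ᶜ ⊔ (V x ⊓ O x x) = ⊤
      rw [inf_eq_left.2 (hrefl x), compl_sup_eq_top]
  · rintro a b (_ | z)
    · exact le_top
    rw [forc_le_iff]
    intro p hp
    rw [forc_inf] at hp
    obtain ⟨hp1, hp2⟩ := hp
    -- decide `V z`
    rw [forc_iff_dense]
    intro q hq
    obtain ⟨r, hr, hz | hz⟩ := forc_decide q (V z)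
    · refine ⟨r, hr, ?_⟩
      have hp1 := hp1.mono (hr.trans hq)
      have hp2 := hp2.mono (hr.trans hq)
      rcases b with _ | y
      · exact absurd hp2 (fun h => not_forc_compl hz h)
      have e1 : Forc r (V z ⊓ ((V z)ᶜ ⊔ (V y ⊓ O y z))) := ⟨hz, hp2⟩
      rw [inf_sup_compl] at e1
      simp only [forc_inf] at e1
      obtain ⟨-, hy, hyz⟩ := e1
      rcases a with _ | x
      · exact absurd hp1 (fun h => not_forc_compl hy h)
      have e2 : Forc r (V y ⊓ ((V y)ᶜ ⊔ (V x ⊓ O x y))) := ⟨hy, hp1⟩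
      rw [inf_sup_compl] at e2
      simp only [forc_inf] at e2
      obtain ⟨-, hx, hxy⟩ := e2
      refine forc_sup_right ⟨hx, forc_le_iff.1 (htrans x y z) r ?_⟩
      simp only [forc_inf]
      exact ⟨⟨⟨hx, hy⟩, hz⟩, hxy, hyz⟩
    · refine ⟨r, hr, ?_⟩
      rcases a with _ | x
      · exact hz
      · exact forc_sup_left hz
  · rintro (_ | x) <;> rfl
  · intro Λ S hS x
    -- strengthen the conditions to decide validity
    have hdec : ∀ a, ∃ q, q ≤ (x a).1 ∧
        ((∃ z, (x a).2 = some z ∧ Forc q (V z)) ∨ Forc q (QQ V O none (x a).2)) := by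
      intro a
      rcases hxa : (x a).2 with _ | z
      · exact ⟨_, le_rfl, Or.inr forc_top⟩
      · obtain ⟨q, hq, h | h⟩ := forc_decide (x a).1 (V z)
        · exact ⟨q, hq, Or.inl ⟨z, rfl, h⟩⟩
        · exact ⟨q, hq, Or.inr h⟩
    choose q hq hq2 using hdec
    by_cases hS1 : {a ∈ S | ∃ z, (x a).2 = some z ∧ Forc (q a) (V z)}.Countable
    · have hS2 : ¬ {a ∈ S | Forc (q a) (QQ V O none (x a).2)}.Countable := by
        intro h
        refine hS ((hS1.union h).mono fun a ha => ?_)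
        rcases hq2 a with h' | h'
        · exact Or.inl ⟨ha, h'⟩
        · exact Or.inr ⟨ha, h'⟩
      obtain ⟨a, ha, b, hb, hab, r, h1, h2⟩ := PP.cc _ _ hS2 q
      exact ⟨a, ha.1, b, hb.1, hab, r, none, h1.trans (hq a), h2.trans (hq b),
        ha.2.mono h1, hb.2.mono h2⟩
    · -- pass to the subtype
      let S1 := {a ∈ S | ∃ z, (x a).2 = some z ∧ Forc (q a) (V z)}
      have hz : ∀ a : S1, ∃ z, (x a.1).2 = some z ∧ Forc (q a.1) (V z) := fun a => a.2.2
      choose z hz1 hz2 using hz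
      obtain ⟨a, -, b, -, hab, r, y, h1, h2, h3⟩ := hcc S1 Set.univ (by
        intro h
        exact hS1 (Set.countable_coe_iff.1 (Set.countable_univ_iff.1 h))) (fun a => (q a.1, z a))
        hz2
      simp only [forc_inf] at h3
      refine ⟨a.1, a.2.1, b.1, b.2.1, fun h => hab (Subtype.ext h), r, some y,
        h1.trans (hq _), h2.trans (hq _), ?_, ?_⟩
      · rw [hz1]
        exact forc_sup_right ⟨h3.1, h3.2.1⟩
      · rw [hz1]
        exact forc_sup_right ⟨h3.1, h3.2.2⟩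
  · intro ξ a
    rcases a with _ | x
    · rw [eq_top_iff, ← hVD ξ]
      refine iSup_le fun y => le_iSup_of_le (some y) ?_
      exact le_inf le_top le_rfl
    · rw [eq_top_iff_forc]
      intro p
      rw [forc_iSup]
      intro q _
      obtain ⟨r, hr, hx | hx⟩ := forc_decide q (V x)
      · have h1 := forc_le_iff.1 (hD ξ x) r hx
        rw [forc_iSup] at h1
        obtain ⟨r', hr', y, hy⟩ := h1 r le_rfl
        simp only [forc_inf] at hy
        refine ⟨r', hr'.trans hr, some y, ?_⟩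
        simp only [forc_inf]
        exact ⟨forc_sup_right ⟨hy.1.1, hy.1.2⟩, hy.1.1, hy.2⟩
      · have h1 : Forc r (⨆ y, V y ⊓ D ξ y) := by rw [hVD]; exact forc_top
        rw [forc_iSup] at h1
        obtain ⟨r', hr', y, hy⟩ := h1 r le_rfl
        simp only [forc_inf] at hy
        refine ⟨r', hr'.trans hr, some y, ?_⟩
        simp only [forc_inf]
        exact ⟨forc_sup_left (hx.mono hr'), hy.1, hy.2⟩

end

end Pool.Agent.MAx
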