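import Pool.Agent.MAx.Bool
import Pool.Agent.MAx.Fld

/-!
# Boolean values of statements of analysis
-/

namespace Pool.Agent.MAx

open Classical Pool.Agent Pool.Agent.LadderTree
open Pool.Agent.BVM (BSet UF OPair FunOn)

mk_iff_of_inductive_prop Pool.Agent.MAx.IsReals Pool.Agent.MAx.isReals_iff'
mk_iff_of_inductive_prop Pool.Agent.MAx.IsNormed Pool.Agent.MAx.isNormed_iff'
mk_iff_of_inductive_prop Pool.Agent.MAx.IsSubspace Pool.Agent.MAx.isSubspace_iff'
mk_iff_of_inductive_prop Pool.Agent.MAx.IsUlt Pool.Agent.MAx.isUlt_iff'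
mk_iff_of_inductive_prop Pool.Agent.MAx.IsOp Pool.Agent.MAx.isOp_iff'

section

variable {B : Type} [CompleteBooleanAlgebra B] {b : B}

/-- the field symbols in the quotient model -/
def nmK (F : Pt b) (K : OF (BSet B)) : OF (Md F) :=
  ⟨nm F K.R, nm F K.add, nm F K.mul, nm F K.lt, nm F K.zero, nm F K.one⟩

/-- the vector space symbols in the quotient model -/
def nmV (F : Pt b) (V : NS (BSet B)) : NS (Md F) :=
  ⟨nm F V.X, nm F V.add, nm F V.smul, nm F V.norm, nm F V.zero⟩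

theorem RpP.rel2 (f x y z : BSet B) :
    RpP fun F : Pt b => Rel2 (In F) (nm F f) (nm F x) (nm F y) (nm F z) := by
  unfold Rel2
  exact RpP.ex fun _ => (RpP.opair _ _ _).and (RpP.rel _ _ _)

theorem RpP.funOn (f d : BSet B) : RpP fun F : Pt b => FunOn (In F) (nm F f) (nm F d) := by
  unfold FunOn
  repeat' (first
    | exact RpP.rel _ _ _ | exact RpP.mem _ _ | exact RpP.eq _ _ | exact RpP.opair _ _ _
    | refine RpP.and ?_ ?_ | refine RpP.ex fun _ => ?_ | refine RpP.all fun _ => ?_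
    | refine RpP.imp ?_ ?_)

theorem RpP.fn (f x y : BSet B) : RpP fun F : Pt b => Fn (In F) (nm F f) (nm F x) (nm F y) := by
  unfold Fn
  repeat' (first
    | exact RpP.rel _ _ _ | exact RpP.mem _ _ | exact RpP.funOn _ _
    | refine RpP.and ?_ ?_ | refine RpP.ex fun _ => ?_ | refine RpP.all fun _ => ?_
    | refine RpP.imp ?_ ?_)

theorem RpP.fn2 (f x y z : BSet B) :
    RpP fun F : Pt b => Fn2 (In F) (nm F f) (nm F x) (nm F y) (nm F z) := by
  unfold Fn2 IsProd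
  repeat' (first
    | exact RpP.rel _ _ _ | exact RpP.mem _ _ | exact RpP.fn _ _ _ | exact RpP.opair _ _ _
    | refine RpP.and ?_ ?_ | refine RpP.ex fun _ => ?_ | refine RpP.all fun _ => ?_
    | refine RpP.iff ?_ ?_ | refine RpP.imp ?_ ?_)

theorem RpP.isReals (K : OF (BSet B)) : RpP fun F : Pt b => IsReals (In F) (nmK F K) := by
  simp only [isReals_iff']
  repeat' (first
    | exact RpP.rel _ _ _ | exact RpP.rel2 _ _ _ _ | exact RpP.mem _ _ | exact RpP.fn2 _ _ _ _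
    | exact RpP.eq _ _ | refine RpP.and ?_ ?_ | refine RpP.or ?_ ?_
    | refine RpP.ex fun _ => ?_ | refine RpP.all fun _ => ?_
    | refine RpP.iff ?_ ?_ | refine RpP.not ?_ | refine RpP.imp ?_ ?_)

theorem RpP.isAbs (K : OF (BSet B)) (c d : BSet B) :
    RpP fun F : Pt b => IsAbs (In F) (nmK F K) (nm F c) (nm F d) := by
  unfold IsAbs
  repeat' (first
    | exact RpP.rel _ _ _ | exact RpP.rel2 _ _ _ _ | exact RpP.mem _ _
    | exact RpP.eq _ _ | refine RpP.and ?_ ?_ | refine RpP.or ?_ ?_ | refine RpP.not ?_)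

theorem RpP.close (K : OF (BSet B)) (c d e : BSet B) :
    RpP fun F : Pt b => Close (In F) (nmK F K) (nm F c) (nm F d) (nm F e) := by
  unfold Close
  repeat' (first
    | exact RpP.rel _ _ _ | exact RpP.rel2 _ _ _ _ | exact RpP.mem _ _
    | exact RpP.eq _ _ | refine RpP.and ?_ ?_ | refine RpP.ex fun _ => ?_)

theorem RpP.isNormed (K : OF (BSet B)) (V : NS (BSet B)) :
    RpP fun F : Pt b => IsNormed (In F) (nmK F K) (nmV F V) := by
  simp only [isNormed_iff']
  repeat' (first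
    | exact RpP.rel _ _ _ | exact RpP.rel2 _ _ _ _ | exact RpP.mem _ _ | exact RpP.fn2 _ _ _ _
    | exact RpP.fn _ _ _ | exact RpP.isAbs _ _ _
    | exact RpP.eq _ _ | refine RpP.and ?_ ?_ | refine RpP.or ?_ ?_
    | refine RpP.ex fun _ => ?_ | refine RpP.all fun _ => ?_
    | refine RpP.iff ?_ ?_ | refine RpP.not ?_ | refine RpP.imp ?_ ?_)

theorem RpP.near (K : OF (BSet B)) (V : NS (BSet B)) (x y e : BSet B) :
    RpP fun F : Pt b => Near (In F) (nmK F K) (nmV F V) (nm F x) (nm F y) (nm F e) := by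
  unfold Near
  repeat' (first
    | exact RpP.rel _ _ _ | exact RpP.rel2 _ _ _ _ | exact RpP.mem _ _
    | exact RpP.eq _ _ | refine RpP.and ?_ ?_ | refine RpP.ex fun _ => ?_)

theorem RpP.isSubspace (K : OF (BSet B)) (V : NS (BSet B)) (Y : BSet B) :
    RpP fun F : Pt b => IsSubspace (In F) (nmK F K) (nmV F V) (nm F Y) := by
  simp only [isSubspace_iff']
  repeat' (first
    | exact RpP.rel _ _ _ | exact RpP.rel2 _ _ _ _ | exact RpP.mem _ _ | exact RpP.near _ _ _ _ _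
    | exact RpP.eq _ _ | refine RpP.and ?_ ?_ | refine RpP.or ?_ ?_
    | refine RpP.ex fun _ => ?_ | refine RpP.all fun _ => ?_
    | refine RpP.iff ?_ ?_ | refine RpP.not ?_ | refine RpP.imp ?_ ?_)

theorem RpP.isUlt (w u : BSet B) : RpP fun F : Pt b => IsUlt (In F) (nm F w) (nm F u) := by
  simp only [isUlt_iff']
  repeat' (first
    | exact RpP.rel _ _ _ | exact RpP.mem _ _
    | exact RpP.eq _ _ | refine RpP.and ?_ ?_ | refine RpP.or ?_ ?_
    | refine RpP.ex fun _ => ?_ | refine RpP.all fun _ => ?_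
    | refine RpP.iff ?_ ?_ | refine RpP.not ?_ | refine RpP.imp ?_ ?_)

theorem RpP.isStar (w Z : BSet B) : RpP fun F : Pt b => IsStar (In F) (nm F w) (nm F Z) := by
  unfold IsStar
  exact RpP.all fun u => (RpP.mem _ _).iff (RpP.isUlt _ _)

theorem RpP.isCont (K : OF (BSet B)) (Z g : BSet B) :
    RpP fun F : Pt b => IsCont (In F) (nmK F K) (nm F Z) (nm F g) := by
  unfold IsCont
  repeat' (first
    | exact RpP.rel _ _ _ | exact RpP.mem _ _ | exact RpP.fn _ _ _ | exact RpP.close _ _ _ _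
    | exact RpP.eq _ _ | refine RpP.and ?_ ?_ | refine RpP.or ?_ ?_
    | refine RpP.ex fun _ => ?_ | refine RpP.all fun _ => ?_
    | refine RpP.iff ?_ ?_ | refine RpP.not ?_ | refine RpP.imp ?_ ?_)

theorem RpP.isOp (K : OF (BSet B)) (V : NS (BSet B)) (Z Y t : BSet B) :
    RpP fun F : Pt b => IsOp (In F) (nmK F K) (nmV F V) (nm F Z) (nm F Y) (nm F t) := by
  simp only [isOp_iff']
  repeat' (first
    | exact RpP.rel _ _ _ | exact RpP.rel2 _ _ _ _ | exact RpP.mem _ _ | exact RpP.funOn _ _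
    | exact RpP.isCont _ _ _
    | exact RpP.eq _ _ | refine RpP.and ?_ ?_ | refine RpP.or ?_ ?_
    | refine RpP.ex fun _ => ?_ | refine RpP.all fun _ => ?_
    | refine RpP.iff ?_ ?_ | refine RpP.not ?_ | refine RpP.imp ?_ ?_)

theorem RpP.bound (K : OF (BSet B)) (V : NS (BSet B)) (t c : BSet B) :
    RpP fun F : Pt b => Bound (In F) (nmK F K) (nmV F V) (nm F t) (nm F c) := by
  unfold Bound
  repeat' (first
    | exact RpP.rel _ _ _ | exact RpP.rel2 _ _ _ _ | exact RpP.mem _ _ | exact RpP.isAbs _ _ _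
    | exact RpP.eq _ _ | refine RpP.and ?_ ?_ | refine RpP.or ?_ ?_
    | refine RpP.ex fun _ => ?_ | refine RpP.all fun _ => ?_
    | refine RpP.iff ?_ ?_ | refine RpP.not ?_ | refine RpP.imp ?_ ?_)

end

section

variable {B : Type} [CompleteBooleanAlgebra B] {b : B}

/-- families of elements with a name -/
def NmE {S : BSet B} (x : ∀ F : Pt b, El (In F) (nm F S)) : Prop := ∃ y, ∀ F, nm F y = (x F).1

theorem NmE.of_mem {S : BSet B} {x0 : ∀ F : Pt b, El (In F) (nm F S)} (h0 : NmE x0)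
    (y : BSet B) : ∃ x : ∀ F : Pt b, El (In F) (nm F S), NmE x ∧
      ∀ F, In F (nm F y) (nm F S) → (x F).1 = nm F y := by
  obtain ⟨y0, hy0⟩ := h0
  refine ⟨fun F => if h : In F (nm F y) (nm F S) then ⟨nm F y, h⟩ else x0 F, ?_, fun F hF => ?_⟩
  · obtain ⟨z, hz⟩ := exists_name (b := b) (P := fun F z => (In F (nm F y) (nm F S) ∧ z = nm F y) ∨
      (¬ In F (nm F y) (nm F S) ∧ z = nm F y0)) (fun z => ((RpP.mem _ _).and (RpP.eq _ _)).or
      ((RpP.mem _ _).not.and (RpP.eq _ _))) (fun F => by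
        by_cases h : In F (nm F y) (nm F S)
        · exact ⟨_, Or.inl ⟨h, rfl⟩⟩
        · exact ⟨_, Or.inr ⟨h, rfl⟩⟩)
    refine ⟨z, fun F => ?_⟩
    rcases hz F with ⟨h1, h2⟩ | ⟨h1, h2⟩
    · simp only [h2, dif_pos h1]
    · simp only [h2, dif_neg h1, hy0]
  · simp only [dif_pos hF]

theorem NmE.exists_eq {S : BSet B} {x0 : ∀ F : Pt b, El (In F) (nm F S)} (h0 : NmE x0)
    (F : Pt b) (x : El (In F) (nm F S)) :
    ∃ x' : ∀ F : Pt b, El (In F) (nm F S), NmE x' ∧ x' F = x := by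
  obtain ⟨y, hy⟩ := exists_nm x.1
  obtain ⟨x', h1, h2⟩ := h0.of_mem y
  exact ⟨x', h1, Subtype.ext ((h2 F (by rw [hy]; exact x.2)).trans hy)⟩

theorem RpP.allE {S : BSet B} {x0 : ∀ F : Pt b, El (In F) (nm F S)} (h0 : NmE x0)
    {Q : ∀ F : Pt b, El (In F) (nm F S) → Prop}
    (h : ∀ x, NmE x → RpP fun F => Q F (x F)) : RpP fun F => ∀ x, Q F x := by
  have h1 : RpP fun F : Pt b => ∀ y : Md F, ∀ hy : In F y (nm F S), Q F ⟨y, hy⟩ := by
    refine RpP.all fun y => ?_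
    obtain ⟨x, hx, hx'⟩ := h0.of_mem y
    refine ((RpP.mem y S).imp (h x hx)).congr fun F => ?_
    constructor
    · intro h' hy
      have := h' hy
      rwa [show x F = ⟨nm F y, hy⟩ from Subtype.ext (hx' F hy)] at this
    · intro h' hy
      have := h' hy
      rwa [show x F = ⟨nm F y, hy⟩ from Subtype.ext (hx' F hy)]
  exact h1.congr fun F => ⟨fun h x => h x.1 x.2, fun h y hy => h ⟨y, hy⟩⟩

theorem RpP.exE {S : BSet B} {x0 : ∀ F : Pt b, El (In F) (nm F S)} (h0 : NmE x0)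
    {Q : ∀ F : Pt b, El (In F) (nm F S) → Prop}
    (h : ∀ x, NmE x → RpP fun F => Q F (x F)) : RpP fun F => ∃ x, Q F x :=
  (RpP.allE h0 (Q := fun F x => ¬ Q F x) fun x hx => (h x hx).not).not.congr
    fun F => Classical.not_forall_not

theorem exists_nmE {S : BSet B} {x0 : ∀ F : Pt b, El (In F) (nm F S)} (h0 : NmE x0)
    {Q : ∀ F : Pt b, El (In F) (nm F S) → Prop}
    (h : ∀ x, NmE x → RpP fun F => Q F (x F)) (hex : ∀ F, ∃ x, Q F x) :
    ∃ x, NmE x ∧ ∀ F, Q F (x F) := by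
  obtain ⟨y, hy⟩ := exists_name (b := b) (P := fun F y => ∃ hy : In F y (nm F S), Q F ⟨y, hy⟩)
    (fun y => by
      obtain ⟨x, hx, hx'⟩ := h0.of_mem y
      refine ((RpP.mem y S).and (h x hx)).congr fun F => ?_
      constructor
      · rintro ⟨h1, h2⟩
        refine ⟨h1, ?_⟩
        rwa [show x F = ⟨nm F y, h1⟩ from Subtype.ext (hx' F h1)] at h2
      · rintro ⟨h1, h2⟩
        refine ⟨h1, ?_⟩
        rwa [show x F = ⟨nm F y, h1⟩ from Subtype.ext (hx' F h1)]) (fun F => by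
      obtain ⟨x, hx⟩ := hex F
      exact ⟨x.1, x.2, hx⟩)
  obtain ⟨x, hx, hx'⟩ := h0.of_mem y
  refine ⟨x, hx, fun F => ?_⟩
  obtain ⟨h1, h2⟩ := hy F
  rwa [show x F = ⟨nm F y, h1⟩ from Subtype.ext (hx' F h1)]

theorem NmE.ite {S : BSet B} {x y : ∀ F : Pt b, El (In F) (nm F S)} (hx : NmE x) (hy : NmE y)
    {P : Pt b → Prop} (hP : RpP P) : NmE fun F => if P F then x F else y F := by
  obtain ⟨x', hx'⟩ := hx
  obtain ⟨y', hy'⟩ := hy
  obtain ⟨z, hz⟩ := exists_name (b := b) (P := fun F z => (P F ∧ z = nm F x') ∨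
      (¬ P F ∧ z = nm F y')) (fun z => (hP.and (RpP.eq _ _)).or
      (hP.not.and (RpP.eq _ _))) (fun F => by
        by_cases h : P F
        · exact ⟨_, Or.inl ⟨h, rfl⟩⟩
        · exact ⟨_, Or.inr ⟨h, rfl⟩⟩)
  refine ⟨z, fun F => ?_⟩
  rcases hz F with ⟨h1, h2⟩ | ⟨h1, h2⟩
  · simp only [h2, if_pos h1, hx']
  · simp only [h2, if_neg h1, hy']

end

end Pool.Agent.MAx
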