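import Pool.Agent.MAx.Rep
import Pool.Agent.MAx.Gen

/-!
# Families of real numbers and vectors with names
-/

namespace Pool.Agent.MAx

open Classical Pool.Agent Pool.Agent.LadderTree
open Pool.Agent.BVM (BSet UF OPair FunOn chk le_of_uf)

section

variable {B : Type} [CompleteBooleanAlgebra B] {b : B} {K : OF (BSet B)}

/-- the real numbers of the quotient model -/
abbrev KF (hK : ∀ F : Pt b, IsReals (In F) (nmK F K)) (F : Pt b) : Type 1 :=
  RK (BVM.zfc F.1) (hK F)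

variable {hK : ∀ F : Pt b, IsReals (In F) (nmK F K)}

/-- families of real numbers with a name -/
def NmR (x : ∀ F : Pt b, KF hK F) : Prop := ∃ y, ∀ F, nm F y = (x F).v

theorem NmR.zero : NmR fun F => (0 : KF hK F) := ⟨K.zero, fun _ => rfl⟩

theorem NmR.one : NmR fun F => (1 : KF hK F) := ⟨K.one, fun _ => rfl⟩

theorem RpP.allR {Q : ∀ F : Pt b, KF hK F → Prop}
    (h : ∀ x, NmR x → RpP fun F => Q F (x F)) : RpP fun F => ∀ x, Q F x :=
  RpP.allE (S := K.R) (x0 := fun F => (0 : KF hK F)) NmR.zero h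

theorem RpP.exR {Q : ∀ F : Pt b, KF hK F → Prop}
    (h : ∀ x, NmR x → RpP fun F => Q F (x F)) : RpP fun F => ∃ x, Q F x :=
  RpP.exE (S := K.R) (x0 := fun F => (0 : KF hK F)) NmR.zero h

theorem exists_nmR {Q : ∀ F : Pt b, KF hK F → Prop}
    (h : ∀ x, NmR x → RpP fun F => Q F (x F)) (hex : ∀ F, ∃ x, Q F x) :
    ∃ x : ∀ F : Pt b, KF hK F, NmR x ∧ ∀ F, Q F (x F) :=
  exists_nmE (S := K.R) (x0 := fun F => (0 : KF hK F)) NmR.zero h hex

theorem nmR_eq (F : Pt b) (x : KF hK F) : ∃ x' : ∀ F : Pt b, KF hK F, NmR x' ∧ x' F = x :=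
  NmE.exists_eq (S := K.R) (x0 := fun F => (0 : KF hK F)) NmR.zero F x

theorem NmR.ite {x y : ∀ F : Pt b, KF hK F} (hx : NmR x) (hy : NmR y)
    {P : Pt b → Prop} (hP : RpP P) : NmR fun F => if P F then x F else y F :=
  NmE.ite (S := K.R) hx hy hP

theorem RpP.ltR {x y : ∀ F : Pt b, KF hK F} (hx : NmR x) (hy : NmR y) :
    RpP fun F => x F < y F := by
  obtain ⟨x', hx'⟩ := hx
  obtain ⟨y', hy'⟩ := hy
  refine (RpP.rel K.lt x' y').congr fun F => ?_
  rw [hx', hy']
  rfl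

theorem RpP.leR {x y : ∀ F : Pt b, KF hK F} (hx : NmR x) (hy : NmR y) :
    RpP fun F => x F ≤ y F := (RpP.ltR hy hx).not.congr fun _ => not_lt

theorem RpP.eqR {x y : ∀ F : Pt b, KF hK F} (hx : NmR x) (hy : NmR y) :
    RpP fun F => x F = y F :=
  ((RpP.leR hx hy).and (RpP.leR hy hx)).congr fun _ => le_antisymm_iff.symm

theorem NmR.add {x y : ∀ F : Pt b, KF hK F} (hx : NmR x) (hy : NmR y) :
    NmR fun F => x F + y F := by
  obtain ⟨x', hx'⟩ := hx
  obtain ⟨y', hy'⟩ := hy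
  obtain ⟨z, hz⟩ := exists_name (b := b)
    (P := fun F z => Rel2 (In F) (nm F K.add) (nm F x') (nm F y') z)
    (fun z => RpP.rel2 _ _ _ _) (fun F => by
      rw [hx', hy']
      exact ⟨_, (RK.add_iff (hE := BVM.zfc F.1) (hK := hK F)).2 rfl⟩)
  refine ⟨z, fun F => ?_⟩
  have := hz F
  rw [hx', hy'] at this
  exact (RK.add_iff (hE := BVM.zfc F.1) (hK := hK F)).1 this

theorem NmR.mul {x y : ∀ F : Pt b, KF hK F} (hx : NmR x) (hy : NmR y) :
    NmR fun F => x F * y F := by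
  obtain ⟨x', hx'⟩ := hx
  obtain ⟨y', hy'⟩ := hy
  obtain ⟨z, hz⟩ := exists_name (b := b)
    (P := fun F z => Rel2 (In F) (nm F K.mul) (nm F x') (nm F y') z)
    (fun z => RpP.rel2 _ _ _ _) (fun F => by
      rw [hx', hy']
      exact ⟨_, (RK.mul_iff (hE := BVM.zfc F.1) (hK := hK F)).2 rfl⟩)
  refine ⟨z, fun F => ?_⟩
  have := hz F
  rw [hx', hy'] at this
  exact (RK.mul_iff (hE := BVM.zfc F.1) (hK := hK F)).1 this

theorem NmR.congr {x y : ∀ F : Pt b, KF hK F} (hx : NmR x) (h : ∀ F, x F = y F) : NmR y := by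
  obtain ⟨x', hx'⟩ := hx
  exact ⟨x', fun F => (hx' F).trans (by rw [h])⟩

theorem NmR.neg {x : ∀ F : Pt b, KF hK F} (hx : NmR x) : NmR fun F => -x F := by
  obtain ⟨y, hy, h⟩ := exists_nmR (hK := hK) (Q := fun F y => x F + y = 0)
    (fun y hy => RpP.eqR (hx.add hy) NmR.zero) (fun F => ⟨-x F, add_neg_cancel _⟩)
  exact hy.congr fun F => eq_neg_of_add_eq_zero_right (h F)

theorem NmR.inv {x : ∀ F : Pt b, KF hK F} (hx : NmR x) : NmR fun F => (x F)⁻¹ := by
  obtain ⟨y, hy, h⟩ := exists_nmR (hK := hK) (Q := fun F y => (x F = 0 ∧ y = 0) ∨ x F * y = 1)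
    (fun y hy => ((RpP.eqR hx NmR.zero).and (RpP.eqR hy NmR.zero)).or
      (RpP.eqR (hx.mul hy) NmR.one)) (fun F => by
      by_cases h : x F = 0
      · exact ⟨0, Or.inl ⟨h, rfl⟩⟩
      · exact ⟨(x F)⁻¹, Or.inr (mul_inv_cancel₀ h)⟩)
  refine hy.congr fun F => ?_
  rcases h F with ⟨h1, h2⟩ | h1
  · rw [h1, h2, inv_zero]
  · exact eq_inv_of_mul_eq_one_right h1

theorem NmR.sub {x y : ∀ F : Pt b, KF hK F} (hx : NmR x) (hy : NmR y) :
    NmR fun F => x F - y F := (hx.add hy.neg).congr fun _ => (sub_eq_add_neg _ _).symm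

theorem NmR.div {x y : ∀ F : Pt b, KF hK F} (hx : NmR x) (hy : NmR y) :
    NmR fun F => x F / y F := (hx.mul hy.inv).congr fun _ => (div_eq_mul_inv _ _).symm

theorem NmR.abs {x : ∀ F : Pt b, KF hK F} (hx : NmR x) : NmR fun F => |x F| :=
  (hx.ite hx.neg (RpP.leR NmR.zero hx)).congr fun F => by
    by_cases h : 0 ≤ x F
    · rw [if_pos h, abs_of_nonneg h]
    · rw [if_neg h, abs_of_neg (not_le.1 h)]

theorem NmR.max {x y : ∀ F : Pt b, KF hK F} (hx : NmR x) (hy : NmR y) :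
    NmR fun F => max (x F) (y F) :=
  (hy.ite hx (RpP.leR hx hy)).congr fun F => by rw [max_def]

theorem NmR.nat (n : ℕ) : NmR fun F => (n : KF hK F) := by
  induction n with
  | zero => exact NmR.zero.congr fun F => Nat.cast_zero.symm
  | succ n ih => exact (ih.add NmR.one).congr fun F => (Nat.cast_succ n).symm

theorem NmR.int (n : ℤ) : NmR fun F => (n : KF hK F) := by
  obtain ⟨m, rfl | rfl⟩ := n.eq_nat_or_neg
  · exact (NmR.nat m).congr fun F => (Int.cast_natCast m).symm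
  · exact (NmR.nat m).neg.congr fun F => by rw [Int.cast_neg, Int.cast_natCast]

theorem NmR.rat (q : ℚ) : NmR fun F => (q : KF hK F) :=
  ((NmR.int q.num).div (NmR.nat q.den)).congr fun F => (Rat.cast_def q).symm

theorem NmR.sum {ι : Type} (S : Finset ι) {x : ι → ∀ F : Pt b, KF hK F}
    (hx : ∀ i, NmR (x i)) : NmR fun F => ∑ i ∈ S, x i F := by
  induction S using Finset.induction_on with
  | empty => exact NmR.zero.congr fun F => Finset.sum_empty.symm
  | insert i S hi ih => exact ((hx i).add ih).congr fun F => by rw [Finset.sum_insert hi]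

/-- names of the rational numbers -/
noncomputable def qn (hK : ∀ F : Pt b, IsReals (In F) (nmK F K)) (q : ℚ) : BSet B :=
  (NmR.rat (hK := hK) q).choose

theorem nm_qn (q : ℚ) (F : Pt b) : nm F (qn hK q) = (q : KF hK F).v :=
  (NmR.rat (hK := hK) q).choose_spec F

theorem RpP.inE {x : ∀ F : Pt b, KF hK F} (hx : NmR x) (S : BSet B) :
    RpP fun F => In F (x F).v (nm F S) := by
  obtain ⟨x', hx'⟩ := hx
  exact (RpP.mem x' S).congr fun F => by rw [hx']

/-- the field is archimedean in the quotient model -/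
theorem exists_qn (F : Pt b) (x : KF hK F) :
    ∃ y : KF hK F, In F y.v (nm F (chk (qn hK))) ∧ x < y := by
  by_contra hcon
  push Not at hcon
  obtain ⟨s, h1, h2⟩ := RK.exists_sup (hE := BVM.zfc F.1) (hK := hK F) (nm F (chk (qn hK)))
    (fun z hz => chk_all (b := b) (qn hK) (RpP.const True) (P := fun F z => In F z (nm F K.R))
      (fun y => RpP.mem _ _) (fun F _ q => by
        rw [nm_qn]
        exact (q : KF hK F).mem) F trivial z hz)
    ⟨nm F (qn hK 0), In_chk _ _ _⟩ ⟨x, hcon⟩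
  obtain ⟨y, hy, hy'⟩ : ∃ y : KF hK F, In F y.v (nm F (chk (qn hK))) ∧ s - 1 < y := by
    by_contra hcon'
    push Not at hcon'
    have := h2 _ hcon'
    linarith
  have h3 : In F (y + 1).v (nm F (chk (qn hK))) := by
    refine chk_all (b := b) (qn hK) (RpP.const True)
      (P := fun F z => ∀ t, Rel2 (In F) (nm F K.add) z (nm F K.one) t →
        In F t (nm F (chk (qn hK)))) (fun y => RpP.all fun t => (RpP.rel2 _ _ _ _).imp
          (RpP.mem _ _)) (fun F _ q t ht => ?_) F trivial y.v hy (y + 1).v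
          ((RK.add_iff (hE := BVM.zfc F.1) (hK := hK F) (y := 1)).2 rfl)
    rw [nm_qn] at ht
    have h4 := (RK.add_iff (hE := BVM.zfc F.1) (hK := hK F) (y := 1)).1 ht
    have h5 : ((q : KF hK F) + 1) = ((q + 1 : ℚ) : KF hK F) := by push_cast; rfl
    rw [h4, h5, ← nm_qn]
    exact In_chk _ _ _
  have h4 := h1 _ h3
  linarith

theorem cov_arch {x : ∀ F : Pt b, KF hK F} (hx : NmR x) :
    Cov (fun _ => True) fun (q : ℚ) F => x F < (q : KF hK F) := by
  obtain ⟨x', hx'⟩ := hx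
  have h := chk_cov (b := b) (qn hK) (P := fun F z => BVM.Rel (In F) (nm F K.lt) (nm F x') z)
    (fun y => RpP.rel _ _ _) (RpP.const True) (fun F _ => by
      obtain ⟨y, hy, hy'⟩ := exists_qn F (x F)
      refine ⟨y.v, hy, ?_⟩
      rw [hx']
      exact hy')
  intro C hC hC' F hF
  refine h C hC (fun q F _ hq => hC' q F trivial ?_) F hF
  have hq : BVM.Rel (In F) (nm F K.lt) (nm F x') (nm F (qn hK q)) := hq
  rw [hx', nm_qn] at hq
  exact hq

theorem cov_arch' {x : ∀ F : Pt b, KF hK F} (hx : NmR x) :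
    Cov (fun _ => True) fun (q : ℚ) F => (q : KF hK F) < x F := by
  intro C hC h F hF
  refine cov_arch hx.neg C hC (fun q F _ hq => h (-q) F trivial ?_) F hF
  push_cast
  linarith

theorem cov_between {x y : ∀ F : Pt b, KF hK F} (hx : NmR x) (hy : NmR y) :
    Cov (fun F => x F < y F) fun (q : ℚ) F => x F < (q : KF hK F) ∧ (q : KF hK F) < y F := by
  intro C hC h F hF
  refine cov_arch (hy.sub hx).inv (fun F => x F < y F → C F) ((RpP.ltR hx hy).imp hC)
    (fun q₀ F _ h0 hF => ?_) F trivial hF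
  refine cov_arch hx (fun F => x F < y F → (y F - x F)⁻¹ < (q₀ : KF hK F) → C F)
    ((RpP.ltR hx hy).imp ((RpP.ltR (hy.sub hx).inv (NmR.rat q₀)).imp hC))
    (fun q₂ F _ h2 hF h0 => ?_) F trivial hF h0
  refine cov_arch' hx (fun F => x F < y F → (y F - x F)⁻¹ < (q₀ : KF hK F) →
    x F < (q₂ : KF hK F) → C F)
    ((RpP.ltR hx hy).imp ((RpP.ltR (hy.sub hx).inv (NmR.rat q₀)).imp
      ((RpP.ltR hx (NmR.rat q₂)).imp hC)))
    (fun q₁ F _ h1 hF h0 h2 => ?_) F trivial hF h0 h2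
  have hpos : 0 < y F - x F := sub_pos.2 hF
  have hq0 : (0 : KF hK F) < (q₀ : KF hK F) := (inv_pos.2 hpos).trans h0
  have hε : ((q₀⁻¹ : ℚ) : KF hK F) < y F - x F := by
    push_cast
    rw [inv_lt_comm₀ hq0 hpos]
    exact h0
  have hq0' : 0 < q₀ := by exact_mod_cast hq0
  have hex : ∃ k : ℕ, x F < ((q₁ + k * q₀⁻¹ : ℚ) : KF hK F) := by
    obtain ⟨k, hk⟩ := exists_nat_gt ((q₂ - q₁) * q₀)
    refine ⟨k, h2.trans_le ?_⟩
    have : q₂ ≤ q₁ + k * q₀⁻¹ := by
      have h3 : (q₂ - q₁) < k * q₀⁻¹ := by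
        rw [← div_eq_mul_inv, lt_div_iff₀ hq0']
        exact hk
      linarith
    exact_mod_cast this
  have h3 := Nat.find_spec hex
  have h4 : ∀ m < Nat.find hex, ¬ x F < ((q₁ + m * q₀⁻¹ : ℚ) : KF hK F) :=
    fun m hm => Nat.find_min hex hm
  cases hn : Nat.find hex with
  | zero =>
    rw [hn] at h3
    push_cast at h3
    rw [zero_mul, add_zero] at h3
    exact absurd h1 h3.not_gt
  | succ n =>
    have h5 := h4 n (by omega)
    rw [hn] at h3
    refine h _ F hF ⟨h3, ?_⟩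
    push_cast at h5 h3 hε ⊢
    linarith

/-- between rational numbers -/
theorem cov_pos {x : ∀ F : Pt b, KF hK F} (hx : NmR x) :
    Cov (fun F => 0 < x F) fun (q : ℚ) F => 0 < q ∧ (q : KF hK F) < x F := by
  intro C hC h F hF
  refine cov_between NmR.zero hx C hC (fun q F hF hq => h q F hF ⟨?_, hq.2⟩) F hF
  exact_mod_cast hq.1

theorem RpP.ltq {x : ∀ F : Pt b, KF hK F} (hx : NmR x) (q : ℚ) :
    RpP fun F => x F < (q : KF hK F) := RpP.ltR hx (NmR.rat q)

/-- the value of `x < q`, with `x = 0` outside `b` -/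
noncomputable def ltB {x : ∀ F : Pt b, KF hK F} (hx : NmR x) (q : ℚ) : B :=
  bv (RpP.ltq hx q) ⊔ (bᶜ ⊓ tv (0 < q))

theorem ltB_uf {x : ∀ F : Pt b, KF hK F} (hx : NmR x) (q : ℚ) (F : UF B) :
    F.U (ltB hx q) ↔ (∃ hF : F.U b, x ⟨F, hF⟩ < (q : KF hK ⟨F, hF⟩)) ∨ (¬ F.U b ∧ 0 < q) := by
  rw [ltB, F.sup_iff, bv_uf, F.inf_iff, F.compl_iff, F.tv_iff]

theorem ltB_pt {x : ∀ F : Pt b, KF hK F} (hx : NmR x) (q : ℚ) (F : Pt b) :
    F.1.U (ltB hx q) ↔ x F < (q : KF hK F) := by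
  rw [ltB_uf]
  constructor
  · rintro (⟨_, h⟩ | ⟨h, _⟩)
    · exact h
    · exact absurd F.2 h
  · exact fun h => Or.inl ⟨F.2, h⟩

theorem ltB_out {x : ∀ F : Pt b, KF hK F} (hx : NmR x) (q : ℚ) {F : UF B} (hF : ¬ F.U b) :
    F.U (ltB hx q) ↔ 0 < q := by
  rw [ltB_uf]
  constructor
  · rintro (⟨h, _⟩ | ⟨_, h⟩)
    · exact absurd h hF
    · exact h
  · exact fun h => Or.inr ⟨hF, h⟩

/-- the Boolean-valued real number of a family -/
noncomputable def toBR {x : ∀ F : Pt b, KF hK F} (hx : NmR x) : BR B where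
  lt := ltB hx
  mono q q' hq := le_of_uf fun F hF => by
    by_cases hb : F.U b
    · have h1 := (ltB_pt hx q ⟨F, hb⟩).1 hF
      refine (ltB_pt hx q' ⟨F, hb⟩).2 (h1.trans_le ?_)
      exact_mod_cast hq
    · rw [ltB_out hx _ hb] at hF ⊢
      exact hF.trans_le hq
  op q := by
    refine sup_le (bv_le _ fun F hF => ?_) ?_
    · refine cov_between hx (NmR.rat q)
        (fun F => F.1.U (⨆ q' : {q' : ℚ // q' < q}, ltB hx q'.1)) (RpP.val _)
        (fun r F _ hr => ?_) F hF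
      have h1 : r < q := by exact_mod_cast hr.2
      exact F.1.mono (le_iSup (fun q' : {q' : ℚ // q' < q} => ltB hx q'.1) ⟨r, h1⟩)
        ((ltB_pt hx r F).2 hr.1)
    · by_cases h0 : 0 < q
      · refine le_iSup_of_le (⟨q / 2, by linarith⟩ : {q' : ℚ // q' < q}) ?_
        refine le_sup_of_le_right (inf_le_inf_left _ ?_)
        rw [tv_true (show 0 < q / 2 by linarith)]
        exact le_top
      · rw [tv_false h0, inf_bot_eq]
        exact bot_le
  top := by
    rw [eq_top_iff, ← sup_compl_eq_top (x := b)]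
    refine sup_le (le_of_pt le_rfl fun F _ => ?_) ?_
    · refine cov_arch hx (fun F => F.1.U (⨆ q, ltB hx q)) (RpP.val _) (fun q F _ hq => ?_) F
        trivial
      exact F.1.mono (le_iSup (ltB hx) q) ((ltB_pt hx q F).2 hq)
    · refine le_iSup_of_le 1 (le_sup_of_le_right (le_inf le_rfl ?_))
      rw [tv_true one_pos]
      exact le_top
  bot := by
    have h1 : (⊤ : B) ≤ ⨆ q, (ltB hx q)ᶜ := by
      rw [← sup_compl_eq_top (x := b)]
      refine sup_le (le_of_pt le_rfl fun F _ => ?_) ?_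
      · refine cov_arch' hx (fun F => F.1.U (⨆ q, (ltB hx q)ᶜ)) (RpP.val _)
          (fun q F _ hq => ?_) F trivial
        refine F.1.mono (le_iSup (fun q => (ltB hx q)ᶜ) q) ?_
        rw [F.1.compl_iff, ltB_pt]
        exact hq.not_gt
      · refine le_iSup_of_le 0 (le_of_uf fun F hF => ?_)
        rw [F.compl_iff] at hF ⊢
        rw [ltB_out hx _ hF]
        exact lt_irrefl _
    rw [← compl_iInf] at h1
    rw [← compl_compl (⨅ q, ltB hx q), top_le_iff.1 h1, compl_top]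

theorem toBR_lt {x : ∀ F : Pt b, KF hK F} (hx : NmR x) (q : ℚ) :
    (toBR hx).lt q = ltB hx q := rfl

end

end Pool.Agent.MAx
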