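import Pool.Agent.MAx.Ext

/-!
# The extension as a relation, and its properties
-/

namespace Pool.Agent.MAx

open Classical Pool.Agent Pool.Agent.LadderTree Pool.Agent.Forcing
open Pool.Agent.BVM (BSet UF OPair FunOn chk le_of_uf eq_of_uf memv eqv on onT ZFC)

section

variable {B : Type} [CompleteBooleanAlgebra B] {b : B} {K : OF (BSet B)}
  {hK : ∀ F : Pt b, IsReals (In F) (nmK F K)}

/-- names of rational numbers are dense -/
theorem exists_q (F : Pt b) (a e : KF hK F) (he : 0 < e) :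
    ∃ y : KF hK F, In F y.v (nm F (chk (qn hK))) ∧ a < y ∧ y < a + e := by
  obtain ⟨a, ha, rfl⟩ := nmR_eq F a
  obtain ⟨e, he', rfl⟩ := nmR_eq F e
  refine cov_between ha (ha.add he') (fun F => ∃ y : KF hK F, In F y.v (nm F (chk (qn hK))) ∧
    a F < y ∧ y < a F + e F) (RpP.exR fun y hy => (RpP.inE hy _).and ((RpP.ltR ha hy).and
      (RpP.ltR hy (ha.add he')))) (fun q F _ hq => ⟨(q : KF hK F), ?_, hq⟩) F (by linarith)
  rw [← nm_qn]
  exact In_chk _ _ _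

end

namespace Ctx

variable {P : Type} [Preorder P] {ι : Type} (X : Ctx (RO P) ι) {H : CD ι → RO P}
  (hH : GF X.toBD H)

/-- the value of the extension at `x` and `u` is `r` -/
def Tr (F : Pt X.b) (x : XF X.hK X.hV F) (u : Md F) (r : KF X.hK F) : Prop :=
  ∀ (x' : XF X.hK X.hV F) (s : Md F), X.GR hH F x' s → ∀ e : KF X.hK F, 0 < e →
    UA F u fun k => ∀ y : KF X.hK F, BVM.Rel (In F) s k y.v → |y - r| < X.κ F * nr (x - x') + e

theorem RpP_Tr {x : ∀ F : Pt X.b, XF X.hK X.hV F} (hx : NmX x) (u : BSet (RO P))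
    {r : ∀ F : Pt X.b, KF X.hK F} (hr : NmR r) :
    RpP fun F => X.Tr hH F (x F) (nm F u) (r F) :=
  RpP.allX fun x' hx' => RpP.all fun s => (X.RpP_GR hH hx' s).imp (RpP.allR fun e he =>
    (RpP.ltR NmR.zero he).imp (RpP.ua _ fun k => RpP.allR fun y hy => (RpP.relR _ _ hy).imp
      (RpP.ltR (hy.sub hr).abs ((X.κ_nm.mul (NmR.nr (hx.sub hx'))).add he))))

/-- the points are dense -/
structure Dns : Prop where
  d1 : ∀ (F : Pt X.b) (x : XF X.hK X.hV F) (e : KF X.hK F), 0 < e →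
    ∃ x' s, X.GR hH F x' s ∧ nr (x - x') < e
  d2 : ∀ (F : Pt X.b) (x : XF X.hK X.hV F), In F x.v (nm F X.Y) → ∀ e : KF X.hK F, 0 < e →
    ∃ x' s, X.GR hH F x' s ∧ In F x'.v (nm F X.Y) ∧ nr (x - x') < e

variable {hH} (hd : X.Dns hH)

include hd

theorem near {F : Pt X.b} (x : XF X.hK X.hV F) {δ : KF X.hK F} (hδ : 0 < δ) :
    ∃ x' s, X.GR hH F x' s ∧ X.κ F * nr (x - x') < δ := by
  have h0 : 0 < X.κ F + 1 := by linarith [X.κ_nonneg F]
  obtain ⟨x', s, h1, h2⟩ := hd.d1 F x (δ / (X.κ F + 1)) (div_pos hδ h0)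
  refine ⟨x', s, h1, ?_⟩
  rw [lt_div_iff₀ h0] at h2
  linarith [nr_nonneg (x - x')]

theorem nearY {F : Pt X.b} (x : XF X.hK X.hV F) (hx : In F x.v (nm F X.Y)) {δ : KF X.hK F}
    (hδ : 0 < δ) : ∃ x' s, X.GR hH F x' s ∧ In F x'.v (nm F X.Y) ∧
      X.κ F * nr (x - x') < δ := by
  have h0 : 0 < X.κ F + 1 := by linarith [X.κ_nonneg F]
  obtain ⟨x', s, h1, h3, h2⟩ := hd.d2 F x hx (δ / (X.κ F + 1)) (div_pos hδ h0)
  refine ⟨x', s, h1, h3, ?_⟩
  rw [lt_div_iff₀ h0] at h2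
  linarith [nr_nonneg (x - x')]

omit hd in
theorem κ_mono {F : Pt X.b} {p q : KF X.hK F} (h : p ≤ q) : X.κ F * p ≤ X.κ F * q :=
  mul_le_mul_of_nonneg_left h (X.κ_nonneg F)

omit hd in
theorem Tr.close {F : Pt X.b} {x x' : XF X.hK X.hV F} {s u : Md F} {r δ : KF X.hK F}
    (h : X.Tr hH F x u r) (hx' : X.GR hH F x' s) (hδ : 0 < δ) (hc : X.κ F * nr (x - x') < δ) :
    UA F u fun k => ∀ y : KF X.hK F, BVM.Rel (In F) s k y.v → |y - r| < 2 * δ :=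
  (h x' s hx' δ hδ).mono fun k hk y hy => (hk y hy).trans (by linarith)

theorem Tr_ex (F : Pt X.b) (x : XF X.hK X.hV F) (u : Md F) (hu : IsUlt (In F) (nm F om) u) :
    ∃ r, X.Tr hH F x u r := by
  let L : KF X.hK F → Prop := fun a => ∃ x' s, X.GR hH F x' s ∧ UA F u fun k =>
    ∀ y : KF X.hK F, BVM.Rel (In F) s k y.v → a < y - X.κ F * nr (x - x')
  have hκ := X.κ_nonneg F
  obtain ⟨x₁, s₁, hx₁, -⟩ := hd.d1 F x 1 one_pos
  have hE1 := (X.E1 hH F x₁ s₁ hx₁ 1 one_pos).ua hu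
  have hne : ∃ a, L a := by
    refine ⟨-(X.κ F * nr x₁ + 1) - X.κ F * nr (x - x₁), x₁, s₁, hx₁, hE1.mono fun k hk y hy => ?_⟩
    have := (abs_lt.1 (hk y hy)).1
    linarith
  -- comparison of lower and upper values
  have cmp : ∀ a x' s (θ : KF X.hK F), L a → X.GR hH F x' s → (UA F u fun k =>
      ∀ y : KF X.hK F, BVM.Rel (In F) s k y.v → y ≤ θ) → a ≤ θ + X.κ F * nr (x - x') := by
    rintro a x' s θ ⟨x'', s'', hx'', hL⟩ hx' hθ
    by_contra hcon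
    push Not at hcon
    have hE2 := (X.E2 hH F x'' x' s'' s hx'' hx' _ (sub_pos.2 hcon)).ua hu
    obtain ⟨k, hk, ⟨h1, h2⟩, h3⟩ := ((hL.and hu hθ).and hu hE2).ex hu
    obtain ⟨y, hy⟩ := val_ex (hK := X.hK) (X.E5 hH F x' s hx') hk
    obtain ⟨y'', hy''⟩ := val_ex (hK := X.hK) (X.E5 hH F x'' s'' hx'') hk
    have a1 := h1 y'' hy''
    have a2 := h2 y hy
    have a3 := (abs_lt.1 (h3 y'' y hy'' hy)).2
    have a4 := X.κ_mono (nr_tri x'' x x')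
    rw [nr_sub_comm x'' x, mul_add] at a4
    linarith
  have hbd : ∃ c, ∀ a, L a → a ≤ c := by
    refine ⟨X.κ F * nr x₁ + 1 + X.κ F * nr (x - x₁), fun a ha => cmp a x₁ s₁ _ ha hx₁ ?_⟩
    exact hE1.mono fun k hk y hy => (abs_lt.1 (hk y hy)).2.le
  obtain ⟨r, hr1, hr2⟩ : ∃ r, (∀ a, L a → a ≤ r) ∧ ∀ c, (∀ a, L a → a ≤ c) → r ≤ c := by
    obtain ⟨x', hx', rfl⟩ := nmX_eq F x
    obtain ⟨u', rfl⟩ := exists_nm u
    exact exists_supR (hK := X.hK) (P := fun F a => ∃ (x'' : XF X.hK X.hV F) (s : Md F),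
      X.GR hH F x'' s ∧ UA F (nm F u') fun k => ∀ y : KF X.hK F, BVM.Rel (In F) s k y.v →
        a < y - X.κ F * nr (x' F - x''))
      (fun a ha => RpP.exX fun x'' hx'' => RpP.ex fun s => (X.RpP_GR hH hx'' s).and
        (RpP.ua _ fun k => RpP.allR fun y hy => (RpP.relR _ _ hy).imp (RpP.ltR ha
          (hy.sub (X.κ_nm.mul (NmR.nr (hx'.sub hx''))))))) F hne hbd
  refine ⟨r, fun x' s hx' e he => ?_⟩
  have up : UA F u fun k => ∀ y : KF X.hK F, BVM.Rel (In F) s k y.v →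
      y ≤ r + e / 2 + X.κ F * nr (x - x') := by
    rcases dich (hK := X.hK) (X.E5 hH F x' s hx') hu (r + e / 2 + X.κ F * nr (x - x')) with h | h
    · exfalso
      have h1 : L (r + e / 2) := ⟨x', s, hx', h.mono fun k hk y hy => by linarith [hk y hy]⟩
      linarith [hr1 _ h1]
    · exact h
  have dn : UA F u fun k => ∀ y : KF X.hK F, BVM.Rel (In F) s k y.v →
      r - e / 2 - X.κ F * nr (x - x') < y := by
    rcases dich (hK := X.hK) (X.E5 hH F x' s hx') hu (r - e / 2 - X.κ F * nr (x - x')) with h | h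
    · exact h
    · exfalso
      have h1 : r ≤ r - e / 2 := hr2 _ fun a ha => by
        have := cmp a x' s _ ha hx' h
        linarith
      linarith
  refine (up.and hu dn).mono fun k hk y hy => ?_
  have h1 := hk.1 y hy
  have h2 := hk.2 y hy
  rw [abs_lt]
  constructor <;> linarith

theorem Tr_uniq {F : Pt X.b} {x : XF X.hK X.hV F} {u : Md F} (hu : IsUlt (In F) (nm F om) u)
    {r r' : KF X.hK F} (h : X.Tr hH F x u r) (h' : X.Tr hH F x u r') : r = r' := by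
  by_contra hne
  have hd0 : 0 < |r - r'| := abs_pos.2 (sub_ne_zero.2 hne)
  have hδ : 0 < |r - r'| / 4 := by linarith
  obtain ⟨x', s, hx', hc⟩ := X.near hd x hδ
  obtain ⟨k, hk, h1, h2⟩ := ((Tr.close X h hx' hδ hc).and hu (Tr.close X h' hx' hδ hc)).ex hu
  obtain ⟨y, hy⟩ := val_ex (hK := X.hK) (X.E5 hH F x' s hx') hk
  have a1 := h1 y hy
  have a2 := h2 y hy
  have a3 : |r - r'| ≤ |y - r| + |y - r'| := by
    calc |r - r'| = |(y - r') - (y - r)| := by congr 1; ring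
      _ ≤ |y - r'| + |y - r| := abs_sub _ _
      _ = _ := add_comm _ _
  linarith

theorem Tr_add {F : Pt X.b} {x y : XF X.hK X.hV F} {u : Md F}
    (hu : IsUlt (In F) (nm F om) u) {r r' r'' : KF X.hK F} (h : X.Tr hH F x u r)
    (h' : X.Tr hH F y u r') (h'' : X.Tr hH F (x + y) u r'') : r'' = r + r' := by
  by_contra hne
  have hd0 : 0 < |r'' - r - r'| := abs_pos.2 fun h0 => hne (by linarith)
  have hδ : 0 < |r'' - r - r'| / 12 := by linarith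
  set δ := |r'' - r - r'| / 12 with hδd
  obtain ⟨x₁, s₁, hx₁, hc₁⟩ := X.near hd x hδ
  obtain ⟨x₂, s₂, hx₂, hc₂⟩ := X.near hd y hδ
  obtain ⟨x₃, s₃, hx₃, hc₃⟩ := X.near hd (x + y) hδ
  have hE := (X.E3 hH F x₃ x₁ x₂ s₃ s₁ s₂ hx₃ hx₁ hx₂ δ hδ).ua hu
  obtain ⟨k, hk, ⟨⟨h1, h2⟩, h3⟩, h4⟩ := ((((Tr.close X h hx₁ hδ hc₁).and hu
    (Tr.close X h' hx₂ hδ hc₂)).and hu (Tr.close X h'' hx₃ hδ hc₃)).and hu hE).ex hu
  obtain ⟨y₁, hy₁⟩ := val_ex (hK := X.hK) (X.E5 hH F x₁ s₁ hx₁) hk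
  obtain ⟨y₂, hy₂⟩ := val_ex (hK := X.hK) (X.E5 hH F x₂ s₂ hx₂) hk
  obtain ⟨y₃, hy₃⟩ := val_ex (hK := X.hK) (X.E5 hH F x₃ s₃ hx₃) hk
  have a1 := abs_lt.1 (h1 y₁ hy₁)
  have a2 := abs_lt.1 (h2 y₂ hy₂)
  have a3 := abs_lt.1 (h3 y₃ hy₃)
  have a4 := abs_lt.1 (h4 y₃ y₁ y₂ hy₃ hy₁ hy₂)
  have a5 : nr (x₃ - x₁ - x₂) ≤ nr (x + y - x₃) + (nr (x - x₁) + nr (y - x₂)) := by
    have e1 : x₃ - x₁ - x₂ = -(x + y - x₃) + ((x - x₁) + (y - x₂)) := by abel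
    rw [e1]
    refine (nr_add _ _).trans ?_
    rw [nr_neg]
    exact add_le_add le_rfl (nr_add _ _)
  have a6 := X.κ_mono a5
  rw [mul_add, mul_add] at a6
  have a7 : |r'' - r - r'| < 12 * δ := by
    rw [abs_lt]
    constructor <;> linarith [a1.1, a1.2, a2.1, a2.2, a3.1, a3.2, a4.1, a4.2]
  rw [hδd] at a7
  linarith

theorem Tr_bound {F : Pt X.b} {x : XF X.hK X.hV F} {u : Md F}
    (hu : IsUlt (In F) (nm F om) u) {r : KF X.hK F} (h : X.Tr hH F x u r) :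
    |r| ≤ X.κ F * nr x := by
  by_contra hcon
  push Not at hcon
  have hδ : 0 < (|r| - X.κ F * nr x) / 4 := by linarith
  set δ := (|r| - X.κ F * nr x) / 4 with hδd
  obtain ⟨x', s, hx', hc⟩ := X.near hd x hδ
  obtain ⟨k, hk, h1, h2⟩ := ((Tr.close X h hx' hδ hc).and hu
    ((X.E1 hH F x' s hx' δ hδ).ua hu)).ex hu
  obtain ⟨y, hy⟩ := val_ex (hK := X.hK) (X.E5 hH F x' s hx') hk
  have a1 := h1 y hy
  have a2 := h2 y hy
  have a3 : |r| ≤ |y| + |y - r| := by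
    calc |r| = |y - (y - r)| := by congr 1; ring
      _ ≤ |y| + |y - r| := abs_sub _ _
  have a4 : nr x' ≤ nr x + nr (x - x') := by
    have e1 : x' = x + -(x - x') := by abel
    calc nr x' = nr (x + -(x - x')) := by rw [← e1]
      _ ≤ nr x + nr (-(x - x')) := nr_add _ _
      _ = _ := by rw [nr_neg]
  have a5 := X.κ_mono a4
  rw [mul_add] at a5
  have a6 : 4 * δ = |r| - X.κ F * nr x := by rw [hδd]; ring
  linarith

theorem Tr_Y {F : Pt X.b} {x : XF X.hK X.hV F} {u : Md F} {r : KF X.hK F}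
    (h : TR (nm F X.t) x u r) : X.Tr hH F x u r := by
  have hxY := (h.dom (X.hO F)).1
  have huZ := (h.dom (X.hO F)).2
  have hu := (X.hZ F u).1 huZ
  intro x' s hx' e he
  have hδ : 0 < e / 6 := by linarith
  set δ := e / 6 with hδd
  obtain ⟨x₁, s₁, hx₁, hx₁Y, hc₁⟩ := X.nearY hd x hxY hδ
  obtain ⟨r₁, hr₁⟩ := TR.ex (X.hO F) hx₁Y huZ
  have h1 : |r₁ - r| ≤ δ := by
    have h2 := hr₁.add (X.hO F) (X.hY F) (h.smul (X.hO F) (X.hY F) (-1))
    rw [neg_one_smul, ← sub_eq_add_neg, neg_one_mul, ← sub_eq_add_neg] at h2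
    have h3 := X.c₀_bound F _ _ _ h2
    rw [nr_sub_comm] at h3
    have h4 : X.κ F * nr (x - x₁) = 3 * (X.c₀ F * nr (x - x₁)) := by unfold κ; ring
    have h5 : 0 ≤ X.c₀ F * nr (x - x₁) := mul_nonneg (X.c₀_nonneg F) (nr_nonneg _)
    linarith
  obtain ⟨A, hA, hA'⟩ := X.E4 hH F x₁ s₁ hx₁ hx₁Y u r₁ hr₁ δ hδ
  have hL : UA F u fun k => ∀ y : KF X.hK F, BVM.Rel (In F) s₁ k y.v → |y - r₁| < δ :=
    ⟨A, hA, fun k hk y hy => hA' k y hk hy⟩
  refine ((hL.and hu ((X.E2 hH F x' x₁ s s₁ hx' hx₁ δ hδ).ua hu)).and hu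
    (⟨A, hA, fun k hk => hu.sub A hA k hk⟩ : UA F u fun k => In F k (nm F om))).mono
    fun k hk y hy => ?_
  obtain ⟨⟨h2, h3⟩, hkω⟩ := hk
  obtain ⟨y₁, hy₁⟩ := val_ex (hK := X.hK) (X.E5 hH F x₁ s₁ hx₁) hkω
  have a1 := abs_lt.1 (h2 y₁ hy₁)
  have a2 := abs_lt.1 (h3 y y₁ hy hy₁)
  have a3 := X.κ_mono (nr_tri x' x x₁)
  rw [nr_sub_comm x' x, mul_add] at a3
  have a4 := abs_le.1 h1
  have a5 : 6 * δ = e := by rw [hδd]; ring
  rw [abs_lt]
  constructor <;> linarith [a1.1, a1.2, a2.1, a2.2, a4.1, a4.2]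

theorem Tr_cont {F : Pt X.b} {x : XF X.hK X.hV F} {u : Md F} {r : KF X.hK F}
    (h : X.Tr hH F x u r) {e : KF X.hK F} (he : 0 < e) :
    ∃ A, In F A u ∧ ∀ v (r' : KF X.hK F), IsUlt (In F) (nm F om) v → X.Tr hH F x v r' →
      In F A v → |r - r'| < e := by
  have hδ : 0 < e / 4 := by linarith
  obtain ⟨x', s, hx', hc⟩ := X.near hd x hδ
  obtain ⟨A, hA, hA'⟩ := Tr.close X h hx' hδ hc
  refine ⟨A, hA, fun v r' hv hr' hAv => ?_⟩
  obtain ⟨k, hk, h1, h2⟩ := (UA.and hv ⟨A, hAv, hA'⟩ (Tr.close X hr' hx' hδ hc)).ex hv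
  obtain ⟨y, hy⟩ := val_ex (hK := X.hK) (X.E5 hH F x' s hx') hk
  have a1 := abs_lt.1 (h1 y hy)
  have a2 := abs_lt.1 (h2 y hy)
  rw [abs_lt]
  constructor <;> linarith [a1.1, a1.2, a2.1, a2.2]

theorem Tr_rat (F : Pt X.b) (x : XF X.hK X.hV F) (u : Md F) (hu : IsUlt (In F) (nm F om) u)
    (q : ℚ) (r r' : KF X.hK F) (h : X.Tr hH F x u r)
    (h' : X.Tr hH F ((q : KF X.hK F) • x) u r') : r' = (q : KF X.hK F) * r := by
  choose φ hφ using fun x => X.Tr_ex hd F x u hu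
  let Φ : XF X.hK X.hV F →+ KF X.hK F :=
    { toFun := φ
      map_zero' := by
        have h1 := X.Tr_add hd hu (hφ 0) (hφ 0) (by rw [add_zero]; exact hφ 0)
        linarith
      map_add' := fun x y => X.Tr_add hd hu (hφ x) (hφ y) (hφ (x + y)) }
  have h1 := map_ratCast_smul Φ (KF X.hK F) (KF X.hK F) q x
  have h2 : Φ x = r := X.Tr_uniq hd hu (hφ x) h
  have h3 : Φ ((q : KF X.hK F) • x) = r' := X.Tr_uniq hd hu (hφ _) h'
  rw [h2, h3, smul_eq_mul] at h1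
  exact h1

theorem Tr_smul {F : Pt X.b} {x : XF X.hK X.hV F} {u : Md F} (hu : IsUlt (In F) (nm F om) u)
    {r : KF X.hK F} (h : X.Tr hH F x u r) (a : KF X.hK F) : X.Tr hH F (a • x) u (a * r) := by
  obtain ⟨r', hr'⟩ := X.Tr_ex hd F (a • x) u hu
  suffices h0 : r' = a * r by rw [← h0]; exact hr'
  by_contra hne
  have hd0 : 0 < |r' - a * r| := abs_pos.2 (sub_ne_zero.2 hne)
  have hM : 0 < X.κ F * nr x + |r| + 1 := by
    have := mul_nonneg (X.κ_nonneg F) (nr_nonneg x)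
    have := abs_nonneg r
    linarith
  obtain ⟨y, hyQ, hy1, hy2⟩ := exists_q F a _ (div_pos hd0 hM)
  have hrat : ∀ r₁ : KF X.hK F, X.Tr hH F (y • x) u r₁ → r₁ = y * r := by
    intro r₁ hr₁
    obtain ⟨x', hx', rfl⟩ := nmX_eq F x
    obtain ⟨u', rfl⟩ := exists_nm u
    obtain ⟨r', hr', rfl⟩ := nmR_eq F r
    refine chk_all (b := X.b) (qn X.hK) (RpP.isUlt om u') (P := fun F y' => ∀ y r₁ : KF X.hK F,
      y.v = y' → X.Tr hH F (x' F) (nm F u') (r' F) → X.Tr hH F (y • x' F) (nm F u') r₁ →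
        r₁ = y * r' F) (fun y' => RpP.allR fun y hy => RpP.allR fun r₁ hr₁ => ?_)
      (fun F hF q y r₁ hy h h₁ => ?_) F hu y.v hyQ y r₁ rfl h hr₁
    · have h1 : RpP fun F => (y F).v = nm F y' := by
        obtain ⟨z, hz⟩ := hy
        exact (RpP.eq z y').congr fun F => by rw [hz]
      exact h1.imp ((X.RpP_Tr hH hx' _ hr').imp ((X.RpP_Tr hH (hx'.smul hy) _ hr₁).imp
        (RpP.eqR hr₁ (hy.mul hr'))))
    · rw [nm_qn] at hy
      have hy := RK.ext hy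
      subst hy
      exact X.Tr_rat hd F _ _ hF q _ _ h h₁
  obtain ⟨r₁, hr₁⟩ := X.Tr_ex hd F (y • x) u hu
  obtain ⟨r₂, hr₂⟩ := X.Tr_ex hd F ((a - y) • x) u hu
  have h1 := X.Tr_add hd hu hr₂ hr₁ (by rw [← add_smul, sub_add_cancel]; exact hr')
  rw [hrat r₁ hr₁] at h1
  have h2 := X.Tr_bound hd hu hr₂
  rw [nr_smul] at h2
  have h3 : |a - y| < |r' - a * r| / (X.κ F * nr x + |r| + 1) := by
    rw [abs_lt]
    constructor <;> linarith
  rw [lt_div_iff₀ hM] at h3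
  have h4 : |r' - a * r| ≤ |a - y| * (X.κ F * nr x + |r|) := by
    calc |r' - a * r| = |r₂ + -((a - y) * r)| := by rw [h1]; congr 1; ring
      _ ≤ |r₂| + |-((a - y) * r)| := abs_add_le _ _
      _ = |r₂| + |a - y| * |r| := by rw [abs_neg, abs_mul]
      _ ≤ X.κ F * (|a - y| * nr x) + |a - y| * |r| := by linarith
      _ = _ := by ring
  have h5 : 0 ≤ |a - y| := abs_nonneg _
  linarith

end Ctx

end Pool.Agent.MAx
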