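import Pool.Agent.MAx.Cz

/-!
# Families of vectors with names, and values of operators
-/

namespace Pool.Agent.MAx

open Classical Pool.Agent Pool.Agent.LadderTree
open Pool.Agent.BVM (BSet UF OPair FunOn chk le_of_uf eq_of_uf memv eqv on onT ZFC)

section

variable {M : Type*} {E : M → M → Prop} {hE : ZFC E} {K : OF M} {hK : IsReals E K}
  {V : NS M} {hV : IsNormed E K V}

/-- `t(x)(u) = r` -/
def TR (t : M) (x : XK hE hK hV) (u : M) (r : RK hE hK) : Prop :=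
  ∃ g, BVM.Rel E t x.v g ∧ BVM.Rel E g u r.v

theorem FunOn.dom' {f d x y : M} (h : FunOn E f d) (hxy : BVM.Rel E f x y) : E x d := by
  obtain ⟨z, hz, hf⟩ := hxy
  obtain ⟨x', y', hx', hz'⟩ := h.1 z hf
  rw [(hz.inj hz').1]
  exact hx'

theorem FunOn.uniq {f d x y y' : M} (h : FunOn E f d) (hxy : BVM.Rel E f x y)
    (hxy' : BVM.Rel E f x y') : y = y' := by
  obtain ⟨z, _, hz'⟩ := h.2 x (FunOn.dom' h hxy)
  rw [hz' _ hxy, hz' _ hxy']

variable {Z Y t : M}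

theorem TR.dom (hO : IsOp E K V Z Y t) {x : XK hE hK hV} {u : M} {r : RK hE hK}
    (h : TR t x u r) : E x.v Y ∧ E u Z := by
  obtain ⟨g, h1, h2⟩ := h
  exact ⟨FunOn.dom' hO.fn h1, ((hO.val _ _ h1).1.dom h2).1⟩

theorem TR.ex (hO : IsOp E K V Z Y t) {x : XK hE hK hV} {u : M} (hx : E x.v Y) (hu : E u Z) :
    ∃ r : RK hE hK, TR t x u r := by
  obtain ⟨g, hg, _⟩ := hO.fn.2 x.v hx
  obtain ⟨r, hr, hr'⟩ := (hO.val _ _ hg).1.ex hu
  exact ⟨RK.of r hr, g, hg, (hr' r).2 rfl⟩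

theorem TR.uniq (hO : IsOp E K V Z Y t) {x : XK hE hK hV} {u : M} {r r' : RK hE hK}
    (h : TR t x u r) (h' : TR t x u r') : r = r' := by
  obtain ⟨g, h1, h2⟩ := h
  obtain ⟨g', h1', h2'⟩ := h'
  have e := FunOn.uniq hO.fn h1 h1'
  subst e
  exact RK.ext (FunOn.uniq (hO.val _ _ h1).1.1 h2 h2')

theorem TR.add (hO : IsOp E K V Z Y t) (hY : IsSubspace E K V Y) {x y : XK hE hK hV} {u : M}
    {p q : RK hE hK} (h : TR t x u p) (h' : TR t y u q) : TR t (x + y) u (p + q) := by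
  have hx := (h.dom hO).1
  have hy := (h'.dom hO).1
  obtain ⟨f, h1, h2⟩ := h
  obtain ⟨g, h1', h2'⟩ := h'
  have hxy : E (x + y).v Y := hY.add _ _ _ hx hy (XK.add_iff.2 rfl)
  obtain ⟨h, hh, _⟩ := hO.fn.2 _ hxy
  exact ⟨h, hh, hO.add _ _ _ _ _ _ (XK.add_iff.2 rfl) h1 h1' hh _ _ _ _ h2 h2'
    (RK.add_iff.2 rfl)⟩

theorem TR.smul (hO : IsOp E K V Z Y t) (hY : IsSubspace E K V Y) (c : RK hE hK)
    {x : XK hE hK hV} {u : M} {p : RK hE hK} (h : TR t x u p) : TR t (c • x) u (c * p) := by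
  have hx := (h.dom hO).1
  obtain ⟨f, h1, h2⟩ := h
  have hxy : E (c • x).v Y := hY.smul c.v _ _ hx (XK.smul_iff.2 rfl)
  obtain ⟨h, hh, _⟩ := hO.fn.2 _ hxy
  exact ⟨h, hh, hO.smul _ _ _ _ _ (XK.smul_iff.2 rfl) h1 hh _ _ _ h2 (RK.mul_iff.2 rfl)⟩

theorem sub_add_mem (hY : IsSubspace E K V Y) {x y : XK hE hK hV} (hx : E x.v Y) (hy : E y.v Y) :
    E (x + y).v Y := hY.add _ _ _ hx hy (XK.add_iff.2 rfl)

theorem sub_smul_mem (hY : IsSubspace E K V Y) (c : RK hE hK) {x : XK hE hK hV}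
    (hx : E x.v Y) : E (c • x).v Y := hY.smul c.v _ _ hx (XK.smul_iff.2 rfl)

theorem bound_iff (hO : IsOp E K V Z Y t) (hsub : ∀ x, E x Y → E x V.X) (c : RK hE hK) :
    Bound E K V t c.v ↔ ∀ (x : XK hE hK hV) (u : M) (r : RK hE hK), TR t x u r →
      |r| ≤ c * nr x := by
  constructor
  · rintro h x u r ⟨g, h1, h2⟩
    exact not_lt.1 (h x.v g (nr x).v (c * nr x).v h1 (nr_iff.2 rfl) (RK.mul_iff.2 rfl) u r.v
      (|r|).v h2 (RK.isAbs_iff.2 rfl))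
  · intro h x g r p h1 h2 h3 u q d h4 h5
    have hx : E x V.X := hsub x (FunOn.dom' hO.fn h1)
    have hq : E q K.R := ((hO.val _ _ h1).1.dom h4).2
    have h6 := h (XK.of x hx) u (RK.of q hq) ⟨g, h1, h4⟩
    have e1 : r = (nr (XK.of x hx : XK hE hK hV)).v := nr_iff.1 h2
    have e2 : p = (c * nr (XK.of x hx : XK hE hK hV)).v := by
      rw [e1] at h3
      exact RK.mul_iff.1 h3
    have e3 : d = (|(RK.of q hq : RK hE hK)|).v := RK.isAbs_iff.1 h5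
    rw [e2, e3]
    exact not_lt.2 h6

end

section

variable {B : Type} [CompleteBooleanAlgebra B] {b : B} {K : OF (BSet B)} {V : NS (BSet B)}
  {hK : ∀ F : Pt b, IsReals (In F) (nmK F K)}

/-- the vectors of the quotient model -/
abbrev XF (hK : ∀ F : Pt b, IsReals (In F) (nmK F K))
    (hV : ∀ F : Pt b, IsNormed (In F) (nmK F K) (nmV F V)) (F : Pt b) : Type 1 :=
  XK (BVM.zfc F.1) (hK F) (hV F)

variable {hV : ∀ F : Pt b, IsNormed (In F) (nmK F K) (nmV F V)}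

/-- families of vectors with a name -/
def NmX (x : ∀ F : Pt b, XF hK hV F) : Prop := ∃ y, ∀ F, nm F y = (x F).v

theorem NmX.zero : NmX fun F => (0 : XF hK hV F) := ⟨V.zero, fun _ => rfl⟩

theorem RpP.allX {Q : ∀ F : Pt b, XF hK hV F → Prop}
    (h : ∀ x, NmX x → RpP fun F => Q F (x F)) : RpP fun F => ∀ x, Q F x :=
  RpP.allE (S := V.X) (x0 := fun F => (0 : XF hK hV F)) NmX.zero h

theorem RpP.exX {Q : ∀ F : Pt b, XF hK hV F → Prop}
    (h : ∀ x, NmX x → RpP fun F => Q F (x F)) : RpP fun F => ∃ x, Q F x :=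
  RpP.exE (S := V.X) (x0 := fun F => (0 : XF hK hV F)) NmX.zero h

theorem exists_nmX {Q : ∀ F : Pt b, XF hK hV F → Prop}
    (h : ∀ x, NmX x → RpP fun F => Q F (x F)) (hex : ∀ F, ∃ x, Q F x) :
    ∃ x : ∀ F : Pt b, XF hK hV F, NmX x ∧ ∀ F, Q F (x F) :=
  exists_nmE (S := V.X) (x0 := fun F => (0 : XF hK hV F)) NmX.zero h hex

theorem nmX_eq (F : Pt b) (x : XF hK hV F) : ∃ x' : ∀ F : Pt b, XF hK hV F, NmX x' ∧ x' F = x :=
  NmE.exists_eq (S := V.X) (x0 := fun F => (0 : XF hK hV F)) NmX.zero F x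

theorem NmX.congr {x y : ∀ F : Pt b, XF hK hV F} (hx : NmX x) (h : ∀ F, x F = y F) : NmX y := by
  obtain ⟨x', hx'⟩ := hx
  exact ⟨x', fun F => (hx' F).trans (by rw [h])⟩

theorem NmX.add {x y : ∀ F : Pt b, XF hK hV F} (hx : NmX x) (hy : NmX y) :
    NmX fun F => x F + y F := by
  obtain ⟨x', hx'⟩ := hx
  obtain ⟨y', hy'⟩ := hy
  obtain ⟨z, hz⟩ := exists_name (b := b)
    (P := fun F z => Rel2 (In F) (nm F V.add) (nm F x') (nm F y') z)
    (fun z => RpP.rel2 _ _ _ _) (fun F => by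
      rw [hx', hy']
      exact ⟨_, (XK.add_iff (hE := BVM.zfc F.1) (hK := hK F) (hV := hV F)).2 rfl⟩)
  refine ⟨z, fun F => ?_⟩
  have := hz F
  rw [hx', hy'] at this
  exact (XK.add_iff (hE := BVM.zfc F.1) (hK := hK F) (hV := hV F)).1 this

theorem NmX.smul {c : ∀ F : Pt b, KF hK F} {y : ∀ F : Pt b, XF hK hV F} (hx : NmR c)
    (hy : NmX y) : NmX fun F => c F • y F := by
  obtain ⟨x', hx'⟩ := hx
  obtain ⟨y', hy'⟩ := hy
  obtain ⟨z, hz⟩ := exists_name (b := b)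
    (P := fun F z => Rel2 (In F) (nm F V.smul) (nm F x') (nm F y') z)
    (fun z => RpP.rel2 _ _ _ _) (fun F => by
      rw [hx', hy']
      exact ⟨_, (XK.smul_iff (hE := BVM.zfc F.1) (hK := hK F) (hV := hV F)).2 rfl⟩)
  refine ⟨z, fun F => ?_⟩
  have := hz F
  rw [hx', hy'] at this
  exact (XK.smul_iff (hE := BVM.zfc F.1) (hK := hK F) (hV := hV F)).1 this

theorem NmR.nr {y : ∀ F : Pt b, XF hK hV F} (hy : NmX y) : NmR fun F => nr (y F) := by
  obtain ⟨y', hy'⟩ := hy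
  obtain ⟨z, hz⟩ := exists_name (b := b)
    (P := fun F z => BVM.Rel (In F) (nm F V.norm) (nm F y') z)
    (fun z => RpP.rel _ _ _) (fun F => by
      rw [hy']
      exact ⟨_, (nr_iff (hE := BVM.zfc F.1) (hK := hK F) (hV := hV F)).2 rfl⟩)
  refine ⟨z, fun F => ?_⟩
  have := hz F
  rw [hy'] at this
  exact (nr_iff (hE := BVM.zfc F.1) (hK := hK F) (hV := hV F)).1 this

theorem NmX.neg {y : ∀ F : Pt b, XF hK hV F} (hy : NmX y) : NmX fun F => -y F :=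
  (hy.smul NmR.one.neg).congr fun F => neg_one_smul _ _

theorem NmX.sub {x y : ∀ F : Pt b, XF hK hV F} (hx : NmX x) (hy : NmX y) :
    NmX fun F => x F - y F := (hx.add hy.neg).congr fun _ => (sub_eq_add_neg _ _).symm

theorem NmX.sum {ι : Type} (S : Finset ι) {x : ι → ∀ F : Pt b, XF hK hV F}
    (hx : ∀ i, NmX (x i)) : NmX fun F => ∑ i ∈ S, x i F := by
  induction S using Finset.induction_on with
  | empty => exact NmX.zero.congr fun F => Finset.sum_empty.symm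
  | insert i S hi ih => exact ((hx i).add ih).congr fun F => by rw [Finset.sum_insert hi]

theorem RpP.eqX {x y : ∀ F : Pt b, XF hK hV F} (hx : NmX x) (hy : NmX y) :
    RpP fun F => x F = y F := by
  obtain ⟨x', hx'⟩ := hx
  obtain ⟨y', hy'⟩ := hy
  refine (RpP.eq x' y').congr fun F => ?_
  rw [hx', hy', XK.ext_iff]

theorem RpP.inX {x : ∀ F : Pt b, XF hK hV F} (hx : NmX x) (S : BSet B) :
    RpP fun F => In F (x F).v (nm F S) := by
  obtain ⟨x', hx'⟩ := hx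
  exact (RpP.mem x' S).congr fun F => by rw [hx']

theorem RpP.relX {x : ∀ F : Pt b, XF hK hV F} (hx : NmX x) (f g : BSet B) :
    RpP fun F => BVM.Rel (In F) (nm F f) (x F).v (nm F g) := by
  obtain ⟨x', hx'⟩ := hx
  exact (RpP.rel f x' g).congr fun F => by rw [hx']

theorem RpP.relX' {x : ∀ F : Pt b, XF hK hV F} (hx : NmX x) (f g : BSet B) :
    RpP fun F => BVM.Rel (In F) (nm F f) (nm F g) (x F).v := by
  obtain ⟨x', hx'⟩ := hx
  exact (RpP.rel f g x').congr fun F => by rw [hx']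

theorem RpP.opX {x : ∀ F : Pt b, XF hK hV F} (hx : NmX x) (p s : BSet B) :
    RpP fun F => OPair (In F) (nm F p) (x F).v (nm F s) := by
  obtain ⟨x', hx'⟩ := hx
  exact (RpP.opair p x' s).congr fun F => by rw [hx']

theorem RpP.tr (t : BSet B) {x : ∀ F : Pt b, XF hK hV F} (hx : NmX x) (u : BSet B)
    {r : ∀ F : Pt b, KF hK F} (hr : NmR r) : RpP fun F => TR (nm F t) (x F) (nm F u) (r F) := by
  unfold TR
  exact RpP.ex fun g => (RpP.relX hx _ _).and (RpP.relR _ _ hr)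

/-- separation for real numbers, in the quotient model -/
theorem exists_setR {P : ∀ F : Pt b, KF hK F → Prop}
    (hP : ∀ x, NmR x → RpP fun F => P F (x F)) : ∃ s : BSet B, ∀ F : Pt b,
      (∀ z, In F z (nm F s) → In F z (nm F K.R)) ∧
      ∀ x : KF hK F, In F x.v (nm F s) ↔ P F x := by
  obtain ⟨s, hs⟩ := exists_sep (b := b) K.R (P := fun F z => ∀ x : KF hK F, x.v = z → P F x)
    (fun y => RpP.allR fun x hx => by
      obtain ⟨x', hx'⟩ := hx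
      exact ((RpP.eq x' y).congr fun F => by rw [hx']).imp (hP x ⟨x', hx'⟩))
  refine ⟨s, fun F => ⟨fun z hz => ((hs F z).1 hz).1, fun x => ?_⟩⟩
  rw [hs]
  constructor
  · rintro ⟨_, h⟩
    exact h x rfl
  · intro h
    refine ⟨x.mem, fun x' hx' => ?_⟩
    rw [RK.ext hx']
    exact h

/-- least upper bounds -/
theorem exists_supR {P : ∀ F : Pt b, KF hK F → Prop}
    (hP : ∀ x, NmR x → RpP fun F => P F (x F)) (F : Pt b) (h1 : ∃ x, P F x)
    (h2 : ∃ y, ∀ x, P F x → x ≤ y) :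
    ∃ y, (∀ x, P F x → x ≤ y) ∧ ∀ y', (∀ x, P F x → x ≤ y') → y ≤ y' := by
  obtain ⟨s, hs⟩ := exists_setR hP
  obtain ⟨x, hx⟩ := h1
  obtain ⟨y, hy⟩ := h2
  obtain ⟨m, h3, h4⟩ := RK.exists_sup (hE := BVM.zfc F.1) (hK := hK F) (nm F s) (hs F).1
    ⟨x.v, ((hs F).2 x).2 hx⟩ ⟨y, fun x hx => hy x (((hs F).2 x).1 hx)⟩
  exact ⟨m, fun x hx => h3 x (((hs F).2 x).2 hx), fun y' hy' => h4 y' fun x hx =>
    hy' x (((hs F).2 x).1 hx)⟩

/-- the norm of the operator -/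
theorem exists_c0 {Z Y t : BSet B}
    (hO : ∀ F : Pt b, IsOp (In F) (nmK F K) (nmV F V) (nm F Z) (nm F Y) (nm F t))
    (hY : ∀ F : Pt b, IsSubspace (In F) (nmK F K) (nmV F V) (nm F Y))
    (hbd : ∀ F : Pt b, ∃ c, In F c (nm F K.R) ∧ Bound (In F) (nmK F K) (nmV F V) (nm F t) c) :
    ∃ c₀ : ∀ F : Pt b, KF hK F, NmR c₀ ∧ ∀ F, 0 ≤ c₀ F ∧
      (∀ (x : XF hK hV F) (u : Md F) (r : KF hK F), TR (nm F t) x u r → |r| ≤ c₀ F * nr x) ∧
      ∀ c : KF hK F, 0 ≤ c → (∀ (x : XF hK hV F) (u : Md F) (r : KF hK F),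
        TR (nm F t) x u r → |r| ≤ c * nr x) → c₀ F ≤ c := by
  have hBd : ∀ {c : ∀ F : Pt b, KF hK F}, NmR c → RpP fun F : Pt b => ∀ (x : XF hK hV F) (u : Md F)
      (r : KF hK F), TR (nm F t) x u r → |r| ≤ c F * nr x := fun hc =>
    RpP.allX fun x hx => RpP.all fun u => RpP.allR fun r hr =>
      (RpP.tr _ hx _ hr).imp (RpP.leR hr.abs (hc.mul (NmR.nr hx)))
  refine exists_nmR (Q := fun F c₀ => 0 ≤ c₀ ∧
      (∀ (x : XF hK hV F) (u : Md F) (r : KF hK F), TR (nm F t) x u r → |r| ≤ c₀ * nr x) ∧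
      ∀ c : KF hK F, 0 ≤ c → (∀ (x : XF hK hV F) (u : Md F) (r : KF hK F),
        TR (nm F t) x u r → |r| ≤ c * nr x) → c₀ ≤ c) (fun c₀ hc₀ => (RpP.leR NmR.zero hc₀).and ((hBd hc₀).and
    (RpP.allR fun c hc => (RpP.leR NmR.zero hc).imp ((hBd hc).imp (RpP.leR hc₀ hc)))))
    fun F => ?_
  obtain ⟨c₁, hc₁, hb₁⟩ := hbd F
  have hb₁ := (bound_iff (hE := BVM.zfc F.1) (hK := hK F) (hV := hV F) (hO F) (hY F).sub
    (RK.of c₁ hc₁)).1 hb₁
  have hb₂ : ∀ (x : XF hK hV F) (u : Md F) (r : KF hK F), TR (nm F t) x u r →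
      |r| ≤ |(RK.of c₁ hc₁ : KF hK F)| * nr x := fun x u r h =>
    (hb₁ x u r h).trans (mul_le_mul_of_nonneg_right (le_abs_self _) (nr_nonneg x))
  obtain ⟨s, hs1, hs2⟩ := exists_supR (hK := hK) (P := fun F a => ∀ c : KF hK F, 0 ≤ c →
      (∀ (x : XF hK hV F) (u : Md F) (r : KF hK F), TR (nm F t) x u r → |r| ≤ c * nr x) → a ≤ c)
    (fun a ha => RpP.allR fun c hc => (RpP.leR NmR.zero hc).imp ((hBd hc).imp (RpP.leR ha hc)))
    F ⟨0, fun c hc _ => hc⟩ ⟨_, fun x hx => hx _ (abs_nonneg _) hb₂⟩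
  refine ⟨s, hs1 0 fun c hc _ => hc, fun x u r h => ?_, fun c hc hc' => hs2 c fun a ha =>
    ha c hc hc'⟩
  by_cases hx : x = 0
  · have := hb₂ x u r h
    rw [hx, nr_zero, mul_zero] at this ⊢
    exact this
  · have h1 := nr_pos hx
    rw [← div_le_iff₀ h1]
    refine hs1 _ fun c hc hc' => ?_
    rw [div_le_iff₀ h1]
    exact hc' x u r h

end

end Pool.Agent.MAx
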